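import Mathlib

/-!
Topological tools: complete metrics, the Baire argument in the space of continuous maps.
-/

namespace Pool.Agent.Lib.MP_cd3a7b_ag

open Metric Set Filter Topology TopologicalSpace

theorem completelyMetrizable (X : Type*) [TopologicalSpace X] [T2Space X] [LocallyCompactSpace X]
    [SecondCountableTopology X] : IsCompletelyMetrizableSpace X := by
  let := metrizableSpaceMetric X
  let ι : X → UniformSpace.Completion X := (↑)
  have hι : IsEmbedding ι := (UniformSpace.Completion.isUniformEmbedding_coe X).isEmbedding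
  have hd : DenseRange ι := UniformSpace.Completion.denseRange_coe
  have ho : IsOpen (range ι) := by
    rw [isOpen_iff_mem_nhds]
    rintro _ ⟨x, rfl⟩
    obtain ⟨K, hK, hx⟩ := exists_compact_mem_nhds x
    rw [hι.nhds_eq_comap, mem_comap] at hx
    obtain ⟨W, hW, hWK⟩ := hx
    obtain ⟨W', h1, h2, h3⟩ := _root_.mem_nhds_iff.1 hW
    refine mem_of_superset (h2.mem_nhds h3) ?_
    refine (hd.open_subset_closure_inter h2).trans ?_
    refine (closure_minimal ?_ (hK.image hι.continuous).isClosed).trans (image_subset_range _ _)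
    rintro _ ⟨hy, y, rfl⟩
    exact ⟨y, hWK (h1 hy), rfl⟩
  have := ho.polishSpace
  exact hι.toHomeomorph.isClosedEmbedding.IsCompletelyMetrizableSpace

theorem completelyMetrizable_map (X : Type*) [TopologicalSpace X] [IsCompletelyMetrizableSpace X] :
    IsCompletelyMetrizableSpace C(ℂ, X) := by
  let := upgradeIsCompletelyMetrizable X
  infer_instance

theorem baire_closure {Y ι : Type*} [TopologicalSpace Y] [IsCompletelyMetrizableSpace Y]
    [Countable ι] {A : Set Y} {C : ι → Set Y} (ho : ∀ i, IsOpen (C i))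
    (hd : ∀ i, A ⊆ closure (A ∩ C i)) : A ⊆ closure (closure A ∩ ⋂ i, C i) := by
  have := (isClosed_closure (s := A)).isCompletelyMetrizableSpace
  have h1 : Dense (⋂ i, ((↑) : closure A → Y) ⁻¹' C i) := by
    refine dense_iInter_of_isOpen (fun i => (ho i).preimage continuous_subtype_val) fun i => ?_
    rw [Subtype.dense_iff, Subtype.image_preimage_coe]
    exact closure_minimal ((hd i).trans (closure_mono (inter_subset_inter_left _ subset_closure)))
      isClosed_closure
  rw [← preimage_iInter, Subtype.dense_iff, Subtype.image_preimage_coe] at h1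
  exact subset_closure.trans h1

/-- From small discs to compact sets. -/
theorem dense_of_local {X : Type*} [TopologicalSpace X] {A : Set C(ℂ, X)} {W : Set X}
    (hW : IsOpen W)
    (h : ∀ f ∈ A, ∀ a : ℂ, ∃ D ∈ 𝓝 a, IsCompact D ∧
      ∀ᶠ g in 𝓝 f, g ∈ A → g ∈ closure (A ∩ {g | MapsTo g D W}))
    {K : Set ℂ} (hK : IsCompact K) : A ⊆ closure (A ∩ {g | MapsTo g K W}) := by
  intro f hf
  have key : ∃ C : Set C(ℂ, X), IsOpen C ∧ (∀ g ∈ C, MapsTo g K W) ∧
      ∀ᶠ g in 𝓝 f, g ∈ A → g ∈ closure (A ∩ C) := by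
    refine hK.induction_on (p := fun s => ∃ C : Set C(ℂ, X), IsOpen C ∧ (∀ g ∈ C, MapsTo g s W) ∧
      ∀ᶠ g in 𝓝 f, g ∈ A → g ∈ closure (A ∩ C)) ?_ ?_ ?_ ?_
    · exact ⟨univ, isOpen_univ, fun g _ => mapsTo_empty _ _,
        Eventually.of_forall fun g hg => subset_closure ⟨hg, trivial⟩⟩
    · rintro s t hst ⟨C, h1, h2, h3⟩
      exact ⟨C, h1, fun g hg => (h2 g hg).mono_left hst, h3⟩
    · rintro s t ⟨C, h1, h2, h3⟩ ⟨C', h1', h2', h3'⟩
      refine ⟨C ∩ C', h1.inter h1', fun g hg => (h2 g hg.1).union (h2' g hg.2), ?_⟩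
      filter_upwards [h3, h3'.eventually_nhds] with g hg hg' hgA
      obtain ⟨O, hO, hOo, hgO⟩ := _root_.eventually_nhds_iff.1 hg'
      refine closure_minimal ?_ isClosed_closure (hOo.inter_closure ⟨hgO, hg hgA⟩)
      rintro g' ⟨h4, h5, h6⟩
      refine closure_mono ?_ (h1.inter_closure ⟨h6, hO g' h4 h5⟩)
      exact fun g hg => ⟨hg.2.1, hg.1, hg.2.2⟩
    · intro a _
      obtain ⟨D, hD, hDc, h1⟩ := h f hf a
      exact ⟨D, mem_nhdsWithin_of_mem_nhds hD, _, ContinuousMap.isOpen_setOfPred_mapsTo hDc hW,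
        fun g hg => hg, h1⟩
  obtain ⟨C, -, h2, h3⟩ := key
  exact closure_mono (inter_subset_inter_right _ h2) (h3.self_of_nhds hf)

/-- A family of maps, continuous near the zero section, as a map into the space of maps. -/
theorem exists_curry {X P : Type*} [TopologicalSpace X] [TopologicalSpace P] {S : ℂ × P → X}
    {B : Set P} (hB : IsOpen B) (hS : ∀ t, ∀ p ∈ B, ContinuousAt S (t, p)) (f : C(ℂ, X)) :
    ∃ c : P → C(ℂ, X), (∀ p ∈ B, ContinuousAt c p) ∧ ∀ p ∈ B, ∀ t, c p t = S (t, p) := by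
  classical
  have h1 : Continuous fun y : B × ℂ => S (y.2, y.1) := by
    rw [continuous_iff_continuousAt]
    intro y
    exact ContinuousAt.comp (f := fun y : B × ℂ => (y.2, (y.1 : P))) (hS y.2 y.1 y.1.2)
      (by fun_prop)
  let c0 : C(B, C(ℂ, X)) := ContinuousMap.curry ⟨_, h1⟩
  refine ⟨fun p => if h : p ∈ B then c0 ⟨p, h⟩ else f, fun p hp => ?_, fun p hp t => ?_⟩
  · refine ContinuousOn.continuousAt ?_ (hB.mem_nhds hp)
    rw [continuousOn_iff_continuous_domRestrict]
    convert c0.continuous using 1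
    ext1 q
    exact dif_pos q.2
  · simp only [dif_pos hp]
    rfl

theorem neBot_residual {P : Type*} [TopologicalSpace P] [BaireSpace P] (x : P) :
    (𝓝 x ⊓ residual P).NeBot := by
  refine inf_neBot_iff.2 fun s hs t ht => ?_
  exact mem_closure_iff_nhds.1 (dense_of_mem_residual ht x) s hs

/-- A set that is open and dense in a neighbourhood of `x` is generic near `x`. -/
theorem eventually_generic {P : Type*} [TopologicalSpace P] {G N : Set P} (hN : IsOpen N)
    (ho : ∀ y ∈ N, y ∈ G → ∀ᶠ z in 𝓝 y, z ∈ G) (hd : ∀ y ∈ N, ∃ᶠ z in 𝓝 y, z ∈ G) :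
    ∀ᶠ y in residual P, y ∈ N → y ∈ G := by
  have h1 : IsOpen (N ∩ G) := by
    rw [isOpen_iff_mem_nhds]
    exact fun y hy => inter_mem (hN.mem_nhds hy.1) (ho y hy.1 hy.2)
  refine mem_of_superset (residual_of_dense_open (h1.union isClosed_closure.isOpen_compl)
    (s := N ∩ G ∪ (closure N)ᶜ) fun y => ?_) ?_
  · by_cases hy : y ∈ closure N
    · refine closure_mono subset_union_left (closure_minimal ?_ isClosed_closure hy)
      intro z hz
      exact mem_closure_iff_frequently.2 ((hd z hz).and_eventually (hN.mem_nhds hz) |>.mono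
        fun w hw => ⟨hw.2, hw.1⟩)
    · exact subset_closure (Or.inr hy)
  · rintro y (hy | hy) hyN
    · exact hy.2
    · exact absurd (subset_closure hyN) hy

theorem exists_annulus {T : Set ℝ} (hT : T.Finite) {a b : ℝ} (h : a < b) :
    ∃ r R, a < r ∧ r < R ∧ R < b ∧ ∀ s ∈ T, s < r ∨ R < s := by
  obtain ⟨c, hc, hcT⟩ := (Ioo_infinite h).exists_notMem_finite hT
  have h1 : Ioo a b ∩ Tᶜ ∈ 𝓝 c :=
    inter_mem (isOpen_Ioo.mem_nhds hc) (hT.isClosed.isOpen_compl.mem_nhds hcT)
  obtain ⟨ε, hε, h2⟩ := Metric.nhds_basis_closedBall.mem_iff.1 h1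
  rw [Real.closedBall_eq_Icc] at h2
  refine ⟨c - ε, c + ε, (h2 ⟨le_rfl, by linarith⟩).1.1, by linarith,
    (h2 ⟨by linarith, le_rfl⟩).1.2, fun s hs => ?_⟩
  by_contra hc
  push Not at hc
  exact (h2 hc).2 hs

end Pool.Agent.Lib.MP_cd3a7b_ag
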