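import Mathlib

/-!
The Hausdorff dimension of a product with a line.
-/

namespace Pool.Agent.Lib.MP_cd3a7b_ag

open Metric Set Filter Topology MeasureTheory
open scoped ENNReal NNReal

variable {Y : Type*} [MetricSpace Y]

theorem exists_cover [MeasurableSpace Y] [BorelSpace Y] {A : Set Y} {d : ℝ≥0} (hd : 0 < d)
    (h : μH[d] A = 0) {r : ℝ≥0} (hr : 0 < r) (hr1 : r ≤ 1) :
    ∃ (t : ℕ → Set Y) (δ : ℕ → ℝ≥0), A ⊆ ⋃ i, t i ∧ (∀ i, 0 < δ i ∧ δ i ≤ r ∧ ediam (t i) ≤ δ i) ∧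
      ∑' i, (δ i : ℝ≥0∞) ^ (d : ℝ) ≤ 3 := by
  have hd' : (0 : ℝ) < d := hd
  rw [Measure.hausdorffMeasure_apply] at h
  have h1 : (⨅ (t : ℕ → Set Y) (_ : A ⊆ ⋃ n, t n) (_ : ∀ n, ediam (t n) ≤ (r : ℝ≥0∞)),
      ∑' n, ⨆ _ : (t n).Nonempty, ediam (t n) ^ (d : ℝ)) < 1 := by
    refine lt_of_le_of_lt (le_trans ?_ h.le) zero_lt_one
    exact le_iSup₂_of_le (r : ℝ≥0∞) (by exact_mod_cast hr) le_rfl
  simp only [iInf_lt_iff] at h1
  obtain ⟨t, ht, htr, hs⟩ := h1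
  let b : ℕ → ℝ≥0 := fun i => r * ((2⁻¹ : ℝ≥0) ^ i) ^ (d : ℝ)⁻¹
  have hb1 : ∀ i, ((2⁻¹ : ℝ≥0) ^ i) ^ (d : ℝ)⁻¹ ≤ 1 := fun i =>
    NNReal.rpow_le_one (pow_le_one₀ (by positivity) (by norm_num)) (by positivity)
  have hfin : ∀ i, ediam (t i) ≠ ∞ := fun i => ne_top_of_le_ne_top ENNReal.coe_ne_top (htr i)
  refine ⟨t, fun i => max (ediam (t i)).toNNReal (b i), ht, fun i => ⟨?_, ?_, ?_⟩, ?_⟩
  · exact lt_max_of_lt_right (by positivity)
  · refine max_le ?_ (mul_le_of_le_one_right zero_le (hb1 i))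
    rw [← ENNReal.coe_le_coe, ENNReal.coe_toNNReal (hfin i)]
    exact htr i
  · rw [ENNReal.coe_max, ENNReal.coe_toNNReal (hfin i)]
    exact le_max_left _ _
  · have h2 : ∀ i, ((max (ediam (t i)).toNNReal (b i) : ℝ≥0) : ℝ≥0∞) ^ (d : ℝ)
        ≤ (⨆ _ : (t i).Nonempty, ediam (t i) ^ (d : ℝ)) + (2⁻¹ : ℝ≥0∞) ^ i := by
      intro i
      rcases max_choice (ediam (t i)).toNNReal (b i) with h3 | h3 <;> rw [h3]
      · rw [ENNReal.coe_toNNReal (hfin i)]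
        refine le_trans ?_ le_self_add
        rcases (t i).eq_empty_or_nonempty with h4 | h4
        · simp [h4, hd']
        · simp [h4]
      · refine le_trans ?_ le_add_self
        have h5 : b i ^ (d : ℝ) ≤ (2⁻¹ : ℝ≥0) ^ i := by
          simp only [b]
          rw [NNReal.mul_rpow, NNReal.rpow_inv_rpow hd'.ne']
          exact mul_le_of_le_one_left zero_le (NNReal.rpow_le_one hr1 hd'.le)
        rw [← ENNReal.coe_rpow_of_nonneg _ hd'.le]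
        refine (ENNReal.coe_le_coe.2 h5).trans_eq ?_
        simp [ENNReal.inv_pow]
    refine (ENNReal.tsum_le_tsum h2).trans ?_
    rw [ENNReal.tsum_add, ENNReal.tsum_geometric, ENNReal.one_sub_inv_two, inv_inv]
    calc _ ≤ (1 : ℝ≥0∞) + 2 := by gcongr
      _ = 3 := by norm_num

theorem dimH_Icc_prod {A : Set Y} {d : ℝ≥0} (h : dimH A < d) (c : ℝ) :
    dimH (Icc c (c + 1) ×ˢ A) ≤ (d + 1 : ℝ≥0) := by
  borelize Y
  borelize (ℝ × Y)
  have hd : 0 < d := by exact_mod_cast (zero_le.trans_lt h : (0 : ℝ≥0∞) < d)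
  have hd' : (0 : ℝ) < d := hd
  have h0 := hausdorffMeasure_of_dimH_lt h
  have hr : ∀ n : ℕ, (0 : ℝ≥0) < 1 / ((n : ℝ≥0) + 1) ∧ 1 / ((n : ℝ≥0) + 1) ≤ 1 := fun n =>
    ⟨by positivity, by rw [div_le_one (by positivity)]; simp⟩
  choose t δ h1 h2 h3 using fun n => exists_cover hd h0 (hr n).1 (hr n).2
  apply dimH_le_of_hausdorffMeasure_ne_top
  let P : ∀ n, (Σ i : ℕ, Fin (⌈(δ n i)⁻¹⌉₊ + 1)) → Set (ℝ × Y) := fun n x =>
    Icc (c + (x.2 : ℕ) * (δ n x.1 : ℝ)) (c + ((x.2 : ℕ) + 1) * (δ n x.1 : ℝ)) ×ˢ t n x.1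
  have hP : ∀ n x, ediam (P n x) ≤ δ n x.1 := by
    intro n x
    refine ediam_le fun y hy z hz => ?_
    rw [Prod.edist_eq]
    refine max_le ?_ ((edist_le_ediam_of_mem hy.2 hz.2).trans (h2 n x.1).2.2)
    rw [edist_dist, ← ENNReal.ofReal_coe_nnreal]
    refine ENNReal.ofReal_le_ofReal ?_
    refine (Real.dist_le_of_mem_Icc hy.1 hz.1).trans_eq ?_
    ring
  have key := Measure.hausdorffMeasure_le_liminf_tsum ((d + 1 : ℝ≥0) : ℝ) (Icc c (c + 1) ×ˢ A)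
    (l := atTop) (fun n : ℕ => ((1 / ((n : ℝ≥0) + 1) : ℝ≥0) : ℝ≥0∞)) ?_ P ?_ ?_
  · refine ne_top_of_le_ne_top (b := 9) (by simp) (key.trans ?_)
    refine liminf_le_of_frequently_le' (Eventually.of_forall fun n => ?_).frequently
    rw [ENNReal.tsum_sigma']
    have h4 : ∀ i, ∑' k : Fin (⌈(δ n i)⁻¹⌉₊ + 1), ediam (P n ⟨i, k⟩) ^ ((d + 1 : ℝ≥0) : ℝ)
        ≤ 3 * (δ n i : ℝ≥0∞) ^ (d : ℝ) := by
      intro i
      have hδ := (h2 n i).1
      have hδ1 : δ n i ≤ 1 := (h2 n i).2.1.trans (hr n).2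
      have h5 : ((⌈(δ n i)⁻¹⌉₊ + 1 : ℕ) : ℝ≥0) * δ n i ≤ 3 := by
        have := (Nat.ceil_lt_add_one (zero_le : 0 ≤ (δ n i)⁻¹)).le
        push_cast
        calc ((⌈(δ n i)⁻¹⌉₊ : ℝ≥0) + 1) * δ n i ≤ ((δ n i)⁻¹ + 1 + 1) * δ n i := by gcongr
          _ = 1 + δ n i + δ n i := by field_simp
          _ ≤ 1 + 1 + 1 := by gcongr
          _ = 3 := by norm_num
      calc _ ≤ ∑' _ : Fin (⌈(δ n i)⁻¹⌉₊ + 1), (δ n i : ℝ≥0∞) ^ ((d + 1 : ℝ≥0) : ℝ) :=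
            ENNReal.tsum_le_tsum fun k => ENNReal.rpow_le_rpow (hP n ⟨i, k⟩) (by positivity)
        _ = (((⌈(δ n i)⁻¹⌉₊ + 1 : ℕ) : ℝ≥0) * δ n i : ℝ≥0) * (δ n i : ℝ≥0∞) ^ (d : ℝ) := by
            rw [tsum_fintype, Finset.sum_const, Finset.card_univ, Fintype.card_fin, nsmul_eq_mul,
              NNReal.coe_add, NNReal.coe_one, ENNReal.rpow_add_of_nonneg _ _ hd'.le zero_le_one,
              ENNReal.rpow_one]
            push_cast
            ring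
        _ ≤ 3 * (δ n i : ℝ≥0∞) ^ (d : ℝ) := by
            gcongr
            exact_mod_cast h5
    refine (ENNReal.tsum_le_tsum h4).trans ?_
    rw [ENNReal.tsum_mul_left]
    calc _ ≤ (3 : ℝ≥0∞) * 3 := by gcongr; exact h3 n
      _ = 9 := by norm_num
  · rw [← ENNReal.coe_zero, ENNReal.tendsto_coe]
    exact tendsto_one_div_add_atTop_nhds_zero_nat
  · exact Eventually.of_forall fun n x => (hP n x).trans (by exact_mod_cast (h2 n x.1).2.1)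
  · refine Eventually.of_forall fun n => ?_
    rintro ⟨x, y⟩ ⟨hx, hy⟩
    obtain ⟨i, hi⟩ := mem_iUnion.1 (h1 n hy)
    have hδ : (0 : ℝ) < δ n i := (h2 n i).1
    have hx0 : 0 ≤ (x - c) / δ n i := div_nonneg (by linarith [hx.1]) hδ.le
    have hk : ⌊(x - c) / δ n i⌋₊ < ⌈(δ n i)⁻¹⌉₊ + 1 := by
      refine Nat.lt_succ_of_le ?_
      have h6 : (x - c) / δ n i ≤ (⌈(δ n i)⁻¹⌉₊ : ℝ) := by
        have h7 : (((δ n i)⁻¹ : ℝ≥0) : ℝ) ≤ (⌈(δ n i)⁻¹⌉₊ : ℝ) := by exact_mod_cast Nat.le_ceil _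
        refine le_trans ?_ h7
        rw [NNReal.coe_inv, div_eq_mul_inv]
        exact mul_le_of_le_one_left (by positivity) (by linarith [hx.2])
      exact Nat.floor_le_of_le h6
    refine mem_iUnion.2 ⟨⟨i, ⟨_, hk⟩⟩, ⟨?_, ?_⟩, hi⟩
    · have := Nat.floor_le hx0
      rw [le_div_iff₀ hδ] at this
      simp only
      linarith
    · have := (Nat.lt_floor_add_one ((x - c) / δ n i)).le
      rw [div_le_iff₀ hδ] at this
      simp only
      linarith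

theorem dimH_real_prod (A : Set Y) : dimH ((univ : Set ℝ) ×ˢ A) ≤ dimH A + 1 := by
  by_contra hlt
  obtain ⟨e, he1, he2⟩ := ENNReal.lt_iff_exists_nnreal_btwn.1 (not_le.1 hlt)
  have h1 : (1 : ℝ≥0) ≤ e := by exact_mod_cast (le_add_self.trans he1.le : (1 : ℝ≥0∞) ≤ e)
  obtain ⟨d, rfl⟩ := exists_add_of_le h1
  have h2 : dimH A < d := by
    rw [add_comm (1 : ℝ≥0), ENNReal.coe_add, ENNReal.coe_one] at he1
    exact lt_of_add_lt_add_right he1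
  have h3 : (univ : Set ℝ) ×ˢ A = ⋃ j : ℤ, Icc (j : ℝ) (j + 1) ×ˢ A := by
    rw [← iUnion_prod_const, iUnion_Icc_intCast]
  rw [h3, dimH_iUnion, add_comm] at he2
  exact absurd (iSup_le fun j : ℤ => dimH_Icc_prod h2 (j : ℝ)) (not_le.2 he2)

theorem dimH_complex_prod {E : Type*} [NormedAddCommGroup E] [NormedSpace ℝ E] (A : Set E) :
    dimH ((univ : Set ℂ) ×ˢ A) ≤ dimH A + 2 := by
  let L : (ℝ × ℝ × E) →L[ℝ] ℂ × E :=
    (Complex.equivRealProdCLM.symm.toContinuousLinearMap.comp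
      ((ContinuousLinearMap.fst ℝ _ _).prod
        ((ContinuousLinearMap.fst ℝ _ _).comp (ContinuousLinearMap.snd ℝ _ _)))).prod
      ((ContinuousLinearMap.snd ℝ _ _).comp (ContinuousLinearMap.snd ℝ _ _))
  have h1 : (univ : Set ℂ) ×ˢ A ⊆ L '' ((univ : Set ℝ) ×ˢ ((univ : Set ℝ) ×ˢ A)) := by
    rintro ⟨z, y⟩ ⟨-, hy⟩
    refine ⟨(z.re, z.im, y), ⟨trivial, trivial, hy⟩, Prod.ext ?_ rfl⟩
    exact Complex.equivRealProdCLM.symm_apply_apply z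
  refine (dimH_mono h1).trans ((L.lipschitz.dimH_image_le _).trans ((dimH_real_prod _).trans ?_))
  calc _ ≤ dimH A + 1 + 1 := by gcongr; exact dimH_real_prod A
    _ = dimH A + 2 := by rw [add_assoc, one_add_one_eq_two]

end Pool.Agent.Lib.MP_cd3a7b_ag
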