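import Pool.Agent.Lib.MP_cd3a7b_ag.Chart
import Pool.Agent.Lib.MP_cd3a7b_ag.Baire
import Pool.Agent.Lib.MP_cd3a7b_ag.DimProd

/-!
A generic member of a submersive family avoids a small closed set.
-/

namespace Pool.Agent.Lib.MP_cd3a7b_ag

open Metric Set Filter Topology
open scoped Manifold NNReal ENNReal

theorem dimH_le_of_anti {α β : Type*} [MetricSpace α] [MetricSpace β] {B : Set α} {T : Set β}
    (r : B → β) (hr : ∀ w, r w ∈ T) {K : ℝ≥0} (h : ∀ w w', dist w w' ≤ K * dist (r w) (r w')) :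
    dimH B ≤ dimH T := by
  have h1 := (AntilipschitzWith.of_le_mul_dist h).le_dimH_image univ
  rw [← isometry_subtype_coe.dimH_image, Subtype.coe_image_univ] at h1
  exact h1.trans (dimH_mono (image_subset_iff.2 fun w _ => hr w))

variable {E : Type*} [NormedAddCommGroup E] [NormedSpace ℂ E] [FiniteDimensional ℂ E]
  {P : Type*} [NormedAddCommGroup P] [NormedSpace ℂ P]

theorem frequently_avoid {G : ℂ × P → E} {D : ℂ × P →L[ℂ] E} {l : E →L[ℂ] P}
    (hl : ∀ w, D (0, l w) = w) {s : Set (ℂ × P)} {c : ℝ≥0} (hc : c * ‖l‖ ≤ 1 / 2)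
    (hG : ApproximatesLinearOn G D s c) {A : Set E} (hA : dimH A + 2 < 2 * Module.finrank ℂ E)
    (p : P) : ∃ᶠ q in 𝓝 p, ∀ t, (t, q) ∈ s → G (t, q) ∉ A := by
  let B : Set E := {w | ∃ t, (t, p + l w) ∈ s ∧ G (t, p + l w) ∈ A}
  choose τ h1 h2 using fun w : B => w.2
  have hB : dimH B ≤ dimH ((univ : Set ℂ) ×ˢ A) := by
    refine dimH_le_of_anti (fun w => (τ w, G (τ w, p + l w))) (fun w => ⟨trivial, h2 w⟩)
      (K := 2 * (1 + ‖D‖₊ + c)) fun w w' => ?_
    have k1 := hG _ (h1 w) _ (h1 w')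
    have e1 : ((τ w, p + l w) : ℂ × P) - (τ w', p + l w')
        = (τ w - τ w', 0) + (0, l (w.1 - w'.1)) := by simp
    have k2 : ‖((τ w - τ w', 0) : ℂ × P)‖ = ‖τ w - τ w'‖ := by simp
    have k3 : ‖((0, l (w.1 - w'.1)) : ℂ × P)‖ ≤ ‖l‖ * ‖w.1 - w'.1‖ := by
      simpa using l.le_opNorm (w.1 - w'.1)
    have k4 := D.le_opNorm (τ w - τ w', 0)
    have k5 := norm_add_le ((τ w - τ w', 0) : ℂ × P) (0, l (w.1 - w'.1))
    rw [e1, map_add, hl] at k1
    rw [k2] at k4 k5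
    set d := dist (τ w, G (τ w, p + l w)) (τ w', G (τ w', p + l w')) with hd
    have k6 : ‖τ w - τ w'‖ ≤ d := by
      rw [hd, Prod.dist_eq, ← dist_eq_norm]; exact le_max_left _ _
    have k7 : ‖G (τ w, p + l w) - G (τ w', p + l w')‖ ≤ d := by
      rw [hd, Prod.dist_eq, ← dist_eq_norm]; exact le_max_right _ _
    have k8 : ‖w.1 - w'.1‖ ≤ ‖G (τ w, p + l w) - G (τ w', p + l w')‖ + ‖D (τ w - τ w', 0)‖ +
        ‖G (τ w, p + l w) - G (τ w', p + l w') - (D (τ w - τ w', 0) + (w.1 - w'.1))‖ := by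
      refine le_trans (le_of_eq ?_) ((norm_sub_le _ _).trans (add_le_add_left (norm_sub_le _ _) _))
      congr 1
      abel
    have k9 : (c : ℝ) * ‖((τ w - τ w', 0) : ℂ × P) + (0, l (w.1 - w'.1))‖
        ≤ c * d + 1 / 2 * ‖w.1 - w'.1‖ := by
      calc _ ≤ (c : ℝ) * (d + ‖l‖ * ‖w.1 - w'.1‖) := by gcongr; linarith
        _ = c * d + c * ‖l‖ * ‖w.1 - w'.1‖ := by ring
        _ ≤ _ := by gcongr
    have k10 : ‖D‖ * ‖τ w - τ w'‖ ≤ ‖D‖ * d := by gcongr
    rw [Subtype.dist_eq, dist_eq_norm]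
    push_cast
    linarith
  have hB' : dimH B < Module.finrank ℝ E := by
    rw [finrank_real_of_complex]
    exact (hB.trans (dimH_complex_prod A)).trans_lt (by exact_mod_cast hA)
  have hL : Tendsto (fun w : E => p + l w) (𝓝 0) (𝓝 p) := by
    simpa using (by fun_prop : Continuous fun q : E => p + l q).tendsto 0
  refine hL.frequently ((mem_closure_iff_frequently.1 (dense_compl_of_dimH_lt_finrank hB' 0)).mono
    fun w hw t h3 h4 => hw ⟨t, h3, h4⟩)

variable {X : Type*} [TopologicalSpace X] [ChartedSpace E X] [IsManifold 𝓘(ℂ, E) 1 X]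

theorem avoid {S : ℂ × P → X} (h : Spray E S) {Z : Set X} (hZ : IsClosed Z)
    (hd : ∀ x : X, dimH (chartAt E x '' (Z ∩ (chartAt E x).source)) + 2 < 2 * Module.finrank ℂ E)
    {K : Set ℂ} (hK : IsCompact K) (hs : ∀ t ∈ K, Sbm E (fun q => S (t, q)) 0) :
    ∀ᶠ p in 𝓝 (0 : P) ⊓ residual P, ∀ t ∈ K, S (t, p) ∉ Z := by
  refine hK.induction_on (p := fun s => ∀ᶠ p in 𝓝 (0 : P) ⊓ residual P, ∀ t ∈ s, S (t, p) ∉ Z)
    (by simp) (fun s t hst h1 => h1.mono fun p hp y hy => hp y (hst hy))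
    (fun s t h1 h2 => (h1.and h2).mono fun p hp y hy => hy.elim (hp.1 y) (hp.2 y)) fun a ha => ?_
  have hx := mem_chart_source E (S (a, 0))
  set x := S (a, 0)
  have h1 := h.chart hx
  have h2 := h1.mono fun y hy => hy.2
  have h3 := (sbm_iff (h.self_of_nhds a).slice hx).1 (hs a ha)
  rw [fderiv_slice h2.self_of_nhds] at h3
  obtain ⟨l, hl⟩ := ContinuousLinearMap.exists_rightInverse_of_surjective _
    (LinearMap.range_eq_top.2 h3)
  have hc : (0 : ℝ≥0) < (2 * (‖l‖₊ + 1))⁻¹ := by positivity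
  obtain ⟨s, hs1, hs2⟩ :=
    ((contDiffAt_one h2).hasStrictFDerivAt one_ne_zero).approximates_deriv_on_nhds (Or.inr hc)
  obtain ⟨δ, hδ, hδ'⟩ := Metric.nhds_basis_closedBall.eventually_iff.1
    ((h1.and (h.eventually a)).and hs1)
  rw [← closedBall_prod_same] at hδ'
  refine ⟨closedBall a δ, mem_nhdsWithin_of_mem_nhds (closedBall_mem_nhds a hδ), ?_⟩
  have key := eventually_generic (G := {p : P | ∀ t ∈ closedBall a δ, S (t, p) ∉ Z})
    (isOpen_ball (x := (0 : P)) (ε := δ)) (fun p hp hp' => tube (isCompact_closedBall a δ)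
      hZ.isOpen_compl (fun t ht => (hδ' (x := (t, p))
        ⟨ht, ball_subset_closedBall hp⟩).1.2.continuousAt) hp') fun p hp => ?_
  · filter_upwards [mem_inf_of_left (ball_mem_nhds (0 : P) hδ), mem_inf_of_right key] with p k1 k2
    exact k2 k1
  · have k1 := frequently_avoid (l := l) (fun w => congrArg (fun A : E →L[ℂ] E => A w) hl) (by
      push_cast
      rw [inv_mul_le_iff₀ (by positivity)]
      linarith) hs2 (hd x) p
    refine (k1.and_eventually (isOpen_ball.mem_nhds hp)).mono fun q hq t ht hz => ?_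
    have k2 := hδ' (x := (t, q)) ⟨ht, ball_subset_closedBall hq.2⟩
    exact hq.1 t k2.2 ⟨_, ⟨hz, k2.1.1.1⟩, rfl⟩

end Pool.Agent.Lib.MP_cd3a7b_ag
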