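import Mathlib

/-!
Cauchy estimates for complex differentiable maps between normed spaces.
-/

namespace Pool.Agent.Lib.MP_cd3a7b_ag

open Metric Set Filter Topology

variable {V F : Type*} [NormedAddCommGroup V] [NormedSpace ℂ V]
  [NormedAddCommGroup F] [NormedSpace ℂ F]

omit [NormedSpace ℂ V] [NormedSpace ℂ F] in
theorem mapsTo_two {f : V → F} {c : V} {R C : ℝ} (hR : 0 < R) (hb : ∀ z ∈ ball c R, ‖f z‖ ≤ C) :
    MapsTo f (ball c R) (closedBall (f c) (2 * C)) := by
  intro z hz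
  rw [mem_closedBall, dist_eq_norm]
  have := norm_sub_le (f z) (f c)
  linarith [hb z hz, hb c (mem_ball_self hR)]

theorem norm_fderiv_le {f : V → F} {c : V} {R C : ℝ} (hR : 0 < R)
    (hd : DifferentiableOn ℂ f (ball c R)) (hb : ∀ z ∈ ball c R, ‖f z‖ ≤ C) :
    ‖fderiv ℂ f c‖ ≤ 2 * C / R :=
  Complex.norm_fderiv_le_div_of_mapsTo_ball hd (mapsTo_two hR hb) hR

theorem norm_sub_le_of_bound {f : V → F} {c z : V} {R C : ℝ}
    (hd : DifferentiableOn ℂ f (ball c R)) (hb : ∀ z ∈ ball c R, ‖f z‖ ≤ C) (hz : z ∈ ball c R) :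
    ‖f z - f c‖ ≤ 2 * C / R * ‖z - c‖ := by
  have hR : 0 < R := nonempty_ball.mp ⟨_, hz⟩
  simpa [dist_eq_norm] using Complex.dist_le_div_mul_dist_of_mapsTo_ball hd (mapsTo_two hR hb) hz

theorem taylor2 {f : V → F} {c z : V} {R C : ℝ}
    (hd : DifferentiableOn ℂ f (ball c R)) (hb : ∀ z ∈ ball c R, ‖f z‖ ≤ C) (hz : z ∈ ball c R) :
    ‖f z - f c - fderiv ℂ f c (z - c)‖ ≤ 4 * C * (‖z - c‖ / R) ^ 2 := by
  have hR : 0 < R := nonempty_ball.mp ⟨_, hz⟩
  have hD := norm_fderiv_le hR hd hb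
  have hdc : HasFDerivAt f (fderiv ℂ f c) c :=
    (hd.differentiableAt (ball_mem_nhds c hR)).hasFDerivAt
  set g : V → F := fun w => f w - fderiv ℂ f c (w - c) with hg
  have hgc : g c = f c := by simp [hg]
  have h1 : DifferentiableOn ℂ g (ball c R) := by
    apply hd.sub
    fun_prop
  have h2 : MapsTo g (ball c R) (closedBall (g c) (4 * C)) := by
    intro w hw
    rw [mem_closedBall, dist_eq_norm, hgc]
    have e : g w - f c = (f w - f c) - fderiv ℂ f c (w - c) := by simp only [hg]; abel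
    have a1 := mapsTo_two hR hb hw
    rw [mem_closedBall, dist_eq_norm] at a1
    have a2 : ‖fderiv ℂ f c (w - c)‖ ≤ 2 * C := by
      refine ((fderiv ℂ f c).le_opNorm _).trans ?_
      have hw' : ‖w - c‖ ≤ R := by rw [← dist_eq_norm]; exact (mem_ball.1 hw).le
      have hC : 0 ≤ C := (norm_nonneg _).trans (hb c (mem_ball_self hR))
      calc _ ≤ (2 * C / R) * R := by gcongr
        _ = 2 * C := by field_simp
    rw [e]
    linarith [norm_sub_le (f w - f c) (fderiv ℂ f c (w - c))]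
  have h3 : (g · - g c) =o[𝓝 c] (fun w => ‖w - c‖ ^ 1) := by
    have := hdc.isLittleO
    simp only [pow_one, Asymptotics.isLittleO_norm_right]
    refine this.congr_left fun w => ?_
    simp only [hg, sub_self, map_zero]; abel
  have := Complex.dist_le_mul_div_pow_of_mapsTo_ball_of_isLittleO h1 h2 h3 hz
  rw [dist_eq_norm, dist_eq_norm, hgc] at this
  have e : g z - f c = f z - f c - fderiv ℂ f c (z - c) := by simp only [hg]; abel
  rwa [e] at this

theorem exists_ball_bound {f : V → F} {x : V} (h : ∀ᶠ y in 𝓝 x, DifferentiableAt ℂ f y) :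
    ∃ r > 0, ∃ C, DifferentiableOn ℂ f (ball x r) ∧ ∀ z ∈ ball x r, ‖f z‖ ≤ C := by
  have h1 : ∀ᶠ y in 𝓝 x, ‖f y‖ < ‖f x‖ + 1 :=
    h.self_of_nhds.continuousAt.norm.eventually (gt_mem_nhds (by linarith))
  obtain ⟨r, hr, hb⟩ := Metric.eventually_nhds_iff_ball.1 (h.and h1)
  exact ⟨r, hr, _, fun z hz => (hb z hz).1.differentiableWithinAt, fun z hz => (hb z hz).2.le⟩

/-- A map which is complex differentiable near a point is `C^1` there. -/
theorem contDiffAt_one {f : V → F} {x : V} (h : ∀ᶠ y in 𝓝 x, DifferentiableAt ℂ f y) :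
    ContDiffAt ℂ 1 f x := by
  obtain ⟨r3, hr3, C, hd, hb⟩ := exists_ball_bound h
  set r := r3 / 3 with hr
  have hr0 : 0 < r := by positivity
  have hC : 0 ≤ C := (norm_nonneg _).trans (hb x (mem_ball_self hr3))
  have hda : ∀ z ∈ ball x r3, DifferentiableAt ℂ f z := fun z hz =>
    hd.differentiableAt (isOpen_ball.mem_nhds hz)
  have hsub : ∀ y ∈ ball x (2 * r), ball y r ⊆ ball x r3 := fun y hy =>
    ball_subset_ball' (by rw [mem_ball] at hy; linarith)
  have hadd : ∀ y ∈ ball x r, ∀ z ∈ ball (0 : V) r, y + z ∈ ball x (2 * r) := by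
    intro y hy z hz
    rw [mem_ball, dist_eq_norm] at hy ⊢
    rw [mem_ball_zero_iff] at hz
    have : y + z - x = (y - x) + z := by abel
    rw [this]
    linarith [norm_add_le (y - x) z]
  have h23 : ball x (2 * r) ⊆ ball x r3 := ball_subset_ball (by linarith)
  have h13 : ball x r ⊆ ball x r3 := ball_subset_ball (by linarith)
  rw [contDiffAt_one_iff]
  refine ⟨fderiv ℂ f, ball x r, ball_mem_nhds x hr0, ?_, fun y hy => (hda y (h13 hy)).hasFDerivAt⟩
  have key : ∀ y ∈ ball x r, ∀ y' ∈ ball x r, ‖y' - y‖ < r →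
      ‖fderiv ℂ f y' - fderiv ℂ f y‖ ≤ (2 * (2 * C / r) / r) * ‖y' - y‖ := by
    intro y hy y' hy' hyy
    have e1 : HasFDerivAt (fun z => f (y' + z) - f (y + z)) (fderiv ℂ f y' - fderiv ℂ f y) 0 := by
      apply HasFDerivAt.sub
      · have := (hda y' (h13 hy')).hasFDerivAt
        exact (hasFDerivAt_comp_add_left y').2 (by simpa using this)
      · have := (hda y (h13 hy)).hasFDerivAt
        exact (hasFDerivAt_comp_add_left y).2 (by simpa using this)
    rw [← e1.fderiv]
    have e2 : DifferentiableOn ℂ (fun z => f (y' + z) - f (y + z)) (ball 0 r) := by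
      intro z hz
      apply DifferentiableAt.differentiableWithinAt
      apply DifferentiableAt.sub
      · exact (hda _ (h23 (hadd y' hy' z hz))).comp z (by fun_prop)
      · exact (hda _ (h23 (hadd y hy z hz))).comp z (by fun_prop)
    have e3 : ∀ z ∈ ball (0 : V) r, ‖f (y' + z) - f (y + z)‖ ≤ 2 * C / r * ‖y' - y‖ := by
      intro z hz
      have hs := hsub _ (hadd y hy z hz)
      have := norm_sub_le_of_bound (z := y' + z) (hd.mono hs) (fun w hw => hb w (hs hw))
        (by rw [mem_ball, dist_eq_norm]; simpa using hyy)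
      simpa using this
    refine (norm_fderiv_le hr0 e2 e3).trans_eq ?_
    ring
  intro y hy
  rw [Metric.continuousWithinAt_iff]
  intro ε hε
  set L := 2 * (2 * C / r) / r with hL
  have hL0 : 0 ≤ L := by positivity
  refine ⟨min r (ε / (L + 1)), by positivity, fun y' hy' hyy => ?_⟩
  rw [dist_eq_norm] at hyy ⊢
  have h1 := key y hy y' hy' (hyy.trans_le (min_le_left _ _))
  have h2 : ‖y' - y‖ < ε / (L + 1) := hyy.trans_le (min_le_right _ _)
  rw [lt_div_iff₀ (by positivity)] at h2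
  nlinarith [norm_nonneg (y' - y)]

/-- Weierstrass theorem at the centre of a ball. -/
theorem weierstrass [CompleteSpace F] {q : ℕ → V → F} {g : V → F} {c : V} {R C : ℝ} (hR : 0 < R)
    {δ : ℕ → ℝ} (hδ : Tendsto δ atTop (𝓝 0)) (hd : ∀ n, DifferentiableOn ℂ (q n) (ball c R))
    (hb : ∀ n, ∀ z ∈ ball c R, ‖q n z‖ ≤ C) (hq : ∀ n, ∀ z ∈ ball c R, ‖q n z - g z‖ ≤ δ n) :
    DifferentiableAt ℂ g c := by
  have hda : ∀ n, DifferentiableAt ℂ (q n) c := fun n =>
    (hd n).differentiableAt (ball_mem_nhds c hR)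
  have hc : CauchySeq fun n => fderiv ℂ (q n) c := by
    rw [Metric.cauchySeq_iff]
    intro ε hε
    have h1 : ∀ᶠ n in atTop, δ n < ε * R / 8 := hδ.eventually (gt_mem_nhds (by positivity))
    obtain ⟨N, hN⟩ := eventually_atTop.1 h1
    refine ⟨N, fun m hm n hn => ?_⟩
    rw [dist_eq_norm, ← fderiv_fun_sub (hda m) (hda n)]
    have e3 : ∀ z ∈ ball c R, ‖q m z - q n z‖ ≤ ε * R / 4 := by
      intro z hz
      have : q m z - q n z = (q m z - g z) - (q n z - g z) := by abel
      rw [this]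
      linarith [norm_sub_le (q m z - g z) (q n z - g z), hq m z hz, hq n z hz, hN m hm, hN n hn]
    refine (norm_fderiv_le hR ((hd m).sub (hd n)) e3).trans_lt ?_
    rw [div_lt_iff₀ hR]
    nlinarith [mul_pos hε hR]
  obtain ⟨D, hD⟩ := cauchySeq_tendsto_of_complete hc
  have hpt : ∀ z ∈ ball c R, Tendsto (fun n => q n z) atTop (𝓝 (g z)) := by
    intro z hz
    rw [tendsto_iff_norm_sub_tendsto_zero]
    exact squeeze_zero (fun n => norm_nonneg _) (fun n => hq n z hz) hδ
  have hlim : ∀ z ∈ ball c R, ‖g z - g c - D (z - c)‖ ≤ 4 * C * (‖z - c‖ / R) ^ 2 := by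
    intro z hz
    have h1 : Tendsto (fun n => ‖q n z - q n c - fderiv ℂ (q n) c (z - c)‖) atTop
        (𝓝 ‖g z - g c - D (z - c)‖) := by
      apply Tendsto.norm
      refine ((hpt z hz).sub (hpt c (mem_ball_self hR))).sub ?_
      exact ((ContinuousLinearMap.apply ℂ F (z - c)).continuous.tendsto D).comp hD
    exact le_of_tendsto' h1 fun n => taylor2 (hd n) (hb n) hz
  refine ⟨D, ?_⟩
  rw [hasFDerivAt_iff_isLittleO]
  have h2 : (fun z => g z - g c - D (z - c)) =O[𝓝 c] fun z => ‖z - c‖ ^ 2 := by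
    refine Asymptotics.IsBigO.of_bound (4 * C / R ^ 2) ?_
    filter_upwards [ball_mem_nhds c hR] with z hz
    refine (hlim z hz).trans_eq ?_
    rw [norm_pow, norm_norm]
    field_simp
  exact h2.trans_isLittleO (Asymptotics.isLittleO_pow_sub_sub c one_lt_two)

theorem differentiableAt_fderiv_apply [CompleteSpace F] {f : V → F} {x : V}
    (h : ∀ᶠ y in 𝓝 x, DifferentiableAt ℂ f y) (v : V) :
    DifferentiableAt ℂ (fun y => fderiv ℂ f y v) x := by
  obtain ⟨r2, hr2, C, hd, hb⟩ := exists_ball_bound h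
  set r := r2 / 2 with hr
  have hr0 : 0 < r := by positivity
  have hC : 0 ≤ C := (norm_nonneg _).trans (hb x (mem_ball_self hr2))
  have hda : ∀ z ∈ ball x r2, DifferentiableAt ℂ f z := fun z hz =>
    hd.differentiableAt (isOpen_ball.mem_nhds hz)
  have hsub : ∀ y ∈ ball x r, ball y r ⊆ ball x r2 := fun y hy =>
    ball_subset_ball' (by rw [mem_ball] at hy; linarith)
  let s : ℕ → ℝ := fun n => r / (‖v‖ + 1) * (1 / ((n : ℝ) + 1))
  have hs0 : ∀ n, 0 < s n := fun n => by positivity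
  have hsv : ∀ n, s n * ‖v‖ < r := by
    intro n
    have h1 : 1 / ((n : ℝ) + 1) ≤ 1 := by
      rw [div_le_one (by positivity)]; linarith [Nat.cast_nonneg (α := ℝ) n]
    have h2 : s n ≤ r / (‖v‖ + 1) := mul_le_of_le_one_right (by positivity) h1
    calc s n * ‖v‖ ≤ r / (‖v‖ + 1) * ‖v‖ := by gcongr
      _ < r := by
        rw [div_mul_eq_mul_div, div_lt_iff₀ (by positivity)]
        nlinarith
  have hns : ∀ n, ‖((s n : ℂ)) • v‖ = s n * ‖v‖ := fun n => by
    rw [norm_smul, Complex.norm_real, Real.norm_of_nonneg (hs0 n).le]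
  have hmem : ∀ n, ∀ y : V, y + (s n : ℂ) • v ∈ ball y r := fun n y => by
    rw [mem_ball, dist_eq_norm, add_sub_cancel_left, hns]; exact hsv n
  have hs : Tendsto s atTop (𝓝 0) := by
    have := (tendsto_one_div_add_atTop_nhds_zero_nat (𝕜 := ℝ)).const_mul (r / (‖v‖ + 1))
    rwa [mul_zero] at this
  refine weierstrass (q := fun n y => ((s n : ℂ))⁻¹ • (f (y + (s n : ℂ) • v) - f y))
    (C := 2 * C / r * ‖v‖) (δ := fun n => 4 * C * (‖v‖ / r) ^ 2 * s n) hr0
    (by simpa using hs.const_mul (4 * C * (‖v‖ / r) ^ 2)) ?_ ?_ ?_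
  · intro n y hy
    apply DifferentiableAt.differentiableWithinAt
    apply DifferentiableAt.const_smul
    apply DifferentiableAt.sub
    · exact (hda _ (hsub y hy (hmem n y))).comp y (by fun_prop)
    · exact hda _ (hsub y hy (mem_ball_self hr0))
  · intro n y hy
    have := norm_sub_le_of_bound (hd.mono (hsub y hy)) (fun w hw => hb w (hsub y hy hw)) (hmem n y)
    rw [add_sub_cancel_left, hns] at this
    rw [norm_smul, norm_inv, Complex.norm_real, Real.norm_of_nonneg (hs0 n).le,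
      inv_mul_le_iff₀ (hs0 n)]
    linarith
  · intro n y hy
    have := taylor2 (hd.mono (hsub y hy)) (fun w hw => hb w (hsub y hy hw)) (hmem n y)
    rw [add_sub_cancel_left, hns, map_smul] at this
    have hne : (s n : ℂ) ≠ 0 := by exact_mod_cast (hs0 n).ne'
    have e : ((s n : ℂ))⁻¹ • (f (y + (s n : ℂ) • v) - f y) - fderiv ℂ f y v
        = ((s n : ℂ))⁻¹ • (f (y + (s n : ℂ) • v) - f y - (s n : ℂ) • fderiv ℂ f y v) := by
      rw [smul_sub _ (_ - _), smul_smul, inv_mul_cancel₀ hne, one_smul]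
    rw [e, norm_smul, norm_inv, Complex.norm_real, Real.norm_of_nonneg (hs0 n).le,
      inv_mul_le_iff₀ (hs0 n)]
    refine this.trans_eq ?_
    ring

theorem differentiableAt_fderiv [CompleteSpace F] [FiniteDimensional ℂ V] {f : V → F} {x : V}
    (h : ∀ᶠ y in 𝓝 x, DifferentiableAt ℂ f y) : DifferentiableAt ℂ (fderiv ℂ f) x := by
  obtain ⟨U, hU, hUo, hx⟩ := _root_.eventually_nhds_iff.1 h
  have h1 : ∀ y ∈ U, ∀ᶠ z in 𝓝 y, DifferentiableAt ℂ f z := fun y hy =>
    eventually_of_mem (hUo.mem_nhds hy) hU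
  have h2 : ContDiffOn ℂ 1 (fderiv ℂ f) U := by
    rw [contDiffOn_clm_apply]
    intro v y hy
    apply ContDiffAt.contDiffWithinAt
    apply contDiffAt_one
    exact eventually_of_mem (hUo.mem_nhds hy) fun z hz => differentiableAt_fderiv_apply (h1 z hz) v
  exact (h2.differentiableOn one_ne_zero).differentiableAt (hUo.mem_nhds hx)

theorem differentiableAt_det {E : Type*} [NormedAddCommGroup E] [NormedSpace ℂ E]
    [FiniteDimensional ℂ E] {A : V → E →L[ℂ] E} {x : V} (h : DifferentiableAt ℂ A x) :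
    DifferentiableAt ℂ (fun y => (A y).det) x := by
  classical
  let b := Module.finBasis ℂ E
  have e : (fun y => (A y).det) = fun y => ∑ σ : Equiv.Perm (Fin (Module.finrank ℂ E)),
      ((Equiv.Perm.sign σ : ℤ) : ℂ) * ∏ i, (b.coord (σ i)).toContinuousLinearMap (A y (b i)) := by
    funext y
    rw [ContinuousLinearMap.det, ← LinearMap.det_toMatrix b, Matrix.det_apply']
    simp [LinearMap.toMatrix_apply]
  rw [e]
  apply DifferentiableAt.fun_sum
  intro σ _
  apply DifferentiableAt.const_mul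
  refine (HasFDerivAt.finsetProd (fun i _ => DifferentiableAt.hasFDerivAt ?_)).differentiableAt
  exact (ContinuousLinearMap.differentiableAt _).comp x (h.clm_apply (differentiableAt_const _))

end Pool.Agent.Lib.MP_cd3a7b_ag
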