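import Pool.Agent.Lib.MP_cd3a7b_ag.Cauchy

/-!
Holomorphic maps to a complex manifold, read in charts.
-/

namespace Pool.Agent.Lib.MP_cd3a7b_ag

open Metric Set Filter Topology
open scoped Manifold

variable (E : Type*) [NormedAddCommGroup E] [NormedSpace ℂ E]
  {X : Type*} [TopologicalSpace X] [ChartedSpace E X]
  {V : Type*} [NormedAddCommGroup V] [NormedSpace ℂ V]
  {P : Type*} [NormedAddCommGroup P] [NormedSpace ℂ P]

/-- Complex differentiability at a point. -/
abbrev Hol (S : V → X) (y : V) : Prop := MDifferentiableAt 𝓘(ℂ, V) 𝓘(ℂ, E) S y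

/-- The differential is onto. -/
def Sbm (S : V → X) (y : V) : Prop := Function.Surjective (mfderiv 𝓘(ℂ, V) 𝓘(ℂ, E) S y)

/-- A holomorphic family of entire curves. -/
def Spray (S : ℂ × P → X) : Prop := ∀ᶠ p in 𝓝 (0 : P), ∀ t, Hol E S (t, p)

variable {E}

theorem Hol.pre {S : V → X} {L : P → V} {y : P} (h : Hol E S (L y))
    (hL : DifferentiableAt ℂ L y) : Hol E (fun z => S (L z)) y :=
  MDifferentiableAt.comp (I' := 𝓘(ℂ, V)) y h (mdifferentiableAt_iff_differentiableAt.2 hL)

theorem Hol.slice {S : ℂ × P → X} {t : ℂ} {p : P} (h : Hol E S (t, p)) :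
    Hol E (fun q => S (t, q)) p :=
  Hol.pre (L := fun q => (t, q)) h (by fun_prop)

theorem Sbm.congr {S S' : V → X} {y : V} (h : Sbm E S y) (e : S' =ᶠ[𝓝 y] S) : Sbm E S' y := by
  unfold Sbm at h ⊢
  rw [e.mfderiv_eq]
  exact h

omit [NormedSpace ℂ P] in
theorem tube {S : ℂ × P → X} {K : Set ℂ} (hK : IsCompact K) {O : Set X} (hO : IsOpen O) {p : P}
    (hc : ∀ t ∈ K, ContinuousAt S (t, p)) (h : ∀ t ∈ K, S (t, p) ∈ O) :
    ∀ᶠ q in 𝓝 p, ∀ t ∈ K, S (t, q) ∈ O :=
  hK.eventually_forall_of_forall_eventually (P := fun q t => S (t, q) ∈ O) fun t ht =>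
    (ContinuousAt.comp (f := Prod.swap) (x := (p, t)) (hc t ht)
      continuous_swap.continuousAt).eventually (hO.mem_nhds (h t ht))

theorem Spray.eventually {S : ℂ × P → X} (h : Spray E S) (a : ℂ) :
    ∀ᶠ y in 𝓝 (a, (0 : P)), Hol E S y :=
  ((continuous_snd.tendsto (a, (0 : P))).eventually h).mono fun y hy => hy y.1

theorem fderiv_slice {F : Type*} [NormedAddCommGroup F] [NormedSpace ℂ F] {G : ℂ × P → F} {t : ℂ}
    {p : P} (h : DifferentiableAt ℂ G (t, p)) :
    fderiv ℂ (fun q => G (t, q)) p = (fderiv ℂ G (t, p)).comp (ContinuousLinearMap.inr ℂ ℂ P) :=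
  (h.hasFDerivAt.comp p (hasFDerivAt_prodMk_right t p)).fderiv

theorem surjective_iff_det [FiniteDimensional ℂ E] (A : E →L[ℂ] E) :
    Function.Surjective A ↔ A.det ≠ 0 := by
  rw [ContinuousLinearMap.det, Ne, LinearMap.det_eq_zero_iff_ker_ne_bot, not_not,
    LinearMap.ker_eq_bot, LinearMap.injective_iff_surjective]
  rfl

variable [IsManifold 𝓘(ℂ, E) 1 X]

theorem Hol.chart {S : V → X} {y : V} (h : Hol E S y) {x : X} (hy : S y ∈ (chartAt E x).source) :
    DifferentiableAt ℂ (fun z => chartAt E x (S z)) y :=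
  mdifferentiableAt_iff_differentiableAt.1 (MDifferentiableAt.comp (I' := 𝓘(ℂ, E)) y
    ((mdifferentiable_chart (I := 𝓘(ℂ, E)) x).mdifferentiableAt hy) h)

theorem hol_symm {G : V → E} {y : V} (h : DifferentiableAt ℂ G y) {x : X}
    (hy : G y ∈ (chartAt E x).target) : Hol E (fun z => (chartAt E x).symm (G z)) y :=
  MDifferentiableAt.comp (I' := 𝓘(ℂ, E)) y
    ((mdifferentiable_chart (I := 𝓘(ℂ, E)) x).mdifferentiableAt_symm hy)
    (mdifferentiableAt_iff_differentiableAt.2 h)

theorem sbm_iff {S : V → X} {y : V} (h : Hol E S y) {x : X} (hy : S y ∈ (chartAt E x).source) :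
    Sbm E S y ↔ Function.Surjective (fderiv ℂ (fun z => chartAt E x (S z)) y) := by
  have h1 := mfderiv_comp (I' := 𝓘(ℂ, E)) y
    ((mdifferentiable_chart (I := 𝓘(ℂ, E)) x).mdifferentiableAt hy) h
  rw [mfderiv_eq_fderiv] at h1
  have h2 := (mdifferentiable_chart (I := 𝓘(ℂ, E)) x).mfderiv_bijective hy
  refine (Function.Surjective.of_comp_iff' h2 _).symm.trans ?_
  rw [show fderiv ℂ (fun z => chartAt E x (S z)) y = _ from h1]
  rfl

theorem Spray.chart {S : ℂ × P → X} (h : Spray E S) {a : ℂ} {x : X}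
    (ha : S (a, 0) ∈ (chartAt E x).source) :
    ∀ᶠ y in 𝓝 (a, (0 : P)), S y ∈ (chartAt E x).source ∧
      DifferentiableAt ℂ (fun z => chartAt E x (S z)) y := by
  filter_upwards [h.eventually a, (h.self_of_nhds a).continuousAt.eventually
    ((chartAt E x).open_source.mem_nhds ha)] with y h1 h2
  exact ⟨h2, h1.chart h2⟩

/-- The differential of a family in the direction of the parameter depends holomorphically on
the point of the curve. -/
theorem Spray.diff_slice [FiniteDimensional ℂ E] {S : ℂ × E → X} (h : Spray E S) {a : ℂ} {x : X}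
    (ha : S (a, 0) ∈ (chartAt E x).source) :
    DifferentiableAt ℂ (fun t => fderiv ℂ (fun q => chartAt E x (S (t, q))) 0) a := by
  have cE : CompleteSpace E := FiniteDimensional.complete ℂ E
  have h1 := (h.chart ha).mono fun y hy => hy.2
  have h2 : DifferentiableAt ℂ (fun t : ℂ => (fderiv ℂ (fun z => chartAt E x (S z)) (t, 0)).comp
      (ContinuousLinearMap.inr ℂ ℂ E)) a :=
    (DifferentiableAt.comp (f := fun t : ℂ => (t, (0 : E))) a (differentiableAt_fderiv h1)
      (by fun_prop)).clm_comp (differentiableAt_const _)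
  refine h2.congr_of_eventuallyEq ?_
  have h3 : Tendsto (fun t : ℂ => (t, (0 : E))) (𝓝 a) (𝓝 (a, 0)) :=
    (by fun_prop : Continuous fun t : ℂ => (t, (0 : E))).tendsto a
  filter_upwards [h3.eventually h1] with t ht
  exact fderiv_slice ht

/-- The points where a dominating family is not submersive are isolated. -/
theorem Spray.eventually_sbm [FiniteDimensional ℂ E] {S : ℂ × E → X} (h : Spray E S) {t₀ : ℂ}
    (h0 : Sbm E (fun q => S (t₀, q)) 0) (a : ℂ) :
    ∀ᶠ t in 𝓝[≠] a, Sbm E (fun q => S (t, q)) 0 := by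
  have key : ∀ a : ℂ, (∀ᶠ t in 𝓝 a, ¬Sbm E (fun q => S (t, q)) 0) ∨
      ∀ᶠ t in 𝓝[≠] a, Sbm E (fun q => S (t, q)) 0 := by
    intro a
    have hc : ContinuousAt (fun t => S (t, 0)) a :=
      (Hol.pre (L := fun t => (t, (0 : E))) (h.self_of_nhds a) (by fun_prop)).continuousAt
    have h1 : ∀ᶠ t in 𝓝 a, S (t, 0) ∈ (chartAt E (S (a, 0))).source :=
      hc.eventually (chart_source_mem_nhds E _)
    have h2 : AnalyticAt ℂ
        (fun t => (fderiv ℂ (fun q => chartAt E (S (a, 0)) (S (t, q))) 0).det) a :=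
      Complex.analyticAt_iff_eventually_differentiableAt.2
        (h1.mono fun t ht => differentiableAt_det (h.diff_slice ht))
    have h3 : ∀ᶠ t in 𝓝 a, Sbm E (fun q => S (t, q)) 0 ↔
        (fderiv ℂ (fun q => chartAt E (S (a, 0)) (S (t, q))) 0).det ≠ 0 :=
      h1.mono fun t ht => (sbm_iff (h.self_of_nhds t).slice ht).trans (surjective_iff_det _)
    rcases h2.eventually_eq_zero_or_eventually_ne_zero with h4 | h4
    · left
      filter_upwards [h3, h4] with t h5 h6 h7
      exact h5.1 h7 h6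
    · right
      filter_upwards [mem_nhdsWithin_of_mem_nhds h3, h4] with t h5 h6
      exact h5.2 h6
  have hcl : IsClopen {a : ℂ | ∀ᶠ t in 𝓝 a, ¬Sbm E (fun q => S (t, q)) 0} := by
    refine ⟨isClosed_of_closure_subset fun a ha => ?_, isOpen_setOfPred_eventually_nhds⟩
    refine (key a).resolve_right fun h1 => ?_
    rw [eventually_nhdsWithin_iff] at h1
    obtain ⟨b, hb, hb'⟩ := mem_closure_iff_nhds.1 ha _ h1.eventually_nhds
    have h2 : ∀ᶠ t in 𝓝 b, t = a := by
      filter_upwards [hb, hb'] with t h3 h4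
      by_contra h5
      exact h4 (h3 h5)
    have h3 : ∀ᶠ t in 𝓝[≠] b, t = b :=
      mem_nhdsWithin_of_mem_nhds (h2.mono fun t ht => ht.trans h2.self_of_nhds.symm)
    obtain ⟨t, h4, h5⟩ := (h3.and self_mem_nhdsWithin).exists
    exact h5 h4
  refine (key a).resolve_left fun h1 => ?_
  have h2 := hcl.eq_univ ⟨a, h1⟩
  have h3 : t₀ ∈ {a : ℂ | ∀ᶠ t in 𝓝 a, ¬Sbm E (fun q => S (t, q)) 0} := h2 ▸ mem_univ _
  exact h3.self_of_nhds h0

/-- A limit of entire curves is an entire curve. -/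
theorem isClosed_hol [CompleteSpace E] : IsClosed {g : C(ℂ, X) | ∀ t, Hol E g t} := by
  refine isClosed_of_closure_subset fun g hg a => ?_
  have hn := mem_closure_iff_nhdsWithin_neBot.1 hg
  obtain ⟨r, hr, h1⟩ := Metric.nhds_basis_closedBall.mem_iff.1
    (g.continuous.continuousAt (x := a) (chart_source_mem_nhds E (g a)))
  have h2 : ∀ᶠ f : C(ℂ, X) in 𝓝 g, MapsTo f (closedBall a r) (chartAt E (g a)).source :=
    (ContinuousMap.isOpen_setOfPred_mapsTo (isCompact_closedBall a r)
      (chartAt E (g a)).open_source).mem_nhds h1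
  have h3 : TendstoLocallyUniformlyOn (fun (f : C(ℂ, X)) t => chartAt E (g a) (f t))
      (fun t => chartAt E (g a) (g t)) (𝓝[{g : C(ℂ, X) | ∀ t, Hol E g t}] g) (ball a r) := by
    rw [tendstoLocallyUniformlyOn_iff_forall_tendsto]
    intro t ht
    have hφ := (chartAt E (g a)).continuousAt (h1 (ball_subset_closedBall ht))
    have h4 : Tendsto (fun y : C(ℂ, X) × ℂ => y.1 y.2) (𝓝 (g, t)) (𝓝 (g t)) :=
      continuous_eval.tendsto (g, t)
    have h5 : Tendsto (fun y : C(ℂ, X) × ℂ => g y.2) (𝓝 (g, t)) (𝓝 (g t)) :=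
      (g.continuous.comp continuous_snd).tendsto (g, t)
    refine (((hφ.tendsto.comp h5).prodMk_nhds (hφ.tendsto.comp h4)).mono_right
      (nhds_le_uniformity _)).mono_left ?_
    rw [nhds_prod_eq]
    exact Filter.prod_mono nhdsWithin_le_nhds nhdsWithin_le_nhds
  have h4 := h3.differentiableOn (by
    filter_upwards [mem_nhdsWithin_of_mem_nhds h2, self_mem_nhdsWithin] with f h5 h6 t ht
    exact ((h6 t).chart (h5 (ball_subset_closedBall ht))).differentiableWithinAt) isOpen_ball
  refine (hol_symm (h4.differentiableAt (ball_mem_nhds a hr))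
    (mem_chart_target E (g a))).congr_of_eventuallyEq ?_
  filter_upwards [closedBall_mem_nhds a hr] with t ht
  exact ((chartAt E (g a)).left_inv (h1 ht)).symm

end Pool.Agent.Lib.MP_cd3a7b_ag
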