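import Pool.Agent.Lib.MP_cd3a7b_ag.Baire

/-!
Linear independence of families of holomorphic functions is a generic property.
-/

namespace Pool.Agent.Lib.MP_cd3a7b_ag

open Metric Set Filter Topology

universe u

variable {P : Type*} [NormedAddCommGroup P] [NormedSpace ℂ P]

/-- The identity theorem on a convex open set. -/
theorem frequently_ne_zero {N : Set P} (ho : IsOpen N) (hc : Convex ℝ N) {Δ : P → ℂ}
    (hd : DifferentiableOn ℂ Δ N) {p₀ : P} (h0 : p₀ ∈ N) (h1 : Δ p₀ ≠ 0) {p : P} (hp : p ∈ N) :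
    ∃ᶠ q in 𝓝 p, Δ q ≠ 0 := by
  intro h2
  let L : ℂ → P := fun s => p₀ + s • (p - p₀)
  have hL : Differentiable ℂ L := by fun_prop
  have h3 : Convex ℝ (L ⁻¹' N) :=
    (hc.translate_preimage_right p₀).is_linear_preimage (f := fun s : ℂ => s • (p - p₀))
      ⟨fun a b => add_smul a b _, fun r s => smul_assoc r s _⟩
  have h4 : AnalyticOnNhd ℂ (Δ ∘ L) (L ⁻¹' N) :=
    (hd.comp hL.differentiableOn (mapsTo_preimage _ _)).analyticOnNhd (ho.preimage hL.continuous)
  have e1 : L 1 = p := by simp [L]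
  have e0 : L 0 = p₀ := by simp [L]
  have h5 : Tendsto L (𝓝 1) (𝓝 p) := e1 ▸ hL.continuous.tendsto 1
  have h6 := h4.eqOn_zero_of_preconnected_of_eventuallyEq_zero h3.isPreconnected (z₀ := 1)
    (by rwa [mem_preimage, e1]) ((h5.eventually h2).mono fun s hs => not_not.1 hs)
    (x := 0) (by rwa [mem_preimage, e0])
  rw [Function.comp_apply, e0] at h6
  exact h1 h6

theorem li_iff_det {s T : Type*} [Fintype s] [DecidableEq s] (v : s → T → ℂ) :
    LinearIndependent ℂ v ↔ ∃ μ : s → T →₀ ℂ,
      (Matrix.of fun k i => ∑ t ∈ (μ i).support, μ i t * v k t).det ≠ 0 := by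
  constructor
  · intro h
    have h1 := span_flip_eq_top_iff_linearIndependent.2 h
    choose μ hμ using fun i : s => Finsupp.mem_span_range_iff_exists_finsupp.1
      (h1.symm ▸ Submodule.mem_top : (Pi.single i 1 : s → ℂ) ∈ Submodule.span ℂ (range (flip v)))
    refine ⟨μ, ?_⟩
    have : (Matrix.of fun k i => ∑ t ∈ (μ i).support, μ i t * v k t) = 1 := by
      ext k i
      have := congrFun (hμ i) k
      simp only [Finsupp.sum, Finset.sum_apply, Pi.smul_apply, smul_eq_mul, flip] at this
      rw [Matrix.of_apply, this, Matrix.one_apply, Pi.single_apply]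
    rw [this, Matrix.det_one]
    exact one_ne_zero
  · rintro ⟨μ, h⟩
    let Λ : (T → ℂ) →ₗ[ℂ] s → ℂ :=
      { toFun := fun w i => ∑ t ∈ (μ i).support, μ i t * w t
        map_add' := fun w w' => by ext i; simp [mul_add, Finset.sum_add_distrib]
        map_smul' := fun r w => by ext i; simp [Finset.mul_sum, mul_left_comm] }
    exact LinearIndependent.of_comp Λ (Matrix.linearIndependent_rows_of_det_ne_zero h)

theorem eventually_li {s T Y : Type*} [Finite s] [TopologicalSpace Y] {w : Y → s → T → ℂ} {y : Y}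
    (hc : ∀ k t, ContinuousAt (fun z => w z k t) y) (h : LinearIndependent ℂ (w y)) :
    ∀ᶠ z in 𝓝 y, LinearIndependent ℂ (w z) := by
  classical
  cases nonempty_fintype s
  obtain ⟨μ, hμ⟩ := (li_iff_det _).1 h
  have h1 : ContinuousAt
      (fun z => (Matrix.of fun k i => ∑ t ∈ (μ i).support, μ i t * w z k t).det) y := by
    refine (continuous_id.matrix_det.continuousAt).comp
      (f := fun z => Matrix.of fun k i => ∑ t ∈ (μ i).support, μ i t * w z k t) ?_
    refine continuousAt_pi.2 fun k => continuousAt_pi.2 fun i => ?_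
    exact tendsto_finsetSum _ fun t _ => (hc k t).const_mul _
  exact (h1.eventually_ne hμ).mono fun z hz => (li_iff_det _).2 ⟨μ, hz⟩

theorem frequently_li {s T : Type*} [Finite s] {N : Set P} (ho : IsOpen N) (hc : Convex ℝ N)
    {w : P → s → T → ℂ} (hd : ∀ k t, DifferentiableOn ℂ (fun p => w p k t) N) {p₀ : P}
    (h0 : p₀ ∈ N) (h : LinearIndependent ℂ (w p₀)) {p : P} (hp : p ∈ N) :
    ∃ᶠ q in 𝓝 p, LinearIndependent ℂ (w q) := by
  classical
  cases nonempty_fintype s
  obtain ⟨μ, hμ⟩ := (li_iff_det _).1 h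
  refine (frequently_ne_zero ho hc
    (Δ := fun z => (Matrix.of fun k i => ∑ t ∈ (μ i).support, μ i t * w z k t).det) ?_ h0 hμ
    hp).mono fun z hz => (li_iff_det _).2 ⟨μ, hz⟩
  intro z hz
  refine DifferentiableAt.differentiableWithinAt ?_
  simp only [Matrix.det_apply', Matrix.of_apply]
  refine DifferentiableAt.fun_sum fun σ _ => DifferentiableAt.const_mul ?_ _
  refine (HasFDerivAt.finsetProd (fun i _ => DifferentiableAt.hasFDerivAt ?_)).differentiableAt
  exact DifferentiableAt.fun_sum fun t _ =>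
    ((hd _ t).differentiableAt (ho.mem_nhds hz)).const_mul _

theorem generic_li {κ T : Type*} [Countable κ] {N : Set P} (ho : IsOpen N) (hc : Convex ℝ N)
    {w : P → κ → T → ℂ} (hd : ∀ k t, DifferentiableOn ℂ (fun p => w p k t) N) {p₀ : P}
    (h0 : p₀ ∈ N) (h : LinearIndependent ℂ (w p₀)) :
    ∀ᶠ p in residual P, p ∈ N → LinearIndependent ℂ (w p) := by
  have key : ∀ s : Finset κ, ∀ᶠ p in residual P, p ∈ N →
      LinearIndependent ℂ fun k : s => w p k := fun s =>
    eventually_generic (G := {p | LinearIndependent ℂ fun k : s => w p k}) ho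
      (fun p hp hp' => eventually_li (w := fun p (k : s) => w p k)
        (fun k t => ((hd k t).differentiableAt (ho.mem_nhds hp)).continuousAt) hp')
      fun p hp => frequently_li (w := fun p (k : s) => w p k) ho hc (fun k t => hd k t) h0
        (h.comp _ Subtype.val_injective) hp
  filter_upwards [eventually_countable_forall.2 key] with p hp hN
  exact linearIndependent_iff_finset_linearIndependent.2 fun s => hp s hN

theorem exists_fin {s T : Type*} [Finite s] {v : s → T → ℂ} (h : LinearIndependent ℂ v) :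
    ∃ (n : ℕ) (x : Fin n → T), LinearIndependent ℂ fun k j => v k (x j) := by
  obtain ⟨f, h1, h2, -⟩ := Submodule.exists_fun_fin_finrank_span_eq ℂ (range (flip v))
  choose x hx using h1
  refine ⟨_, x, span_flip_eq_top_iff_linearIndependent.1 ?_⟩
  rw [← funext hx] at h2
  exact h2.trans (span_flip_eq_top_iff_linearIndependent.2 h)

theorem exists_basis {ι X : Type*} [Countable ι] (h : ι → X → ℂ) (U : Set X) :
    ∃ (κ : Type) (a : κ → ι), Countable κ ∧ ∀ (T : Type u) (g : T → X), (∀ t, g t ∈ U) →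
      ((LinearIndependent ℂ fun k t => h (a k) (g t)) ↔
        ∀ q ∈ Submodule.span ℂ (range h), (∀ t, q (g t) = 0) → ∀ x ∈ U, q x = 0) := by
  let ρ : (X → ℂ) →ₗ[ℂ] U → ℂ := LinearMap.funLeft ℂ ℂ Subtype.val
  obtain ⟨κ, a, h1, h2, h3⟩ := exists_linearIndependent' ℂ (ρ ∘ h)
  have := h1.countable
  obtain ⟨e, he⟩ := exists_injective_nat κ
  let b := Equiv.ofInjective e he
  rw [← b.symm.surjective.range_comp, Function.comp_assoc] at h2
  replace h3 := h3.comp _ b.symm.injective
  refine ⟨_, a ∘ b.symm, inferInstance, fun T g hg => ?_⟩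
  let R : (U → ℂ) →ₗ[ℂ] T → ℂ := LinearMap.funLeft ℂ ℂ fun t => ⟨g t, hg t⟩
  rw [range_comp ρ h, ← Submodule.map_span] at h2
  constructor
  · intro h4 q hq h5 x hx
    have h6 := Submodule.range_ker_disjoint (f := R) (v := (ρ ∘ h) ∘ a ∘ b.symm) h4
    rw [h2] at h6
    exact congrFun (Submodule.disjoint_def.1 h6 (ρ q) ⟨q, hq, rfl⟩ (funext h5)) ⟨x, hx⟩
  · intro h4
    refine LinearIndependent.map (f := R) (v := (ρ ∘ h) ∘ a ∘ b.symm) h3 ?_
    rw [h2, Submodule.disjoint_def]
    rintro _ ⟨q, hq, rfl⟩ h5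
    exact funext fun x => h4 q hq (congrFun h5) x x.2

end Pool.Agent.Lib.MP_cd3a7b_ag
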