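import Pool.Agent.Lib.MP_cd3a7b_ag.Free

/-!
A manifold dominated by a vector space contains dense entire curves avoiding a small closed set.
-/

namespace Pool.Agent.Lib.MP_cd3a7b_ag

open Metric Set Filter Topology
open scoped Manifold

variable {E : Type*} [NormedAddCommGroup E] [NormedSpace ℂ E]
  {X : Type*} [TopologicalSpace X] [ChartedSpace E X]
  {P : Type} [NormedAddCommGroup P] [NormedSpace ℂ P]

theorem exists_nodes (n : ℕ) : ∃ ν : Fin n → ℂ, (∀ j, ν j ∈ ball (0 : ℂ) 1) ∧ ∀ v : Fin n → P,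
    ∃ L : C(ℂ, P), Differentiable ℂ L ∧ L 0 = 0 ∧ ∀ j, L (ν j) = v j := by
  let ν : Fin n → ℂ := fun j => (((j : ℝ) + 2 : ℝ) : ℂ)⁻¹
  have h0 : ∀ j : Fin n, (1 : ℝ) < (j : ℝ) + 2 := fun j => by
    have : (0 : ℝ) ≤ j := Nat.cast_nonneg _
    linarith
  have h1 : ∀ j, ν j ≠ 0 := fun j => inv_ne_zero (Complex.ofReal_ne_zero.2 (by linarith [h0 j]))
  have h2 : Function.Injective ν := fun i j hij => by
    have := Complex.ofReal_injective (inv_injective hij)
    exact Fin.ext (by exact_mod_cast add_right_cancel this)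
  refine ⟨ν, fun j => ?_, fun v => ?_⟩
  · rw [mem_ball_zero_iff, norm_inv, Complex.norm_real, Real.norm_of_nonneg (by linarith [h0 j])]
    exact inv_lt_one_of_one_lt₀ (h0 j)
  have h3 : Differentiable ℂ fun t : ℂ =>
      ∑ j, (t * (Lagrange.basis Finset.univ ν j).eval t / ν j) • v j :=
    Differentiable.fun_sum fun j _ =>
      ((differentiable_id.mul (Polynomial.differentiable _)).div_const _).smul_const _
  refine ⟨⟨_, h3.continuous⟩, h3, by simp, fun i => ?_⟩
  rw [ContinuousMap.coe_mk, Finset.sum_eq_single i]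
  · rw [Lagrange.eval_basis_self h2.injOn (Finset.mem_univ i), mul_one, div_self (h1 i), one_smul]
  · intro j _ hj
    rw [Lagrange.eval_basis_of_ne hj (Finset.mem_univ i), mul_zero, zero_div, zero_smul]
  · exact fun h => absurd (Finset.mem_univ i) h

/-- An entire curve in a Banach space whose germ detects a countable family of functions. -/
theorem exists_curve [CompleteSpace P] {κ : Type*} [Countable κ] {x₀ : P} {r : ℝ} (hr : 0 < r)
    {w : κ → P → ℂ} (hd : ∀ k, DifferentiableOn ℂ (w k) (ball x₀ r))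
    (h : LinearIndependent ℂ fun k (x : ball x₀ r) => w k x) :
    ∃ γ : C(ℂ, P), Differentiable ℂ γ ∧ γ 0 = x₀ ∧ MapsTo γ (closedBall 0 1) (ball x₀ r) ∧
      LinearIndependent ℂ fun k (t : ball (0 : ℂ) 1) => w k (γ t) := by
  have := completelyMetrizable_map P
  let A : Set C(ℂ, P) :=
    {γ | (∀ t, Hol P γ t) ∧ γ 0 = x₀} ∩ {γ | MapsTo γ (closedBall 0 1) (ball x₀ r)}
  let C : Finset κ → Set C(ℂ, P) := fun s => {γ | MapsTo γ (closedBall 0 1) (ball x₀ r) ∧
    LinearIndependent ℂ fun (k : s) (t : ball (0 : ℂ) 1) => w k (γ t)}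
  have hO := ContinuousMap.isOpen_setOfPred_mapsTo (isCompact_closedBall (0 : ℂ) 1)
    (isOpen_ball (x := x₀) (ε := r))
  have key := baire_closure (A := A) (C := C) ?_ ?_ (a := ContinuousMap.const ℂ x₀)
    ⟨⟨fun t => mdifferentiableAt_const, rfl⟩, fun t _ => mem_ball_self hr⟩
  · obtain ⟨γ, g1, g2⟩ := closure_nonempty_iff.1 ⟨_, key⟩
    rw [mem_iInter] at g2
    have g3 := closure_minimal inter_subset_left (isClosed_hol.inter
      (isClosed_eq (continuous_eval_const (0 : ℂ)) continuous_const)) g1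
    exact ⟨γ, fun t => mdifferentiableAt_iff_differentiableAt.1 (g3.1 t), g3.2, (g2 ∅).1,
      linearIndependent_iff_finset_linearIndependent.2 fun s => (g2 s).2⟩
  · intro s
    refine isOpen_iff_mem_nhds.2 fun g hg => Eventually.and (hO.mem_nhds hg.1)
      (eventually_li (w := fun (g : C(ℂ, P)) (k : s) (t : ball (0 : ℂ) 1) => w k (g t))
        (fun k t => ?_) hg.2)
    exact ContinuousAt.comp (g := w k) (f := fun g : C(ℂ, P) => g t)
      ((hd k).continuousOn.continuousAt (isOpen_ball.mem_nhds (hg.1 (ball_subset_closedBall t.2))))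
      (continuous_eval_const (t : ℂ)).continuousAt
  · rintro s γ ⟨⟨g1, g2⟩, g3⟩
    obtain ⟨n, x, hx⟩ := exists_fin (h.comp ((↑) : s → κ) Subtype.val_injective)
    obtain ⟨ν, hν, hL⟩ := exists_nodes (P := P) n
    obtain ⟨L, l1, l2, l3⟩ := hL fun j => x j - γ (ν j)
    let N : Set ℂ := ⋂ j, (fun z : ℂ => γ (ν j) + z • L (ν j)) ⁻¹' ball x₀ r
    have n1 : IsOpen N := isOpen_iInter_of_finite fun j => isOpen_ball.preimage (by fun_prop)
    have n2 : Convex ℝ N := convex_iInter fun j =>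
      ((convex_ball x₀ r).translate_preimage_right (γ (ν j))).is_linear_preimage
        (f := fun z : ℂ => z • L (ν j)) ⟨fun a b => add_smul a b _, fun r s => smul_assoc r s _⟩
    have n3 := frequently_li n1 n2 (w := fun z (k : s) j => w k (γ (ν j) + z • L (ν j)))
      (fun k j => (hd k).comp (by fun_prop) fun z hz => mem_iInter.1 hz j) (p₀ := 1)
      (mem_iInter.2 fun j => by simp [l3]) (by simpa [l3] using hx) (p := 0)
      (mem_iInter.2 fun j => by simpa using g3 (ball_subset_closedBall (hν j)))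
    have n4 : Tendsto (fun z : ℂ => γ + z • L) (𝓝 0) (𝓝 γ) := by
      simpa using (by fun_prop : Continuous fun z : ℂ => γ + z • L).tendsto 0
    refine mem_closure_of_frequently_of_tendsto
      ((n3.and_eventually (n4.eventually (hO.mem_nhds g3))).mono fun z hz => ?_) n4
    refine ⟨⟨⟨fun t => mdifferentiableAt_iff_differentiableAt.2
      ((mdifferentiableAt_iff_differentiableAt.1 (g1 t)).add ((l1 t).const_smul z)),
      by simp [g2, l2]⟩, hz.2⟩, hz.2, ?_⟩
    exact LinearIndependent.of_comp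
      (LinearMap.funLeft ℂ ℂ fun j => (⟨ν j, hν j⟩ : ball (0 : ℂ) 1)) hz.1

variable [IsManifold 𝓘(ℂ, E) 1 X]

/-- The identity theorem on a manifold. -/
theorem ident {ι : Type*} {U : Set X} (hU : IsOpen U) (hc : IsPreconnected U) {h : ι → X → ℂ}
    (hh : ∀ i, MDifferentiableOn 𝓘(ℂ, E) 𝓘(ℂ) (h i) U) {q : X → ℂ}
    (hq : q ∈ Submodule.span ℂ (range h)) {x₀ : X} (h0 : x₀ ∈ U) (h1 : ∀ᶠ y in 𝓝 x₀, q y = 0) :
    ∀ x ∈ U, q x = 0 := by
  have key : U ⊆ {x | ∀ᶠ y in 𝓝 x, q y = 0} := by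
    refine hc.subset_of_closure_inter_subset isOpen_setOfPred_eventually_nhds ⟨x₀, h0, h1⟩ ?_
    rintro x ⟨h2, h3⟩
    let φ := chartAt E x
    have hx : x ∈ φ.source := mem_chart_source E x
    have h4 : φ.target ∩ φ.symm ⁻¹' U ∈ 𝓝 (φ x) :=
      (φ.isOpen_inter_preimage_symm hU).mem_nhds ⟨φ.map_source hx, by
        rwa [mem_preimage, φ.left_inv hx]⟩
    obtain ⟨ε, hε, h5⟩ := Metric.mem_nhds_iff.1 h4
    have h6 : φ.source ∩ φ ⁻¹' ball (φ x) ε ∈ 𝓝 x :=
      (φ.isOpen_inter_preimage isOpen_ball).mem_nhds ⟨hx, mem_ball_self hε⟩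
    obtain ⟨y, ⟨h7, h8⟩, h9⟩ := mem_closure_iff_nhds.1 h2 _ h6
    filter_upwards [h6] with z hz
    by_contra h10
    rw [← φ.left_inv hz.1] at h10
    have h11 := frequently_ne_zero isOpen_ball (convex_ball (φ x) ε) (Δ := fun e => q (φ.symm e))
      (fun e he => (diff_comp_span hU hh hq (hol_symm differentiableAt_id (h5 he).1)
        (h5 he).2).differentiableWithinAt) hz.2 h10 h8
    have h12 : Tendsto φ.symm (𝓝 (φ y)) (𝓝 y) := φ.tendsto_symm h7
    obtain ⟨e, h13, h14⟩ := (h11.and_eventually (h12.eventually h9)).exists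
    exact h13 h14
  exact fun x hx => (key hx).self_of_nhds

theorem nhds_le_map [CompleteSpace P] [CompleteSpace E] {F : P → X} (hF : ∀ y, Hol E F y) {x₀ : P}
    (h0 : Sbm E F x₀) : 𝓝 (F x₀) ≤ map F (𝓝 x₀) := by
  let φ := chartAt E (F x₀)
  have hx : F x₀ ∈ φ.source := mem_chart_source E _
  have h1 : ∀ᶠ y in 𝓝 x₀, F y ∈ φ.source := (hF x₀).continuousAt.eventually (φ.open_source.mem_nhds hx)
  have h2 := ((contDiffAt_one (h1.mono fun y hy => (hF y).chart hy)).hasStrictFDerivAt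
    one_ne_zero).map_nhds_eq_of_surj (LinearMap.range_eq_top.2 ((sbm_iff (hF x₀) hx).1 h0))
  rw [← φ.symm_map_nhds_eq hx, ← h2, map_map]
  exact (map_congr (h1.mono fun y hy => φ.left_inv hy)).le

variable [FiniteDimensional ℂ E]

theorem dom_ctr [CompleteSpace P] {ι : Type*} [Countable ι] {U : Set X} (hU : IsOpen U)
    (hc : IsPreconnected U) {h : ι → X → ℂ} (hh : ∀ i, MDifferentiableOn 𝓘(ℂ, E) 𝓘(ℂ) (h i) U)
    {F : P → X} (hF : ∀ y, Hol E F y) {x₀ : P} (h0 : Sbm E F x₀) (h1 : F x₀ ∈ U) :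
    ∃ f ∈ Ctr E X, f 0 ∈ U ∧
      ∀ q ∈ Submodule.span ℂ (range h), (∀ᶠ t in 𝓝 (0 : ℂ), q (f t) = 0) → ∀ x ∈ U, q x = 0 := by
  have cE : CompleteSpace E := FiniteDimensional.complete ℂ E
  obtain ⟨r, hr, h2⟩ := Metric.mem_nhds_iff.1 ((hF x₀).continuousAt (hU.mem_nhds h1))
  obtain ⟨κ, a, _, hκ⟩ := exists_basis.{0} h U
  obtain ⟨γ, g1, g2, g3, g4⟩ := exists_curve hr (w := fun k x => h (a k) (F x))
    (fun k x hx => (diff_comp hU (hh _) (hF x) (h2 hx)).differentiableWithinAt)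
    ((hκ (ball x₀ r) (fun x => F x) fun x => h2 x.2).2 fun q hq h3 => ident hU hc hh hq h1
      (nhds_le_map hF h0 (mem_map.2 (mem_of_superset (ball_mem_nhds x₀ hr) fun x hx => h3 ⟨x, hx⟩))))
  have hFc : Continuous F := continuous_iff_continuousAt.2 fun y => (hF y).continuousAt
  have hS : Spray E fun y : ℂ × P => F (γ y.1 + y.2) := Eventually.of_forall fun p t =>
    Hol.pre (L := fun y : ℂ × P => γ y.1 + y.2) (hF _) (by fun_prop)
  have hx := mem_chart_source E (F x₀)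
  have h3 : Sbm E (fun p : P => F (γ 0 + p)) 0 := by
    refine (sbm_iff (hS.self_of_nhds 0).slice (x := F x₀) (by simp [g2])).2 ?_
    have h4 := fderiv_comp_add_left (𝕜 := ℂ) (f := fun z => chartAt E (F x₀) (F z)) (x := 0) x₀
    rw [add_zero] at h4
    simp only [g2]
    rw [h4]
    exact (sbm_iff (hF x₀) hx).1 h0
  obtain ⟨S', k1, k2, k3⟩ := (recentre hS h3).self_of_nhds
  refine ⟨⟨fun t => F (γ t), hFc.comp γ.continuous⟩, ⟨S', k1, fun t => by simpa using k2 t, 0, k3⟩,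
    h2 (g3 (mem_closedBall_self zero_le_one)), fun q hq h4 => ?_⟩
  refine (hκ (ball (0 : ℂ) 1) (fun t => F (γ t)) fun t => h2 (g3 (ball_subset_closedBall t.2))).1
    g4 q hq fun t => ?_
  by_contra h5
  obtain ⟨z, h6, h7⟩ := ((frequently_ne_zero isOpen_ball (convex_ball (0 : ℂ) 1)
    (Δ := fun z => q (F (γ z))) (fun z hz => (diff_comp_span hU hh hq (Hol.pre (hF _) (g1 z))
      (h2 (g3 (ball_subset_closedBall hz)))).differentiableWithinAt) t.2 h5
    (mem_ball_self one_pos)).and_eventually h4).exists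
  exact h6 h7

end Pool.Agent.Lib.MP_cd3a7b_ag
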