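import Pool.Agent.Lib.MP_cd3a7b_ag.Dom

/-!
Puncturing for dominable manifolds.
-/

open Metric Set Filter Topology Pool.Agent.Lib.MP_cd3a7b_ag
open scoped Manifold

/-- Let `X` be a complex manifold of dimension `n`, dominated at one point by a complex Banach
space, and `Z` a closed subset of Hausdorff dimension less than `2n - 2`. Then there is a
non-constant entire curve in `X` that avoids `Z` and whose germ at `0` is dense for the span of
countably many given holomorphic functions on a connected open set `U`. -/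
theorem Pool.Agent.Lib.MP_cd3a7b_ag.dominable_variant
    {E : Type} [NormedAddCommGroup E] [NormedSpace ℂ E] [FiniteDimensional ℂ E]
    {X : Type} [TopologicalSpace X] [ChartedSpace E X] [IsManifold 𝓘(ℂ, E) 1 X] [T2Space X]
    [SecondCountableTopology X] {Z : Set X} (hZ : IsClosed Z)
    (hd : ∀ x : X, dimH (chartAt E x '' (Z ∩ (chartAt E x).source)) + 2 < 2 * Module.finrank ℂ E)
    {U : Set X} (hU : IsOpen U) (hc : IsPreconnected U) {h : ℕ → X → ℂ}
    (hh : ∀ i, MDifferentiableOn 𝓘(ℂ, E) 𝓘(ℂ, ℂ) (h i) U)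
    {P : Type} [NormedAddCommGroup P] [NormedSpace ℂ P] [CompleteSpace P] {F : P → X}
    (hF : MDifferentiable 𝓘(ℂ, P) 𝓘(ℂ, E) F) {x₀ : P}
    (h0 : Function.Surjective (mfderiv 𝓘(ℂ, P) 𝓘(ℂ, E) F x₀)) (h1 : F x₀ ∈ U) :
    ∃ g : ℂ → X, MDifferentiable 𝓘(ℂ, ℂ) 𝓘(ℂ, E) g ∧ (∃ a b, g a ≠ g b) ∧ (∀ t, g t ∉ Z) ∧
      g 0 ∈ U ∧
      ∀ q ∈ Submodule.span ℂ (range h), (∀ᶠ t in 𝓝 (0 : ℂ), q (g t) = 0) → ∀ x ∈ U, q x = 0 := by
  let φ := chartAt E (F x₀)
  have hx : F x₀ ∈ φ.source := mem_chart_source E _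
  obtain ⟨ε, hε, h2⟩ := Metric.mem_nhds_iff.1 ((φ.isOpen_inter_preimage_symm hU).mem_nhds
    (⟨φ.map_source hx, by rwa [mem_preimage, φ.left_inv hx]⟩ : φ (F x₀) ∈ φ.target ∩ φ.symm ⁻¹' U))
  have hE : Nontrivial E := by
    refine Module.nontrivial_of_finrank_pos (R := ℂ) (Nat.pos_of_ne_zero fun h3 => ?_)
    simpa [h3] using hd (F x₀)
  obtain ⟨v, hv⟩ := exists_ne (0 : E)
  obtain ⟨l, -, hl⟩ := exists_dual_vector ℂ v (norm_ne_zero_iff.2 hv)
  let U' : Set X := φ.symm '' ball (φ (F x₀)) ε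
  have u1 : IsOpen U' := φ.isOpen_image_symm_of_subset_target isOpen_ball fun e he => (h2 he).1
  have u2 : IsPreconnected U' := (convex_ball _ _).isPreconnected.image _
    (φ.continuousOn_symm.mono fun e he => (h2 he).1)
  have u3 : U' ⊆ U := by
    rintro _ ⟨e, he, rfl⟩
    exact (h2 he).2
  have u4 : U' ⊆ φ.source := by
    rintro _ ⟨e, he, rfl⟩
    exact φ.map_target (h2 he).1
  have u5 : F x₀ ∈ U' := ⟨_, mem_ball_self hε, φ.left_inv hx⟩
  let h' : ℕ ⊕ Bool → X → ℂ := Sum.elim h fun b => cond b (fun x => l (φ x)) fun _ => 1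
  have hh' : ∀ i, MDifferentiableOn 𝓘(ℂ, E) 𝓘(ℂ, ℂ) (h' i) U' := by
    rintro (i | _ | _)
    · exact (hh i).mono u3
    · exact mdifferentiableOn_const
    · exact fun x hx' => (MDifferentiableAt.comp (I' := 𝓘(ℂ, E)) x l.mdifferentiableAt
        ((mdifferentiable_chart (I := 𝓘(ℂ, E)) (F x₀)).mdifferentiableAt
          (u4 hx'))).mdifferentiableWithinAt
  obtain ⟨f, f1, f2, f3⟩ := dom_ctr u1 u2 hh' hF h0 u5
  obtain ⟨g, g1, g2, g3, g4⟩ := closure_nonempty_iff.1 ⟨_, free_curve hZ hd u1 hh' f1 f2 f3⟩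
  refine ⟨g, g1, ?_, g2, u3 g3, fun q hq h3 => ident hU hc hh hq h1 ?_⟩
  · by_contra h3
    push Not at h3
    have h4 := g4 (h' (Sum.inr true) - l (φ (g 0)) • h' (Sum.inr false)) (Submodule.sub_mem _
      (Submodule.subset_span ⟨_, rfl⟩) (Submodule.smul_mem _ _ (Submodule.subset_span ⟨_, rfl⟩)))
      (Eventually.of_forall fun t => by simp [h', h3 t 0])
    have h5 : ∀ e ∈ ball (φ (F x₀)) ε, l e = l (φ (g 0)) := fun e he => by
      have := h4 _ ⟨e, he, rfl⟩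
      simpa [h', φ.right_inv (h2 he).1, sub_eq_zero] using this
    have h6 : Tendsto (fun z : ℂ => φ (F x₀) + z • v) (𝓝[≠] 0) (𝓝 (φ (F x₀))) := by
      simpa using ((by fun_prop : Continuous fun z : ℂ => φ (F x₀) + z • v).tendsto 0).mono_left
        (nhdsWithin_le_nhds (s := {0}ᶜ))
    obtain ⟨z, h7, h8⟩ := ((h6.eventually (ball_mem_nhds _ hε)).and self_mem_nhdsWithin).exists
    have h9 := (h5 _ h7).trans (h5 _ (mem_ball_self hε)).symm
    simp [hl, hv] at h9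
    exact h8 h9
  · filter_upwards [u1.mem_nhds u5] with x hx'
    refine g4 q (Submodule.span_mono ?_ hq) h3 x hx'
    rintro _ ⟨i, rfl⟩
    exact ⟨Sum.inl i, rfl⟩
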