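import Pool.Agent.Lib.MP_cd3a7b_ag.GlueB
import Pool.Agent.Lib.MP_cd3a7b_ag.Avoid
import Pool.Agent.Lib.MP_cd3a7b_ag.Dens

/-!
An entire curve that moves in a dominating family is a limit of entire curves avoiding a small
closed set.
-/

namespace Pool.Agent.Lib.MP_cd3a7b_ag

open Metric Set Filter Topology
open scoped Manifold

variable {E : Type*} [NormedAddCommGroup E] [NormedSpace ℂ E]
  {X : Type*} [TopologicalSpace X] [ChartedSpace E X]
  {P : Type*} [NormedAddCommGroup P] [NormedSpace ℂ P]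

theorem diff_comp {U : Set X} (hU : IsOpen U) {q : X → ℂ}
    (hq : MDifferentiableOn 𝓘(ℂ, E) 𝓘(ℂ) q U) {S : P → X} {y : P} (h : Hol E S y)
    (hy : S y ∈ U) : DifferentiableAt ℂ (fun z => q (S z)) y :=
  mdifferentiableAt_iff_differentiableAt.1 (MDifferentiableAt.comp (I' := 𝓘(ℂ, E)) y
    ((hq _ hy).mdifferentiableAt (hU.mem_nhds hy)) h)

theorem diff_comp_span {ι : Type*} {U : Set X} (hU : IsOpen U) {h : ι → X → ℂ}
    (hh : ∀ i, MDifferentiableOn 𝓘(ℂ, E) 𝓘(ℂ) (h i) U) {q : X → ℂ}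
    (hq : q ∈ Submodule.span ℂ (range h)) {S : P → X} {y : P} (hS : Hol E S y) (hy : S y ∈ U) :
    DifferentiableAt ℂ (fun z => q (S z)) y := by
  induction hq using Submodule.span_induction with
  | mem q hq =>
    obtain ⟨i, rfl⟩ := hq
    exact diff_comp hU (hh i) hS hy
  | zero => exact differentiableAt_const _
  | add q q' _ _ h1 h2 => exact h1.add h2
  | smul c q _ h1 => exact h1.const_mul c

theorem Spray.generic_li {κ : Type*} [Countable κ] {U : Set X} (hU : IsOpen U) {h : κ → X → ℂ}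
    (hh : ∀ i, MDifferentiableOn 𝓘(ℂ, E) 𝓘(ℂ) (h i) U) {S : ℂ × P → X} (hS : Spray E S)
    {K T : Set ℂ} (hK : IsCompact K) (hT : T ⊆ K) (h1 : ∀ t ∈ K, S (t, 0) ∈ U)
    (h2 : LinearIndependent ℂ fun k (t : T) => h k (S (t, 0))) :
    ∀ᶠ p in 𝓝 (0 : P) ⊓ residual P, (∀ t ∈ K, S (t, p) ∈ U) ∧
      LinearIndependent ℂ fun k (t : T) => h k (S (t, p)) := by
  obtain ⟨ρ, hρ, hρ'⟩ := Metric.eventually_nhds_iff_ball.1 (Eventually.and hS
    (tube hK hU (fun t _ => (hS.self_of_nhds t).continuousAt) h1))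
  have key := Pool.Agent.Lib.MP_cd3a7b_ag.generic_li (isOpen_ball (x := (0 : P)) (ε := ρ))
    (convex_ball _ _) (w := fun p k (t : T) => h k (S (t, p)))
    (fun k t p hp => (diff_comp hU (hh k) ((hρ' p hp).1 t).slice
      ((hρ' p hp).2 t (hT t.2))).differentiableWithinAt) (mem_ball_self hρ) h2
  filter_upwards [mem_inf_of_left (ball_mem_nhds (0 : P) hρ), mem_inf_of_right key] with p k1 k2
  exact ⟨(hρ' p k1).2, k2 k1⟩

variable [FiniteDimensional ℂ E] [IsManifold 𝓘(ℂ, E) 1 X]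

/-- The curves that are centres of dominating families with parameter space `E`. -/
def Ctr (E : Type*) [NormedAddCommGroup E] [NormedSpace ℂ E] (X : Type*) [TopologicalSpace X]
    [ChartedSpace E X] : Set C(ℂ, X) :=
  {g | ∃ S : ℂ × E → X, Spray E S ∧ (∀ t, S (t, 0) = g t) ∧ ∃ t₀, Sbm E (fun q => S (t₀, q)) 0}

theorem mem_ctr {S : ℂ × P → X} (hS : Spray E S) {t₀ : ℂ} (h0 : Sbm E S (t₀, 0)) {f : C(ℂ, X)}
    (hf : ∀ t, f t = S (t, 0)) : f ∈ Ctr E X := by
  have h1 : Spray E fun y : ℂ × (ℂ × P) => S (y.1 + y.2.1, y.2.2) := by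
    filter_upwards [(continuous_snd.tendsto (0 : ℂ × P)).eventually hS] with p hp t
    exact Hol.pre (S := S) (L := fun y : ℂ × (ℂ × P) => (y.1 + y.2.1, y.2.2)) (hp _) (by fun_prop)
  have hx := mem_chart_source E (S (t₀, 0))
  have h2 : Sbm E (fun q : ℂ × P => S (t₀ + q.1, q.2)) 0 := by
    refine (sbm_iff (h1.self_of_nhds t₀).slice (x := S (t₀, 0)) (by simp)).2 ?_
    have h3 := (sbm_iff (hS.self_of_nhds t₀) hx).1 h0
    have h4 := fderiv_comp_add_left (𝕜 := ℂ) (f := fun z => chartAt E (S (t₀, 0)) (S z))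
      (x := 0) (t₀, 0)
    rw [add_zero] at h4
    rw [← h4] at h3
    convert h3 using 5 with q
    exact congrArg S (by ext <;> simp)
  obtain ⟨S', k1, k2, k3⟩ := (recentre h1 h2).self_of_nhds
  exact ⟨S', k1, fun t => by simpa [hf] using k2 t, t₀, k3⟩

theorem local_step {Z : Set X} (hZ : IsClosed Z)
    (hd : ∀ x : X, dimH (chartAt E x '' (Z ∩ (chartAt E x).source)) + 2 < 2 * Module.finrank ℂ E)
    {κ : Type*} [Countable κ] {U : Set X} (hU : IsOpen U) {h : κ → X → ℂ}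
    (hh : ∀ i, MDifferentiableOn 𝓘(ℂ, E) 𝓘(ℂ) (h i) U) {K T : Set ℂ} (hK : IsCompact K)
    (hT : T ⊆ K) {A : Set C(ℂ, X)} (hA : A = Ctr E X ∩ {g | MapsTo g K U ∧
      LinearIndependent ℂ fun k (t : T) => h k (g t)}) (f : C(ℂ, X)) (a : ℂ) :
    ∃ D ∈ 𝓝 a, IsCompact D ∧ ∀ᶠ g in 𝓝 f, g ∈ A → g ∈ closure (A ∩ {g | MapsTo g D Zᶜ}) := by
  have cE : CompleteSpace E := FiniteDimensional.complete ℂ E
  obtain ⟨R, hR, h1⟩ := Metric.nhds_basis_closedBall.mem_iff.1
    (f.continuous.continuousAt (x := a) (chart_source_mem_nhds E (f a)))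
  refine ⟨closedBall a (R / 2), closedBall_mem_nhds a (half_pos hR), isCompact_closedBall _ _, ?_⟩
  filter_upwards [(ContinuousMap.isOpen_setOfPred_mapsTo (isCompact_closedBall a R)
    (chartAt E (f a)).open_source).mem_nhds h1] with g hg hgA
  rw [hA] at hgA ⊢
  obtain ⟨⟨S, k1, k2, t₀, k3⟩, k4, k5⟩ := hgA
  obtain ⟨S', m1, m2, m3⟩ := glue k1 k3 (half_pos hR) (half_lt_self hR)
    (fun t ht => by rw [k2]; exact hg ht)
  obtain ⟨ρ, hρ, hρ'⟩ := Metric.eventually_nhds_iff_ball.1 m1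
  obtain ⟨c, c1, c2⟩ := exists_curry isOpen_ball (fun t p hp => (hρ' p hp t).continuousAt) g
  have c0 : c 0 = g := by
    ext t
    rw [c2 0 (mem_ball_self hρ), m2, k2]
  have := neBot_residual (0 : E × E)
  refine mem_closure_of_tendsto (b := 𝓝 (0 : E × E) ⊓ residual (E × E))
    ((c0 ▸ (c1 0 (mem_ball_self hρ)).tendsto).mono_left inf_le_left) ?_
  filter_upwards [mem_inf_of_left (ball_mem_nhds (0 : E × E) hρ),
    mem_inf_of_left (recentre m1 (m3 a (mem_closedBall_self (half_pos hR).le))),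
    avoid m1 hZ hd (isCompact_closedBall _ _) m3,
    m1.generic_li hU hh hK hT (fun t ht => by rw [m2, k2]; exact k4 ht)
      (by simpa only [m2, k2] using k5)] with p p1 ⟨S'', p2, p3, p4⟩ p5 p6
  refine ⟨⟨⟨S'', p2, fun t => by rw [p3, c2 p p1], a, p4⟩, fun t ht => ?_, ?_⟩, fun t ht => ?_⟩
  · rw [c2 p p1]; exact p6.1 t ht
  · simpa only [c2 p p1] using p6.2
  · rw [c2 p p1]; exact p5 t ht

theorem free_curve [T2Space X] [SecondCountableTopology X] {Z : Set X} (hZ : IsClosed Z)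
    (hd : ∀ x : X, dimH (chartAt E x '' (Z ∩ (chartAt E x).source)) + 2 < 2 * Module.finrank ℂ E)
    {ι : Type*} [Countable ι] {U : Set X} (hU : IsOpen U) {h : ι → X → ℂ}
    (hh : ∀ i, MDifferentiableOn 𝓘(ℂ, E) 𝓘(ℂ) (h i) U) {f : C(ℂ, X)} (hf : f ∈ Ctr E X) {t₁ : ℂ}
    (h1 : f t₁ ∈ U)
    (h2 : ∀ q ∈ Submodule.span ℂ (range h), (∀ᶠ t in 𝓝 t₁, q (f t) = 0) → ∀ x ∈ U, q x = 0) :
    f ∈ closure {g : C(ℂ, X) | (∀ t, Hol E g t) ∧ (∀ t, g t ∉ Z) ∧ g t₁ ∈ U ∧
      ∀ q ∈ Submodule.span ℂ (range h), (∀ᶠ t in 𝓝 t₁, q (g t) = 0) → ∀ x ∈ U, q x = 0} := by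
  have cE : CompleteSpace E := FiniteDimensional.complete ℂ E
  have := FiniteDimensional.proper ℂ E
  have := ChartedSpace.locallyCompactSpace E X
  have := completelyMetrizable X
  have := completelyMetrizable_map X
  obtain ⟨δ, hδ, h3⟩ := Metric.nhds_basis_closedBall.mem_iff.1
    (f.continuous.continuousAt (x := t₁) (hU.mem_nhds h1))
  obtain ⟨κ, a, _, hκ⟩ := exists_basis.{0} h U
  obtain ⟨A, hA⟩ : ∃ A : Set C(ℂ, X), A = Ctr E X ∩ {g | MapsTo g (closedBall t₁ δ) U ∧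
    LinearIndependent ℂ fun k (t : ball t₁ δ) => h (a k) (g t)} := ⟨_, rfl⟩
  have hfA : f ∈ A := by
    rw [hA]
    refine ⟨hf, h3, (hκ (ball t₁ δ) (fun t => f t) fun t => h3 (ball_subset_closedBall t.2)).2
      fun q hq h4 => h2 q hq ?_⟩
    filter_upwards [ball_mem_nhds t₁ hδ] with t ht
    exact h4 ⟨t, ht⟩
  let C : ℕ ⊕ Finset κ → Set C(ℂ, X) := Sum.elim (fun n => {g | MapsTo g (closedBall 0 n) Zᶜ})
    fun s => {g | MapsTo g (closedBall t₁ δ) U ∧
      LinearIndependent ℂ fun (k : s) (t : ball t₁ δ) => h (a k) (g t)}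
  have key := baire_closure (A := A) (C := C) ?_ ?_ hfA
  · refine closure_mono ?_ key
    rintro g ⟨g1, g2⟩
    rw [mem_iInter] at g2
    have g3 : ∀ t, Hol E g t := by
      refine closure_minimal (fun g hg => ?_) isClosed_hol g1
      rw [hA] at hg
      obtain ⟨⟨S, k1, k2, -⟩, -⟩ := hg
      intro t
      rw [← funext k2]
      exact Hol.pre (L := fun t => (t, (0 : E))) (k1.self_of_nhds t) (by fun_prop)
    have g4 : MapsTo g (closedBall t₁ δ) U := (g2 (Sum.inr ∅)).1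
    refine ⟨g3, fun t => ?_, g4 (mem_closedBall_self hδ.le), fun q hq h4 => ?_⟩
    · obtain ⟨n, hn⟩ := exists_nat_ge ‖t‖
      exact g2 (Sum.inl n) (mem_closedBall_zero_iff.2 hn)
    · refine (hκ (ball t₁ δ) (fun t => g t) fun t => g4 (ball_subset_closedBall t.2)).1
        (linearIndependent_iff_finset_linearIndependent.2 fun s => (g2 (Sum.inr s)).2) q hq
        fun t => ?_
      by_contra h5
      obtain ⟨z, h6, h7⟩ := ((frequently_ne_zero isOpen_ball (convex_ball t₁ δ)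
        (Δ := fun z => q (g z)) (fun z hz => (diff_comp_span hU hh hq (g3 z)
          (g4 (ball_subset_closedBall hz))).differentiableWithinAt) t.2 h5
        (mem_ball_self hδ)).and_eventually h4).exists
      exact h6 h7
  · rintro (n | s)
    · exact ContinuousMap.isOpen_setOfPred_mapsTo (isCompact_closedBall _ _) hZ.isOpen_compl
    · refine isOpen_iff_mem_nhds.2 fun g hg => Eventually.and
        ((ContinuousMap.isOpen_setOfPred_mapsTo (isCompact_closedBall _ _) hU).mem_nhds hg.1)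
        (eventually_li (w := fun (g : C(ℂ, X)) (k : s) (t : ball t₁ δ) => h (a k) (g t))
          (fun k t => ?_) hg.2)
      exact ContinuousAt.comp (g := h (a k)) (f := fun g : C(ℂ, X) => g t)
        ((hh _).continuousOn.continuousAt (hU.mem_nhds (hg.1 (ball_subset_closedBall t.2))))
        (continuous_eval_const (t : ℂ)).continuousAt
  · rintro (n | s)
    · exact dense_of_local hZ.isOpen_compl (fun f _ b => local_step hZ hd hU (fun k => hh (a k))
        (isCompact_closedBall t₁ δ) ball_subset_closedBall hA f b) (isCompact_closedBall _ _)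
    · refine fun g hg => subset_closure ⟨hg, ?_⟩
      rw [hA] at hg
      exact ⟨hg.2.1, hg.2.2.comp _ Subtype.val_injective⟩

end Pool.Agent.Lib.MP_cd3a7b_ag
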