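import Pool.Agent.Lib.MP_cd3a7b_ag.Laurent

/-!
The nonlinear splitting lemma on an annulus.
-/

namespace Pool.Agent.Lib.MP_cd3a7b_ag

open Metric Set Filter Topology

variable {E : Type*} [NormedAddCommGroup E] [NormedSpace ℂ E] [FiniteDimensional ℂ E]

theorem glue_chart (G : ℂ × E → E) {a : ℂ} {r R ρ C C' ε : ℝ} (hr : 0 < r) (hrR : r < R)
    (hρ : 0 < ρ) (hε : 0 < ε)
    (hG : ∀ t ∈ ball a R, ∀ x ∈ ball (0 : E) ρ, DifferentiableAt ℂ G (t, x))
    (hb : ∀ t ∈ ball a R, ∀ x ∈ ball (0 : E) ρ, ‖G (t, x)‖ ≤ C)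
    (N : ℂ → E →L[ℂ] E) (hN : DifferentiableOn ℂ N (ball a R \ closedBall a r))
    (hNb : ∀ t ∈ ball a R \ closedBall a r, ‖N t‖ ≤ C')
    (hMN : ∀ t ∈ ball a R \ closedBall a r, ∀ v, fderiv ℂ (fun x => G (t, x)) 0 (N t v) = v) :
    ∃ (η : E × E → HS (closedBall a r)ᶜ E) (u : E × E → HS (ball a R) E),
      (∀ᶠ p in 𝓝 (0 : E × E), DifferentiableAt ℂ η p ∧ DifferentiableAt ℂ u p ∧ ‖η p‖ < ρ ∧
        ‖u p‖ < ε ∧ ∀ t ∈ ball a R \ closedBall a r, G (t, (η p).1 t) = G (t, 0) + (u p).1 t) ∧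
      (∀ᶠ l in 𝓝 (0 : E), (∀ t ∈ (closedBall a r)ᶜ, (η (l, 0)).1 t = l) ∧
        ∀ t ∈ ball a R, G (t, 0) + (u (l, 0)).1 t = G (t, l)) ∧
      ∀ t ∈ ball a R, Function.Surjective (fderiv ℂ (fun p => (u p).1 t) 0) := by
  have cE : CompleteSpace E := FiniteDimensional.complete ℂ E
  have oA : IsOpen (ball a R \ closedBall a r) := isOpen_ball.sdiff isClosed_closedBall
  have c1 := completeSpace_HS (F := E) oA
  obtain ⟨N1, hN1, dN1⟩ := exists_nem oA G (fun t ht => hG t ht.1) fun t ht => hb t ht.1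
  obtain ⟨N2, hN2, dN2⟩ := exists_nem isOpen_ball G hG hb
  obtain ⟨Po, Pi, hP⟩ := exists_split (F := E) (a := a) hr hrR
  obtain ⟨MI, hMI⟩ := exists_op N subset_rfl hN hNb
  obtain ⟨cO, hcO⟩ := exists_cst (F := E) (closedBall a r)ᶜ
  obtain ⟨cD, hcD⟩ := exists_cst (F := E) (ball a R)
  obtain ⟨cA, hcA⟩ := exists_cst (F := E) (ball a R \ closedBall a r)
  obtain ⟨rO, hrO⟩ := exists_res (F := E) (U := (closedBall a r)ᶜ)
    (U' := ball a R \ closedBall a r) fun t ht => ht.2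
  obtain ⟨rD, hrD⟩ := exists_res (F := E) (U := ball a R)
    (U' := ball a R \ closedBall a r) fun t ht => ht.1
  obtain ⟨MA, dMA, hMA⟩ := dN1 0 (by simpa using hρ)
  obtain ⟨MD, dMD, hMD⟩ := dN2 0 (by simpa using hρ)
  simp only [HS_zero] at hMA hMD
  let Y := (E × E) × HS (ball a R \ closedBall a r) E
  let π1 : Y →L[ℂ] E := (ContinuousLinearMap.fst ℂ E E).comp (ContinuousLinearMap.fst ℂ _ _)
  let π2 : Y →L[ℂ] E := (ContinuousLinearMap.snd ℂ E E).comp (ContinuousLinearMap.fst ℂ _ _)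
  let π3 : Y →L[ℂ] HS (ball a R \ closedBall a r) E := ContinuousLinearMap.snd ℂ _ _
  let ηf : Y →L[ℂ] HS (closedBall a r)ᶜ E := cO.comp π1 + Po.comp (MI.comp π3)
  let L1 : Y →L[ℂ] HS (ball a R) E := cD.comp π1
  let L2 : Y →L[ℂ] HS (ball a R) E := cD.comp π2 - MD.comp (Pi.comp (MI.comp π3))
  let L3 : Y →L[ℂ] HS (ball a R \ closedBall a r) E := rO.comp ηf
  let L4 : Y →L[ℂ] HS (ball a R \ closedBall a r) E := cA.comp π2
  let uf : Y → HS (ball a R) E := fun y => N2 (L1 y) - N2 0 + L2 y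
  let Θ : Y → Y := fun y => (y.1, N1 (L3 y) - N1 0 - rD (uf y) + L4 y)
  have small : ∀ {W : Type _} [NormedAddCommGroup W] [NormedSpace ℂ W] (L : Y →L[ℂ] W),
      ∀ᶠ y in 𝓝 (0 : Y), ‖L y‖ < ρ := fun L =>
    L.continuous.norm.continuousAt.eventually (gt_mem_nhds (by simpa using hρ))
  have duf : ∀ y, ‖L1 y‖ < ρ → DifferentiableAt ℂ uf y := fun y hy => by
    obtain ⟨D, hD, -⟩ := dN2 _ hy
    exact ((hD.differentiableAt.comp y L1.differentiableAt).sub_const _).add L2.differentiableAt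
  have dΘ : ∀ᶠ y in 𝓝 (0 : Y), DifferentiableAt ℂ Θ y := by
    filter_upwards [small L1, small L3] with y h1 h3
    obtain ⟨D, hD, -⟩ := dN1 _ h3
    exact differentiableAt_fst.prodMk
      ((((hD.differentiableAt.comp y L3.differentiableAt).sub_const _).sub
        (rD.differentiableAt.comp y (duf y h1))).add L4.differentiableAt)
  have huf0 : HasFDerivAt uf (MD.comp L1 + L2) 0 := by
    have h1 : HasFDerivAt N2 MD (L1 0) := by rwa [map_zero]
    exact ((h1.comp 0 L1.hasFDerivAt).sub_const _).add L2.hasFDerivAt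
  have hΘ0 : HasFDerivAt Θ ((ContinuousLinearEquiv.refl ℂ Y : Y ≃L[ℂ] Y) : Y →L[ℂ] Y) 0 := by
    have h1 : HasFDerivAt N1 MA (L3 0) := by rwa [map_zero]
    have h2 := hasFDerivAt_fst.prodMk ((((h1.comp 0 L3.hasFDerivAt).sub_const (N1 0)).sub
      (rD.hasFDerivAt.comp 0 huf0)).add L4.hasFDerivAt)
    refine h2.congr_fderiv ?_
    refine ContinuousLinearMap.ext fun y => Prod.ext rfl (HS_ext fun t ht => ?_)
    change (MA (rO (cO y.1.1 + Po (MI y.2))) - rD (MD (cD y.1.1) + (cD y.1.2 - MD (Pi (MI y.2))))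
      + cA y.1.2).1 t = y.2.1 t
    rw [HS_add, HS_sub, hMA _ t ht, hrO _ t ht, hrD _ t ht, HS_add, HS_add, HS_sub, hMD _ t ht.1,
      hMD _ t ht.1, hcO _ t ht.2, hcD _ t ht.1, hcD _ t ht.1, hcA _ t ht, map_add,
      ← hMN t ht (y.2.1 t), ← hMI _ t ht, ← hP _ t ht, map_add]
    abel
  have hC1 : ContDiffAt ℂ 1 Θ 0 := contDiffAt_one dΘ
  have hS := hC1.hasStrictFDerivAt' hΘ0 one_ne_zero
  have uf0 : uf 0 = 0 := by simp [uf]
  have Θ0 : Θ 0 = 0 := by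
    simp only [Θ, uf0, map_zero, sub_self, add_zero]
    rfl
  let Ψ : Y → Y := hC1.localInverse hΘ0 one_ne_zero
  have Ψ0 : Ψ 0 = 0 := by
    have := hC1.localInverse_apply_image hΘ0 one_ne_zero
    rwa [Θ0] at this
  have cΨ : ContDiffAt ℂ 1 Ψ 0 := by
    have := hC1.to_localInverse hΘ0 one_ne_zero
    rwa [Θ0] at this
  have rΨ : ∀ᶠ y in 𝓝 (0 : Y), Θ (Ψ y) = y := by
    have := hS.eventually_right_inverse
    rwa [Θ0] at this
  have lΨ : ∀ᶠ y in 𝓝 (0 : Y), Ψ (Θ y) = y := hS.eventually_left_inverse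
  have dΨ0 : HasFDerivAt Ψ (ContinuousLinearMap.id ℂ Y) 0 := by
    have := hS.to_localInverse.hasFDerivAt
    rwa [Θ0] at this
  have dΨ : ∀ᶠ y in 𝓝 (0 : Y), DifferentiableAt ℂ Ψ y :=
    (cΨ.eventually (by simp)).mono fun y hy => hy.differentiableAt one_ne_zero
  let j : E × E →L[ℂ] Y :=
    (ContinuousLinearMap.id ℂ _).prod (cA.comp (ContinuousLinearMap.snd ℂ E E))
  have tj : Tendsto j (𝓝 0) (𝓝 0) := j.continuous.tendsto' 0 0 (map_zero j)
  have tΨ : Tendsto Ψ (𝓝 0) (𝓝 0) := by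
    have := cΨ.continuousAt.tendsto
    rwa [Ψ0] at this
  have tu : ∀ᶠ y in 𝓝 (0 : Y), ‖uf y‖ < ε :=
    huf0.continuousAt.norm.eventually (gt_mem_nhds (by simpa [uf0] using hε))
  refine ⟨fun p => ηf (Ψ (j p)), fun p => uf (Ψ (j p)), ?_, ?_, fun t ht => ?_⟩
  · filter_upwards [tj.eventually dΨ, tj.eventually rΨ, (tΨ.comp tj).eventually (small L1),
      (tΨ.comp tj).eventually (small L3), (tΨ.comp tj).eventually (small ηf),
      (tΨ.comp tj).eventually tu] with p h1 h2 h3 h4 h5 h6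
    simp only [Function.comp_apply] at h3 h4 h5 h6
    have h7 : DifferentiableAt ℂ (fun p => Ψ (j p)) p := h1.comp p j.differentiableAt
    refine ⟨ηf.differentiableAt.comp p h7, (duf _ h3).comp p h7, h5, h6, fun t ht => ?_⟩
    have e1 : (Ψ (j p)).1 = p := congrArg Prod.fst h2
    have e2 := congrArg (fun y : Y => y.2.1 t) h2
    change (N1 (L3 (Ψ (j p))) - N1 0 - rD (uf (Ψ (j p))) + cA (Ψ (j p)).1.2).1 t = (cA p.2).1 t at e2
    rw [e1, HS_add, HS_sub, HS_sub, hN1 _ h4 t ht, hN1 0 (by simpa using hρ) t ht, hrD _ t ht,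
      add_eq_right, sub_sub, sub_eq_zero] at e2
    change G (t, (rO (ηf (Ψ (j p)))).1 t) = _ at e2
    rwa [hrO _ t ht] at e2
  · let i : E →L[ℂ] Y :=
      (ContinuousLinearMap.inl ℂ _ _).comp (ContinuousLinearMap.inl ℂ E E)
    have ti : Tendsto i (𝓝 0) (𝓝 0) := i.continuous.tendsto' 0 0 (map_zero i)
    filter_upwards [ti.eventually lΨ, ti.eventually (small L1), ti.eventually (small L3)]
      with l h1 h2 h3
    have e0 : ∀ t ∈ (closedBall a r)ᶜ, (ηf (i l)).1 t = l := fun t ht => by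
      change (cO l + Po (MI 0)).1 t = l
      simp [hcO _ t ht]
    have e1 : ∀ t ∈ ball a R, G (t, 0) + (uf (i l)).1 t = G (t, l) := fun t ht => by
      change G (t, 0) + (N2 (L1 (i l)) - N2 0 + (cD 0 - MD (Pi (MI 0)))).1 t = _
      rw [HS_add, HS_sub, hN2 _ h2 t ht, hN2 0 (by simpa using hρ) t ht]
      change _ + (G (t, (cD l).1 t) - _ + _) = _
      simp [hcD _ t ht]
    have e2 : Θ (i l) = j (l, 0) := by
      refine Prod.ext rfl (HS_ext fun t ht => ?_)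
      change (N1 (L3 (i l)) - N1 0 - rD (uf (i l)) + cA 0).1 t = (cA 0).1 t
      rw [HS_add, HS_sub, HS_sub, hN1 _ h3 t ht, hN1 0 (by simpa using hρ) t ht, hrD _ t ht,
        add_eq_right, sub_sub, sub_eq_zero]
      change G (t, (rO (ηf (i l))).1 t) = _
      rw [hrO _ t ht, e0 t ht.2]
      exact (e1 t ht.1).symm
    rw [← e2, h1]
    exact ⟨e0, e1⟩
  · have h1 : HasFDerivAt uf (MD.comp L1 + L2) (Ψ (j 0)) := by rwa [map_zero, Ψ0]
    have h2 : HasFDerivAt Ψ (ContinuousLinearMap.id ℂ Y) (j 0) := by rwa [map_zero]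
    have h3 := (ev (ball a R) E t).hasFDerivAt.comp 0 (h1.comp 0 (h2.comp 0 j.hasFDerivAt))
    have h4 : fderiv ℂ (fun p => (uf (Ψ (j p))).1 t) 0 = _ := h3.fderiv
    rw [h4]
    intro v
    refine ⟨((Pi (MI (cA v))).1 t, v), ?_⟩
    change (MD (cD ((Pi (MI (cA v))).1 t)) + (cD v - MD (Pi (MI (cA v))))).1 t = v
    rw [HS_add, HS_sub, hMD _ t ht, hMD _ t ht, hcD _ t ht, hcD _ t ht]
    abel

end Pool.Agent.Lib.MP_cd3a7b_ag
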