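import Pool.Agent.Lib.MP_cd3a7b_ag.GlueA
import Pool.Agent.Lib.MP_cd3a7b_ag.Chart
import Pool.Agent.Lib.MP_cd3a7b_ag.Baire

/-!
A dominating family of entire curves is made submersive over a disc.
-/

namespace Pool.Agent.Lib.MP_cd3a7b_ag

open Metric Set Filter Topology
open scoped Manifold

variable {E : Type*} [NormedAddCommGroup E] [NormedSpace ℂ E] [FiniteDimensional ℂ E]
  {X : Type*} [TopologicalSpace X] [ChartedSpace E X] [IsManifold 𝓘(ℂ, E) 1 X]

theorem glue {S : ℂ × E → X} (h : Spray E S) {t₀ : ℂ} (h0 : Sbm E (fun q => S (t₀, q)) 0) {x : X}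
    {a : ℂ} {r₀ R₀ : ℝ} (hr₀ : 0 < r₀) (hlt : r₀ < R₀)
    (hx : ∀ t ∈ closedBall a R₀, S (t, 0) ∈ (chartAt E x).source) :
    ∃ S' : ℂ × (E × E) → X, Spray E S' ∧ (∀ t, S' (t, 0) = S (t, 0)) ∧
      ∀ t ∈ closedBall a r₀, Sbm E (fun q => S' (t, q)) 0 := by
  classical
  have cE : CompleteSpace E := FiniteDimensional.complete ℂ E
  have hfin : {t ∈ closedBall a R₀ | ¬Sbm E (fun q => S (t, q)) 0}.Finite := by
    by_contra hinf
    obtain ⟨b, -, hb⟩ := Set.Infinite.exists_accPt_of_subset_isCompact hinf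
      (isCompact_closedBall a R₀) (sep_subset _ _)
    rw [accPt_iff_frequently_nhdsNE] at hb
    obtain ⟨t, h1, h2⟩ := (hb.and_eventually (h.eventually_sbm h0 b)).exists
    exact h1.2 h2
  obtain ⟨r, R, h1, h2, h3, h4⟩ := exists_annulus (hfin.image fun t => dist t a) hlt
  have hsub : closedBall a R ⊆ closedBall a R₀ := closedBall_subset_closedBall h3.le
  obtain ⟨ρ, hρ, hρ'⟩ := Metric.nhds_basis_closedBall.eventually_iff.1 (Eventually.and h
    (tube (isCompact_closedBall a R) (chartAt E x).open_source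
      (fun t _ => (h.self_of_nhds t).continuousAt) fun t ht => hx t (hsub ht)))
  set φ := chartAt E x with hφ
  let G : ℂ × E → E := fun y => φ (S y)
  have hG : ∀ t ∈ closedBall a R, ∀ q ∈ closedBall (0 : E) ρ, DifferentiableAt ℂ G (t, q) :=
    fun t ht q hq => ((hρ' hq).1 t).chart ((hρ' hq).2 t ht)
  obtain ⟨C, hC⟩ :=
    ((isCompact_closedBall a R).prod (isCompact_closedBall (0 : E) ρ)).exists_bound_of_continuousOn
      (f := G) fun y hy => (hG y.1 hy.1 y.2 hy.2).continuousAt.continuousWithinAt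
  let M : ℂ → E →L[ℂ] E := fun t => fderiv ℂ (fun q => G (t, q)) 0
  have hM : ∀ t ∈ closedBall a R \ ball a r, IsUnit (M t) := by
    intro t ht
    have h5 : Sbm E (fun q => S (t, q)) 0 := by
      by_contra h5
      rcases h4 _ ⟨t, ⟨hsub ht.1, h5⟩, rfl⟩ with h6 | h6
      · exact ht.2 h6
      · exact absurd ht.1 (not_le.2 h6)
    have h6 := (sbm_iff (h.self_of_nhds t).slice (hx t (hsub ht.1))).1 h5
    exact ContinuousLinearMap.isUnit_iff_bijective.2
      ⟨(LinearMap.injective_iff_surjective (f := (M t : E →ₗ[ℂ] E))).2 h6, h6⟩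
  have hN : ∀ t ∈ closedBall a R \ ball a r, DifferentiableAt ℂ (fun t => Ring.inverse (M t)) t :=
    fun t ht => (h.diff_slice (hx t (hsub ht.1))).inverse (hM t ht)
  obtain ⟨C', hC'⟩ := ((isCompact_closedBall a R).diff (isOpen_ball (x := a) (ε := r))
    ).exists_bound_of_continuousOn (f := fun t => Ring.inverse (M t))
      fun t ht => (hN t ht).continuousAt.continuousWithinAt
  have hann : ball a R \ closedBall a r ⊆ closedBall a R \ ball a r :=
    sdiff_subset_sdiff ball_subset_closedBall ball_subset_closedBall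
  have hG0 : ∀ t ∈ closedBall a R, DifferentiableAt ℂ (fun t => G (t, 0)) t := fun t ht =>
    DifferentiableAt.comp (f := fun t => (t, (0 : E))) t (hG t ht 0 (mem_closedBall_self hρ.le))
      (by fun_prop)
  obtain ⟨ε, hε, hε'⟩ := ((isCompact_closedBall a R).image_of_continuousOn (f := fun t => G (t, 0))
    fun t ht => (hG0 t ht).continuousAt.continuousWithinAt).exists_thickening_subset_open
      φ.open_target (by
        rintro _ ⟨t, ht, rfl⟩
        exact φ.map_source (hx t (hsub ht)))
  have htar : ∀ t ∈ ball a R, ∀ v : HS (ball a R) E, ‖v‖ < ε → G (t, 0) + v.1 t ∈ φ.target :=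
    fun t ht v hv => hε' (mem_thickening_iff.2 ⟨_, ⟨t, ball_subset_closedBall ht, rfl⟩, by
      simpa using (HS_norm_apply v t).trans_lt hv⟩)
  obtain ⟨η, u, g1, g2, g3⟩ := glue_chart G (hr₀.trans h1) h2 hρ hε
    (fun t ht q hq => hG t (ball_subset_closedBall ht) q (ball_subset_closedBall hq))
    (fun t ht q hq => hC (t, q) ⟨ball_subset_closedBall ht, ball_subset_closedBall hq⟩)
    (fun t => Ring.inverse (M t)) (fun t ht => (hN t (hann ht)).differentiableWithinAt)
    (fun t ht => hC' t (hann ht)) (fun t ht v => by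
      have := Ring.mul_inverse_cancel _ (hM t (hann ht))
      exact congrArg (fun A : E →L[ℂ] E => A v) this)
  have hη : ∀ (v : HS (closedBall a r)ᶜ E) (t : ℂ), ‖v‖ < ρ → v.1 t ∈ closedBall (0 : E) ρ :=
    fun v t hv => mem_closedBall_zero_iff.2 ((HS_norm_apply v t).trans hv.le)
  let S' : ℂ × (E × E) → X := fun y =>
    if y.1 ∈ ball a R then φ.symm (G (y.1, 0) + (u y.2).1 y.1) else S (y.1, (η y.2).1 y.1)
  have hS' : Spray E S' := by
    filter_upwards [g1.eventually_nhds] with p hp t
    obtain ⟨k1, k2, k3, k4, -⟩ := hp.self_of_nhds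
    by_cases ht : t ∈ ball a R
    · have k5 : DifferentiableAt ℂ (fun y : ℂ × (E × E) => G (y.1, 0) + (u y.2).1 y.1) (t, p) :=
        (DifferentiableAt.comp (g := fun t => G (t, 0)) (t, p) (hG0 t (ball_subset_closedBall ht))
          differentiableAt_fst).add (differentiableAt_eval isOpen_ball ht k2)
      refine (hol_symm k5 (htar t ht _ k4)).congr_of_eventuallyEq ?_
      filter_upwards [(continuous_fst.tendsto (t, p)).eventually (isOpen_ball.mem_nhds ht)]
        with y hy
      exact if_pos hy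
    · have ht' : t ∈ (closedBall a r)ᶜ := fun h5 => ht (closedBall_subset_ball h2 h5)
      have k5 : DifferentiableAt ℂ (fun y : ℂ × (E × E) => (y.1, (η y.2).1 y.1)) (t, p) :=
        differentiableAt_fst.prodMk
          (differentiableAt_eval isClosed_closedBall.isOpen_compl ht' k1)
      refine (Hol.pre (S := S) (L := fun y : ℂ × (E × E) => (y.1, (η y.2).1 y.1)) (y := (t, p))
        ((hρ' (hη _ t k3)).1 t) k5).congr_of_eventuallyEq ?_
      filter_upwards [(continuous_fst.tendsto (t, p)).eventually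
        (isClosed_closedBall.isOpen_compl.mem_nhds ht'),
        (continuous_snd.tendsto (t, p)).eventually hp] with y hy hy'
      by_cases hyR : y.1 ∈ ball a R
      · refine (if_pos hyR).trans ?_
        rw [← hy'.2.2.2.2 y.1 ⟨hyR, hy⟩]
        exact φ.left_inv ((hρ' (hη _ _ hy'.2.2.1)).2 _ (ball_subset_closedBall hyR))
      · exact if_neg hyR
  have hS0 : ∀ t, S' (t, 0) = S (t, 0) := by
    intro t
    obtain ⟨k1, k2⟩ := g2.self_of_nhds
    by_cases ht : t ∈ ball a R
    · refine (if_pos ht).trans ?_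
      exact (congrArg φ.symm (k2 t ht)).trans
        (φ.left_inv (hx t (hsub (ball_subset_closedBall ht))))
    · refine (if_neg ht).trans ?_
      exact congrArg (fun v => S (t, v)) (k1 t fun h5 => ht (closedBall_subset_ball h2 h5))
  refine ⟨S', hS', hS0, fun t ht => ?_⟩
  have ht' : t ∈ ball a R := closedBall_subset_ball (h1.trans h2) ht
  refine (sbm_iff (hS'.self_of_nhds t).slice (x := x)
    (by rw [hS0]; exact hx t (hsub (ball_subset_closedBall ht')))).2 ?_
  have e : (fun q => φ (S' (t, q))) =ᶠ[𝓝 0] fun q => G (t, 0) + (u q).1 t := by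
    filter_upwards [g1] with q hq
    exact (congrArg φ (if_pos ht')).trans (φ.right_inv (htar t ht' _ hq.2.2.2.1))
  rw [e.fderiv_eq, fderiv_const_add]
  exact g3 t ht'

/-- Changing the centre of a family and reducing the parameter space. -/
theorem recentre {P : Type*} [NormedAddCommGroup P] [NormedSpace ℂ P] {S : ℂ × P → X}
    (h : Spray E S) {t₀ : ℂ} (h0 : Sbm E (fun q => S (t₀, q)) 0) :
    ∀ᶠ p in 𝓝 (0 : P), ∃ S' : ℂ × E → X, Spray E S' ∧ (∀ t, S' (t, 0) = S (t, p)) ∧
      Sbm E (fun q => S' (t₀, q)) 0 := by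
  have hx := mem_chart_source E (S (t₀, 0))
  set x := S (t₀, 0)
  let H : P → E := fun q => chartAt E x (S (t₀, q))
  obtain ⟨l, hl⟩ := (fderiv ℂ H 0).exists_rightInverse_of_surjective
    (LinearMap.range_eq_top.2 ((sbm_iff (h.self_of_nhds t₀).slice hx).1 h0))
  have h1 : ∀ᶠ p in 𝓝 (0 : P), S (t₀, p) ∈ (chartAt E x).source :=
    (h.self_of_nhds t₀).slice.continuousAt.eventually (chart_source_mem_nhds E _)
  have h2 : ∀ᶠ p in 𝓝 (0 : P), DifferentiableAt ℂ H p := by
    filter_upwards [h, h1] with p k1 k2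
    exact (k1 t₀).slice.chart k2
  have h3 : ContinuousAt (fun p => ((fderiv ℂ H p).comp l).det) 0 :=
    ContinuousLinearMap.continuous_det.continuousAt.comp
      (((contDiffAt_one h2).continuousAt_fderiv (by simp)).clm_comp continuousAt_const)
  have h4 : ∀ᶠ p in 𝓝 (0 : P), ((fderiv ℂ H p).comp l).det ≠ 0 :=
    h3.eventually_ne (by rw [hl]; simp [ContinuousLinearMap.det])
  filter_upwards [h1, h2, h4, Eventually.eventually_nhds h] with p k1 k2 k3 k4
  have hL : Tendsto (fun q : E => p + l q) (𝓝 0) (𝓝 p) := by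
    simpa using (by fun_prop : Continuous fun q : E => p + l q).tendsto 0
  have hS' : Spray E fun y : ℂ × E => S (y.1, p + l y.2) := by
    filter_upwards [hL.eventually k4] with q hq t
    exact Hol.pre (S := S) (L := fun y : ℂ × E => (y.1, p + l y.2)) (hq t) (by fun_prop)
  refine ⟨_, hS', fun t => by simp, (sbm_iff (hS'.self_of_nhds t₀).slice (x := x)
    (by simpa using k1)).2 ?_⟩
  have k5 : HasFDerivAt H (fderiv ℂ H p) (p + l 0) := by simpa using k2.hasFDerivAt
  have k6 := (k5.comp 0 (l.hasFDerivAt.const_add p)).fderiv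
  rw [show fderiv ℂ (fun q => chartAt E x (S (t₀, p + l q))) 0 = _ from k6]
  exact (surjective_iff_det _).2 k3

end Pool.Agent.Lib.MP_cd3a7b_ag
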