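import Pool.Agent.Lib.MP_cd3a7b_ag.H8Chain

/-! Free entire curves with spanning tangent vectors. -/

namespace Pool.Agent.Lib.MP_cd3a7b_ag

open Metric Set Filter Topology
open scoped Manifold

variable {E : Type*} [NormedAddCommGroup E] [NormedSpace ℂ E] [FiniteDimensional ℂ E]
  {X : Type*} [TopologicalSpace X] [ChartedSpace E X] [IsManifold 𝓘(ℂ, E) 1 X]

theorem one_dir {f : C(ℂ, X)} (hf : f ∈ Ctr E X) {x : X} (h0 : f 0 = x) :
    ∃ Φ : ℂ × E → E, HasStrictFDerivAt Φ ((ContinuousLinearMap.fst ℂ ℂ E).smulRight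
      (deriv (fun t => chartAt E x (f t)) 0) + ContinuousLinearMap.snd ℂ ℂ E) (0, chartAt E x x) ∧
      Φ (0, chartAt E x x) = chartAt E x x ∧ ∀ᶠ y in 𝓝 ((0 : ℂ), chartAt E x x),
        Lnk E ((chartAt E x).symm y.2) ((chartAt E x).symm (Φ y)) := by
  have cE : CompleteSpace E := FiniteDimensional.complete ℂ E
  obtain ⟨S, k1, k2, k3⟩ := ctr_at hf 0
  have hx : S 0 = x := (k2 0).trans h0
  obtain ⟨N, a1, a2⟩ := chart_data k1 k3 hx
  set φ := chartAt E x
  have d1 := (contDiffAt_one (a2.mono fun y hy => hy.2)).hasStrictFDerivAt one_ne_zero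
  set D := fderiv ℂ (fun y => φ (S y)) 0
  let A : E →L[ℂ] E := D.comp (ContinuousLinearMap.inr ℂ ℂ E)
  have hA : Function.Surjective A := fun v => ⟨N v, a1 v⟩
  let A' : E ≃L[ℂ] E := ContinuousLinearEquiv.equivOfInverse A N
    (fun v => (LinearMap.injective_iff_surjective (f := (A : E →ₗ[ℂ] E))).2 hA (a1 _)) a1
  have d2 : HasStrictFDerivAt (fun q => φ (S (0, q))) (A' : E →L[ℂ] E) 0 :=
    HasStrictFDerivAt.comp (g := fun y => φ (S y)) 0 d1
      (ContinuousLinearMap.inr ℂ ℂ E).hasStrictFDerivAt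
  have e0 : φ (S (0, 0)) = φ x := congrArg φ hx
  let σ := d2.localInverse _ _ _
  have σ0 : σ (φ x) = 0 := e0 ▸ d2.localInverse_apply_image
  have d3 : HasStrictFDerivAt σ N (φ x) := e0 ▸ d2.to_localInverse
  have r3 : ∀ᶠ e in 𝓝 (φ x), φ (S (0, σ e)) = e := e0 ▸ d2.eventually_right_inverse
  have d4 : HasStrictFDerivAt (fun y : ℂ × E => (y.1, σ y.2)) ((ContinuousLinearMap.fst ℂ ℂ E).prod
      (N.comp (ContinuousLinearMap.snd ℂ ℂ E))) (0, φ x) :=
    hasStrictFDerivAt_fst.prodMk (HasStrictFDerivAt.comp (g := σ) _ d3 hasStrictFDerivAt_snd)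
  have t4 : Tendsto (fun y : ℂ × E => (y.1, σ y.2)) (𝓝 (0, φ x)) (𝓝 0) := by
    have := d4.continuousAt.tendsto
    rwa [σ0] at this
  have t5 : Tendsto (fun y : ℂ × E => ((0 : ℂ), σ y.2)) (𝓝 (0, φ x)) (𝓝 0) :=
    tendsto_const_nhds.prodMk_nhds ((continuous_snd.tendsto 0).comp t4)
  refine ⟨fun y => φ (S (y.1, σ y.2)), ?_, by simp only [σ0, e0], ?_⟩
  · have d5 : HasStrictFDerivAt (fun y => φ (S y)) D ((0 : ℂ), σ (φ x)) := by rwa [σ0]
    refine (HasStrictFDerivAt.comp (g := fun y => φ (S y)) (f := fun y : ℂ × E => (y.1, σ y.2))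
      (0, φ x) d5 d4).congr_fderiv ?_
    have d6 : HasDerivAt (fun t => φ (f t)) (D (1, 0)) 0 := by
      simpa only [Function.comp_def, k2] using HasFDerivAt.comp_hasDerivAt
        (l := fun y => φ (S y)) (f := fun t : ℂ => (t, (0 : E))) 0 d1.hasFDerivAt
        ((hasDerivAt_id' (0 : ℂ)).prodMk (hasDerivAt_const _ _))
    refine ContinuousLinearMap.ext fun y => ?_
    change D (y.1, N y.2) = y.1 • deriv (fun t => φ (f t)) 0 + y.2
    rw [d6.deriv, ← map_smul, ← a1 y.2, ← map_add, a1]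
    simp
  · filter_upwards [t4.eventually a2, t5.eventually a2,
      ((continuous_snd.tendsto 0).comp t4).eventually (ctr_of_spray k1 k3),
      (continuous_snd.tendsto _).eventually r3] with y m1 m2 ⟨g, m3, m4⟩ m5
    refine ⟨g, m3, ⟨0, ?_⟩, y.1, ?_⟩
    · rw [m4, ← m5]
      exact (φ.left_inv m2.1).symm
    · rw [m4]
      exact (φ.left_inv m1.1).symm

theorem span_nhds {ι : Type*} [Fintype ι] {f : ι → C(ℂ, X)} (hf : ∀ i, f i ∈ Ctr E X) {x : X}
    (h0 : ∀ i, f i 0 = x)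
    (hs : ∀ v : E, ∃ c : ι → ℂ, ∑ i, c i • deriv (fun t => chartAt E x (f i t)) 0 = v) :
    {y | Relation.ReflTransGen (Lnk E) x y} ∈ 𝓝 x := by
  classical
  have cE : CompleteSpace E := FiniteDimensional.complete ℂ E
  set φ := chartAt E x
  have hx : x ∈ φ.source := mem_chart_source E x
  have key : ∀ s : Finset ι, ∃ (Ψ : (ι → ℂ) → E) (D : (ι → ℂ) →L[ℂ] E), HasStrictFDerivAt Ψ D 0 ∧
      (∀ c, D c = ∑ i ∈ s, c i • deriv (fun t => φ (f i t)) 0) ∧ Ψ 0 = φ x ∧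
      ∀ᶠ c in 𝓝 (0 : ι → ℂ), Relation.ReflTransGen (Lnk E) x (φ.symm (Ψ c)) := by
    intro s
    induction s using Finset.induction_on with
    | empty => exact ⟨fun _ => φ x, 0, hasStrictFDerivAt_const _ _, by simp, rfl,
        Eventually.of_forall fun _ => by rw [φ.left_inv hx]⟩
    | insert i s hi ih =>
      obtain ⟨Ψ, D, k1, k2, k3, k4⟩ := ih
      obtain ⟨Φ, m1, m2, m3⟩ := one_dir (hf i) (h0 i)
      have d1 : HasStrictFDerivAt (fun c : ι → ℂ => (c i, Ψ c))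
          ((ContinuousLinearMap.proj i).prod D) 0 := (hasStrictFDerivAt_apply i 0).prodMk k1
      have e : ((0 : ι → ℂ) i, Ψ 0) = (0, φ x) := by rw [k3]; rfl
      refine ⟨fun c => Φ (c i, Ψ c), _, HasStrictFDerivAt.comp (g := Φ) 0 (e ▸ m1) d1,
        fun c => ?_, by simp only [e, m2, φ], ?_⟩
      · rw [Finset.sum_insert hi, ← k2]
        rfl
      · filter_upwards [k4, (e ▸ d1.continuousAt.tendsto).eventually m3] with c n1 n2
        exact n1.tail n2
  obtain ⟨Ψ, D, k1, k2, k3, k4⟩ := key Finset.univ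
  have h1 := k1.map_nhds_eq_of_surj (LinearMap.range_eq_top.2 fun v =>
    (hs v).imp fun c hc => (k2 c).trans hc)
  rw [← φ.symm_map_nhds_eq hx, ← k3, ← h1]
  exact k4

end Pool.Agent.Lib.MP_cd3a7b_ag
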