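import Pool.Agent.Lib.MP_cd3a7b_ag.H30Line
import Pool.Agent.Lib.MP_cd3a7b_ag.H8Span

/-! Dense entire curves in the complement of a normal crossings divisor of small degree. -/

namespace Pool.Agent.Lib.MP_cd3a7b_ag.H30

open Metric Set Filter Topology MvPolynomial TopologicalSpace
open scoped Manifold

theorem dense_open {E : Type} [NormedAddCommGroup E] [NormedSpace ℂ E] [FiniteDimensional ℂ E]
    {U Z : Set E} (hU : IsOpen U) (hZ : IsClosed Z) (hd : dimH Z + 2 < 2 * Module.finrank ℂ E)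
    {p : E} (hp : p ∈ U) {D : Set E} (hD : Submodule.span ℂ D = ⊤)
    (h : ∀ w ∈ D, ∃ G : ℂ × E → E,
      (∀ᶠ e in 𝓝 (0 : E), G (0, e) = p + e ∧ ∀ t, DifferentiableAt ℂ G (t, e) ∧ G (t, e) ∈ U) ∧
        deriv (fun t => G (t, 0)) 0 = w) :
    ∃ g : ℂ → E, Differentiable ℂ g ∧ (∀ t, g t ∈ U ∧ g t ∉ Z) ∧ closure (range g) ∈ 𝓝 p := by
  let X : Opens E := ⟨U, hU⟩
  let x : X := ⟨p, hp⟩
  have c1 : ∀ y : X, (chartAt E y).source = univ := fun y => by
    simp [Opens.chartAt_eq]
  have c2 : ∀ y z : X, chartAt E y z = z := fun y z => rfl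
  have c3 : ∀ e ∈ U, e ∈ (chartAt E x).target := fun e he =>
    (chartAt E x).map_source (x := ⟨e, he⟩) (by simp [c1])
  have key : ∀ w ∈ D, ∃ f ∈ Ctr E X, f 0 = x ∧ deriv (fun t => chartAt E x (f t)) 0 = w := by
    intro w hw
    obtain ⟨G, g1, g2⟩ := h w hw
    have hS : Spray E fun y => (chartAt E x).symm (G y) :=
      g1.mono fun e he t => hol_symm (he.2 t).1 (c3 _ (he.2 t).2)
    have e1 : ∀ y, G y ∈ U → chartAt E x ((chartAt E x).symm (G y)) = G y := fun y hy =>
      (chartAt E x).right_inv (c3 _ hy)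
    have h0 := g1.self_of_nhds
    refine ⟨⟨fun t => (chartAt E x).symm (G (t, 0)), continuous_iff_continuousAt.2 fun t =>
      (Hol.pre (L := fun t => (t, 0)) (hS.self_of_nhds t) (by fun_prop)).continuousAt⟩,
      ⟨_, hS, fun _ => rfl, 0, (sbm_iff (hS.self_of_nhds 0).slice (x := x) (by simp [c1])).2 ?_⟩,
      Subtype.ext ((e1 _ (h0.2 0).2).trans (by simpa using h0.1)), ?_⟩
    · have : (fun e => chartAt E x ((chartAt E x).symm (G (0, e)))) =ᶠ[𝓝 0] fun e => p + e :=
        g1.mono fun e he => (e1 _ (he.2 0).2).trans he.1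
      rw [this.fderiv_eq, fderiv_const_add, fderiv_fun_id]
      exact Function.surjective_id
    · rw [← g2]
      exact congrArg (deriv · 0) (funext fun t => e1 _ (h0.2 t).2)
  obtain ⟨b, b1, b2, b3⟩ := exists_linearIndependent ℂ D
  have := b3.setFinite.fintype
  choose f f1 f2 f3 using fun w : b => key w (b1 w.2)
  have h1 := span_nhds f1 f2 fun v => by
    simp only [f3]
    exact (Submodule.mem_span_range_iff_exists_fun ℂ).1 (by simp [b2, hD])
  have hE : Nontrivial E := by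
    refine Module.nontrivial_of_finrank_pos (R := ℂ) (Nat.pos_of_ne_zero fun h3 => ?_)
    simp [h3] at hd
  obtain ⟨w, hw⟩ : b.Nonempty := nonempty_iff_ne_empty.2 fun e => by
    rw [e, hD, Submodule.span_empty] at b2
    exact bot_ne_top b2
  obtain ⟨g, g1, g2, g3⟩ := closure_nonempty_iff.1 ⟨_, chain_curve (Z := Subtype.val ⁻¹' Z)
    (hZ.preimage continuous_subtype_val) (fun y => lt_of_le_of_lt (add_le_add_left (dimH_mono (by
      rintro _ ⟨z, hz, rfl⟩
      exact hz.1)) 2) hd) (f1 ⟨w, hw⟩) ⟨x, by rw [f2]; exact mem_interior_iff_mem_nhds.2 h1⟩⟩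
  refine ⟨fun t => g t, fun t => (g1 t).chart (x := x) (by simp [c1]),
    fun t => ⟨(g t).2, g2 t⟩, ?_⟩
  rw [f2] at g3
  refine mem_of_superset (hU.isOpenMap_subtype_val.image_mem_nhds h1) ?_
  rintro _ ⟨y, hy, rfl⟩
  exact map_mem_closure continuous_subtype_val (g3 y hy) (by rintro _ ⟨t, rfl⟩; exact ⟨t, rfl⟩)

theorem ift {Y E P : Type} [NormedAddCommGroup Y] [NormedSpace ℂ Y] [FiniteDimensional ℂ Y]
    [NormedAddCommGroup E] [NormedSpace ℂ E] [FiniteDimensional ℂ E]
    [NormedAddCommGroup P] [NormedSpace ℂ P] [FiniteDimensional ℂ P] {G : Y × E → P}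
    (hG : Differentiable ℂ G) (hN : Module.finrank ℂ E = Module.finrank ℂ P) {p : Y} {q : E}
    (hA : Function.Surjective (fderiv ℂ (fun y => G (p, y)) q)) :
    ∃ τ : Y → E, τ p = q ∧ ∀ᶠ p' in 𝓝 p, DifferentiableAt ℂ τ p' ∧ G (p', τ p') = G (p, q) := by
  have cY : CompleteSpace Y := FiniteDimensional.complete ℂ Y
  have cE : CompleteSpace E := FiniteDimensional.complete ℂ E
  have cP : CompleteSpace P := FiniteDimensional.complete ℂ P
  rw [show fderiv ℂ (fun y => G (p, y)) q = _ from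
    ((hG (p, q)).hasFDerivAt.comp q (hasFDerivAt_prodMk_right p q)).fderiv] at hA
  have hA' := (LinearMap.injective_iff_surjective_of_finrank_eq_finrank
    (f := ((fderiv ℂ G (p, q)).comp (ContinuousLinearMap.inr ℂ Y E)).toLinearMap) hN).2 hA
  have hi : Function.Injective ((ContinuousLinearMap.fst ℂ Y E).prod
      (fderiv ℂ G (p, q))).toLinearMap := by
    rw [injective_iff_map_eq_zero]
    rintro ⟨u, w⟩ hv
    obtain rfl : u = 0 := congrArg Prod.fst hv
    obtain rfl : w = 0 := (injective_iff_map_eq_zero _).1 hA' w (congrArg Prod.snd hv)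
    rfl
  let T := (LinearMap.linearEquivOfInjective _ hi (by simp [hN])).toContinuousLinearEquiv
  let Θ := fun x : Y × E => (x.1, G x)
  have hc : ContDiffAt ℂ 1 Θ (p, q) :=
    contDiffAt_one (Eventually.of_forall fun y => differentiableAt_fst.prodMk (hG y))
  have hd : HasFDerivAt Θ (T : _ →L[ℂ] _) (p, q) :=
    hasFDerivAt_fst.prodMk (hG (p, q)).hasFDerivAt
  have hst := hc.hasStrictFDerivAt' hd one_ne_zero
  have ht : Tendsto (fun e : Y => (e, G (p, q))) (𝓝 p) (𝓝 (Θ (p, q))) :=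
    (continuous_id.prodMk continuous_const).continuousAt
  refine ⟨fun e => (hc.localInverse hd one_ne_zero (e, G (p, q))).2,
    congrArg Prod.snd (hc.localInverse_apply_image hd one_ne_zero), ?_⟩
  filter_upwards [ht.eventually ((hc.to_localInverse hd one_ne_zero).eventually (by simp)),
    ht.eventually hst.eventually_right_inverse] with e h1 h2
  have h3 : (hc.localInverse hd one_ne_zero (e, G (p, q))).1 = e := congrArg Prod.fst h2
  refine ⟨((h1.differentiableAt one_ne_zero).comp e (by fun_prop)).snd, ?_⟩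
  have h4 : G (hc.localInverse hd one_ne_zero (e, G (p, q))) = G (p, q) := congrArg Prod.snd h2
  exact Eq.trans (congrArg G (Prod.ext h3.symm rfl)) h4

variable {ι : Type} [Fintype ι] {N : ℕ} {d : ι → ℕ} {F : ι → MvPolynomial (Fin N) ℂ}

theorem branch (hN : ∑ i, (d i + 1) = N) {i₀ : ι} {p q : Fin N → ℂ} (h : Sol d F i₀ p q)
    (hf : Full (Eqn d F p) q) : ∃ τ : (Fin N → ℂ) → Fin N → ℂ, τ p = q ∧
      ∀ᶠ p' in 𝓝 p, DifferentiableAt ℂ τ p' ∧ Sol d F i₀ p' (τ p') := by
  obtain ⟨G, hG⟩ : ∃ G : (Fin N → ℂ) × (Fin N → ℂ) → (Σ i, Fin (d i + 1)) → ℂ,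
      ∀ x j, G x j = eval x.2 (Eqn d F x.1 j) := ⟨_, fun _ _ => rfl⟩
  obtain ⟨τ, h1, h2⟩ := ift (G := G) (differentiable_pi.2 fun j => by
      simpa only [hG, Eqn, eval_cf] using ln_diff (F j.1) j.2)
    (by simp [hN]) (p := p) (q := q) fun c => by
      obtain ⟨v, hv⟩ := hf c
      refine ⟨v, funext fun j => ?_⟩
      have e : (fun y => G (p, y)) = fun y j => eval y (Eqn d F p j) :=
        funext fun y => funext fun j => hG _ _
      rw [e, fderiv_pi fun j => differentiable_eval (Eqn d F p j) q, ← hv, ← fderiv_eval]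
      rfl
  refine ⟨τ, h1, h2.mono fun e he => ?_⟩
  have h3 : ∀ j, eval (τ e) (Eqn d F e j) = eval q (Eqn d F p j) := fun j =>
    (hG (e, τ e) j).symm.trans ((congrFun he.2 j).trans (hG (p, q) j))
  exact ⟨he.1, fun j hj => (h3 j).trans (h.1 j hj), (h3 _).trans h.2⟩

theorem dimH_two {m : ℕ} {S : Set (MvPolynomial (Fin (m + 2)) ℂ)}
    (hS : 2 ≤ (Ideal.span S).height) : dimH {x | ∀ G ∈ S, eval x G = 0} ≤ 2 * m := by
  have h1 : {x | ∀ G ∈ S, eval x G = 0} ⊆
      ⋃ P ∈ (Ideal.span S).minimalPrimes, {x | ∀ G ∈ P, eval x G = 0} := fun x hx => by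
    have := RingHom.ker_isPrime (eval x : MvPolynomial (Fin (m + 2)) ℂ →+* ℂ)
    obtain ⟨P, h1, h2⟩ := Ideal.exists_minimalPrimes_le (I := Ideal.span S)
      (J := RingHom.ker (eval x)) (Ideal.span_le.2 hx)
    exact mem_biUnion h1 h2
  refine (dimH_mono h1).trans ?_
  rw [dimH_bUnion (Ideal.finite_minimalPrimes_of_isNoetherianRing _ _).countable]
  refine iSup₂_le fun P hP => ?_
  have := hP.1.1
  have h6 := H36.dimH_prime P (c := 2) (hS.trans (Ideal.height_mono hP.1.2))
  rw [Fintype.card_fin, Nat.cast_add, mul_add] at h6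
  exact (ENNReal.add_le_add_iff_right (by simp [ENNReal.mul_eq_top])).1 h6

theorem curve_eq {m : ℕ} {F : ι → MvPolynomial (Fin (m + 2)) ℂ}
    (hF : ∀ i, (F i).IsHomogeneous (d i + 1)) (hN : ∑ i, (d i + 1) = m + 2)
    (hs : ∀ x ≠ 0, Trans F x) {S : Set (MvPolynomial (Fin (m + 2)) ℂ)}
    (hS : 2 ≤ (Ideal.span S).height) :
    ∃ v : ℂ → Fin (m + 2) → ℂ, Differentiable ℂ v ∧ (∀ t, v t ≠ 0) ∧
      (∀ t i, eval (v t) (F i) ≠ 0) ∧ (∀ t, ∃ G ∈ S, eval (v t) G ≠ 0) ∧
      ∀ G, (∀ t, eval (v t) G = 0) → G = 0 := by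
  obtain ⟨p, hp⟩ := exists_Generic F
  obtain ⟨h1, h2⟩ := lines hF hN hs hp
  have hU : IsOpen {x | ∀ i, eval x (F i) ≠ 0} := by
    rw [ofPred_forall]
    exact isOpen_iInter_of_finite fun i =>
      isOpen_ne_fun (differentiable_eval _).continuous continuous_const
  obtain ⟨g, g1, g2, g3⟩ := dense_open hU (Z := {x | ∀ G ∈ S, eval x G = 0}) (by
      simp only [ofPred_forall]
      exact isClosed_biInter fun G _ =>
        isClosed_eq (differentiable_eval _).continuous continuous_const)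
    (lt_of_le_of_lt (add_le_add_left (dimH_two hS) 2) (by
      simp only [Module.finrank_fintype_fun_eq_card, Fintype.card_fin]
      exact_mod_cast (by omega : 2 * m + 2 < 2 * (m + 2)))) (hp.ne_zero hs)
    (D := {w | ∃ i₀ q, Sol d F i₀ p q ∧ w = eval p (F i₀) • q}) (by
      by_contra h
      obtain ⟨f, f1, f2⟩ := Submodule.exists_le_ker_of_lt_top _ (lt_top_iff_ne_top.2 h)
      have f3 : ∀ q, f q = ∑ l, f (Pi.single l 1) * q l := fun q => by
        conv_lhs => rw [← Finset.univ_sum_single q, map_sum]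
        refine Finset.sum_congr rfl fun l _ => ?_
        rw [mul_comm, ← smul_eq_mul, ← map_smul, ← Pi.single_smul, smul_eq_mul, mul_one]
      have f4 := h2 (fun l => f (Pi.single l 1)) fun i₀ q hq => by
        have : f _ = 0 := f2 (Submodule.subset_span ⟨i₀, q, hq, rfl⟩)
        simpa [hp.ne_zero hs i₀, f3 q] using this
      exact f1 (LinearMap.ext fun q => by simp [f3 q, congrFun f4])) (by
      rintro _ ⟨i₀, q, hq, rfl⟩
      obtain ⟨τ, rfl, τ2⟩ := branch hN hq (h1 _ _ hq)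
      have ht : Tendsto (fun e => p + e) (𝓝 0) (𝓝 p) := by
        simpa using (continuous_const_add p).tendsto 0
      refine ⟨fun y => p + y.2 + (eval (p + y.2) (F i₀) * (Complex.exp y.1 - 1)) • τ (p + y.2),
        ?_, ?_⟩
      · filter_upwards [ht.eventually τ2, ht.eventually (hU.mem_nhds (hp.ne_zero hs))]
          with e k1 k2
        refine ⟨by simp, fun t => ⟨?_, fun i => ?_⟩⟩
        · have := differentiable_eval (F i₀)
          have k3 : DifferentiableAt ℂ τ (p + (t, e).2) := k1.1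
          fun_prop
        · rcases k1.2.eval_line hF i (eval (p + e) (F i₀) * (Complex.exp t - 1)) with h | h
          · exact h ▸ k2 i
          · rw [h, mul_sub, mul_one, add_sub_cancel]
            exact mul_ne_zero (k2 i₀) (Complex.exp_ne_zero t)
      · simpa using (((((Complex.hasDerivAt_exp 0).sub_const 1).const_mul
          (eval p (F i₀))).smul_const (τ p)).const_add p).deriv)
  refine ⟨g, g1, fun t e => ?_, fun t => (g2 t).1, fun t => by simpa using (g2 t).2,
    fun G hG => ?_⟩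
  · rcases isEmpty_or_nonempty ι with h | ⟨⟨i⟩⟩
    · simp at hN
    · refine (g2 t).1 i ?_
      rw [e, eval_zero, constantCoeff_eq, (hF i).coeff_eq_zero (by simp)]
  · have h3 : closure (range g) ⊆ {x | eval x G = 0} := closure_minimal
      (by rintro _ ⟨t, rfl⟩; exact hG t)
      (isClosed_eq (differentiable_eval _).continuous continuous_const)
    have h4 := (AnalyticOnNhd.eval_mvPolynomial G).eq_of_eventuallyEq
      (g := fun _ => 0) analyticOnNhd_const (z₀ := p) (mem_of_superset g3 h3)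
    exact MvPolynomial.funext fun x => by simpa using congrFun h4 x

/-- A generic hyperplane can be added to a normal crossings divisor. -/
theorem add_plane {σ : Type} [Fintype σ] {F : ι → MvPolynomial σ ℂ} (hs : ∀ x ≠ 0, Trans F x) :
    ∃ L : MvPolynomial σ ℂ, L.IsHomogeneous 1 ∧
      ∀ x ≠ 0, Trans (fun o : Option ι => o.elim L F) x := by
  classical
  obtain ⟨a, ha⟩ := exists_Generic F
  refine ⟨∑ l, C (a l) * X l, IsHomogeneous.sum _ _ _ fun l _ => (isHomogeneous_X ℂ l).C_mul _,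
    fun x hx c => ?_⟩
  obtain ⟨v, hv⟩ := hs x hx fun i => c (some i)
  obtain ⟨l₀, h0⟩ := Function.ne_iff.1 hx
  obtain ⟨D, D1, D2⟩ := ha (Pi.single l₀ 1)
  refine ⟨fun l => v l + (∑ l, a l * v l - c none) / x l₀ * D (x l), ?_⟩
  rintro (_ | i) h
  · have h1 := congrArg D (show ∑ l, a l * x l = 0 by simpa using h)
    simp only [map_sum, Derivation.leibniz, D1, smul_eq_mul, Finset.sum_add_distrib, map_zero,
      Pi.single_apply, mul_ite, mul_one, mul_zero, Finset.sum_ite_eq', Finset.mem_univ,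
      if_true] at h1
    have h2 : ∀ l, eval x (pderiv l (∑ l, C (a l) * X l)) = a l := fun l => by
      simp [pderiv_X, Pi.single_apply]
    simp only [Option.elim, h2, add_mul, Finset.sum_add_distrib, mul_assoc, ← Finset.mul_sum]
    simp only [mul_comm _ (a _), eq_neg_of_add_eq_zero_left h1]
    have h3 : x l₀ ≠ 0 := h0
    field_simp
    ring
  · have h1 := chain D (D2 i) x
    have h' : eval x (F i) = 0 := h
    simp only [aeval_eq_eval, h', map_zero] at h1
    simp only [Option.elim, add_mul, Finset.sum_add_distrib, mul_assoc, ← Finset.mul_sum,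
      hv i h', mul_comm (D _), ← h1, mul_zero, add_zero]

theorem curve_le {m : ℕ} {S : Set (MvPolynomial (Fin (m + 2)) ℂ)}
    (hS : 2 ≤ (Ideal.span S).height) (k : ℕ) : ∀ {ι : Type} [Fintype ι] {d : ι → ℕ}
    {F : ι → MvPolynomial (Fin (m + 2)) ℂ}, (∀ i, (F i).IsHomogeneous (d i + 1)) →
    ∑ i, (d i + 1) + k = m + 2 → (∀ x ≠ 0, Trans F x) →
    ∃ v : ℂ → Fin (m + 2) → ℂ, Differentiable ℂ v ∧ (∀ t, v t ≠ 0) ∧
      (∀ t i, eval (v t) (F i) ≠ 0) ∧ (∀ t, ∃ G ∈ S, eval (v t) G ≠ 0) ∧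
      ∀ G, (∀ t, eval (v t) G = 0) → G = 0 := by
  induction k with
  | zero => exact fun hF hN hs => curve_eq hF hN hs hS
  | succ k ih =>
    intro ι _ d F hF hN hs
    obtain ⟨L, L1, L2⟩ := add_plane hs
    obtain ⟨v, v1, v2, v3, v4⟩ := ih (d := fun o : Option ι => o.elim 0 d)
      (by rintro (_ | i); exacts [L1, hF i]) (by simp [← hN]; ring) L2
    exact ⟨v, v1, v2, fun t i => v3 t (some i), v4⟩

theorem trans_of_indep {σ : Type} [Fintype σ] {F : ι → MvPolynomial σ ℂ} {x : σ → ℂ}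
    (h : LinearIndependent ℂ fun i : {i // eval x (F i) = 0} => fun j => eval x (pderiv j (F i))) :
    Trans F x := fun c => by
  classical
  let A : Matrix {i // eval x (F i) = 0} σ ℂ := Matrix.of fun i j => eval x (pderiv j (F i))
  have h1 : LinearMap.range A.mulVecLin = ⊤ := Submodule.eq_top_of_finrank_eq 
    ((LinearIndependent.rank_matrix (M := A) h).trans (by simp))
  obtain ⟨v, hv⟩ := LinearMap.range_eq_top.1 h1 fun i => c i
  exact ⟨v, fun i hi => by
    simpa [A, Matrix.mulVec, dotProduct, mul_comm] using congrFun hv ⟨i, hi⟩⟩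

end Pool.Agent.Lib.MP_cd3a7b_ag.H30
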