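import Pool.Agent.Lib.MP_cd3a7b_ag.H30Line

/-! Lines through a generic point that are tangent to a smooth hypersurface at many points. -/

namespace Pool.Agent.Lib.MP_cd3a7b_ag.H30

open MvPolynomial
open scoped Polynomial

section gen

variable {A : Type} [CommRing A]

theorem exists_mc (δ : Derivation ℤ A A) : ∃ Δ : A[X] →+ A[X],
    (∀ P k, (Δ P).coeff k = δ (P.coeff k)) ∧ ∀ P Q, Δ (P * Q) = P * Δ Q + Q * Δ P := by
  let : Differential A := ⟨δ⟩
  exact ⟨⟨⟨Differential.mapCoeffs, map_zero _⟩, map_add _⟩, fun _ _ => rfl,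
    fun P Q => Differential.mapCoeffs.leibniz P Q⟩

/-- The polynomial `a 0 X ^ (k - 1) + ... + a (k - 1)`. -/
noncomputable def pl {k : ℕ} (a : Fin k → A) : A[X] :=
  ∑ l, Polynomial.C (a l) * Polynomial.X ^ (k - 1 - l)

theorem pl_coeff {k : ℕ} (a : Fin k → A) (l : Fin k) : (pl a).coeff (k - 1 - l) = a l := by
  rw [pl, Polynomial.finsetSum_coeff, Finset.sum_eq_single l (fun l' _ h => ?_) (by simp)]
  · simp
  · rw [Polynomial.coeff_C_mul_X_pow, if_neg fun e => h (Fin.ext (by omega))]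

theorem pl_degree {k : ℕ} (a : Fin k → A) : (pl a).degree < k :=
  (Polynomial.degree_lt_iff_coeff_zero _ _).2 fun n hn => by
    rw [pl, Polynomial.finsetSum_coeff]
    refine Finset.sum_eq_zero fun l _ => ?_
    rw [Polynomial.coeff_C_mul_X_pow, if_neg (by have := l.2; omega)]

theorem pl_surj {k : ℕ} {P : A[X]} (h : P.degree < k) : ∃ a : Fin k → A, pl a = P := by
  refine ⟨fun l => P.coeff (k - 1 - l), Polynomial.ext fun n => ?_⟩
  by_cases hn : n < k
  · have := pl_coeff (fun l : Fin k => P.coeff (k - 1 - l)) ⟨k - 1 - n, by omega⟩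
    simpa only [show k - 1 - (k - 1 - n) = n by omega] using this
  · rw [(Polynomial.degree_lt_iff_coeff_zero _ _).1 (pl_degree _) n (by omega),
      (Polynomial.degree_lt_iff_coeff_zero _ _).1 h n (by omega)]

@[simp] theorem pl_zero {k : ℕ} : pl (fun _ : Fin k => (0 : A)) = 0 := by simp [pl]

theorem pl_map {A' : Type} [CommRing A'] (f : A →+* A') {k : ℕ} (a : Fin k → A) :
    (pl a).map f = pl fun l => f (a l) := by
  simp [pl, Polynomial.map_sum]

variable [Algebra ℂ A] {m : ℕ}

theorem ln_map {σ A' : Type} [CommRing A'] [Algebra ℂ A'] (f : A →ₐ[ℂ] A') (F : MvPolynomial σ ℂ)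
    (x y : σ → A) : (ln F x y).map (f : A →+* A') = ln F (fun j => f (x j)) fun j => f (y j) := by
  refine (comp_aeval_apply (fun j => Polynomial.C (x j) * Polynomial.X + Polynomial.C (y j))
    (Polynomial.mapAlgHom f) F).trans (congrArg (aeval · F) (funext fun j => ?_))
  rw [Polynomial.coe_mapAlgHom, Polynomial.map_add, Polynomial.map_mul, Polynomial.map_C,
    Polynomial.map_C, Polynomial.map_X]
  rfl

/-- The unknowns: a direction, the points of tangency and the residual quartic. -/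
abbrev V (m : ℕ) : Type := Fin (m + 2) ⊕ Fin m ⊕ Fin 4

/-- The monic polynomial of the points of tangency. -/
noncomputable def PA (y : V m → A) : A[X] := Polynomial.X ^ m + pl fun l => y (.inr (.inl l))

/-- The residual quartic. -/
noncomputable def PB (α : A) (y : V m → A) : A[X] :=
  Polynomial.C α * Polynomial.X ^ 4 + pl fun l => y (.inr (.inr l))

/-- The tangency conditions. -/
noncomputable def EE (F : MvPolynomial (Fin (m + 2)) ℂ) (α : A) (x : Fin (m + 2) → A)
    (y : V m → A) : A[X] :=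
  ln F x (fun j => y (.inl j)) - PA y ^ 2 * PB α y

/-- The variation of the restriction of `F` to a line. -/
noncomputable def psi {σ : Type} [Fintype σ] (F : MvPolynomial σ ℂ) (x y w : σ → A) : A[X] :=
  ∑ j, ln (pderiv j F) x y * Polynomial.C (w j)

/-- The linearised tangency conditions. -/
noncomputable def JJ (F : MvPolynomial (Fin (m + 2)) ℂ) (α : A) (x : Fin (m + 2) → A)
    (y w : V m → A) : A[X] :=
  psi F x (fun j => y (.inl j)) (fun j => w (.inl j)) -
    PA y * (2 * pl (fun l => w (.inr (.inl l))) * PB α y + PA y * pl fun l => w (.inr (.inr l)))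

theorem EE_der (δ : Derivation ℤ A A) {F : MvPolynomial (Fin (m + 2)) ℂ}
    (h : ∀ n, δ (algebraMap ℂ A (coeff n F)) = 0) {α : A} {x : Fin (m + 2) → A} {y w : V m → A}
    (hα : δ α = 0) (hx : ∀ j, δ (x j) = 0) (hy : ∀ l, δ (y l) = w l) (k : ℕ) :
    δ ((EE F α x y).coeff k) = (JJ F α x y w).coeff k := by
  obtain ⟨Δ, h1, h2⟩ := exists_mc δ
  have e1 : ∀ (a : A) n, Δ (Polynomial.C a * Polynomial.X ^ n) =
      Polynomial.C (δ a) * Polynomial.X ^ n := fun a n => Polynomial.ext fun k => by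
    simp only [h1, Polynomial.coeff_C_mul_X_pow]
    split_ifs <;> simp
  have e2 : ∀ {k : ℕ} (a : Fin k → A), Δ (pl a) = pl fun l => δ (a l) := fun a => by
    simp only [pl, map_sum, e1]
  have e3 : Δ (PA y) = pl fun l => w (.inr (.inl l)) := by
    have := e1 1 m
    simp only [map_one, one_mul, Derivation.map_one_eq_zero, map_zero, zero_mul] at this
    simp only [PA, map_add, this, e2, hy, zero_add]
  have e4 : Δ (PB α y) = pl fun l => w (.inr (.inr l)) := by
    simp only [PB, map_add, e1, e2, hy, hα, map_zero, zero_mul, zero_add]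
  have e5 : Δ (ln F x fun j => y (.inl j)) =
      psi F x (fun j => y (.inl j)) fun j => w (.inl j) := Polynomial.ext fun k => by
    rw [h1, ln_der δ h hx fun j => hy _]
    simp [psi]
  rw [← h1, EE, map_sub, e5, pow_two, h2, h2, e3, e4, JJ]
  congr 2
  ring

theorem EE_map {A' : Type} [CommRing A'] [Algebra ℂ A'] (f : A →ₐ[ℂ] A')
    (F : MvPolynomial (Fin (m + 2)) ℂ) (α : A) (x : Fin (m + 2) → A) (y : V m → A) :
    (EE F α x y).map (f : A →+* A') = EE F (f α) (fun j => f (x j)) fun l => f (y l) := by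
  simp [EE, PA, PB, ln_map, pl_map]

theorem JJ_map {A' : Type} [CommRing A'] [Algebra ℂ A'] (f : A →ₐ[ℂ] A')
    (F : MvPolynomial (Fin (m + 2)) ℂ) (α : A) (x : Fin (m + 2) → A) (y w : V m → A) :
    (JJ F α x y w).map (f : A →+* A') =
      JJ F (f α) (fun j => f (x j)) (fun l => f (y l)) fun l => f (w l) := by
  simp [JJ, psi, PA, PB, ln_map, pl_map, Polynomial.map_sum]

end gen

section graded

variable {τ : Type} (wt : τ → ℕ)

/-- Polynomials in one further variable of weight one that are weighted homogeneous. -/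
def WH (n : ℕ) : Submodule ℂ (MvPolynomial τ ℂ)[X] where
  carrier := {P | ∀ k, ∀ ⦃e⦄, coeff e (P.coeff k) ≠ 0 → Finsupp.weight wt e + k = n}
  add_mem' := fun {a b} ha hb k e h => by
    rw [Polynomial.coeff_add, coeff_add] at h
    by_cases h' : coeff e (a.coeff k) = 0
    · exact hb k (by simpa [h'] using h)
    · exact ha k h'
  zero_mem' := fun k e h => by simp at h
  smul_mem' := fun c a ha k e h => ha k fun h' => h (by simp [h'])

instance : SetLike.GradedMonoid (WH wt) where
  one_mem := fun k e h => by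
    classical
    rw [Polynomial.coeff_one] at h
    split_ifs at h with h'
    · rw [coeff_one] at h
      split_ifs at h with h''
      · simp [← h'', h']
      · exact (h rfl).elim
    · simp at h
  mul_mem := fun i j a b ha hb k e h => by
    classical
    rw [Polynomial.coeff_mul, coeff_sum] at h
    obtain ⟨x, h1, h2⟩ := Finset.exists_ne_zero_of_sum_ne_zero h
    rw [coeff_mul] at h2
    obtain ⟨y, h3, h4⟩ := Finset.exists_ne_zero_of_sum_ne_zero h2
    have h5 := ha x.1 (left_ne_zero_of_mul h4)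
    have h6 := hb x.2 (right_ne_zero_of_mul h4)
    rw [← Finset.HasAntidiagonal.mem_antidiagonal.1 h1,
      ← Finset.HasAntidiagonal.mem_antidiagonal.1 h3, map_add]
    change _ = i + j
    omega

variable {wt}

theorem WH_C {a : MvPolynomial τ ℂ} {n : ℕ} (h : a.IsWeightedHomogeneous wt n) :
    Polynomial.C a ∈ WH wt n := fun k e h' => by
  rw [Polynomial.coeff_C] at h'
  split_ifs at h' with h''
  · rw [h h', h'', add_zero]
  · simp at h'

theorem WH_X_pow (n : ℕ) : Polynomial.X ^ n ∈ WH wt n := fun k e h => by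
  classical
  rw [Polynomial.coeff_X_pow] at h
  split_ifs at h with h'
  · rw [coeff_one] at h
    split_ifs at h with h''
    · simp [← h'', h']
    · exact (h rfl).elim
  · simp at h

theorem WH_pl {k : ℕ} {a : Fin k → MvPolynomial τ ℂ}
    (h : ∀ l, (a l).IsWeightedHomogeneous wt (l + 1)) : pl a ∈ WH wt k :=
  Submodule.sum_mem _ fun l _ => by
    convert SetLike.mul_mem_graded (WH_C (h l)) (WH_X_pow (wt := wt) (k - 1 - l)) using 2
    have := l.2
    omega

theorem WH_ln {σ : Type} [Fintype σ] {F : MvPolynomial σ ℂ} {d : ℕ} (hF : F.IsHomogeneous d)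
    (p : σ → ℂ) {y : σ → MvPolynomial τ ℂ} (h : ∀ j, (y j).IsWeightedHomogeneous wt 1) :
    ln F (fun j => C (p j)) y ∈ WH wt d := by
  rw [ln, aeval_def, eval₂_eq']
  refine Submodule.sum_mem _ fun e he => ?_
  rw [← Algebra.smul_def]
  refine Submodule.smul_mem _ _ ?_
  have h1 : ∀ j, Polynomial.C (C (p j)) * Polynomial.X + Polynomial.C (y j) ∈ WH wt 1 := fun j => by
    have := SetLike.mul_mem_graded (WH_C (isWeightedHomogeneous_C wt (p j))) (WH_X_pow 1)
    rw [pow_one] at this
    exact add_mem this (WH_C (h j))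
  convert SetLike.prod_pow_mem_graded (WH wt) (F := Finset.univ) (fun _ => 1) _ e
    fun j _ => h1 j using 2
  rw [← hF (mem_support_iff.1 he), Finsupp.weight_apply, Finsupp.sum_fintype _ _ (by simp)]
  simp

end graded

section onto

variable {σ : Type} [Fintype σ] {F : MvPolynomial σ ℂ} {p q : σ → ℂ}

theorem psi_add (v w : σ → ℂ) : psi F p q (v + w) = psi F p q v + psi F p q w := by
  simp only [psi, Pi.add_apply, map_add, mul_add, Finset.sum_add_distrib]

theorem psi_smul (c : ℂ) (v : σ → ℂ) : psi F p q (c • v) = Polynomial.C c * psi F p q v := by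
  simp only [psi, Pi.smul_apply, smul_eq_mul, map_mul, Finset.mul_sum]
  exact Finset.sum_congr rfl fun j _ => by ring

theorem psi_left : psi F p q p = Polynomial.derivative (ln F p q) := by
  have := chain (B := ℂ[X]) (Polynomial.derivative' (R := ℂ)) (F := F) (fun m => by simp)
    fun j => Polynomial.C (p j) * Polynomial.X + Polynomial.C (q j)
  simpa [psi, ln] using this.symm

theorem psi_right {d : ℕ} (hF : F.IsHomogeneous d) :
    psi F p q q = (d : ℂ[X]) * ln F p q - Polynomial.X * psi F p q p := by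
  have := congrArg (aeval fun j => Polynomial.C (p j) * Polynomial.X + Polynomial.C (q j))
    hF.sum_X_mul_pderiv
  simp only [map_sum, map_mul, aeval_X, nsmul_eq_mul, map_natCast] at this
  rw [ln, ← this, psi, psi, Finset.mul_sum, ← Finset.sum_sub_distrib]
  exact Finset.sum_congr rfl fun j _ => by rw [ln]; ring

/-- The variations of the line through a generic point are onto modulo the multiple points. -/
theorem onto (hp : Generic (fun _ : Unit => F) p)
    (hs : ∀ x ≠ 0, eval x F = 0 → ∃ i, eval x (pderiv i F) ≠ 0) (hq : ∀ s : ℂ, s • p + q ≠ 0)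
    {R : ℂ[X]} (hR : R ∣ ln F p q) (hD : ∀ Δ : ℂ[X] →+ ℂ[X],
      (∀ P Q, Δ (P * Q) = P * Δ Q + Q * Δ P) → R ∣ Δ (ln F p q)) (g : ℂ[X]) :
    ∃ w, R ∣ g - psi F p q w := by
  classical
  have hX : ∀ a, (∃ w, R ∣ a - psi F p q w) → ∃ w, R ∣ Polynomial.X * a - psi F p q w := by
    rintro a ⟨v, hv⟩
    obtain ⟨D, D1, D2⟩ := hp v
    obtain ⟨Δ, h1, h2⟩ := exists_mc D
    have h3 : Δ (ln F p q) = Polynomial.X * psi F p q v + psi F p q fun l => D (q l) :=
      Polynomial.ext fun k => by
        rw [h1, ln_der D (D2 ()) D1 fun _ => rfl, psi, psi, Finset.mul_sum,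
          ← Finset.sum_add_distrib]
        exact congrArg (Polynomial.coeff · k) (Finset.sum_congr rfl fun j _ => by ring)
    refine ⟨(-1 : ℂ) • fun l => D (q l), ?_⟩
    convert dvd_add (hv.mul_left Polynomial.X) (h3 ▸ hD Δ h2) using 1
    rw [psi_smul, map_neg, map_one]
    ring
  have hadd : ∀ a b, (∃ w, R ∣ a - psi F p q w) → (∃ w, R ∣ b - psi F p q w) →
      ∃ w, R ∣ a + b - psi F p q w := by
    rintro a b ⟨v, hv⟩ ⟨w, hw⟩
    exact ⟨v + w, by convert dvd_add hv hw using 1; rw [psi_add]; ring⟩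
  have h0 : psi F p q 0 = 0 := by simp [psi]
  let I : Ideal ℂ[X] :=
    { carrier := {a | ∃ w, R ∣ a - psi F p q w}
      add_mem' := fun {a b} => hadd a b
      zero_mem' := ⟨0, by simp [h0]⟩
      smul_mem' := fun c a ha => by
        induction c using Polynomial.induction_on with
        | C c =>
          obtain ⟨v, hv⟩ := ha
          exact ⟨c • v, by rw [psi_smul, smul_eq_mul, ← mul_sub]; exact hv.mul_left _⟩
        | add c c' h1 h2 =>
          rw [add_smul]
          exact hadd _ _ h1 h2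
        | monomial n c h1 =>
          obtain ⟨w, hw⟩ := hX _ h1
          exact ⟨w, by convert hw using 2; simp only [smul_eq_mul]; ring⟩ }
  obtain ⟨g₀, hg⟩ := (IsPrincipalIdealRing.principal I).principal
  suffices h : I = ⊤ from (h.ge trivial : g ∈ I)
  by_contra h
  obtain ⟨c, hc⟩ := IsAlgClosed.exists_root g₀ fun e => h (by
    rw [hg]
    exact Ideal.span_singleton_eq_top.2 (Polynomial.isUnit_iff_degree_eq_zero.2 e))
  have h1 : ∀ a ∈ I, a.eval c = 0 := fun a ha => by
    rw [hg] at ha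
    exact hc.dvd (Ideal.mem_span_singleton.1 ha)
  obtain ⟨i, hi⟩ := hs _ (hq c) (by
    rw [← ln_eval]
    exact h1 _ ⟨0, by simpa [h0] using hR⟩)
  refine hi ?_
  rw [← ln_eval]
  exact h1 _ ⟨Pi.single i 1, by simp [psi, Pi.single_apply, apply_ite Polynomial.C]⟩

theorem deg_le {d : ℕ} (hF : F.IsHomogeneous d) (hi : LinearIndependent ℂ ![p, q]) {R : ℂ[X]}
    (hR : R ∣ ln F p q) (hR' : R ∣ Polynomial.derivative (ln F p q))
    (h : ∀ g, ∃ w, R ∣ g - psi F p q w) : R.natDegree + 2 ≤ Fintype.card σ := by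
  let Ψ : (σ → ℂ) →ₗ[ℂ] ℂ[X] ⧸ Ideal.span {R} := (Ideal.Quotient.mkₐ ℂ _).toLinearMap ∘ₗ
    { toFun := psi F p q
      map_add' := psi_add
      map_smul' := fun c v => by rw [psi_smul, Polynomial.smul_eq_C_mul]; rfl }
  have h1 : LinearMap.range Ψ = ⊤ := LinearMap.range_eq_top.2 fun g => by
    obtain ⟨g, rfl⟩ := Ideal.Quotient.mk_surjective g
    obtain ⟨w, hw⟩ := h g
    exact ⟨w, (Ideal.Quotient.eq.2 (Ideal.mem_span_singleton.2 hw)).symm⟩
  have h2 := LinearMap.finrank_range_add_finrank_ker Ψ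
  rw [h1, finrank_top, finrank_quotient_span_eq_natDegree, Module.finrank_fintype_fun_eq_card] at h2
  have h3 : Submodule.span ℂ (Set.range ![p, q]) ≤ LinearMap.ker Ψ := Submodule.span_le.2 (by
    rintro _ ⟨i, rfl⟩
    refine Ideal.Quotient.eq_zero_iff_mem.2 (Ideal.mem_span_singleton.2 ?_)
    rw [← psi_left] at hR'
    fin_cases i
    · exact hR'
    · change R ∣ psi F p q q
      rw [psi_right hF]
      exact dvd_sub (hR.mul_left _) (hR'.mul_left _))
  have h4 := Submodule.finrank_mono h3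
  rw [finrank_span_eq_card hi, Fintype.card_fin] at h4
  omega

end onto

section system

variable {m : ℕ} {F : MvPolynomial (Fin (m + 2)) ℂ} {lam p : Fin (m + 2) → ℂ}

theorem ln_deg {σ : Type} {F : MvPolynomial σ ℂ} {d : ℕ} (hF : F.IsHomogeneous d) (p q : σ → ℂ) :
    (ln F p q).natDegree ≤ d := by
  have := aeval_natDegree_le (n := 1) F hF.totalDegree_le
    (fun j => Polynomial.C (p j) * Polynomial.X + Polynomial.C (q j)) (fun i => by compute_degree)
  unfold ln
  omega

theorem PA_monic (y : V m → ℂ) : (PA y).Monic ∧ (PA y).natDegree = m :=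
  ⟨Polynomial.monic_X_pow_add (pl_degree _), (Polynomial.natDegree_add_eq_left_of_degree_lt (by
    simpa using pl_degree _)).trans (by simp)⟩

theorem PB_deg (α : ℂ) (y : V m → ℂ) : (PB α y).natDegree ≤ 4 ∧ (PB α y).coeff 4 = α := by
  have := (Polynomial.degree_lt_iff_coeff_zero _ _).1 (pl_degree fun l => y (.inr (.inr l)))
  refine ⟨Polynomial.natDegree_le_iff_coeff_eq_zero.2 fun n hn => ?_, by simp [PB, this]⟩
  rw [PB, Polynomial.coeff_add, this n hn.le, Polynomial.coeff_C_mul_X_pow, if_neg hn.ne', add_zero]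

theorem EE_zero (hF : F.IsHomogeneous (2 * m + 4)) {y : V m → ℂ}
    (h : ∀ k < 2 * m + 4, (EE F (eval p F) p y).coeff k = 0) :
    ln F p (fun j => y (.inl j)) = PA y ^ 2 * PB (eval p F) y := by
  have h1 : (PA y ^ 2).natDegree = 2 * m := by rw [(PA_monic y).1.natDegree_pow, (PA_monic y).2]
  refine Polynomial.ext fun k => ?_
  rcases lt_trichotomy k (2 * m + 4) with hk | rfl | hk
  · simpa [EE, sub_eq_zero] using h k hk
  · rw [Polynomial.coeff_mul_add_eq_of_natDegree_le h1.le (PB_deg _ y).1, (PB_deg _ y).2, ← h1,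
      ((PA_monic y).1.pow 2).coeff_natDegree, one_mul, h1]
    have := expand hF p (fun j => y (.inl j)) 0
    rw [zero_smul, add_zero, Finset.sum_range_succ, Finset.sum_eq_zero fun k hk => by
      rw [zero_pow (by have := Finset.mem_range.1 hk; omega), zero_mul]] at this
    simpa using this.symm
  · rw [Polynomial.coeff_eq_zero_of_natDegree_lt ((ln_deg hF _ _).trans_lt hk),
      Polynomial.coeff_eq_zero_of_natDegree_lt ((Polynomial.natDegree_mul_le.trans
        (add_le_add h1.le (PB_deg _ y).1)).trans_lt hk)]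

variable (F lam p) in
/-- The tangency conditions with two normalisations. -/
noncomputable def TE : Option (Option (Fin (2 * m + 4))) → MvPolynomial (V m) ℂ
  | none => ∑ j, C (lam j) * X (.inl j)
  | some none => X (.inl 0)
  | some (some k) => (EE F (C (eval p F)) (fun j => C (p j)) X).coeff k

theorem eval_TE (y : V m → ℂ) (k : Fin (2 * m + 4)) :
    eval y (TE F lam p (some (some k))) = (EE F (eval p F) p y).coeff k := by
  have := congrArg (Polynomial.coeff · k) (EE_map (aeval y : MvPolynomial (V m) ℂ →ₐ[ℂ] ℂ) F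
    (C (eval p F)) (fun j => C (p j)) X)
  simpa [TE] using this

theorem row_TE (y v : V m → ℂ) (k : Fin (2 * m + 4)) :
    ∑ l, v l * eval y (pderiv l (TE F lam p (some (some k)))) =
      (JJ F (eval p F) p y v).coeff k := by
  obtain ⟨δ, h1, h2⟩ : ∃ δ : Derivation ℤ (MvPolynomial (V m) ℂ) (MvPolynomial (V m) ℂ),
      (∀ c, δ (C c) = 0) ∧ ∀ l, δ (X l) = C (v l) :=
    ⟨(mkDerivation ℂ fun l => C (v l)).restrictScalars ℤ, fun c => derivation_C _ c,
      fun l => mkDerivation_X ℂ _ l⟩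
  have h3 := chain δ (F := TE F lam p (some (some k))) (fun _ => h1 _) X
  have h4 := EE_der δ (F := F) (fun _ => h1 _) (h1 (eval p F)) (fun j => h1 (p j)) h2 k
  have h5 := congrArg (Polynomial.coeff · k) (JJ_map (aeval y : MvPolynomial (V m) ℂ →ₐ[ℂ] ℂ) F
    (C (eval p F)) (fun j => C (p j)) X fun l => C (v l))
  rw [aeval_X_left_apply] at h3
  have h6 := congrArg (eval y) (h3.symm.trans h4)
  simp only [h2, aeval_X_left_apply, map_sum, map_mul, eval_C] at h6
  simp only [mul_comm (v _), h6]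
  simpa using h5

theorem eval_hom {σ : Type} [Fintype σ] {F : MvPolynomial σ ℂ} {d : ℕ} (hF : F.IsHomogeneous d)
    (c : ℂ) (v : σ → ℂ) : eval (c • v) F = c ^ d * eval v F := by
  rw [← eval_w_alg hF c v]
  exact congrArg (eval · F) (funext fun o => by simp)

theorem dir_ne_zero (hF : F.IsHomogeneous (2 * m + 4)) (hα : eval p F ≠ 0) {y : V m → ℂ}
    (hy : y ≠ 0) (e : ln F p (fun j => y (.inl j)) = PA y ^ 2 * PB (eval p F) y) :
    (fun j => y (.inl j)) ≠ 0 := fun e' => hy (by
  obtain ⟨a1, a2⟩ := PA_monic y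
  have e1 : ln F p 0 = Polynomial.C (eval p F) * Polynomial.X ^ (2 * m + 4) :=
    Polynomial.funext fun s => by
      rw [ln_eval, add_zero, eval_hom hF, Polynomial.eval_mul, Polynomial.eval_C,
        Polynomial.eval_pow, Polynomial.eval_X, mul_comm]
  rw [e', e1] at e
  have e0 : PA y ∣ Polynomial.C (eval p F) * Polynomial.X ^ (2 * m + 4) :=
    ⟨PA y * PB (eval p F) y, by rw [e]; ring⟩
  obtain ⟨i, -, e2⟩ := (dvd_prime_pow Polynomial.prime_X (2 * m + 4)).1
    ((Polynomial.isUnit_C.2 hα.isUnit).dvd_mul_left.1 e0)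
  have e3 := Polynomial.eq_of_monic_of_associated a1 (Polynomial.monic_X_pow i) e2
  obtain rfl : m = i := by simpa [e3] using a2.symm
  have e4 : PB (eval p F) y = Polynomial.C (eval p F) * Polynomial.X ^ 4 :=
    mul_left_cancel₀ (pow_ne_zero 2 a1.ne_zero) (by rw [← e, e3]; ring)
  funext l
  rcases l with l | l | l
  · exact congrFun e' l
  · rw [← pl_coeff (fun l => y (.inr (.inl l))) l, add_eq_left.1 e3]
    rfl
  · rw [← pl_coeff (fun l => y (.inr (.inr l))) l, add_eq_left.1 e4]
    rfl)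

theorem der_leibniz (P Q : ℂ[X]) : Polynomial.derivative.toAddMonoidHom (P * Q) =
    P * Polynomial.derivative.toAddMonoidHom Q + Q * Polynomial.derivative.toAddMonoidHom P := by
  simp only [LinearMap.toAddMonoidHom_coe, Polynomial.derivative_mul]
  ring

theorem coprime {d : ℕ} (hF : F.IsHomogeneous d) (hp : Generic (fun _ : Unit => F) p)
    (hs : ∀ x ≠ 0, eval x F = 0 → ∃ i, eval x (pderiv i F) ≠ 0) {q : Fin (m + 2) → ℂ}
    (hi : LinearIndependent ℂ ![p, q]) {A B : ℂ[X]} (a1 : A.Monic) (a2 : A.natDegree = m)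
    (e : ln F p q = A ^ 2 * B) : IsCoprime A B := by
  have hq' : ∀ s : ℂ, s • p + q ≠ 0 := fun s hs' => by
    simpa using LinearIndependent.pair_iff.1 hi s 1 (by simpa using hs')
  rw [Polynomial.isCoprime_iff_aeval_ne_zero_of_isAlgClosed (k := ℂ) (K := ℂ)]
  intro c
  by_contra hc
  simp only [not_or, not_not, Polynomial.coe_aeval_eq_eval] at hc
  obtain ⟨A', hA⟩ := Polynomial.dvd_iff_isRoot.2 hc.1
  obtain ⟨B', hB⟩ := Polynomial.dvd_iff_isRoot.2 hc.2
  have hL := (Polynomial.monic_X_sub_C c).natDegree_mul a1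
  rw [Polynomial.natDegree_X_sub_C, a2] at hL
  generalize Polynomial.X - Polynomial.C c = L at hA hB hL
  have e1 : ln F p q = L * (L * (L * (A' * (A' * B')))) := by rw [e, hA, hB]; ring
  have e2 : L * A ∣ ln F p q := ⟨L * A' * B', by rw [e1, hA]; ring⟩
  have e3 : ∀ Δ : ℂ[X] →+ ℂ[X], (∀ P Q, Δ (P * Q) = P * Δ Q + Q * Δ P) →
      L * A ∣ Δ (ln F p q) := fun Δ hΔ =>
    ⟨L * A' * Δ B' + 2 * L * B' * Δ A' + 3 * A' * B' * Δ L, by
      rw [e1, hΔ, hΔ, hΔ, hΔ, hΔ, hA]; ring⟩
  have := deg_le hF hi e2 (e3 _ der_leibniz) (onto hp hs hq' e2 e3)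
  rw [hL, Fintype.card_fin] at this
  omega

theorem sylv {A B H : ℂ[X]} (a1 : A.Monic) (a2 : A.natDegree = m) (hB : B.natDegree ≤ 4)
    (h : IsCoprime A B) (hH : (A * H).degree < (2 * m + 4 : ℕ)) :
    ∃ (a : Fin m → ℂ) (b : Fin 4 → ℂ), 2 * pl a * B + A * pl b = -H := by
  obtain ⟨u, v, huv⟩ := h
  have a3 : A.degree = m := a2 ▸ Polynomial.degree_eq_natDegree a1.ne_zero
  have b1 := Polynomial.degree_modByMonic_lt (-H * v) a1
  have b2 := Polynomial.modByMonic_add_div (-H * v) A
  generalize (-H * v) %ₘ A = r at b1 b2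
  generalize (-H * v) /ₘ A = t at b2
  have b3 : A * (-H * u + t * B) = -H - r * B := by linear_combination (-H) * huv + B * b2
  rw [a3] at b1
  have b4 : (-H * u + t * B).degree < (4 : ℕ) := by
    have d2 : H.degree < (m + 4 : ℕ) := by
      rw [Polynomial.degree_mul, a3, show 2 * m + 4 = m + (m + 4) by ring, Nat.cast_add] at hH
      exact (WithBot.add_lt_add_iff_left (by simp)).1 hH
    have d3 : (r * B).degree < (m + 4 : ℕ) := by
      rw [Polynomial.degree_mul, Nat.cast_add]
      exact (add_le_add_right (Polynomial.degree_le_of_natDegree_le hB) _).trans_lt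
        (WithBot.add_lt_add_right (by simp) b1)
    have d4 := (Polynomial.degree_sub_le _ _).trans_lt
      (max_lt ((Polynomial.degree_neg H).trans_lt d2) d3)
    rw [← b3, Polynomial.degree_mul, a3, Nat.cast_add] at d4
    exact (WithBot.add_lt_add_iff_left (by simp)).1 d4
  obtain ⟨da, ha⟩ := pl_surj (P := Polynomial.C 2⁻¹ * r) (k := m)
    ((Polynomial.degree_C_mul (by simp)).trans_lt b1)
  obtain ⟨db, hb⟩ := pl_surj b4
  have two : (2 : ℂ[X]) * Polynomial.C 2⁻¹ = 1 := by
    rw [show (2 : ℂ[X]) = Polynomial.C 2 from rfl, ← map_mul, mul_inv_cancel₀ two_ne_zero, map_one]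
  exact ⟨da, db, by rw [ha, hb, b3]; linear_combination r * B * two⟩

theorem rows (hF : F.IsHomogeneous (2 * m + 4)) (hp : Generic (fun _ : Unit => F) p)
    (hs : ∀ x ≠ 0, eval x F = 0 → ∃ i, eval x (pderiv i F) ≠ 0) (h0 : p 0 ≠ 0)
    (hα : eval p F ≠ 0) {y : V m → ℂ} (hy : y ≠ 0)
    (h : ∀ j ≠ none, eval y (TE F lam p j) = 0) : (fun j => y (.inl j)) ≠ 0 ∧
      ∀ c : Option (Option (Fin (2 * m + 4))) → ℂ, ∃ v : V m → ℂ, ∀ j ≠ none,
        ∑ l, v l * eval y (pderiv l (TE F lam p j)) = c j := by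
  classical
  have q0 : y (.inl 0) = 0 := by simpa [TE] using h (some none) (by simp)
  have e := EE_zero hF (p := p) (y := y) fun k hk =>
    (eval_TE y ⟨k, hk⟩).symm.trans (h (some (some ⟨k, hk⟩)) (by simp))
  have q1 := dir_ne_zero hF hα hy e
  obtain ⟨q, hq⟩ : ∃ q, q = fun j => y (.inl j) := ⟨_, rfl⟩
  replace q0 : q 0 = 0 := hq ▸ q0
  rw [← hq] at e q1 ⊢
  obtain ⟨a1, a2⟩ := PA_monic y
  have hi : LinearIndependent ℂ ![p, q] := LinearIndependent.pair_iff.2 fun s t hst => by
    obtain rfl : s = 0 := by simpa [q0, h0] using congrFun hst 0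
    simpa [q1] using hst
  have hq' : ∀ s : ℂ, s • p + q ≠ 0 := fun s hs' => by
    simpa using LinearIndependent.pair_iff.1 hi s 1 (by simpa using hs')
  refine ⟨q1, fun c => ?_⟩
  have e2 : PA y ∣ ln F p q := ⟨PA y * PB (eval p F) y, by rw [e]; ring⟩
  have e3 : ∀ Δ : ℂ[X] →+ ℂ[X], (∀ P Q, Δ (P * Q) = P * Δ Q + Q * Δ P) →
      PA y ∣ Δ (ln F p q) := fun Δ hΔ =>
    ⟨PA y * Δ (PB (eval p F) y) + 2 * PB (eval p F) y * Δ (PA y), by
      rw [e, pow_two, hΔ, hΔ]; ring⟩
  let g : ℂ[X] := ∑ k : Fin (2 * m + 4), Polynomial.C (c (some (some k))) * Polynomial.X ^ (k : ℕ)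
  obtain ⟨w₀, w1⟩ := onto hp hs hq' e2 e3 g
  obtain ⟨w, w2, H, hH⟩ : ∃ w, w 0 = c (some none) ∧ PA y ∣ g - psi F p q w := by
    refine ⟨w₀ + ((c (some none) - w₀ 0) / p 0) • p, by simp [h0], ?_⟩
    rw [psi_add, psi_smul, ← sub_sub, psi_left]
    exact dvd_sub w1 ((e3 _ der_leibniz).mul_left _)
  have d1 : (g - psi F p q w).degree < (2 * m + 4 : ℕ) := by
    refine (Polynomial.degree_sub_le _ _).trans_lt (max_lt (Polynomial.degree_sum_fin_lt _)
      (Polynomial.degree_le_natDegree.trans_lt (Nat.cast_lt.2 (Nat.lt_succ_iff.2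
        (Polynomial.natDegree_sum_le_of_forall_le _ _ fun j _ => ?_)))))
    exact (Polynomial.natDegree_mul_C_le _ _).trans (ln_deg (hF.pderiv (i := j)) _ _)
  obtain ⟨da, db, hab⟩ := sylv a1 a2 (PB_deg _ y).1 (coprime hF hp hs hi a1 a2 e) (hH ▸ d1)
  refine ⟨Sum.elim w (Sum.elim da db), ?_⟩
  rintro (_ | _ | k) hj
  · exact (hj rfl).elim
  · simp [TE, pderiv_X, Pi.single_apply, w2]
  · have : JJ F (eval p F) p y (Sum.elim w (Sum.elim da db)) = g := by
      simp only [JJ, Sum.elim_inl, Sum.elim_inr, hab, ← hq]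
      linear_combination -hH
    rw [row_TE, this]
    simp [g, Polynomial.coeff_X_pow, Fin.val_inj]

/-- The weights of the unknowns. -/
def wV (m : ℕ) : V m → ℕ := Sum.elim 1 (Sum.elim (fun l => l + 1) fun l => l + 1)

/-- The weights of the equations. -/
def dT (m : ℕ) : Option (Option (Fin (2 * m + 4))) → ℕ
  | none => 1
  | some none => 1
  | some (some k) => 2 * m + 4 - k

theorem TE_hom (hF : F.IsHomogeneous (2 * m + 4)) (j : Option (Option (Fin (2 * m + 4)))) :
    (TE F lam p j).IsWeightedHomogeneous (wV m) (dT m j) := by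
  rcases j with _ | _ | k
  · exact IsWeightedHomogeneous.sum _ _ _ fun j _ =>
      (isWeightedHomogeneous_X ℂ (wV m) (.inl j)).C_mul _
  · exact isWeightedHomogeneous_X ℂ (wV m) (.inl 0)
  have h1 : PA X ∈ WH (wV m) m := add_mem (WH_X_pow m)
    (WH_pl fun l => isWeightedHomogeneous_X ℂ (wV m) (.inr (.inl l)))
  have h2 : PB (C (eval p F)) X ∈ WH (wV m) 4 := add_mem
    (SetLike.mul_mem_graded (WH_C (isWeightedHomogeneous_C _ _)) (WH_X_pow 4))
    (WH_pl fun l => isWeightedHomogeneous_X ℂ (wV m) (.inr (.inr l)))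
  have h3 : EE F (C (eval p F)) (fun j => C (p j)) X ∈ WH (wV m) (2 * m + 4) :=
    sub_mem (WH_ln hF p fun j => isWeightedHomogeneous_X ℂ (wV m) (.inl j))
      (SetLike.mul_mem_graded (SetLike.pow_mem_graded 2 h1) h2)
  intro e he
  have := h3 k he
  simp only [dT]
  omega

variable (F lam p) in
/-- A normalised multiply tangent line through `p`. -/
def TSol (y : V m → ℂ) : Prop :=
  (∀ j ≠ none, eval y (TE F lam p j) = 0) ∧ eval y (TE F lam p none) = 1

theorem tangents (hF : F.IsHomogeneous (2 * m + 4))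
    (hs : ∀ x ≠ 0, eval x F = 0 → ∃ i, eval x (pderiv i F) ≠ 0) :
    ∃ p lam : Fin (m + 2) → ℂ, p 0 ≠ 0 ∧ eval p F ≠ 0 ∧
      (∀ y, TSol F lam p y → Full (TE F lam p) y) ∧ ∀ μ : Fin (m + 1) → ℂ,
        (∀ y, TSol F lam p y → ∑ k, μ k * y (.inl k.succ) = 0) → μ = 0 := by
  classical
  obtain ⟨z, hz⟩ := exists_generic (T := (F.coeffs : Set ℂ)) (Finset.finite_toSet _)
    (Fin (m + 2) ⊕ Fin (m + 2))
  have hc : ∀ D : Derivation ℤ ℂ ℂ, (∀ c ∈ (F.coeffs : Set ℂ), D c = 0) →
      ∀ n, D (coeff n F) = 0 := fun D hD n => by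
    by_cases h : coeff n F = 0
    · simp [h]
    · exact hD _ (coeff_mem_coeffs n h)
  obtain ⟨p, hp'⟩ : ∃ p, p = fun j => z (.inl j) := ⟨_, rfl⟩
  obtain ⟨lam, hl⟩ : ∃ lam, lam = fun j => z (.inr j) := ⟨_, rfl⟩
  have hp : Generic (fun _ : Unit => F) p := fun v => by
    obtain ⟨D, D1, D2⟩ := hz (Sum.elim v 0)
    exact ⟨D, fun j => hp' ▸ D1 (.inl j), fun _ => hc D D2⟩
  have h0 : p 0 ≠ 0 := fun e => by
    obtain ⟨D, D1, -⟩ := hp 1
    simpa [e] using D1 0
  have hα : eval p F ≠ 0 := hp.ne_zero (fun x hx c => by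
    by_cases h : eval x F = 0
    · obtain ⟨i, hi⟩ := hs x hx h
      exact ⟨Pi.single i (c () / eval x (pderiv i F)), fun _ _ => by simp [Pi.single_apply, hi]⟩
    · exact ⟨0, fun _ h' => (h h').elim⟩) ()
  have hw : ∀ l, wV m l ≠ 0 := by rintro (l | l | l) <;> simp [wV]
  have hG := TE_hom (lam := lam) (p := p) hF
  have hcard : Fintype.card (Option (Option (Fin (2 * m + 4)))) = Fintype.card (V m) := by
    simp
    omega
  have r0 : ∀ y v : V m → ℂ, ∑ l, v l * eval y (pderiv l (TE F lam p none)) =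
      ∑ j, lam j * v (.inl j) := fun y v => by
    simp [TE, pderiv_X, Pi.single_apply, mul_comm, apply_ite (eval y)]
  have h1 : ∀ y : V m → ℂ, (∀ j, eval y (TE F lam p j) = 0) → y = 0 := fun y hy => by
    by_contra h
    obtain ⟨k1, k2⟩ := rows hF hp hs h0 hα h fun j _ => hy j
    obtain ⟨l₀, k3⟩ := Function.ne_iff.1 k1
    obtain ⟨D, D1, D2⟩ := hz (Sum.elim 0 (Pi.single l₀ 1))
    have D3 : ∀ j, D (p j) = 0 := fun j => hp' ▸ D1 (.inl j)
    have D4 : ∀ j, D (lam j) = Pi.single (M := fun _ => ℂ) l₀ 1 j := fun j => hl ▸ D1 (.inr j)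
    refine h ((full_of_ker (w := fun l => D (y l)) k2 ?_ ?_).eq_zero hw hG hcard hy)
    · rintro (_ | _ | k) hj
      · exact (hj rfl).elim
      · have : y (.inl 0) = 0 := by simpa [TE] using hy (some none)
        simp [TE, pderiv_X, Pi.single_apply, this]
      · rw [row_TE, ← EE_der D (hc D D2) (by
          simpa [D3, aeval_eq_eval] using chain D (hc D D2) p) D3 fun _ => rfl, ← eval_TE (lam := lam),
          hy, map_zero]
    · have k4 := congrArg D (show ∑ j, lam j * y (.inl j) = 0 by simpa [TE] using hy none)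
      simp only [map_sum, Derivation.leibniz, D4, smul_eq_mul, Finset.sum_add_distrib, map_zero,
        Pi.single_apply, mul_ite, mul_one, mul_zero, Finset.sum_ite_eq', Finset.mem_univ,
        if_true] at k4
      rw [r0, eq_neg_of_add_eq_zero_left k4]
      exact neg_ne_zero.2 k3
  have h2 : ∀ y, TSol F lam p y → Full (TE F lam p) y := fun y hy =>
    full_of_ker (w := fun l => wV m l * y l) (rows hF hp hs h0 hα (fun e => by
      simpa [e, TE] using hy.2) hy.1).2
      (fun j hj => by rw [euler (hG j), hy.1 j hj, mul_zero]) (by simp [euler (hG _), hy.2, dT])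
  refine ⟨p, lam, h0, hα, h2, fun μ hμ => ?_⟩
  obtain ⟨c, c1, c2⟩ := (span_sol hw hG hcard (by
    rintro (_ | _ | k)
    exacts [one_ne_zero, one_ne_zero, by have := k.2; simp only [dT]; omega]) (j₀ := none) rfl h1
    fun y a b => h2 y ⟨a, b⟩).2 (Sum.elim (Fin.cons 0 μ) 0) (by
      rintro (l | l) h
      exacts [(h rfl).elim, rfl]) fun y a b => by
      simpa [Fin.sum_univ_succ] using hμ y ⟨a, b⟩
  have c3 : ∀ y : V m → ℂ, ∑ k, μ k * y (.inl k.succ) = c (some none) * y (.inl 0) +
      c (some (some (Fin.last _))) * (EE F (eval p F) p y).coeff (2 * m + 3) := fun y => by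
    have := c2 y
    rw [Fintype.sum_option, Fintype.sum_option, c1,
      Finset.sum_eq_single (Fin.last (2 * m + 3)) (fun k _ hk => if_neg fun e => hk (Fin.ext (by
        have := k.2; simp only [dT] at e; simp; omega))) (by simp), eval_TE] at this
    simpa [Fin.sum_univ_succ, dT, TE] using this
  have c4 := c3 (Pi.single (.inr (.inr 0)) 1)
  have c5 : (EE F (eval p F) p (Pi.single (.inr (.inr 0)) 1)).coeff (2 * m + 3) = -1 := by
    have e1 : ln F p (fun _ => 0) = Polynomial.C (eval p F) * Polynomial.X ^ (2 * m + 4) :=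
      Polynomial.funext fun s => by
        rw [ln_eval, show (fun _ => 0 : Fin (m + 2) → ℂ) = 0 from rfl, add_zero, eval_hom hF,
          Polynomial.eval_mul, Polynomial.eval_C, Polynomial.eval_pow, Polynomial.eval_X, mul_comm]
    have e2 : EE F (eval p F) p (Pi.single (.inr (.inr 0)) 1) = -Polynomial.X ^ (2 * m + 3) := by
      simp [EE, PA, PB, pl, e1, Pi.single_apply]
      ring
    simp [e2]
  rw [c5] at c4
  have c6 : c (some (some (Fin.last _))) = 0 := by simpa using c4
  funext k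
  simpa [c6, Pi.single_apply, (Fin.succ_ne_zero k).symm] using c3 (Pi.single (.inl k.succ) 1)

end system

end Pool.Agent.Lib.MP_cd3a7b_ag.H30
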