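import Pool.Agent.Lib.MP_cd3a7b_ag.H36Main
import Pool.Agent.Lib.MP_cd3a7b_ag.H30Main
import Pool.Agent.Lib.MP_cd3a7b_ag.H30Tan

/-! Dense entire curves on every smooth Calabi-Yau double cover of projective space (the analytic
part is adapted from `H36Main`). -/

namespace Pool.Agent.Lib.MP_cd3a7b_ag.H36

open Metric Set Filter Topology MvPolynomial H30
open scoped Manifold Polynomial

variable {m : ℕ}

theorem EE_diff (F : MvPolynomial (Fin (m + 2)) ℂ) (k : ℕ) :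
    Differentiable ℂ fun x : (Fin (m + 2) → ℂ) × (V m → ℂ) =>
      (EE F (eval x.1 F) x.1 x.2).coeff k := by
  let T : Subring ((Fin (m + 2) → ℂ) × (V m → ℂ) → ℂ[X]) :=
    { carrier := {P | ∀ k, Differentiable ℂ fun x => (P x).coeff k}
      mul_mem' := fun {a b} ha hb k => by
        simp only [Pi.mul_apply, Polynomial.coeff_mul]
        exact Differentiable.fun_sum fun i _ => (ha _).mul (hb _)
      one_mem' := fun k => differentiable_const _
      add_mem' := fun {a b} ha hb k => by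
        simp only [Pi.add_apply, Polynomial.coeff_add]
        exact (ha k).add (hb k)
      zero_mem' := fun k => differentiable_const _
      neg_mem' := fun {a} ha k => by
        simp only [Pi.neg_apply, Polynomial.coeff_neg]
        exact (ha k).neg }
  have hC : ∀ (f : (Fin (m + 2) → ℂ) × (V m → ℂ) → ℂ) (n : ℕ), Differentiable ℂ f →
      (fun x => Polynomial.C (f x) * Polynomial.X ^ n) ∈ T := fun f n hf k => by
    simp only [Polynomial.coeff_C_mul_X_pow]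
    split_ifs
    exacts [hf, differentiable_const _]
  have hp : ∀ {k : ℕ} (e : Fin k → V m), (fun x => pl fun l => x.2 (e l)) ∈ T := fun {k} e => by
    convert T.sum_mem (t := Finset.univ) fun l _ => hC (fun x => x.2 (e l)) (k - 1 - l) (by fun_prop)
    simp [pl]
  have h1 : (fun x => ln F x.1 fun j => x.2 (.inl j)) ∈ T := fun k =>
    (ln_diff F k).comp (f := fun x : (Fin (m + 2) → ℂ) × (V m → ℂ) => (x.1, fun j => x.2 (.inl j)))
      (by fun_prop)
  exact T.sub_mem h1 (T.mul_mem (T.pow_mem (T.add_mem (fun k => differentiable_const _)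
    (hp fun l => .inr (.inl l))) 2) (T.add_mem (hC (fun x => eval x.1 F) 4
      ((differentiable_eval F).comp differentiable_fst)) (hp fun l => .inr (.inr l)))) k

theorem form_id {F : MvPolynomial (Fin (m + 2)) ℂ} (hF : F.IsHomogeneous (2 * m + 4))
    {p : Fin (m + 2) → ℂ} {y : V m → ℂ}
    (h : ln F p (fun j => y (.inl j)) = PA y ^ 2 * PB (eval p F) y) (a b : ℂ) :
    eval (a • (fun j => y (.inl j)) + b • p) F = Qh (fun l => y (.inr (.inl l))) a b ^ 2 *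
      ∑ l : Fin 5, Fin.cons (α := fun _ => ℂ) (eval p F) (fun l => y (.inr (.inr l))) l *
        a ^ (l : ℕ) * b ^ (4 - l : ℕ) := by
  rcases eq_or_ne a 0 with rfl | ha
  · rw [zero_smul, zero_add, eval_hom hF]
    simp [Qh, Fin.sum_univ_succ]
    ring
  obtain ⟨s, rfl⟩ : ∃ s, b = a * s := ⟨b / a, by field_simp⟩
  have h1 := congrArg (Polynomial.eval s) h
  have h2 := Qh_mul (fun l => y (.inr (.inl l))) a 1 s
  have h3 : Qh (fun l => y (.inr (.inl l))) 1 s = (PA y).eval s := by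
    simp [Qh, PA, pl, Polynomial.eval_finsetSum]
  rw [mul_one, h3] at h2
  rw [mul_smul, ← smul_add, add_comm _ (s • p), eval_hom hF, ← ln_eval, h1, h2]
  simp [PB, pl, Fin.sum_univ_succ]
  ring

theorem tangent_lines {F : MvPolynomial (Fin (m + 2)) ℂ} (hF : F.IsHomogeneous (2 * (m + 1 + 1)))
    (hs : ∀ x ≠ 0, eval x F = 0 → ∃ i, eval x (pderiv i F) ≠ 0) :
    ∃ p₀ : Fin (m + 2) → ℂ, p₀ 0 ≠ 0 ∧ eval p₀ F ≠ 0 ∧ ∃ (ι : Type) (_ : Fintype ι) (_ : ι)
      (u : ι → (Fin (m + 2) → ℂ) → Fin (m + 2) → ℂ) (q : ι → (Fin (m + 2) → ℂ) → Fin m → ℂ)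
      (ρ : ι → (Fin (m + 2) → ℂ) → Fin 5 → ℂ), (∀ i, ∀ᶠ p in 𝓝 p₀, u i p 0 = 0 ∧ u i p ≠ 0) ∧
      (∀ v : Fin (m + 1) → ℂ, ∃ c : ι → ℂ, ∀ k, ∑ i, c i * u i p₀ k.succ = v k) ∧
      ∀ i, ∀ᶠ p in 𝓝 p₀, DifferentiableAt ℂ (u i) p ∧ DifferentiableAt ℂ (q i) p ∧
        DifferentiableAt ℂ (ρ i) p ∧ ∀ a b, eval (a • u i p + b • p) F =
          Qh (q i p) a b ^ 2 * ∑ l, ρ i p l * a ^ (l : ℕ) * b ^ (4 - l : ℕ) := by
  have hF' : F.IsHomogeneous (2 * m + 4) := hF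
  obtain ⟨p, lam, h0, h1, h2, h3⟩ := tangents hF' hs
  have h4 : Submodule.span ℂ {w | ∃ y, TSol F lam p y ∧ w = fun k : Fin (m + 1) =>
      y (.inl k.succ)} = ⊤ := by
    by_contra h
    obtain ⟨f, f1, f2⟩ := Submodule.exists_le_ker_of_lt_top _ (lt_top_iff_ne_top.2 h)
    have f3 : ∀ q, f q = ∑ l, f (Pi.single l 1) * q l := fun q => by
      conv_lhs => rw [← Finset.univ_sum_single q, map_sum]
      refine Finset.sum_congr rfl fun l _ => ?_
      rw [mul_comm, ← smul_eq_mul, ← map_smul, ← Pi.single_smul, smul_eq_mul, mul_one]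
    have f4 := h3 (fun l => f (Pi.single l 1)) fun y hy =>
      (f3 _).symm.trans (f2 (Submodule.subset_span ⟨y, hy, rfl⟩))
    exact f1 (LinearMap.ext fun q => by simp [f3 q, congrFun f4])
  obtain ⟨b, b1, b2, b3⟩ := exists_linearIndependent ℂ {w | ∃ y, TSol F lam p y ∧
    w = fun k : Fin (m + 1) => y (.inl k.succ)}
  obtain ⟨w, hw⟩ : b.Nonempty := nonempty_iff_ne_empty.2 fun e => by
    rw [e, h4, Submodule.span_empty] at b2
    exact bot_ne_top b2
  have := b3.setFinite.fintype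
  choose y y1 y2 using fun w : b => b1 w.2
  obtain ⟨G, hG⟩ : ∃ G : (Fin (m + 2) → ℂ) × (V m → ℂ) → Option (Option (Fin (2 * m + 4))) → ℂ,
      ∀ x j, G x j = eval x.2 (TE F lam x.1 j) := ⟨_, fun _ _ => rfl⟩
  have dG : Differentiable ℂ G := differentiable_pi.2 (by
    rintro (_ | _ | k)
    · simp only [hG, TE, map_sum, map_mul, eval_C, eval_X]
      fun_prop
    · simp only [hG, TE, eval_X]
      fun_prop
    · simpa only [hG, eval_TE] using EE_diff F k)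
  choose τ τ1 τ2 using fun i => ift dG (by simp; omega) (p := p) (q := y i) fun c => by
    obtain ⟨v, hv⟩ := h2 _ (y1 i) c
    refine ⟨v, funext fun j => ?_⟩
    have e : (fun y => G (p, y)) = fun y j => eval y (TE F lam p j) :=
      funext fun y => funext fun j => hG _ _
    rw [e, fderiv_pi fun j => differentiable_eval (TE F lam p j) (y i), ← hv, ← fderiv_eval]
    rfl
  have τ3 : ∀ i, ∀ᶠ e in 𝓝 p, TSol F lam e (τ i e) := fun i => (τ2 i).mono fun e he => by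
    have h3 : ∀ j, eval (τ i e) (TE F lam e j) = eval (y i) (TE F lam p j) := fun j =>
      (hG (e, τ i e) j).symm.trans ((congrFun he.2 j).trans (hG (p, y i) j))
    exact ⟨fun j hj => (h3 j).trans ((y1 i).1 j hj), (h3 _).trans (y1 i).2⟩
  refine ⟨p, h0, h1, b, this, ⟨w, hw⟩, fun i e j => τ i e (.inl j),
    fun i e l => τ i e (.inr (.inl l)),
    fun i e => Fin.cons (eval e F) fun l => τ i e (.inr (.inr l)),
    fun i => (τ3 i).mono fun e he => ⟨by simpa [TE] using he.1 (some none) (by simp), fun e' => ?_⟩,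
    fun v => ?_, fun i => ((τ2 i).and (τ3 i)).mono fun e he => ?_⟩
  · simpa [TE, congrFun e'] using he.2
  · obtain ⟨c, hc⟩ := (Submodule.mem_span_range_iff_exists_fun ℂ (v := ((↑) : b → _)) (x := v)).1
      (by simp [b2, h4])
    exact ⟨c, fun k => by simpa [τ1, y2] using congrFun hc k⟩
  · have d := differentiableAt_pi.1 he.1.1
    refine ⟨differentiableAt_pi.2 fun j => d _, differentiableAt_pi.2 fun j => d _,
      differentiableAt_pi.2 (Fin.cases (differentiable_eval F e) fun j => d _),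
      form_id hF' (EE_zero hF' fun k hk => ?_)⟩
    exact (eval_TE _ ⟨k, hk⟩).symm.trans (he.2.1 (some (some ⟨k, hk⟩)) (by simp))

/-- The family of genus one curves over a family of multiply tangent lines. -/
theorem family {F : MvPolynomial (Fin (m + 2)) ℂ} {p₀ : Fin (m + 2) → ℂ}
    {u : (Fin (m + 2) → ℂ) → Fin (m + 2) → ℂ} {q : (Fin (m + 2) → ℂ) → Fin m → ℂ}
    {ρ : (Fin (m + 2) → ℂ) → Fin 5 → ℂ} {r : (Fin (m + 2) → ℂ) → ℂ}
    (hu : ∀ᶠ p in 𝓝 p₀, u p 0 = 0 ∧ u p ≠ 0) (hp : p₀ 0 ≠ 0)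
    (hq : ∀ᶠ p in 𝓝 p₀, DifferentiableAt ℂ u p ∧ DifferentiableAt ℂ q p ∧
      DifferentiableAt ℂ ρ p ∧ ∀ a b, eval (a • u p + b • p) F =
        Qh (q p) a b ^ 2 * ∑ l, ρ p l * a ^ (l : ℕ) * b ^ (4 - l : ℕ))
    (hr : ∀ᶠ p in 𝓝 p₀, DifferentiableAt ℂ r p ∧ r p ^ 2 = eval p F) :
    ∃ (L : ℂ × (Fin (m + 2) → ℂ) → W (m + 1)) (a b : ℂ → ℂ),
      (∀ p, L (0, p) = (p₀ + p, r (p₀ + p))) ∧
      (∀ s, (L (s, 0)).1 = a s • u p₀ + b s • p₀) ∧ HasDerivAt (fun s => a s / b s) (r p₀) 0 ∧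
      ∀ᶠ p in 𝓝 (0 : Fin (m + 2) → ℂ), ∀ s, L (s, p) ∈ Cone (fun v => eval v F) ∧
        ∃ κ : ℂ × (Fin (m + 2) → ℂ) → ℂ, (∀ᶠ z in 𝓝 (s, p), κ z ≠ 0) ∧
          DifferentiableAt ℂ (fun z => act (κ z) (L z)) (s, p) := by
  obtain ⟨Ψ, h1, h2, h3⟩ := global_flow
  let c : (Fin (m + 2) → ℂ) → Fin 5 → ℂ := fun p => ![r p, ρ p 1, ρ p 2, ρ p 3, ρ p 4]
  refine ⟨fun z => ((Ψ (z.1, c (p₀ + z.2))).1 • u (p₀ + z.2) + (Ψ (z.1, c (p₀ + z.2))).2.1 •
    (p₀ + z.2), Qh (q (p₀ + z.2)) (Ψ (z.1, c (p₀ + z.2))).1 (Ψ (z.1, c (p₀ + z.2))).2.1 *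
      (Ψ (z.1, c (p₀ + z.2))).2.2),
    fun s => (Ψ (s, c p₀)).1, fun s => (Ψ (s, c p₀)).2.1, fun p => by simp [(h3 _).1, c, Qh],
    fun s => by simp, (h3 (c p₀)).2, ?_⟩
  have hl : ∀ᶠ p : Fin (m + 2) → ℂ in 𝓝 p₀, p 0 ≠ 0 :=
    (continuous_apply 0).continuousAt.eventually_ne hp
  have ta : Tendsto (fun p => p₀ + p) (𝓝 0) (𝓝 p₀) := by
    simpa using (continuous_const_add p₀).tendsto 0
  filter_upwards [ta.eventually hq, ta.eventually hr, ta.eventually hl, ta.eventually hu]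
    with p k1 k2 k3 k4 s
  refine ⟨⟨fun e => ?_, ?_⟩, ?_⟩
  · have e1 := congrFun e 0
    simp only [Pi.add_apply _ (_ • _), Pi.smul_apply, k4.1, smul_eq_mul, mul_zero, zero_add,
      Pi.zero_apply, mul_eq_zero, k3, or_false] at e1
    simp only [e1, zero_smul, add_zero, smul_eq_zero, k4.2, or_false] at e
    exact (h1 _).1.elim (fun h => h e) fun h => h e1
  · refine Eq.trans ?_ (k1.2.2.2 _ _).symm
    have e1 : ρ (p₀ + p) 0 = r (p₀ + p) ^ 2 := by
      simpa [Qh, Fin.sum_univ_five, k2.2] using (k1.2.2.2 0 1).symm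
    rw [mul_pow, (h1 _).2]
    simp [Qd, c, Fin.sum_univ_five, e1]
  · obtain ⟨κ, hκ⟩ := h2 (s, c (p₀ + p))
    have d0 : DifferentiableAt ℂ (fun z : ℂ × (Fin (m + 2) → ℂ) => p₀ + z.2) (s, p) := by fun_prop
    have d1 := DifferentiableAt.comp (g := u) (s, p) k1.1 d0
    have d5 := differentiableAt_pi.1 (DifferentiableAt.comp (g := q) (s, p) k1.2.1 d0)
    have d2 : DifferentiableAt ℂ (fun z : ℂ × (Fin (m + 2) → ℂ) => (z.1, c (p₀ + z.2))) (s, p) := by
      refine differentiableAt_fst.prodMk (differentiableAt_pi.2 fun k => ?_)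
      have d3 := differentiableAt_pi.1 (DifferentiableAt.comp (g := ρ) (s, p) k1.2.2.1 d0)
      fin_cases k
      exacts [DifferentiableAt.comp (g := r) (s, p) k2.1 d0, d3 1, d3 2, d3 3, d3 4]
    refine ⟨fun z => κ (z.1, c (p₀ + z.2)),
      (d2.continuousAt.eventually hκ).mono fun z hz => hz.1, ?_⟩
    have d4 := hκ.self_of_nhds.2.comp (s, p) d2
    refine (((d4.fst.smul d1).add (d4.snd.fst.smul d0)).prodMk (((d4.snd.fst.fun_pow m).fun_add
      (DifferentiableAt.fun_sum (u := Finset.univ) fun (l : Fin m) _ => ((d5 l).fun_mul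
        (d4.fst.fun_pow (l + 1))).fun_mul (d4.snd.fst.fun_pow (m - 1 - l)))).fun_mul
      d4.snd.snd)).congr_of_eventuallyEq (Eventually.of_forall fun z => ?_)
    refine Prod.ext ?_ ?_
    · simp [act, smul_smul]
    · refine Eq.trans ?_ (congrArg (· * _) (Qh_mul (q (p₀ + z.2)) _ _ _).symm)
      simp only [act, Function.comp_apply]
      ring

section model

variable {F : MvPolynomial (Fin (m + 2)) ℂ} {X : Type} [TopologicalSpace X]
  [ChartedSpace (Fin (m + 1) → ℂ) X] [IsManifold 𝓘(ℂ, Fin (m + 1) → ℂ) 1 X] {π : W (m + 1) → X}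

theorem chain_class (hF : F.IsHomogeneous (2 * (m + 1 + 1))) {p₀ : Fin (m + 2) → ℂ}
    (h0 : p₀ 0 ≠ 0) (h1 : eval p₀ F ≠ 0) {ι : Type} [Fintype ι] (i₀ : ι)
    {q : ι → (Fin (m + 2) → ℂ) → Fin (m + 2) → ℂ}
    {q' : ι → (Fin (m + 2) → ℂ) → Fin m → ℂ} {ρ' : ι → (Fin (m + 2) → ℂ) → Fin 5 → ℂ}
    (hq : ∀ i, ∀ᶠ p in 𝓝 p₀, q i p 0 = 0 ∧ q i p ≠ 0)
    (h2 : ∀ v : Fin (m + 1) → ℂ, ∃ c : ι → ℂ, ∀ k, ∑ i, c i * q i p₀ k.succ = v k)
    (h3 : ∀ i, ∀ᶠ p in 𝓝 p₀, DifferentiableAt ℂ (q i) p ∧ DifferentiableAt ℂ (q' i) p ∧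
      DifferentiableAt ℂ (ρ' i) p ∧ ∀ a b, eval (a • q i p + b • p) F =
        Qh (q' i p) a b ^ 2 * ∑ l, ρ' i p l * a ^ (l : ℕ) * b ^ (4 - l : ℕ))
    (m1 : ∀ y ∈ Cone fun v => eval v F, ∀ y' ∈ Cone fun v => eval v F,
      π y = π y' ↔ ∃ c, c ≠ 0 ∧ y' = act c y)
    (m2 : ∀ (V : Type) [NormedAddCommGroup V] [NormedSpace ℂ V] (s : V → W (m + 1)) (z : V),
      DifferentiableAt ℂ s z → (∀ᶠ z' in 𝓝 z, s z' ∈ Cone fun v => eval v F) →
        MDifferentiableAt 𝓘(ℂ, V) 𝓘(ℂ, Fin (m + 1) → ℂ) (fun z' => π (s z')) z)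
    (m3 : ∀ x, ∃ σ : X → W (m + 1), ∀ᶠ x' in 𝓝 x, MDifferentiableAt 𝓘(ℂ, Fin (m + 1) → ℂ) 𝓘(ℂ, W (m + 1)) σ x' ∧
      (σ x' ∈ Cone fun v => eval v F) ∧ π (σ x') = x') :
    ∃ f ∈ Ctr (Fin (m + 1) → ℂ) X, {y | Relation.ReflTransGen (Lnk (Fin (m + 1) → ℂ)) (f 0) y} ∈ 𝓝 (f 0) ∧
      ∀ O ∈ 𝓝 (f 0), ∀ᶠ p in 𝓝 p₀,
        ∃ w, ((p, w) ∈ Cone fun v => eval v F) ∧ π (p, w) ∈ O := by
  obtain ⟨r, h4, h5⟩ := exists_sqrt (differentiable_eval F) h1
  have hh : ∀ (c : ℂ) (v : Fin (m + 2) → ℂ), eval (c • v) F = c ^ (2 * (m + 1 + 1)) * eval v F :=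
    eval_smul' hF
  obtain ⟨l, l0, l1, l3⟩ : ∃ l : Fin (m + 2) → (Fin (m + 2) → ℂ) →L[ℂ] ℂ, l 0 p₀ = 1 ∧
      (∀ k : Fin (m + 1), l k.succ p₀ = 0) ∧
      ∀ v, v 0 = 0 → l 0 v = 0 ∧ ∀ k : Fin (m + 1), l k.succ v = v k.succ :=
    ⟨Fin.cons ((p₀ 0)⁻¹ • .proj 0) fun k => .proj k.succ - (p₀ k.succ / p₀ 0) • .proj 0,
      by simp [h0], fun k => by simp [h0], fun v hv => by simp [hv]⟩
  have l2 : ∀ i, l 0 (q i p₀) = 0 := fun i => (l3 _ (hq i).self_of_nhds.1).1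
  choose L a b k1 k2 k3 k4 using fun i => family (hq i) h0 (h3 i) h5
  have hS : ∀ i, Spray (Fin (m + 1) → ℂ) fun z => π (L i z) := fun i => by
    filter_upwards [(k4 i).eventually_nhds] with p hp s
    obtain ⟨κ, n1, n2⟩ := (hp.self_of_nhds s).2
    have n3 : ∀ᶠ z in 𝓝 (s, p), L i z ∈ Cone fun v => eval v F :=
      ((continuous_snd.tendsto (s, p)).eventually hp).mono fun z hz => (hz z.1).1
    refine (m2 _ _ _ n2 ((n1.and n3).mono fun z hz => act_mem_mod hh hz.2 hz.1)).congr_of_eventuallyEq ?_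
    filter_upwards [n1, n3] with z z1 z2
    exact (m1 _ z2 _ (act_mem_mod hh z2 z1)).2 ⟨_, z1, rfl⟩
  have c0 : (p₀, r p₀) ∈ Cone fun v => eval v F := by
    simpa [k1] using ((k4 i₀).self_of_nhds 0).1
  obtain ⟨σ, hσ⟩ := m3 (π (p₀, r p₀))
  let ρ : (Fin (m + 2) → ℂ) → Fin (m + 1) → ℂ := fun v k => l k.succ v / l 0 v
  have hρ : ∀ᶠ x in 𝓝 (π (p₀, r p₀)), ∀ y ∈ Cone fun v => eval v F, π y = x → ρ (σ x).1 = ρ y.1 := by
    filter_upwards [hσ] with x hx y hy e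
    obtain ⟨c, hc, e'⟩ := (m1 _ hy _ hx.2.1).1 (e.trans hx.2.2.symm)
    ext k
    simp only [e', act, ρ, map_smul, smul_eq_mul, mul_div_mul_left _ _ hc]
  have dρ : ∀ v, l 0 v ≠ 0 → DifferentiableAt ℂ ρ v := fun v hv =>
    differentiableAt_pi.2 fun k => (l _).differentiableAt.mul ((l _).differentiableAt.inv hv)
  have hpr : MDifferentiableAt 𝓘(ℂ, Fin (m + 1) → ℂ) 𝓘(ℂ, Fin (m + 1) → ℂ) (fun x => ρ (σ x).1)
      (π (p₀, r p₀)) := by
    obtain ⟨c, hc, e'⟩ := (m1 _ c0 _ hσ.self_of_nhds.2.1).1 hσ.self_of_nhds.2.2.symm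
    refine MDifferentiableAt.comp (I' := 𝓘(ℂ, W (m + 1))) (g := fun y : W (m + 1) => ρ y.1) _
      (DifferentiableAt.mdifferentiableAt ((dρ _ ?_).comp _ differentiableAt_fst))
      hσ.self_of_nhds.1
    simp [e', act, l0, hc]
  have e0 : ∀ i, π (L i (0, 0)) = π (p₀, r p₀) := fun i => by simp [k1]
  set x := π (p₀, r p₀)
  set D := fderiv ℂ (fun e => ρ (σ ((chartAt (Fin (m + 1) → ℂ) x).symm e)).1) (chartAt (Fin (m + 1) → ℂ) x x)
  have ta : Tendsto (fun p => p₀ + p) (𝓝 0) (𝓝 p₀) := by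
    simpa using (continuous_const_add p₀).tendsto 0
  have key : ∀ i u, ∃ p, D (fderiv ℂ (fun p => chartAt (Fin (m + 1) → ℂ) x (π (L i (0, p)))) 0 p) = u := by
    intro i u
    have n1 := chain_pr hpr ((hS i).self_of_nhds 0).slice (e0 i)
    have n2 : HasFDerivAt (fun p => ρ (p₀ + p)) (ContinuousLinearMap.pi fun k : Fin (m + 1) => l k.succ) 0 := by
      refine hasFDerivAt_pi.2 fun k => ?_
      have n3 : ∀ j, HasFDerivAt (fun p => l j (p₀ + p)) (l j) 0 := fun j => by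
        simpa only [map_add] using (l j).hasFDerivAt.const_add (l j p₀)
      refine ((n3 k.succ).mul ((hasFDerivAt_inv (by simp [l0])).comp 0 (n3 0))).congr_fderiv ?_
      ext v
      simp [l0, l1]
    have n4 : (fun p => ρ (σ (π (L i (0, p)))).1) =ᶠ[𝓝 0] fun p => ρ (p₀ + p) := by
      filter_upwards [(e0 i ▸ ((hS i).self_of_nhds 0).slice.continuousAt.tendsto).eventually hρ,
        k4 i] with p n5 n6
      exact (n5 _ (n6 0).1 rfl).trans (by rw [k1])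
    exact ⟨Fin.cons 0 u, (congrArg (fun A => A (Fin.cons 0 u))
      (n1.unique (n2.congr_of_eventuallyEq n4))).trans (funext (l3 (Fin.cons 0 u) rfl).2)⟩
  have hD : Function.Injective D :=
    (LinearMap.injective_iff_surjective_of_finrank_eq_finrank (f := (D : (Fin (m + 1) → ℂ) →ₗ[ℂ] Fin (m + 1) → ℂ))
      (by simp)).2 fun u => (key i₀ u).elim fun _ h => ⟨_, h⟩
  have hb : ∀ i, Sbm (Fin (m + 1) → ℂ) (fun p => π (L i (0, p))) 0 := fun i =>
    (sbm_iff ((hS i).self_of_nhds 0).slice (x := x) (by rw [e0]; exact mem_chart_source _ _)).2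
      fun v => (key i (D v)).imp fun _ h => hD h
  choose f f1 f2 using fun i => (ctr_of_spray (hS i) (hb i)).self_of_nhds
  have f0 : ∀ i, f i 0 = x := fun i => (f2 i 0).trans (e0 i)
  have dv : ∀ i, D (deriv (fun t => chartAt (Fin (m + 1) → ℂ) x (f i t)) 0) =
      r p₀ • fun k : Fin (m + 1) => l k.succ (q i p₀) := by
    intro i
    have n0 : Hol (Fin (m + 1) → ℂ) (f i) 0 := by
      rw [funext (f2 i)]
      exact Hol.pre (S := fun z => π (L i z)) (L := fun t => (t, (0 : Fin (m + 2) → ℂ)))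
        ((hS i).self_of_nhds 0) (by fun_prop)
    have n4 : (fun t => ρ (σ (f i t)).1) =ᶠ[𝓝 0]
        fun t => (a i t / b i t) • fun k : Fin (m + 1) => l k.succ (q i p₀) := by
      filter_upwards [(f0 i ▸ n0.continuousAt.tendsto).eventually hρ] with t n5
      refine (n5 _ ((k4 i).self_of_nhds t).1 (f2 i t).symm).trans (funext fun k => ?_)
      simp only [ρ, k2, map_add, map_smul, l0, l1, l2, smul_eq_mul, Pi.smul_apply]
      ring
    exact (chain_pr hpr n0 (f0 i)).hasDerivAt.unique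
      (((k3 i).smul_const _).congr_of_eventuallyEq n4)
  refine ⟨f i₀, f1 i₀, ?_, fun O hO => ?_⟩
  · rw [f0]
    refine span_nhds f1 f0 fun v => ?_
    obtain ⟨c, hc⟩ := h2 (D v)
    refine ⟨fun i => c i / r p₀, hD ?_⟩
    ext k
    simp [dv, h4, smul_smul, ← hc, fun i => (l3 _ (hq i).self_of_nhds.1).2]
  · have tb : Tendsto (fun p => p - p₀) (𝓝 p₀) (𝓝 0) := by
      simpa using (continuous_sub_right p₀).tendsto p₀
    rw [f0, ← e0 i₀] at hO
    filter_upwards [tb.eventually (((hS i₀).self_of_nhds 0).slice.continuousAt.eventually hO),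
      tb.eventually (k4 i₀)] with p n1 n2
    exact ⟨r p, by simpa [k1] using (n2 0).1, by simpa [k1] using show π (L i₀ (0, p - p₀)) ∈ O from n1⟩

end model

theorem cy_all (m : ℕ) :
    ∀ F : MvPolynomial (Fin (m + 3)) ℂ, F.IsHomogeneous (2 * (m + 1 + 1 + 1)) →
      (∀ v : Fin (m + 3) → ℂ, v ≠ 0 → eval v F = 0 → ∃ i, eval v (pderiv i F) ≠ 0) →
      ∀ S : Set (MvPolynomial (Option (Fin (m + 3))) ℂ),
        (∀ G ∈ S, ∃ k, G.IsWeightedHomogeneous (fun o => o.elim (m + 2 + 1) fun _ => 1) k) →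
        3 ≤ (Ideal.span S).height → ∃ g : ℂ → W (m + 2), Differentiable ℂ g ∧
      (∀ t, g t ∈ Cone fun v => eval v F) ∧
      (∀ t, ∃ G ∈ S, eval (fun o => o.elim (g t).2 (g t).1) G ≠ 0) ∧
      ∀ (G : MvPolynomial (Option (Fin (m + 3))) ℂ) (k : ℕ),
        G.IsWeightedHomogeneous (fun o => o.elim (m + 2 + 1) fun _ => 1) k →
        (∀ t, eval (fun o => o.elim (g t).2 (g t).1) G = 0) →
          ∀ v w, w ^ 2 = eval v F → eval (fun o => o.elim w v) G = 0 := by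
  intro F hF hs S hS h3
  obtain ⟨p₀, b0, b1, ι, _, i₀, u, q', ρ, b2, b3, b4⟩ := tangent_lines (m := m + 1) hF hs
  have hh := eval_smul' hF
  obtain ⟨X, _, _, _, _, _, π, m1, m2, m3, m4⟩ := exists_model (n := m + 2)
    (differentiable_eval F) hh fun v hv h e => by
      obtain ⟨i, hi⟩ := hs v hv h
      have := fderiv_eval F v (Pi.single i 1)
      rw [e] at this
      exact hi (by simpa [Pi.single_apply] using this.symm)
  obtain ⟨f, f1, f2, f3⟩ := chain_class hF b0 b1 i₀ b2 b3 b4 m1 m2 m3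
  let co : W (m + 2) → Option (Fin (m + 3)) → ℂ := fun y o => o.elim y.2 y.1
  have cl : ∀ {G : MvPolynomial (Option (Fin (m + 3))) ℂ} {n : ℕ},
      G.IsWeightedHomogeneous (fun o => o.elim (m + 2 + 1) fun _ => 1) n →
      (∀ (k : ℂ) (y : W (m + 2)), eval (co (act k y)) G = k ^ n * eval (co y) G) ∧
      IsClosed {x | ∀ y ∈ Cone fun v => eval v F, π y = x → eval (co y) G = 0} := fun {G n} hG => by
    have ea : ∀ (k : ℂ) (y : W (m + 2)), eval (co (act k y)) G = k ^ n * eval (co y) G :=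
      fun k y => by
        rw [← eval_w_alg hG k]
        congr 2
        funext o
        cases o <;> simp [co, act]
    exact ⟨ea, model_closed (ev := fun y => eval (co y) G) m1 m3
      (Continuous.comp (g := fun v => eval v G) (f := co)
      (differentiable_eval G).continuous (continuous_pi fun o => by
        cases o
        exacts [continuous_snd, (continuous_apply _).comp continuous_fst])) ea⟩
  have hZ : IsClosed (⋂ G ∈ S, {x | ∀ y ∈ Cone fun v => eval v F, π y = x → eval (co y) G = 0}) :=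
    isClosed_biInter fun G hG => (hS G hG).elim fun _ h => (cl h).2
  obtain ⟨g, g1, g2, g3⟩ := closure_nonempty_iff.1 ⟨_, chain_curve hZ (fun x => by
    obtain ⟨j, L, hL⟩ := m4 x
    let T : (Option (Fin (m + 3)) → ℂ) →L[ℂ] W (m + 2) :=
      (ContinuousLinearMap.pi fun i => .proj (some i)).prod (.proj none)
    have h4 := dimH_slice hS h3 (j := some j) rfl (m := m) (by simp)
    refine lt_of_le_of_lt (add_le_add_left ((dimH_mono ?_).trans
      (((L.comp T).lipschitz.dimH_image_le _).trans h4)) 2) ?_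
    · rintro _ ⟨x', ⟨a1, a2⟩, rfl⟩
      obtain ⟨y, y1, y2, y3, y4⟩ := hL x' a2
      exact ⟨co y, ⟨y2, fun G hG => mem_iInter₂.1 a1 G hG y y1 y3⟩, y4.symm⟩
    · simp only [Module.finrank_fintype_fun_eq_card, Fintype.card_fin]
      exact_mod_cast (by omega : 2 * m + 2 < 2 * (m + 1 + 1))) f1 ⟨_, mem_interior_iff_mem_nhds.2 f2⟩⟩
  obtain ⟨γ, c2, c3⟩ := model_lift (f := fun v => eval v F) hh m1 m3 g1
  have hN : ∀ {G : MvPolynomial (Option (Fin (m + 3))) ℂ} {n : ℕ},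
      G.IsWeightedHomogeneous (fun o => o.elim (m + 2 + 1) fun _ => 1) n → ∀ t,
      eval (co (γ t)) G = 0 → ∀ y ∈ Cone fun v => eval v F, π y = g t → eval (co y) G = 0 := by
    intro G n hG t h y hy e
    obtain ⟨k, -, e'⟩ := (m1 _ (c3 t).1 _ hy).1 ((c3 t).2.trans e.symm)
    rw [e']
    exact ((cl hG).1 k _).trans (mul_eq_zero_of_right _ h)
  refine ⟨γ, c2, fun t => (c3 t).1, fun t => ?_, fun G n hG h => ?_⟩
  · by_contra h
    push Not at h
    exact g2 t (mem_iInter₂.2 fun G hG => (hS G hG).elim fun _ h' => hN h' t (h G hG))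
  obtain ⟨s, t, q1, q2⟩ := root_tan hF (by omega) (Pi.single 0 1) (Pi.single 1 1)
  obtain ⟨i, hi⟩ := hs _ (fun e => q1.elim (fun h => h (by simpa using congrFun e 0))
    fun h => h (by simpa using congrFun e 1)) q2
  have hN' := closure_minimal (s := range g) (by
    rintro _ ⟨t, rfl⟩
    exact hN hG t (h t)) (cl hG).2
  refine vanish q2 hi G (p₀ := p₀) ((f3 _ f2).mono ?_)
  rintro p ⟨w, a1, a2⟩
  exact ⟨w, a1.2, hN' (g3 _ a2) (p, w) a1 rfl⟩

end Pool.Agent.Lib.MP_cd3a7b_ag.H36
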