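import Pool.Agent.Lib.MP_cd3a7b_ag.H36Dim
import Pool.Agent.Lib.MP_5f3851_al.Sop

/-! A reduced zero-dimensional complete intersection in projective space lies in no hyperplane
other than those that occur among its equations. -/

namespace Pool.Agent.Lib.MP_cd3a7b_ag.H30

open MvPolynomial RingTheory.Sequence

variable {σ J : Type} [Fintype σ] [Fintype J]

theorem regular_X : IsWeaklyRegular (MvPolynomial σ ℂ)
    ((Finset.univ : Finset σ).toList.map (X : σ → MvPolynomial σ ℂ)) := by
  classical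
  have hl := (Finset.univ : Finset σ).nodup_toList
  generalize (Finset.univ : Finset σ).toList = l at hl
  refine ⟨fun i hi => IsSMulRegular.of_right_eq_zero_of_smul fun a ha => ?_⟩
  obtain ⟨a, rfl⟩ := Submodule.Quotient.mk_surjective _ a
  have hi' : i < l.length := by simpa using hi
  have e : Ideal.ofList ((l.map (X : σ → MvPolynomial σ ℂ)).take i) =
      Ideal.span (X '' {j | j ∈ l.take i}) := by
    rw [Ideal.ofList, ← List.map_take]
    congr 1
    ext x
    simp only [List.mem_map, Set.mem_ofPred_eq, Set.mem_image]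
  rw [← Submodule.Quotient.mk_smul] at ha
  rw [Submodule.Quotient.mk_eq_zero, smul_eq_mul, Ideal.mul_top, e,
    mem_ideal_span_X_image] at ha ⊢
  intro m hm
  obtain ⟨j, h1, h2⟩ := ha (Finsupp.single l[i] 1 + m) (by
    rw [mem_support_iff, List.getElem_map, smul_eq_mul, coeff_X_mul]
    exact mem_support_iff.1 hm)
  refine ⟨j, h1, ?_⟩
  have h3 : l[i] ≠ j := by
    rintro rfl
    obtain ⟨k, k1, k2⟩ := List.mem_take_iff_getElem.1 h1
    have := (hl.getElem_inj_iff).1 k2
    omega
  simpa [Finsupp.single_eq_of_ne h3.symm] using h2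

theorem depth (G : J → MvPolynomial σ ℂ) (hc : Fintype.card J ≤ Fintype.card σ)
    (h0 : ∀ j, constantCoeff (G j) = 0) (h1 : ∀ q : σ → ℂ, (∀ j, eval q (G j) = 0) → q = 0)
    (j₀ : J) {a : MvPolynomial σ ℂ} (ha : G j₀ * a ∈ Ideal.span (G '' {j | j ≠ j₀})) :
    ∃ u, constantCoeff u ≠ 0 ∧ u * a ∈ Ideal.span (G '' {j | j ≠ j₀}) := by
  classical
  let m : Ideal (MvPolynomial σ ℂ) := RingHom.ker constantCoeff
  have : m.IsPrime := RingHom.ker_isPrime _
  let S := Localization.AtPrime m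
  let φ := algebraMap (MvPolynomial σ ℂ) S
  have reg := (regular_X (σ := σ)).isRegular_of_isLocalization_of_mem S m fun r hr => by
    obtain ⟨j, -, rfl⟩ := List.mem_map.1 hr
    simp [m]
  let l := (Finset.univ.erase j₀).toList.map G
  have e : Ideal.ofList l = Ideal.span (G '' {j | j ≠ j₀}) := by
    rw [Ideal.ofList]
    congr 1
    ext x
    simp [l]
  have hm : ∀ r, constantCoeff r = 0 → φ r ∈ IsLocalRing.maximalIdeal S := fun r hr =>
    (IsLocalization.AtPrime.to_map_mem_maximal_iff S m r).2 hr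
  have h2 := Pool.Agent.Lib.MP_5f3851_al.sop_regular _ ((l ++ [G j₀]).map φ) (fun r hr => by
    obtain ⟨r, h, rfl⟩ := List.mem_map.1 hr
    obtain ⟨j, -, rfl⟩ := List.mem_map.1 h
    exact hm _ (by simp)) reg (by
      have : 0 < Fintype.card J := Fintype.card_pos_iff.2 ⟨j₀⟩
      simp [l]
      omega) (fun r hr => by
    obtain ⟨r, h, rfl⟩ := List.mem_map.1 hr
    rcases List.mem_append.1 h with h | h
    · obtain ⟨j, -, rfl⟩ := List.mem_map.1 h
      exact hm _ (h0 j)
    · rw [List.mem_singleton.1 h]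
      exact hm _ (h0 _)) (by
    rw [← Localization.AtPrime.map_eq_maximalIdeal, ← Ideal.map_ofList]
    refine (Ideal.map_mono ?_).trans (Ideal.map_radical_le φ)
    rw [← vanishingIdeal_zeroLocus_eq_radical (K := ℂ)]
    intro r hr q hq
    obtain rfl : q = 0 := h1 q fun j => hq _ (Ideal.subset_span (by
      by_cases h : j = j₀
      · simp [h]
      · exact List.mem_append_left _ (List.mem_map.2 ⟨j, by simp [h], rfl⟩)))
    simpa [m] using hr)
  rw [List.map_append, isWeaklyRegular_append_iff, List.map_singleton,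
    isWeaklyRegular_singleton_iff, ← Ideal.map_ofList, e, smul_eq_mul, Ideal.mul_top] at h2
  have h3 := h2.2
  have h4 := h3.right_eq_zero_of_smul (x := Submodule.Quotient.mk (φ a)) (by
    rw [← Submodule.Quotient.mk_smul, Submodule.Quotient.mk_eq_zero, smul_eq_mul, ← map_mul]
    exact Ideal.mem_map_of_mem _ ha)
  rw [Submodule.Quotient.mk_eq_zero] at h4
  exact (IsLocalization.algebraMap_mem_map_algebraMap_iff m.primeCompl S _ _).1 h4

theorem taylor (q : σ → ℂ) (G : MvPolynomial σ ℂ) :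
    G - C (eval q G) - ∑ l, C (eval q (pderiv l G)) * (X l - C (q l)) ∈
      RingHom.ker (eval q) * RingHom.ker (eval q) := by
  classical
  induction G using MvPolynomial.induction_on with
  | C a => simp
  | add f g hf hg =>
    convert add_mem hf hg using 1
    simp only [map_add, add_mul, Finset.sum_add_distrib]
    ring
  | mul_X f i hf =>
    have h1 : (∑ l, C (eval q (pderiv l f)) * (X l - C (q l))) * (X i - C (q i)) ∈
        RingHom.ker (eval q) * RingHom.ker (eval q) :=
      Ideal.mul_mem_mul (by simp) (by simp)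
    convert add_mem (Ideal.mul_mem_right (X i) _ hf) h1 using 1
    have h4 : ∀ l, C (eval q (pderiv l (f * X i))) * (X l - C (q l) : MvPolynomial σ ℂ) =
        (if i = l then C (eval q f) * (X l - C (q l)) else 0) +
          C (q i) * (C (eval q (pderiv l f)) * (X l - C (q l))) := fun l => by
      rw [Derivation.leibniz, pderiv_X]
      by_cases h : i = l
      · subst h; simp; ring
      · simp [h]; ring
    simp only [h4, Finset.sum_add_distrib, Finset.sum_ite_eq, Finset.mem_univ, if_true,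
      ← Finset.mul_sum, map_mul, eval_X]
    ring

theorem reduced [DecidableEq σ] {K : Ideal (MvPolynomial σ ℂ)}
    (hK : ∀ q : σ → ℂ, (∀ G ∈ K, eval q G = 0) → ∀ l, ∃ G ∈ K, ∀ l',
      eval q (pderiv l' G) = if l = l' then 1 else 0)
    {a : MvPolynomial σ ℂ} (ha : ∀ q : σ → ℂ, (∀ G ∈ K, eval q G = 0) → eval q a = 0) :
    a ∈ K := by
  by_contra h
  obtain ⟨M, hM, h1⟩ := Ideal.exists_le_maximal (K.colon {a}) fun e => h (by
    simpa using (Ideal.eq_top_iff_one _).1 e)
  obtain ⟨q, hq⟩ := isMaximal_iff_eq_vanishingIdeal_singleton.1 hM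
  obtain rfl : M = RingHom.ker (eval q) := by
    ext G
    rw [hq, mem_vanishingIdeal_singleton_iff]
    rfl
  have h2 : ∀ G ∈ K, eval q G = 0 := fun G hG =>
    h1 (Submodule.mem_colon_singleton.2 (Ideal.mul_mem_right _ _ hG))
  have h3 : RingHom.ker (eval q) ≤ K ⊔ RingHom.ker (eval q) • RingHom.ker (eval q) := fun G hG => by
    have h4 := taylor q G
    rw [RingHom.mem_ker.1 hG, C_0, sub_zero] at h4
    rw [← sub_add_cancel G (∑ l, C (eval q (pderiv l G)) * (X l - C (q l)))]
    refine add_mem (Submodule.mem_sup_right h4) (Submodule.sum_mem _ fun l _ =>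
      Ideal.mul_mem_left _ _ ?_)
    obtain ⟨H, k1, k2⟩ := hK q h2 l
    have h5 := taylor q H
    simp only [h2 H k1, k2, C_0, sub_zero, apply_ite C, C_1, ite_mul, one_mul, zero_mul,
      Finset.sum_ite_eq, Finset.mem_univ, if_true] at h5
    rw [← sub_sub_cancel H (X l - C (q l))]
    exact sub_mem (Submodule.mem_sup_left k1) (Submodule.mem_sup_right h5)
  obtain ⟨r, k1, k2⟩ := Submodule.exists_sub_one_mem_and_smul_le_of_fg_of_le_sup
    (IsNoetherian.noetherian _) le_rfl h3
  have k3 : r ∈ RingHom.ker (eval q) := h1 (Submodule.mem_colon_singleton.2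
    (k2 (Submodule.smul_mem_pointwise_smul _ _ _ (ha q h2))))
  simpa using sub_mem k3 k1

omit [Fintype J] in
theorem homogenise {wt : σ → ℕ} {G : J → MvPolynomial σ ℂ} {δ : J → ℕ}
    (hG : ∀ j, (G j).IsWeightedHomogeneous wt (δ j)) {j₀ : J} (hδ : δ j₀ = 1)
    {a : MvPolynomial σ ℂ} {m : ℕ} (ha : a.IsWeightedHomogeneous wt m)
    (h : a ∈ Ideal.span (G '' {j | j ≠ j₀}) ⊔ Ideal.span {G j₀ - 1}) :
    ∃ N, G j₀ ^ N * a ∈ Ideal.span (G '' {j | j ≠ j₀}) := by
  let S := Localization.Away (G j₀)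
  let φ := algebraMap (MvPolynomial σ ℂ) S
  let c : S := IsLocalization.Away.invSelf (G j₀)
  have hc : φ (G j₀) * c = 1 := IsLocalization.Away.mul_invSelf _
  let θ : MvPolynomial σ ℂ →ₐ[ℂ] S := aeval fun l => c ^ wt l * φ (X l)
  have hθ : ∀ {H : MvPolynomial σ ℂ} {k : ℕ}, H.IsWeightedHomogeneous wt k →
      θ H = c ^ k * φ H := fun {H k} hH => by
      have : (aeval fun l => φ (X l)) = IsScalarTower.toAlgHom ℂ (MvPolynomial σ ℂ) S :=
        algHom_ext fun l => by simp [φ]
      refine (H36.aeval_w hH c fun l => φ (X l)).trans ?_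
      rw [this]
      rfl
  have h1 : Ideal.span (G '' {j | j ≠ j₀}) ⊔ Ideal.span {G j₀ - 1} ≤
      ((Ideal.span (G '' {j | j ≠ j₀})).map φ).comap θ := by
    refine sup_le (Ideal.span_le.2 ?_) ((Ideal.span_singleton_le_iff_mem _).2 ?_)
    · rintro _ ⟨j, hj, rfl⟩
      rw [SetLike.mem_coe, Ideal.mem_comap, hθ (hG j)]
      exact Ideal.mul_mem_left _ _ (Ideal.mem_map_of_mem _ (Ideal.subset_span ⟨j, hj, rfl⟩))
    · rw [Ideal.mem_comap, map_sub, hθ (hG j₀), hδ, pow_one, mul_comm, hc, map_one, sub_self]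
      exact zero_mem _
  have h2 := Ideal.mul_mem_left _ (φ (G j₀) ^ m) (Ideal.mem_comap.1 (h1 h))
  rw [hθ ha, ← mul_assoc, ← mul_pow, hc, one_pow, one_mul] at h2
  obtain ⟨_, ⟨N, rfl⟩, h3⟩ := (IsLocalization.algebraMap_mem_map_algebraMap_iff
    (Submonoid.powers (G j₀)) S _ _).1 h2
  exact ⟨N, h3⟩

/-- The differentials of the `G j` at `q` are linearly independent. -/
def Full (G : J → MvPolynomial σ ℂ) (q : σ → ℂ) : Prop :=
  ∀ c : J → ℂ, ∃ v : σ → ℂ, ∀ j, ∑ l, v l * eval q (pderiv l (G j)) = c j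

theorem core {wt : σ → ℕ} {G : J → MvPolynomial σ ℂ} {δ : J → ℕ}
    (hG : ∀ j, (G j).IsWeightedHomogeneous wt (δ j))
    (hc : Fintype.card J = Fintype.card σ) (h0 : ∀ j, δ j ≠ 0) {j₀ : J} (hδ : δ j₀ = 1)
    (h1 : ∀ q : σ → ℂ, (∀ j, eval q (G j) = 0) → q = 0)
    (h2 : ∀ q : σ → ℂ, (∀ j ≠ j₀, eval q (G j) = 0) → eval q (G j₀) = 1 → Full G q)
    {a : MvPolynomial σ ℂ} {m : ℕ} (ha : a.IsWeightedHomogeneous wt m)
    (h3 : ∀ q : σ → ℂ, (∀ j ≠ j₀, eval q (G j) = 0) → eval q (G j₀) = 1 → eval q a = 0) :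
    ∃ u, constantCoeff u ≠ 0 ∧ u * a ∈ Ideal.span (G '' {j | j ≠ j₀}) := by
  classical
  have h4 : ∀ j, constantCoeff (G j) = 0 := fun j =>
    (hG j).coeff_eq_zero 0 (by simpa using (h0 j).symm)
  set K := Ideal.span (G '' {j | j ≠ j₀}) ⊔ Ideal.span {G j₀ - 1}
  have k1 : ∀ j ≠ j₀, G j ∈ K := fun j hj =>
    Submodule.mem_sup_left (Ideal.subset_span ⟨j, hj, rfl⟩)
  have k2 : G j₀ - 1 ∈ K := Submodule.mem_sup_right (Ideal.subset_span rfl)
  have k3 : ∀ q : σ → ℂ, (∀ H ∈ K, eval q H = 0) →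
      (∀ j ≠ j₀, eval q (G j) = 0) ∧ eval q (G j₀) = 1 := fun q hq =>
    ⟨fun j hj => hq _ (k1 j hj), by simpa [sub_eq_zero] using hq _ k2⟩
  obtain ⟨N, hN⟩ := homogenise hG hδ ha (reduced (K := K) (fun q hq l => by
    let A : Matrix J σ ℂ := Matrix.of fun j l => eval q (pderiv l (G j))
    obtain ⟨B, hB⟩ := Matrix.mulVec_surjective_iff_exists_right_inverse (A := A).1 fun c => by
      obtain ⟨v, hv⟩ := h2 q (k3 q hq).1 (k3 q hq).2 c
      exact ⟨v, funext fun j => by simpa [A, Matrix.mulVec, dotProduct, mul_comm] using hv j⟩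
    have hB' := (Matrix.mul_eq_one_comm_of_equiv (Fintype.equivOfCardEq hc)).1 hB
    refine ⟨∑ j, C (B l j) * (G j - if j = j₀ then 1 else 0), K.sum_mem fun j _ =>
      Ideal.mul_mem_left _ _ ?_, fun l' => ?_⟩
    · split_ifs with h
      · exact h ▸ k2
      · simpa using k1 j h
    · have := congrFun (congrFun hB' l) l'
      simpa [A, Matrix.mul_apply, Matrix.one_apply, apply_ite (pderiv l')] using this)
    fun q hq => h3 q (k3 q hq).1 (k3 q hq).2)
  clear ha h3
  induction N generalizing a with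
  | zero => exact ⟨1, by simp, by simpa using hN⟩
  | succ N ih =>
    rw [pow_succ', mul_assoc] at hN
    obtain ⟨u, u1, u2⟩ := depth G hc.le h4 h1 j₀ hN
    rw [mul_left_comm] at u2
    obtain ⟨u', u3, u4⟩ := ih u2
    exact ⟨u' * u, by simp [u1, u3], by rwa [mul_assoc]⟩

/-- There is a normalised solution, and a linear form that vanishes at all normalised solutions is
a combination of the linear equations. -/
theorem span_sol {wt : σ → ℕ} (hw : ∀ l, wt l ≠ 0) {G : J → MvPolynomial σ ℂ} {δ : J → ℕ}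
    (hG : ∀ j, (G j).IsWeightedHomogeneous wt (δ j))
    (hc : Fintype.card J = Fintype.card σ) (h0 : ∀ j, δ j ≠ 0) {j₀ : J} (hδ : δ j₀ = 1)
    (h1 : ∀ q : σ → ℂ, (∀ j, eval q (G j) = 0) → q = 0)
    (h2 : ∀ q : σ → ℂ, (∀ j ≠ j₀, eval q (G j) = 0) → eval q (G j₀) = 1 → Full G q) :
    (∃ q : σ → ℂ, (∀ j ≠ j₀, eval q (G j) = 0) ∧ eval q (G j₀) = 1) ∧ ∀ lam : σ → ℂ,
      (∀ l, wt l ≠ 1 → lam l = 0) → (∀ q : σ → ℂ, (∀ j ≠ j₀, eval q (G j) = 0) → eval q (G j₀) = 1 → ∑ l, lam l * q l = 0) →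
      ∃ c : J → ℂ, c j₀ = 0 ∧ ∀ q : σ → ℂ, ∑ l, lam l * q l =
        ∑ j, if δ j = 1 then c j * eval q (G j) else 0 := by
  classical
  have h4 : ∀ j, constantCoeff (G j) = 0 := fun j =>
    (hG j).coeff_eq_zero 0 (by simpa using (h0 j).symm)
  have h5 : ∀ a ∈ Ideal.span (G '' {j | j ≠ j₀}), constantCoeff a = 0 ∧ ∃ c : J → ℂ, c j₀ = 0 ∧
      ∀ l, constantCoeff (pderiv l a) = ∑ j, c j * constantCoeff (pderiv l (G j)) := fun a ha => by
    induction ha using Submodule.span_induction with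
    | mem a ha =>
      obtain ⟨j, hj, rfl⟩ := ha
      exact ⟨h4 j, Pi.single j 1, Pi.single_eq_of_ne' hj _, fun l => by simp [Pi.single_apply]⟩
    | zero => exact ⟨by simp, 0, rfl, by simp⟩
    | add a b _ _ ha hb =>
      obtain ⟨a1, c, a2, a3⟩ := ha
      obtain ⟨b1, c', b2, b3⟩ := hb
      exact ⟨by simp [a1, b1], c + c', by simp [a2, b2], fun l => by
        simp [a3, b3, add_mul, Finset.sum_add_distrib]⟩
    | smul r a _ ha =>
      obtain ⟨a1, c, a2, a3⟩ := ha
      exact ⟨by simp [a1], constantCoeff r • c, by simp [a2], fun l => by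
        simp [a1, a3, Finset.mul_sum, mul_assoc]⟩
  refine ⟨?_, fun lam hl' hl => ?_⟩
  · by_contra h
    obtain ⟨u, u1, u2⟩ := core hG hc h0 hδ h1 h2 (isWeightedHomogeneous_one ℂ wt)
      fun q a b => (h ⟨q, a, b⟩).elim
    exact u1 (by simpa using (h5 _ u2).1)
  obtain ⟨u, u1, u2⟩ := core hG hc h0 hδ h1 h2 (a := ∑ l, C (lam l) * X l) (m := 1)
    (IsWeightedHomogeneous.sum _ _ _ fun l _ => by
      by_cases h : wt l = 1
      · exact h ▸ (isWeightedHomogeneous_X ℂ wt l).C_mul _
      · simpa [hl' l h] using isWeightedHomogeneous_zero ℂ wt 1)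
    fun q a b => by simpa using hl q a b
  obtain ⟨-, c, c1, c2⟩ := h5 _ u2
  have c3 : ∀ l, lam l = ∑ j, (constantCoeff u)⁻¹ * c j * constantCoeff (pderiv l (G j)) :=
    fun l => by
      have := c2 l
      simp [pderiv_X, Pi.single_apply] at this
      simp only [mul_assoc, ← Finset.mul_sum, ← this]
      field_simp
  refine ⟨fun j => (constantCoeff u)⁻¹ * c j, by simp [c1], fun q => ?_⟩
  have c4 : ∀ l, lam l * q l = ∑ j, (constantCoeff u)⁻¹ * c j *
      if wt l = 1 then constantCoeff (pderiv l (G j)) * q l else 0 := fun l => by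
    split_ifs with h
    · simp only [c3 l, Finset.sum_mul, mul_assoc]
    · simp [hl' l h]
  simp only [c4]
  rw [Finset.sum_comm]
  refine Finset.sum_congr rfl fun j _ => ?_
  have c5 : ∀ l n, coeff n (pderiv l (G j)) ≠ 0 → Finsupp.weight wt n + wt l = δ j := fun l n h => by
    rw [coeff_pderiv] at h
    simpa [Finsupp.weight_single] using hG j (left_ne_zero_of_mul h)
  rw [← Finset.mul_sum]
  split_ifs with h
  · have e := congrArg (eval q) (hG j).sum_weight_X_mul_pderiv
    rw [h, one_smul, map_sum] at e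
    rw [← e]
    congr 1
    refine Finset.sum_congr rfl fun l _ => ?_
    have e' : pderiv l (G j) = C (constantCoeff (pderiv l (G j))) := by
      ext n
      rw [coeff_C]
      split_ifs with h'
      · rw [← h', constantCoeff_eq]
      · by_contra h''
        have := c5 l n h''
        have := hw l
        have := Finsupp.nonTorsionWeight_of ℕ wt hw
        exact h' ((Finsupp.weight_eq_zero_iff_eq_zero wt).1 (by omega)).symm
    split_ifs with h'
    · rw [h', one_smul, map_mul, eval_X, mul_comm, e']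
      simp
    · have : constantCoeff (pderiv l (G j)) = 0 := by
        by_contra h''
        have := c5 l 0 h''
        rw [map_zero] at this
        omega
      rw [e', this]
      simp
  · rw [Finset.sum_eq_zero, mul_zero]
    intro l _
    split_ifs with h'
    · refine mul_eq_zero_of_left ?_ _
      by_contra h''
      have := c5 l 0 h''
      rw [map_zero] at this
      omega
    · rfl

omit [Fintype J] in
/-- Completing the rows other than `j₀` by a vector in their kernel. -/
theorem full_of_ker {G : J → MvPolynomial σ ℂ} {q w : σ → ℂ} {j₀ : J}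
    (h : ∀ c : J → ℂ, ∃ v : σ → ℂ, ∀ j ≠ j₀, ∑ l, v l * eval q (pderiv l (G j)) = c j)
    (h1 : ∀ j ≠ j₀, ∑ l, w l * eval q (pderiv l (G j)) = 0)
    (h2 : ∑ l, w l * eval q (pderiv l (G j₀)) ≠ 0) : Full G q := fun c => by
  obtain ⟨v, hv⟩ := h c
  refine ⟨v + ((c j₀ - ∑ l, v l * eval q (pderiv l (G j₀))) /
    ∑ l, w l * eval q (pderiv l (G j₀))) • w, fun j => ?_⟩
  simp only [Pi.add_apply, Pi.smul_apply, smul_eq_mul, add_mul, Finset.sum_add_distrib,
    mul_assoc, ← Finset.mul_sum]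
  by_cases e : j = j₀
  · rw [e, div_mul_cancel₀ _ h2, add_sub_cancel]
  · rw [h1 j e, hv j e, mul_zero, add_zero]

theorem euler {wt : σ → ℕ} {G : MvPolynomial σ ℂ} {k : ℕ} (hG : G.IsWeightedHomogeneous wt k)
    (q : σ → ℂ) : ∑ l, (wt l * q l) * eval q (pderiv l G) = k * eval q G := by
  simpa [mul_assoc] using congrArg (eval q) hG.sum_weight_X_mul_pderiv

/-- A common zero at which the differentials are independent is the origin. -/
theorem Full.eq_zero {wt : σ → ℕ} (hw : ∀ l, wt l ≠ 0) {G : J → MvPolynomial σ ℂ} {δ : J → ℕ}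
    (hG : ∀ j, (G j).IsWeightedHomogeneous wt (δ j)) (hc : Fintype.card J = Fintype.card σ)
    {q : σ → ℂ} (h : Full G q) (hq : ∀ j, eval q (G j) = 0) : q = 0 := by
  let A : Matrix J σ ℂ := Matrix.of fun j l => eval q (pderiv l (G j))
  have h2 : Function.Surjective A.mulVecLin := fun c => by
    obtain ⟨v, hv⟩ := h c
    exact ⟨v, funext fun j => by simpa [A, Matrix.mulVec, dotProduct, mul_comm] using hv j⟩
  have h3 := (injective_iff_map_eq_zero _).1
    ((LinearMap.injective_iff_surjective_of_finrank_eq_finrank (by simp [hc])).2 h2)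
    (fun l => wt l * q l) (funext fun j => by
      simpa [A, Matrix.mulVec, dotProduct, mul_comm, hq] using euler (hG j) q)
  exact funext fun l => by simpa [hw l] using congrFun h3 l

end Pool.Agent.Lib.MP_cd3a7b_ag.H30
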