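import Mathlib

/-! Generic points of affine space and derivations of the field of complex numbers. -/

namespace Pool.Agent.Lib.MP_cd3a7b_ag.H30

open MvPolynomial

theorem exists_extend {R A K : Type*} [CommRing R] [CommRing A] [IsDomain A] [CharZero A] [Field K]
    [Algebra R A] [Algebra A K] [Algebra R K] [IsScalarTower R A K] [FaithfulSMul A K]
    [Algebra.IsAlgebraic A K] (d : Derivation R A K) :
    ∃ D : Derivation R K K, ∀ a, D (algebraMap A K a) = d a := by
  let := FractionRing.liftAlgebra A K
  have := FractionRing.isScalarTower_liftAlgebra A K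
  have : Algebra.IsAlgebraic (FractionRing A) K :=
    Algebra.IsAlgebraic.extendScalars (FaithfulSMul.algebraMap_injective A _)
  have := Algebra.FormallyEtale.of_isSeparable (FractionRing A) K
  have := Algebra.FormallyEtale.comp A (FractionRing A) K
  have h := KaehlerDifferential.isBaseChange_of_formallyEtale R A K
  refine ⟨(h.lift d.liftKaehlerDifferential).compDer (KaehlerDifferential.D R K), fun a => ?_⟩
  have := h.lift_eq d.liftKaehlerDifferential (KaehlerDifferential.D R A a)
  simpa using this

/-- A point whose coordinates can be moved freely by derivations that kill a given finite set. -/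
theorem exists_generic {T : Set ℂ} (hT : T.Finite) (σ : Type) [Finite σ] :
    ∃ p : σ → ℂ, ∀ v : σ → ℂ, ∃ D : Derivation ℤ ℂ ℂ, (∀ j, D (p j) = v j) ∧ ∀ c ∈ T, D c = 0 := by
  classical
  let k := Algebra.adjoin ℤ T
  have hk : Cardinal.mk k ≤ Cardinal.aleph0 :=
    (Algebra.cardinalMk_adjoin_le ℤ T).trans (by simp [hT.lt_aleph0.le])
  obtain ⟨s, hs⟩ := exists_isTranscendenceBasis k ℂ
  have h1 := IsAlgClosed.cardinal_eq_cardinal_transcendence_basis_of_aleph0_lt' _ hs
    hk (by rw [Cardinal.mk_complex]; exact Cardinal.aleph0_lt_continuum)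
  have : Infinite s := Cardinal.aleph0_le_mk_iff.1 (by
    rw [← h1, Cardinal.mk_complex]; exact Cardinal.aleph0_le_continuum)
  let : Algebra (MvPolynomial s k) ℂ := (aeval ((↑) : s → ℂ)).toAlgebra
  have : IsScalarTower k (MvPolynomial s k) ℂ := IsScalarTower.of_algHom _
  have : FaithfulSMul (MvPolynomial s k) ℂ :=
    (faithfulSMul_iff_algebraMap_injective _ _).2 hs.1
  have : Algebra.IsAlgebraic (MvPolynomial s k) ℂ := ⟨fun x =>
    IsAlgebraic.of_ringHom_of_comp_eq hs.1.aevalEquiv.toAlgHom.toRingHom (RingHom.id ℂ)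
      (hs.isAlgebraic.isAlgebraic x) hs.1.aevalEquiv.surjective Function.injective_id
      (RingHom.ext fun p => hs.1.algebraMap_aevalEquiv p)⟩
  obtain ⟨e₀, he₀⟩ := Countable.exists_injective_nat σ
  let e : σ → s := fun j => Infinite.natEmbedding s (e₀ j)
  have he : Function.Injective e := (Infinite.natEmbedding s).injective.comp he₀
  refine ⟨fun j => e j, fun v => ?_⟩
  obtain ⟨D, hD⟩ := exists_extend (mkDerivation k (Function.extend e v 0 : s → ℂ))
  refine ⟨D.restrictScalars ℤ, fun j => ?_, fun c hc => ?_⟩
  · have := hD (X (e j))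
    rw [mkDerivation_X, he.extend_apply] at this
    simpa [RingHom.algebraMap_toAlgebra] using this
  · exact D.map_algebraMap ⟨c, Algebra.subset_adjoin hc⟩

/-- The chain rule for a derivation that kills the coefficients. -/
theorem chain {σ R B : Type} [Fintype σ] [CommRing R] [CommRing B] [Algebra R B] [Algebra ℂ B]
    (δ : Derivation R B B)
    {F : MvPolynomial σ ℂ} (h : ∀ m, δ (algebraMap ℂ B (coeff m F)) = 0) (z : σ → B) :
    δ (aeval z F) = ∑ j, aeval z (pderiv j F) * δ (z j) := by
  classical
  let T : Subsemiring (MvPolynomial σ ℂ) :=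
    { carrier := {G | δ (aeval z G) = ∑ j, aeval z (pderiv j G) * δ (z j)}
      mul_mem' := fun {a b} ha hb => by
        simp only [Set.mem_ofPred_eq] at ha hb ⊢
        simp only [map_mul, Derivation.leibniz, ha, hb, smul_eq_mul, map_add, Finset.mul_sum,
          ← Finset.sum_add_distrib]
        exact Finset.sum_congr rfl fun j _ => by ring
      one_mem' := by simp
      add_mem' := fun {a b} ha hb => by
        simp only [Set.mem_ofPred_eq] at ha hb ⊢
        simp only [map_add, ha, hb, add_mul, Finset.sum_add_distrib]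
      zero_mem' := by simp }
  have hX : ∀ j, X j ∈ T := fun j => by
    change δ (aeval z (X j : MvPolynomial σ ℂ)) = ∑ l, aeval z (pderiv l (X j)) * δ (z l)
    simp [pderiv_X, Pi.single_apply]
  have : F ∈ T := by
    rw [F.as_sum]
    refine T.sum_mem fun m _ => ?_
    rw [monomial_eq]
    refine T.mul_mem ?_ (T.prod_mem fun j _ => T.pow_mem (hX j) _)
    change δ (aeval z (C _ : MvPolynomial σ ℂ)) = ∑ l, aeval z (pderiv l (C _)) * δ (z l)
    simp [h]
  exact this

end Pool.Agent.Lib.MP_cd3a7b_ag.H30
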