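import Pool.Agent.Lib.MP_cd3a7b_ag.H30Der
import Pool.Agent.Lib.MP_cd3a7b_ag.H30Depth

/-! Lines through a generic point that meet a normal crossings divisor in at most two points. -/

namespace Pool.Agent.Lib.MP_cd3a7b_ag.H30

open MvPolynomial
open scoped Polynomial

section ln

variable {σ A : Type} [CommRing A] [Algebra ℂ A]

/-- The restriction `s ↦ F (s x + y)` of `F` to a line. -/
noncomputable def ln (F : MvPolynomial σ ℂ) (x y : σ → A) : A[X] :=
  aeval (fun j => Polynomial.C (x j) * Polynomial.X + Polynomial.C (y j)) F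

/-- The coefficients of `F (s p + q)` as polynomials in `q`. -/
noncomputable def cf (F : MvPolynomial σ ℂ) (p : σ → ℂ) (k : ℕ) : MvPolynomial σ ℂ :=
  (ln F (fun j => (C (p j) : MvPolynomial σ ℂ)) X).coeff k

theorem eval_cf (F : MvPolynomial σ ℂ) (p q : σ → ℂ) (k : ℕ) :
    eval q (cf F p k) = (ln F p q).coeff k := by
  have := comp_aeval_apply (fun j => Polynomial.C (C (p j) : MvPolynomial σ ℂ) * Polynomial.X +
    Polynomial.C (X j)) (Polynomial.mapAlgHom (aeval q : MvPolynomial σ ℂ →ₐ[ℂ] ℂ)) F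
  have h := congrArg (fun P => P.coeff k) this
  simpa [ln, cf] using h

theorem ln_eval (F : MvPolynomial σ ℂ) (p q : σ → ℂ) (s : ℂ) :
    (ln F p q).eval s = eval (s • p + q) F := by
  have := comp_aeval_apply (fun j => Polynomial.C (p j) * Polynomial.X + Polynomial.C (q j))
    (Polynomial.aeval s : ℂ[X] →ₐ[ℂ] ℂ) F
  rw [Polynomial.coe_aeval_eq_eval] at this
  rw [ln, this, aeval_eq_eval]
  refine congrArg (fun z => eval z F) (funext fun j => ?_)
  rw [Polynomial.eval_add, Polynomial.eval_mul, Polynomial.eval_C, Polynomial.eval_C,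
    Polynomial.eval_X, mul_comm]
  rfl

theorem ln_der [Fintype σ] (δ : Derivation ℤ A A) {F : MvPolynomial σ ℂ}
    (h : ∀ m, δ (algebraMap ℂ A (coeff m F)) = 0) {x y x' y' : σ → A}
    (hx : ∀ j, δ (x j) = x' j) (hy : ∀ j, δ (y j) = y' j) (k : ℕ) :
    δ ((ln F x y).coeff k) = (∑ j, ln (pderiv j F) x y *
      (Polynomial.C (x' j) * Polynomial.X + Polynomial.C (y' j))).coeff k := by
  simp only [← hx, ← hy]
  let : Differential A := ⟨δ⟩
  have := chain (B := A[X]) Differential.mapCoeffs (F := F) (fun m => by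
    rw [Polynomial.algebraMap_apply, Differential.mapCoeffs_C]
    exact (congrArg _ (h m)).trans (map_zero _))
    fun j => Polynomial.C (x j) * Polynomial.X + Polynomial.C (y j)
  refine (congrArg (fun P => P.coeff k) this).trans ?_
  congr 1
  refine Finset.sum_congr rfl fun j _ => ?_
  congr 1
  rw [map_add, Derivation.leibniz, Differential.mapCoeffs_X, Differential.mapCoeffs_C,
    Differential.mapCoeffs_C, smul_zero, zero_add, smul_eq_mul, mul_comm]
  rfl

theorem pderiv_cf [Fintype σ] (F : MvPolynomial σ ℂ) (p : σ → ℂ) (k : ℕ) (l : σ) :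
    pderiv l (cf F p k) = cf (pderiv l F) p k := by
  classical
  obtain ⟨δ, hδ⟩ : ∃ δ : Derivation ℤ (MvPolynomial σ ℂ) (MvPolynomial σ ℂ),
      ∀ x, δ x = pderiv l x :=
    ⟨(pderiv l : Derivation ℂ (MvPolynomial σ ℂ) _).restrictScalars ℤ, fun _ => rfl⟩
  refine (hδ _).symm.trans ((ln_der δ (F := F) (fun m => (hδ _).trans (by simp))
    (x' := 0) (y' := fun j => if l = j then 1 else 0) (fun j => (hδ _).trans (by simp))
    (fun j => (hδ _).trans (by simp [pderiv_X, Pi.single_apply, eq_comm])) k).trans ?_)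
  simp [cf, apply_ite Polynomial.C]

theorem cf_hom {N d : ℕ} {F : MvPolynomial (Fin N) ℂ} (hF : F.IsHomogeneous d) (p : Fin N → ℂ)
    {k j : ℕ} (h : k + j = d) : (cf F p k).IsHomogeneous j := by
  have h1 := hF.aeval (n := 1) (fun j => (C (p j) * X 0 + X j.succ : MvPolynomial (Fin (N + 1)) ℂ))
    fun j => ((isHomogeneous_X ℂ _).C_mul _).add (isHomogeneous_X ℂ _)
  have h2 := h1.finSuccEquiv_coeff_isHomogeneous k j (by omega)
  have h3 := comp_aeval_apply (fun j => (C (p j) * X 0 + X j.succ : MvPolynomial (Fin (N + 1)) ℂ))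
    (finSuccEquiv ℂ N).toAlgHom F
  rw [show finSuccEquiv ℂ N _ = _ from h3] at h2
  convert h2 using 1
  simp [cf, ln, finSuccEquiv_apply]

theorem expand {N d : ℕ} {F : MvPolynomial (Fin N) ℂ} (hF : F.IsHomogeneous d) (p q : Fin N → ℂ)
    (t : ℂ) : eval (p + t • q) F =
      ∑ k ∈ Finset.range (d + 1), t ^ (d - k) * (ln F p q).coeff k := by
  have h1 : (ln F p (t • q)).natDegree < d + 1 := by
    have := aeval_natDegree_le (n := 1) F hF.totalDegree_le
      (fun j => Polynomial.C (p j) * Polynomial.X + Polynomial.C ((t • q) j))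
      (fun i => by compute_degree)
    unfold ln
    omega
  have h2 := ln_eval F p (t • q) 1
  rw [one_smul, Polynomial.eval_eq_sum_range' h1] at h2
  rw [← h2]
  refine Finset.sum_congr rfl fun k hk => ?_
  rw [one_pow, mul_one, ← eval_cf, ← eval_cf, ← eval_w_alg (wt := 1)
    (cf_hom hF p (k := k) (j := d - k) (by have := Finset.mem_range.1 hk; omega)) t q]
  congr 2
  funext j
  simp

theorem ln_diff [Fintype σ] (F : MvPolynomial σ ℂ) (k : ℕ) :
    Differentiable ℂ fun x : (σ → ℂ) × (σ → ℂ) => (ln F x.1 x.2).coeff k := by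
  unfold ln
  induction F using MvPolynomial.induction_on generalizing k with
  | C a => simp
  | add f g hf hg =>
    simp only [map_add, Polynomial.coeff_add]
    exact (hf k).add (hg k)
  | mul_X f i hf =>
    simp only [map_mul, aeval_X, mul_add, ← mul_assoc, Polynomial.coeff_add,
      Polynomial.coeff_mul_C]
    refine Differentiable.add ?_ ((hf k).mul (by fun_prop))
    cases k with
    | zero => simp
    | succ k =>
      simp only [Polynomial.coeff_mul_X, Polynomial.coeff_mul_C]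
      exact (hf k).mul (by fun_prop)

end ln

variable {σ ι : Type} [Fintype σ] [Fintype ι]

/-- The point `p` is generic over the coefficients of the `F i`. -/
def Generic (F : ι → MvPolynomial σ ℂ) (p : σ → ℂ) : Prop :=
  ∀ v : σ → ℂ, ∃ D : Derivation ℤ ℂ ℂ, (∀ j, D (p j) = v j) ∧ ∀ i m, D (coeff m (F i)) = 0

/-- The differentials at `x` of the `F i` that vanish at `x` are linearly independent. -/
def Trans (F : ι → MvPolynomial σ ℂ) (x : σ → ℂ) : Prop :=
  ∀ c : ι → ℂ, ∃ v : σ → ℂ, ∀ i, eval x (F i) = 0 → ∑ j, v j * eval x (pderiv j (F i)) = c i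

theorem exists_Generic (F : ι → MvPolynomial σ ℂ) : ∃ p, Generic F p := by
  obtain ⟨p, hp⟩ := exists_generic (T := ⋃ i, ((F i).coeffs : Set ℂ))
    (Set.finite_iUnion fun i => Finset.finite_toSet _) σ
  refine ⟨p, fun v => (hp v).imp fun D hD => ⟨hD.1, fun i m => ?_⟩⟩
  by_cases h : coeff m (F i) = 0
  · simp [h]
  · exact hD.2 _ (Set.mem_iUnion.2 ⟨i, coeff_mem_coeffs m h⟩)

/-- The contact conditions at a generic point are transversal. -/
theorem jac {F : ι → MvPolynomial σ ℂ} {p q : σ → ℂ} {e : ι → ℕ} (hp : Generic F p)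
    (hq : Trans F q) (he : ∀ i, ∀ k < e i, (ln (F i) p q).coeff k = 0) (c : ι → ℕ → ℂ) :
    ∃ v : σ → ℂ, ∀ i, ∀ k < e i, ∑ l, v l * (ln (pderiv l (F i)) p q).coeff k = c i k := by
  let ψ : (σ → ℂ) → ι → ℂ[X] := fun v i => ∑ l, ln (pderiv l (F i)) p q * Polynomial.C (v l)
  let P : (ι → ℂ[X]) → Prop := fun a => ∃ v, ∀ i, Polynomial.X ^ e i ∣ a i - ψ v i
  have hadd : ∀ a b, P a → P b → P (a + b) := by
    rintro a b ⟨v, hv⟩ ⟨w, hw⟩
    refine ⟨v + w, fun i => ?_⟩
    convert dvd_add (hv i) (hw i) using 1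
    simp only [ψ, Pi.add_apply, map_add, mul_add, Finset.sum_add_distrib]
    ring
  have hX : ∀ a, P a → P fun i => Polynomial.X * a i := by
    rintro a ⟨v, hv⟩
    obtain ⟨D, D1, D2⟩ := hp v
    refine ⟨fun l => -D (q l), fun i => ?_⟩
    have h1 : Polynomial.X ^ e i ∣ ∑ j, ln (pderiv j (F i)) p q *
        (Polynomial.C (v j) * Polynomial.X + Polynomial.C (D (q j))) :=
      Polynomial.X_pow_dvd_iff.2 fun k hk => by
        rw [← ln_der D (D2 i) D1 fun _ => rfl, he i k hk, map_zero]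
    convert dvd_add ((hv i).mul_left Polynomial.X) h1 using 1
    simp only [ψ, map_neg, mul_neg, Finset.sum_neg_distrib, mul_add, Finset.sum_add_distrib,
      ← mul_assoc, ← Finset.sum_mul]
    ring
  have hN : ∀ (N : ℕ) (a : ι → ℂ[X]), ∃ b : ι → ℂ[X], P fun i => a i - Polynomial.X ^ N * b i := by
    intro N
    induction N with
    | zero => exact fun a => ⟨a, 0, fun i => by simp [ψ]⟩
    | succ N ih =>
      intro a
      obtain ⟨v, hv⟩ := hq fun i => (a i).coeff 0
      obtain ⟨b, hb⟩ := ih fun i => (a i - ψ v i).divX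
      refine ⟨b, ?_⟩
      convert hadd (fun i => a i - Polynomial.X * (a i - ψ v i).divX) _ ⟨v, fun i => ?_⟩
        (hX _ hb) using 1
      · funext i
        simp only [Pi.add_apply]
        ring
      rcases Nat.eq_zero_or_pos (e i) with h | h
      · simp [h]
      have h1 := he i 0 h
      rw [Polynomial.coeff_zero_eq_eval_zero, ln_eval, zero_smul, zero_add] at h1
      have h2 := Polynomial.X_mul_divX_add (a i - ψ v i)
      have h3 : (a i - ψ v i).coeff 0 = 0 := by
        rw [Polynomial.coeff_sub, ← hv i h1, sub_eq_zero]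
        simp [ψ, Polynomial.coeff_zero_eq_eval_zero, ln_eval, Polynomial.eval_finsetSum, mul_comm]
      rw [h3, map_zero, add_zero] at h2
      simp [h2]
  obtain ⟨b, v, hv⟩ := hN (Finset.univ.sup e)
    fun i => ∑ k ∈ Finset.range (e i), Polynomial.monomial k (c i k)
  refine ⟨v, fun i k hk => ?_⟩
  have h1 := dvd_add (hv i) ((pow_dvd_pow Polynomial.X
    (Finset.le_sup (f := e) (Finset.mem_univ i))).mul_right (b i))
  have h2 := Polynomial.X_pow_dvd_iff.1 h1 k hk
  rw [sub_right_comm, sub_add_cancel, Polynomial.coeff_sub, sub_eq_zero] at h2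
  simpa [ψ, Polynomial.coeff_monomial, hk, mul_comm] using h2.symm

omit [Fintype ι] in
theorem Generic.ne_zero {F : ι → MvPolynomial σ ℂ} {p : σ → ℂ} (hp : Generic F p) [Nonempty σ]
    (hs : ∀ x ≠ 0, Trans F x) (i : ι) : eval p (F i) ≠ 0 := fun h => by
  obtain ⟨v, hv⟩ := hs p (fun e => by
    obtain ⟨D, D1, -⟩ := hp 1
    simpa [e] using D1 (Classical.arbitrary σ)) 1
  obtain ⟨D, D1, D2⟩ := hp v
  have h1 := chain D (D2 i) p
  simp only [aeval_eq_eval, h, map_zero, D1] at h1
  have h2 := hv i h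
  simp only [mul_comm (v _), ← h1] at h2
  exact zero_ne_one h2

section system

variable {N : ℕ} {d : ι → ℕ} {F : ι → MvPolynomial (Fin N) ℂ}

variable (d F) in
/-- The contact conditions, as polynomials in the direction of the line. -/
noncomputable def Eqn (p : Fin N → ℂ) (j : Σ i, Fin (d i + 1)) : MvPolynomial (Fin N) ℂ :=
  cf (F j.1) p j.2

variable (d) in
/-- The index of the linear condition given by `F i`. -/
def top (i : ι) : Σ i, Fin (d i + 1) := ⟨i, Fin.last _⟩

variable (d F) in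
/-- Along the line `p + t q` all `F i` except `F i₀` are constant and `F i₀` is `F i₀ p + t`. -/
def Sol (i₀ : ι) (p q : Fin N → ℂ) : Prop :=
  (∀ j ≠ top d i₀, eval q (Eqn d F p j) = 0) ∧ eval q (Eqn d F p (top d i₀)) = 1

omit [Fintype ι] in
theorem Sol.eval_line (hF : ∀ i, (F i).IsHomogeneous (d i + 1)) {i₀ : ι} {p q : Fin N → ℂ}
    (h : Sol d F i₀ p q) (i : ι) (t : ℂ) :
    eval (p + t • q) (F i) = eval p (F i) ∨ eval (p + t • q) (F i) = eval p (F i₀) + t := by
  have key : ∀ t : ℂ, eval (p + t • q) (F i) =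
      t * (ln (F i) p q).coeff (d i) + (ln (F i) p q).coeff (d i + 1) := fun t => by
    rw [expand (hF i), Finset.sum_range_succ, Finset.sum_range_succ, Finset.sum_eq_zero]
    · simp
    intro k hk
    have hk' := Finset.mem_range.1 hk
    have := h.1 ⟨i, k, by omega⟩ fun e => by
      obtain ⟨rfl, e⟩ := Sigma.mk.inj e
      exact hk'.ne (congrArg Fin.val (eq_of_heq e))
    rw [← eval_cf]
    exact mul_eq_zero_of_right _ this
  have k0 := key 0
  rw [zero_smul, add_zero, zero_mul, zero_add] at k0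
  rw [key, ← k0, ← eval_cf]
  by_cases e : i = i₀
  · subst e
    exact Or.inr (by rw [show eval q (cf (F i) p (d i)) = 1 from h.2]; ring)
  · exact Or.inl (by
      rw [show eval q (cf (F i) p (d i)) = 0 from h.1 (top d i) fun e' => e (congrArg Sigma.fst e')]
      ring)

theorem lines (hF : ∀ i, (F i).IsHomogeneous (d i + 1)) (hN : ∑ i, (d i + 1) = N)
    (hs : ∀ x ≠ 0, Trans F x) {p : Fin N → ℂ} (hp : Generic F p) :
    (∀ i₀ q, Sol d F i₀ p q → Full (Eqn d F p) q) ∧
      ∀ lam : Fin N → ℂ, (∀ i₀ q, Sol d F i₀ p q → ∑ l, lam l * q l = 0) → lam = 0 := by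
  classical
  let δ : (Σ i, Fin (d i + 1)) → ℕ := fun j => d j.1 + 1 - j.2
  have hG : ∀ j, (Eqn d F p j).IsHomogeneous (δ j) := fun j =>
    cf_hom (hF j.1) p (by have := j.2.2; simp only [δ]; omega)
  have hc : Fintype.card (Σ i, Fin (d i + 1)) = Fintype.card (Fin N) := by simp [hN]
  have h0 : ∀ j, δ j ≠ 0 := fun j => by have := j.2.2; simp only [δ]; omega
  have hδ : ∀ i, δ (top d i) = 1 := fun i => by simp [δ, top]
  have euler : ∀ (q : Fin N → ℂ) j, ∑ l, q l * eval q (pderiv l (Eqn d F p j)) =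
      δ j * eval q (Eqn d F p j) := fun q j => by
    simpa using congrArg (eval q) (hG j).sum_X_mul_pderiv
  have key : ∀ (q : Fin N → ℂ) (e : ι → ℕ), q ≠ 0 → (∀ i, e i ≤ d i + 1) →
      (∀ j : Σ i, Fin (d i + 1), j.2 < e j.1 → eval q (Eqn d F p j) = 0) →
      ∀ c : (Σ i, Fin (d i + 1)) → ℂ, ∃ v : Fin N → ℂ, ∀ j : Σ i, Fin (d i + 1), j.2 < e j.1 →
        ∑ l, v l * eval q (pderiv l (Eqn d F p j)) = c j := fun q e hq he h c => by
    obtain ⟨v, hv⟩ := jac (e := e) hp (hs q hq) (fun i k hk => by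
      rw [← eval_cf]
      exact h ⟨i, k, hk.trans_le (he i)⟩ hk) fun i k => if h : k < d i + 1 then c ⟨i, k, h⟩ else 0
    exact ⟨v, fun j hj => by
      simpa [Eqn, pderiv_cf, eval_cf, Nat.lt_succ_iff.1 j.2.2] using hv j.1 j.2 hj⟩
  have h1 : ∀ q : Fin N → ℂ, (∀ j, eval q (Eqn d F p j) = 0) → q = 0 := fun q hq => by
    by_contra h
    let A : Matrix (Σ i, Fin (d i + 1)) (Fin N) ℂ :=
      Matrix.of fun j l => eval q (pderiv l (Eqn d F p j))
    have h2 : Function.Surjective A.mulVecLin := fun c => by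
      obtain ⟨v, hv⟩ := key q (fun i => d i + 1) h (fun _ => le_rfl) (fun j _ => hq j) c
      exact ⟨v, funext fun j => by simpa [A, Matrix.mulVec, dotProduct, mul_comm] using hv j j.2.2⟩
    refine h ((LinearMap.injective_iff_surjective_of_finrank_eq_finrank (by simp [hN])).2 h2
      (funext fun j => ?_))
    simpa [A, Matrix.mulVec, dotProduct, mul_comm, hq] using euler q j
  have h2 : ∀ i₀ q, Sol d F i₀ p q → Full (Eqn d F p) q := fun i₀ q hq c => by
    have lt : ∀ j : Σ i, Fin (d i + 1), j.2 < Function.update (fun i => d i + 1) i₀ (d i₀) j.1 ↔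
        j ≠ top d i₀ := by
      rintro ⟨i, k⟩
      by_cases e : i = i₀
      · subst e
        simp [top, Fin.lt_last_iff_ne_last.symm, Fin.lt_def]
      · simp [top, e, k.2]
    obtain ⟨v, hv⟩ := key q (Function.update (fun i => d i + 1) i₀ (d i₀)) (fun e => by
      have := hq.2
      rw [e, eval_zero, constantCoeff_eq, (hG _).coeff_eq_zero (by simp [hδ])] at this
      exact zero_ne_one this) (fun i => by
        by_cases e : i = i₀
        · simp [e]
        · simp [e]) (fun j hj => hq.1 j ((lt j).1 hj)) c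
    refine ⟨v + (c (top d i₀) - ∑ l, v l * eval q (pderiv l (Eqn d F p (top d i₀)))) • q,
      fun j => ?_⟩
    simp only [Pi.add_apply, Pi.smul_apply, smul_eq_mul, add_mul, Finset.sum_add_distrib,
      mul_assoc, ← Finset.mul_sum, euler]
    by_cases e : j = top d i₀
    · simp [e, hδ, hq.2]
    · simp [hq.1 j e, hv j ((lt j).2 e)]
  refine ⟨h2, fun lam hl => ?_⟩
  have h3 := fun i => span_sol (wt := 1) (fun _ => one_ne_zero) hG hc h0 (hδ i) h1 fun q a b => h2 i q ⟨a, b⟩
  rcases isEmpty_or_nonempty ι with h | ⟨⟨i₀⟩⟩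
  · obtain rfl : N = 0 := by simpa using hN.symm
    exact Subsingleton.elim _ _
  obtain ⟨c, -, c2⟩ := (h3 i₀).2 lam (fun _ h => (h rfl).elim) fun q a b => hl i₀ q ⟨a, b⟩
  have c3 : ∀ i, c (top d i) = 0 := fun i => by
    obtain ⟨q, a, b⟩ := (h3 i).1
    have := (c2 q).symm.trans (hl i q ⟨a, b⟩)
    rwa [Finset.sum_eq_single (top d i) (fun j _ hj => by simp [a j hj]) (by simp), if_pos (hδ i),
      b, mul_one] at this
  funext l
  have := c2 (Pi.single l 1)
  rw [Finset.sum_eq_zero (s := Finset.univ (α := Σ i, Fin (d i + 1)))] at this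
  · simpa [Pi.single_apply] using this
  rintro ⟨i, k⟩ -
  split_ifs with h
  · obtain rfl : k = Fin.last _ := Fin.ext (by have := k.2; simp only [δ] at h; simp; omega)
    exact mul_eq_zero_of_left (c3 i) _
  · rfl

end system

end Pool.Agent.Lib.MP_cd3a7b_ag.H30
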