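import Mathlib

/-! The cone over a double cover of projective space. -/

namespace Pool.Agent.Lib.MP_cd3a7b_ag.H36

/-- Coordinates `(v, w)` of weights `(1, ..., 1, n + 1)`. -/
abbrev W (n : ℕ) : Type := (Fin (n + 1) → ℂ) × ℂ

variable {n : ℕ}

/-- The weighted action of the scalars. -/
def act (c : ℂ) (y : W n) : W n := (c • y.1, c ^ (n + 1) * y.2)

/-- The punctured cone over the double cover `w ^ 2 = f v`. -/
def Cone (f : (Fin (n + 1) → ℂ) → ℂ) : Set (W n) := {y | y.1 ≠ 0 ∧ y.2 ^ 2 = f y.1}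

end Pool.Agent.Lib.MP_cd3a7b_ag.H36
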