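import Pool.Agent.Lib.MP_cd3a7b_ag.H8Alg
import Pool.Agent.Lib.MP_cd3a7b_ag.Cauchy

/-! The Hausdorff dimension of an affine algebraic set. -/

namespace Pool.Agent.Lib.MP_cd3a7b_ag.H36

open Metric Set Filter Topology MvPolynomial
open scoped ENNReal

theorem isInv {E : Type*} [NormedAddCommGroup E] [NormedSpace ℂ E] [FiniteDimensional ℂ E]
    (A : E →L[ℂ] E) (h : Function.Injective A) : A.IsInvertible :=
  ⟨(LinearEquiv.ofInjectiveEndo (A : E →ₗ[ℂ] E) h).toContinuousLinearEquiv, by ext; rfl⟩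

theorem dimH_local {X : Type*} [EMetricSpace X] [SecondCountableTopology X] {s : Set X} {d : ℝ≥0∞}
    (h : ∀ x ∈ s, ∃ t ∈ 𝓝[s] x, dimH t ≤ d) : dimH s ≤ d := by
  by_contra hlt
  obtain ⟨x, hx, h1⟩ := exists_mem_nhdsWithin_lt_dimH_of_lt_dimH (not_le.1 hlt)
  obtain ⟨t, ht, h2⟩ := h x hx
  exact (h1 t ht).not_ge h2

theorem dimH_level {E F : Type*} [NormedAddCommGroup E] [NormedSpace ℂ E] [CompleteSpace E]
    [NormedAddCommGroup F] [NormedSpace ℂ F] [CompleteSpace F] {g : E × F → F} {z : E × F}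
    (hg : ContDiffAt ℂ 1 g z) (hi : (fderiv ℂ g z ∘L .inr ℂ E F).IsInvertible) :
    ∃ N ∈ 𝓝 z, dimH ({v | g v = g z} ∩ N) ≤ dimH (univ : Set E) := by
  have h1 := hg.hasStrictFDerivAt_implicitFunction one_ne_zero hi
  obtain ⟨K, s, hs, h2⟩ := ((hasStrictFDerivAt_id z.1).prodMk h1).exists_lipschitzOnWith
  refine ⟨_, inter_mem (hg.eventually_apply_eq_iff_implicitFunction one_ne_zero hi)
    (continuous_fst.continuousAt.preimage_mem_nhds hs), le_trans (dimH_mono ?_)
      (h2.dimH_image_le.trans (dimH_mono (subset_univ s)))⟩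
  rintro v ⟨h3, h4, h5⟩
  exact ⟨v.1, h5, Prod.ext rfl (h4.1 h3)⟩

variable {s : ℕ}

theorem diff_ev (q : Polynomial (MvPolynomial (Fin s) ℂ)) :
    Differentiable ℂ fun z : (Fin s → ℂ) × ℂ => (q.map (eval z.1)).eval z.2 := by
  simp only [Polynomial.eval_map, Polynomial.eval₂_eq_sum_range]
  exact Differentiable.fun_sum fun k _ =>
    (Differentiable.comp (g := fun v => eval v (q.coeff k)) (differentiable_eval _)
      differentiable_fst).mul (differentiable_snd.pow k)

theorem dimH_finite_over {ι : Type} [Fintype ι] (p : ι → Polynomial (MvPolynomial (Fin s) ℂ))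
    (hp : ∀ i, (p i).Monic) :
    dimH {z : (Fin s → ℂ) × (ι → ℂ) | ∀ i, ((p i).map (eval z.1)).eval (z.2 i) = 0} ≤ 2 * s := by
  let e : (ι → ℕ) → (Fin s → ℂ) × (ι → ℂ) → ι → ℂ := fun κ z i =>
    ((Polynomial.derivative^[κ i] (p i)).map (eval z.1)).eval (z.2 i)
  have h1 : {z : (Fin s → ℂ) × (ι → ℂ) | ∀ i, ((p i).map (eval z.1)).eval (z.2 i) = 0} ⊆
      ⋃ κ : ι → ℕ, {z | e κ z = 0 ∧ ∀ i, e (κ + 1) z i ≠ 0} := fun z hz => by
    have h0 : ∀ i, (p i).map (eval z.1) ≠ 0 := fun i => ((hp i).map _).ne_zero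
    have h2 : ∀ i, 0 < ((p i).map (eval z.1)).rootMultiplicity (z.2 i) := fun i =>
      (Polynomial.rootMultiplicity_pos (h0 i)).2 (hz i)
    refine mem_iUnion.2 ⟨fun i => ((p i).map (eval z.1)).rootMultiplicity (z.2 i) - 1,
      funext fun i => ?_, fun i h => ?_⟩
    · simp only [e, ← Polynomial.iterate_derivative_map]
      exact Polynomial.isRoot_iterate_derivative_of_lt_rootMultiplicity (by have := h2 i; omega)
    · simp only [e, ← Polynomial.iterate_derivative_map, Pi.add_apply, Pi.one_apply] at h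
      rw [Nat.sub_add_cancel (Nat.one_le_iff_ne_zero.2 (h2 i).ne')] at h
      refine lt_irrefl _ ((Polynomial.lt_rootMultiplicity_iff_isRoot_iterate_derivative
        (t := z.2 i) (h0 i)).2 fun m hm => ?_)
      rcases hm.lt_or_eq with hm | rfl
      exacts [Polynomial.isRoot_iterate_derivative_of_lt_rootMultiplicity hm, h]
  refine (dimH_mono h1).trans ?_
  rw [dimH_iUnion]
  refine iSup_le fun κ => dimH_local fun z hz => ?_
  have hd : Differentiable ℂ (e κ) := differentiable_pi.2 fun i =>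
    (diff_ev _).comp (f := fun z : (Fin s → ℂ) × (ι → ℂ) => (z.1, z.2 i)) (by fun_prop)
  obtain ⟨N, hN, h2⟩ := dimH_level (g := e κ) (z := z) (contDiffAt_one (.of_forall hd))
    (isInv _ ((injective_iff_map_eq_zero _).2 fun v hv => funext fun i => by
      have h3 : HasFDerivAt (fun x => e κ (z.1, x))
          (fderiv ℂ (e κ) z ∘L ContinuousLinearMap.inr ℂ _ _) z.2 :=
        HasFDerivAt.comp (g := e κ) z.2 (hd z).hasFDerivAt (hasFDerivAt_prodMk_right z.1 z.2)
      have h4 := ((Polynomial.derivative^[κ i] (p i)).map (eval z.1)).hasDerivAt (z.2 i)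
      have h5 := (hasFDerivAt_pi'.1 h3 i).unique
        (HasDerivAt.comp_hasFDerivAt (f := fun x : ι → ℂ => x i) z.2 h4 (hasFDerivAt_apply i z.2))
      have h6 := congrArg (fun A => A v) h5
      have h7 := hz.2 i
      simp only [e, Pi.add_apply, Pi.one_apply] at h7
      rw [← Nat.succ_eq_add_one, Function.iterate_succ_apply'] at h7
      simp only [ContinuousLinearMap.comp_apply] at h6 hv
      rw [hv] at h6
      simpa [h7] using h6))
  refine ⟨_, inter_mem_nhdsWithin _ hN, (dimH_mono ?_).trans (h2.trans_eq ?_)⟩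
  · exact inter_subset_inter_left _ fun v hv => hv.1.trans hz.1.symm
  · rw [Real.dimH_univ_eq_finrank, ← Module.finrank_mul_finrank ℝ ℂ]
    simp

theorem krull_mv (ι : Type) [Fintype ι] :
    ringKrullDim (MvPolynomial ι ℂ) = (Fintype.card ι : ℕ) := by
  rw [MvPolynomial.ringKrullDim_of_isNoetherianRing, ringKrullDim_eq_zero_of_field]
  simp

theorem dimH_prime {ι : Type} [Fintype ι] (P : Ideal (MvPolynomial ι ℂ)) [hP : P.IsPrime] {c : ℕ}
    (hc : (c : ℕ∞) ≤ P.height) :
    dimH {x : ι → ℂ | ∀ G ∈ P, eval x G = 0} + 2 * c ≤ 2 * Fintype.card ι := by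
  obtain ⟨s, g, g1, g2⟩ := exists_integral_inj_algHom_of_fg ℂ (MvPolynomial ι ℂ ⧸ P)
  have h1 : s + c ≤ Fintype.card ι := by
    algebraize [g.toRingHom]
    have : FaithfulSMul (MvPolynomial (Fin s) ℂ) (MvPolynomial ι ℂ ⧸ P) :=
      (faithfulSMul_iff_algebraMap_injective _ _).2 g1
    obtain ⟨l, hl⟩ := (Order.le_krullDim_iff (n := s)).1
      (show _ ≤ ringKrullDim (MvPolynomial (Fin s) ℂ) by simp)
    obtain ⟨Q, hQ, hQ'⟩ := (inferInstance :
      Nonempty (l.head.asIdeal.primesOver (MvPolynomial ι ℂ ⧸ P)))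
    obtain ⟨L, hL, -⟩ := Ideal.exists_ltSeries_of_hasGoingUp l Q
    have hm : StrictMono (PrimeSpectrum.comap (Ideal.Quotient.mk P)) := fun a b hab =>
      lt_of_le_of_ne (Ideal.comap_mono hab.le) fun e => hab.ne
        (PrimeSpectrum.comap_injective_of_surjective _ Ideal.Quotient.mk_surjective e)
    have h2 := Order.length_le_coheight (x := (⟨P, hP⟩ : PrimeSpectrum _)) (p := L.map _ hm)
      (fun G hG => by
        rw [LTSeries.head_map]
        change Ideal.Quotient.mk P G ∈ L.head.asIdeal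
        rw [Ideal.Quotient.eq_zero_iff_mem.2 hG]
        exact zero_mem _)
    rw [LTSeries.map_length, hL, hl] at h2
    have h3 := krull_mv ι
    rw [ringKrullDim, Order.krullDim_eq_iSup_height_add_coheight_of_nonempty] at h3
    have h4 := le_iSup (fun a : PrimeSpectrum (MvPolynomial ι ℂ) => Order.height a + Order.coheight a)
      ⟨P, hP⟩
    rw [WithBot.coe_inj.1 h3, ← PrimeSpectrum.height_eq_orderHeight] at h4
    have h5 := (add_le_add hc h2).trans h4
    rw [add_comm]
    exact_mod_cast h5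
  choose p p1 p2 using fun i => g2 (Ideal.Quotient.mk P (X i))
  have h2 : {x : ι → ℂ | ∀ G ∈ P, eval x G = 0} ⊆ Prod.snd ''
      {z : (Fin s → ℂ) × (ι → ℂ) | ∀ i, ((p i).map (eval z.1)).eval (z.2 i) = 0} := fun x hx => by
    let ev : (MvPolynomial ι ℂ ⧸ P) →ₐ[ℂ] ℂ := Ideal.Quotient.liftₐ P (aeval x) hx
    refine ⟨(fun k => ev (g (X k)), x), fun i => ?_, rfl⟩
    have h3 := congrArg ev.toRingHom (p2 i)
    rw [Polynomial.hom_eval₂, map_zero] at h3
    rw [Polynomial.eval_map, ← h3]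
    congr 1
    · refine ringHom_ext (fun k => ?_) fun k => by simp
      rw [eval_C]
      exact ((ev.comp g).commutes k).symm
    · exact (aeval_X x i).symm
  have h3 := (dimH_mono h2).trans
    ((LipschitzWith.prod_snd.dimH_image_le _).trans (dimH_finite_over p p1))
  refine (add_le_add_left h3 _).trans ?_
  rw [← mul_add]
  exact mul_le_mul_right (by exact_mod_cast h1) _

theorem aeval_w {ι A : Type} [Fintype ι] [CommRing A] [Algebra ℂ A] {wt : ι → ℕ}
    {G : MvPolynomial ι ℂ} {n : ℕ} (hG : G.IsWeightedHomogeneous wt n) (c : A) (v : ι → A) :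
    aeval (fun o => c ^ wt o * v o) G = c ^ n * aeval v G := by
  rw [aeval_def, aeval_def, eval₂_eq', eval₂_eq', Finset.mul_sum]
  refine Finset.sum_congr rfl fun d hd => ?_
  have h1 : Finsupp.weight wt d = n := hG (mem_support_iff.1 hd)
  have h2 : ∑ o, wt o * d o = n := by
    rw [← h1, Finsupp.weight_apply, Finsupp.sum_fintype _ _ (by simp)]
    simp [mul_comm]
  simp only [mul_pow, Finset.prod_mul_distrib, ← pow_mul, Finset.prod_pow_eq_pow_sum, h2]
  ring

/-- The slice `v j = 1` of a weighted cone of codimension at least three. -/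
theorem dimH_slice {ι : Type} [Fintype ι] {wt : ι → ℕ} {S : Set (MvPolynomial ι ℂ)}
    (hS : ∀ G ∈ S, ∃ k, G.IsWeightedHomogeneous wt k) (h3 : 3 ≤ (Ideal.span S).height) {j : ι}
    (hj : wt j = 1) {m : ℕ} (hm : Fintype.card ι = m + 4) :
    dimH {x : ι → ℂ | x j = 1 ∧ ∀ G ∈ S, eval x G = 0} ≤ 2 * m := by
  let J : Ideal (MvPolynomial ι ℂ) := Ideal.span (insert (X j - 1) S)
  have h1 : {x : ι → ℂ | x j = 1 ∧ ∀ G ∈ S, eval x G = 0} ⊆
      ⋃ P ∈ J.minimalPrimes, {x : ι → ℂ | ∀ G ∈ P, eval x G = 0} := fun x hx => by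
    have := RingHom.ker_isPrime (eval x : MvPolynomial ι ℂ →+* ℂ)
    obtain ⟨P, h1, h2⟩ := Ideal.exists_minimalPrimes_le (I := J) (J := RingHom.ker (eval x))
      (Ideal.span_le.2 (insert_subset (by simp [hx.1]) hx.2))
    exact mem_biUnion h1 h2
  refine (dimH_mono h1).trans ?_
  rw [dimH_bUnion (J.finite_minimalPrimes_of_isNoetherianRing _).countable]
  refine iSup₂_le fun P hP => ?_
  have := hP.1.1
  have hJ : insert (X j - 1) S ⊆ P := Ideal.span_le.1 hP.1.2
  let θ : MvPolynomial ι ℂ →ₐ[ℂ] Polynomial (MvPolynomial ι ℂ ⧸ P) :=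
    aeval fun o => Polynomial.X ^ wt o * Polynomial.C (Ideal.Quotient.mk P (X o))
  have hθ := RingHom.ker_isPrime θ
  have e1 : ∀ G, aeval (fun o => Polynomial.C (Ideal.Quotient.mk P (X o))) G =
      Polynomial.C (Ideal.Quotient.mk P G) := fun G => by
    have : (aeval fun o => Polynomial.C (Ideal.Quotient.mk P (X o))) =
        Polynomial.CAlgHom.comp (Ideal.Quotient.mkₐ ℂ P) := algHom_ext fun o => by simp
    rw [this]
    rfl
  have e2 : ∀ G, (θ G).eval 1 = Ideal.Quotient.mk P G := fun G => by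
    have : ((Polynomial.aeval (1 : MvPolynomial ι ℂ ⧸ P)).restrictScalars ℂ).comp θ =
        Ideal.Quotient.mkₐ ℂ P := algHom_ext fun o => by simp [θ]
    simpa using DFunLike.congr_fun this G
  have h4 : Ideal.span S ≤ RingHom.ker θ := Ideal.span_le.2 fun G hG => by
    obtain ⟨k, hk⟩ := hS G hG
    have h4 := aeval_w (A := Polynomial (MvPolynomial ι ℂ ⧸ P)) hk Polynomial.X
      fun o => Polynomial.C (Ideal.Quotient.mk P (X o))
    rwa [e1, Ideal.Quotient.eq_zero_iff_mem.2 (hJ (mem_insert_of_mem _ hG)), map_zero,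
      mul_zero] at h4
  have h5 : RingHom.ker θ < P := by
    refine lt_of_le_of_ne (fun G hG => Ideal.Quotient.eq_zero_iff_mem.1 ?_) fun e => ?_
    · rw [← e2, RingHom.mem_ker.1 hG, Polynomial.eval_zero]
    · have h6 : θ (X j - 1) = 0 := (e.ge (hJ (mem_insert _ _)) :)
      have h7 := congrArg (Polynomial.eval 0) h6
      simp [θ, hj] at h7
  have h6 := dimH_prime P (c := 4) (le_trans (add_le_add_left (h3.trans (Ideal.height_mono h4)) 1)
    (Ideal.height_add_one_le_of_lt_of_isPrime h5))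
  rw [hm, Nat.cast_add, mul_add] at h6
  exact (ENNReal.add_le_add_iff_right (by simp [ENNReal.mul_eq_top])).1 h6

end Pool.Agent.Lib.MP_cd3a7b_ag.H36
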