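import Pool.Agent.Lib.MP_cd3a7b_ag.H36Gen

/-! Lines with `n - 1` tangencies through a general point. -/

namespace Pool.Agent.Lib.MP_cd3a7b_ag.H36

open Metric Set Filter Topology MvPolynomial

/-- The monomials of degree `d`. -/
abbrev Mon (k d : ℕ) : Type := ↥(Finset.finsuppAntidiag (Finset.univ : Finset (Fin k)) d)

/-- The form with given coefficients, as a function. -/
noncomputable def fa {k d : ℕ} (a : Mon k d → ℂ) (v : Fin k → ℂ) : ℂ :=
  ∑ s : Mon k d, a s * ∏ j, v j ^ s.1 j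

theorem fa_coeff {k d : ℕ} {F : MvPolynomial (Fin k) ℂ} (hF : F.IsHomogeneous d) (v : Fin k → ℂ) :
    fa (fun s : Mon k d => coeff s.1 F) v = eval v F := by
  rw [eval_eq', fa, Finset.sum_coe_sort _ fun s => coeff s F * ∏ j, v j ^ s j]
  refine (Finset.sum_subset (fun s hs => ?_) fun s _ hs => by simp [notMem_support_iff.1 hs]).symm
  have := hF (mem_support_iff.1 hs)
  rw [Finsupp.weight_apply, Finsupp.sum_fintype _ _ (by simp)] at this
  simpa using this

theorem eval_smul' {k d : ℕ} {F : MvPolynomial (Fin k) ℂ} (hF : F.IsHomogeneous d) (c : ℂ)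
    (v : Fin k → ℂ) : eval (c • v) F = c ^ d * eval v F := by
  rw [← eval_w_alg hF c v]
  congr 2
  funext o
  simp

/-- The polynomial with given coefficients. -/
noncomputable def pol {k : ℕ} (v : Fin k → ℂ) : Polynomial ℂ :=
  ∑ l, Polynomial.C (v l) * Polynomial.X ^ (l : ℕ)

theorem pol_eval {k : ℕ} (v : Fin k → ℂ) (t : ℂ) : (pol v).eval t = ∑ l, v l * t ^ (l : ℕ) := by
  simp [pol, Polynomial.eval_finsetSum]

theorem pol_deg {k : ℕ} (v : Fin k → ℂ) : (pol v).degree < k := Polynomial.degree_sum_fin_lt v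

theorem pol_zero {k : ℕ} {v : Fin k → ℂ} (h : pol v = 0) : v = 0 := by
  ext l
  have := congrArg (Polynomial.coeff · l) h
  simpa [pol, Polynomial.finsetSum_coeff, Polynomial.coeff_X_pow, Fin.val_inj] using this

theorem pol_X {k : ℕ} (v : Fin k → ℂ) : (Polynomial.X * pol v).natDegree ≤ k := by
  rcases eq_or_ne (pol v) 0 with h | h
  · simp [h]
  · have := (Polynomial.natDegree_lt_iff_degree_lt h).2 (pol_deg v)
    rw [Polynomial.natDegree_X_mul h]
    omega

theorem pol_five (v : Fin 5 → ℂ) : (pol v).natDegree ≤ 4 :=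
  Polynomial.natDegree_le_iff_degree_le.2 (Order.le_of_lt_succ (pol_deg v))

variable {m : ℕ}

/-- The unknowns attached to one line. -/
abbrev B (m : ℕ) : Type := Fin m ⊕ Fin m ⊕ Fin 5

theorem tri {d q : Fin m → ℂ} {r : Fin 5 → ℂ} {τ : B m → ℂ} (hτ : Function.Injective τ)
    (h : ∀ b, τ b ^ (m + 5) * ∑ l, d l * τ b ^ (l : ℕ) =
      2 * (τ b * ∑ l, q l * τ b ^ (l : ℕ)) * (1 + τ b ^ 4) + ∑ l, r l * τ b ^ (l : ℕ)) :
    d = 0 ∧ q = 0 ∧ r = 0 := by
  have h4 : (1 + Polynomial.X ^ 4 : Polynomial ℂ).natDegree = 4 := by compute_degree!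
  have h1 : (Polynomial.C 2 * (Polynomial.X * pol q) * (1 + Polynomial.X ^ 4) + pol r).natDegree ≤
      m + 4 := by
    refine Polynomial.natDegree_add_le_of_degree_le (Polynomial.natDegree_mul_le.trans
      (add_le_add ((Polynomial.natDegree_C_mul_le _ _).trans (pol_X q)) h4.le))
      ((pol_five r).trans (by omega))
  have h2 : Polynomial.X ^ (m + 4) * (Polynomial.X * pol d) -
      (Polynomial.C 2 * (Polynomial.X * pol q) * (1 + Polynomial.X ^ 4) + pol r) = 0 := by
    refine Polynomial.eq_zero_of_natDegree_lt_card_of_eval_eq_zero _ hτ (fun b => ?_) ?_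
    · simp only [Polynomial.eval_sub, Polynomial.eval_add, Polynomial.eval_mul, Polynomial.eval_pow,
        Polynomial.eval_X, Polynomial.eval_C, Polynomial.eval_one, pol_eval, ← h]
      ring
    · refine ((Polynomial.natDegree_sub_le _ _).trans (max_le (c := m + 4 + m)
        (Polynomial.natDegree_mul_le.trans (add_le_add (by simp) (pol_X d)))
        (h1.trans (by omega)))).trans_lt ?_
      simp
      omega
  rw [sub_eq_zero] at h2
  have h3 : pol d = 0 := by
    by_contra e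
    rw [← h2, Polynomial.natDegree_X_pow_mul _ (mul_ne_zero Polynomial.X_ne_zero e),
      Polynomial.natDegree_X_mul e] at h1
    omega
  rw [h3, mul_zero, mul_zero, eq_comm, add_eq_zero_iff_eq_neg] at h2
  have h5 : pol q = 0 := by
    by_contra e
    have h6 := congrArg Polynomial.natDegree h2
    have := pol_five r
    rw [Polynomial.natDegree_neg, Polynomial.natDegree_mul (mul_ne_zero (by simp)
      (mul_ne_zero Polynomial.X_ne_zero e)) (fun e' => by simp [e'] at h4), h4,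
      Polynomial.natDegree_C_mul two_ne_zero, Polynomial.natDegree_X_mul e] at h6
    omega
  exact ⟨pol_zero h3, pol_zero h5, pol_zero (by simpa [h5] using h2)⟩

/-- The direction of the `i`-th line. -/
def U (x : Fin (m + 1) × B m → ℂ) (i : Fin (m + 1)) : Fin (m + 2) → ℂ :=
  Fin.cons 0 (Fin.insertNth i 1 fun κ => x (i, .inl κ))

/-- The base point. -/
def e0 (k : ℕ) : Fin (k + 1) → ℂ := Fin.cons 1 0

/-- The form cutting out the points of tangency. -/
noncomputable def Qh (q : Fin m → ℂ) (a b : ℂ) : ℂ :=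
  b ^ m + ∑ l, q l * a ^ (l + 1 : ℕ) * b ^ (m - 1 - l)

theorem Qh_mul (q : Fin m → ℂ) (k a b : ℂ) : Qh q (k * a) (k * b) = k ^ m * Qh q a b := by
  simp only [Qh, mul_add, Finset.mul_sum, mul_pow]
  congr 1
  refine Finset.sum_congr rfl fun l _ => ?_
  have : k ^ m = k ^ (l + 1 : ℕ) * k ^ (m - 1 - l) := by
    rw [← pow_add]
    congr 1
    omega
  rw [this]
  ring

/-- The transversal example. -/
noncomputable def F0 (m : ℕ) : MvPolynomial (Fin (m + 2)) ℂ :=
  X 0 ^ (2 * (m + 1 + 1)) + ∑ i : Fin (m + 1), X 0 ^ (2 * m) * X i.succ ^ 4 +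
    ∑ i : Fin (m + 1), ∑ κ : Fin m,
      X 0 ^ (m - 1 - κ) * X i.succ ^ (m + 4 + κ) * X (i.succAbove κ).succ

theorem F0_hom : (F0 m).IsHomogeneous (2 * (m + 1 + 1)) := by
  refine ((isHomogeneous_X_pow _ _).add (IsHomogeneous.sum _ _ _ fun i _ => ?_)).add
    (IsHomogeneous.sum _ _ _ fun i _ => IsHomogeneous.sum _ _ _ fun κ _ => ?_)
  · exact (isHomogeneous_X_pow _ _).mul (isHomogeneous_X_pow _ _)
  · convert ((isHomogeneous_X_pow (R := ℂ) (0 : Fin (m + 2)) (m - 1 - κ)).mul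
      (isHomogeneous_X_pow i.succ (m + 4 + κ))).mul (isHomogeneous_X ℂ (i.succAbove κ).succ) using 1
    omega

theorem F0_eval (x : Fin (m + 1) × B m → ℂ) (i : Fin (m + 1)) (t : ℂ) :
    eval (e0 (m + 1) + t • U x i) (F0 m) = 1 + ∑ j : Fin (m + 1), (t * U x i j.succ) ^ 4 +
      ∑ j : Fin (m + 1), ∑ κ : Fin m,
        (t * U x i j.succ) ^ (m + 4 + κ) * (t * U x i (j.succAbove κ).succ) := by
  simp [F0, e0, U]

theorem F0_deriv {x : Fin (m + 1) × B m → ℂ} (hx : ∀ i κ, x (i, .inl κ) = 0)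
    (δ : Fin (m + 1) × B m → ℂ) (i : Fin (m + 1)) (t : ℂ) :
    eval (e0 (m + 1) + t • U x i) (F0 m) = 1 + t ^ 4 ∧
      HasDerivAt (fun τ : ℂ => eval (e0 (m + 1) + t • U (x + τ • δ) i) (F0 m))
        (t ^ (m + 5) * ∑ l, δ (i, .inl l) * t ^ (l : ℕ)) 0 := by
  refine ⟨?_, ?_⟩
  · rw [F0_eval]
    simp [Fin.sum_univ_succAbove _ i, U, hx]
  simp only [F0_eval]
  let d : Fin (m + 1) → ℂ := Fin.insertNth i 0 fun κ => δ (i, .inl κ)
  have h1 : ∀ j : Fin (m + 1), HasDerivAt (fun τ : ℂ => t * U (x + τ • δ) i j.succ) (t * d j) 0 := by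
    intro j
    refine HasDerivAt.const_mul t ?_
    refine i.succAboveCases ?_ (fun κ => ?_) j
    · simpa [U, d] using hasDerivAt_const (0 : ℂ) (1 : ℂ)
    · simpa [U, d, hx] using (hasDerivAt_id (0 : ℂ)).mul_const (δ (i, .inl κ))
  refine (((HasDerivAt.fun_sum fun j _ => (h1 j).fun_pow 4).const_add 1).fun_add
    (HasDerivAt.fun_sum fun j _ => HasDerivAt.fun_sum fun (κ : Fin m) _ =>
      ((h1 j).fun_pow (m + 4 + κ)).fun_mul (h1 (j.succAbove κ)))).congr_deriv ?_
  simp [Fin.sum_univ_succAbove _ i, U, hx, d, Finset.mul_sum]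
  exact Finset.sum_congr rfl fun κ _ => by ring

theorem line_id {F : MvPolynomial (Fin (m + 2)) ℂ} (hF : F.IsHomogeneous (2 * (m + 1 + 1)))
    {p u : Fin (m + 2) → ℂ} {q : Fin m → ℂ} {r : Fin 5 → ℂ} {τ : B m → ℂ}
    (hτ : Function.Injective τ) (h : ∀ b, eval (p + τ b • u) F =
      (1 + τ b * ∑ l, q l * τ b ^ (l : ℕ)) ^ 2 * ∑ l, r l * τ b ^ (l : ℕ)) (a b : ℂ) :
    eval (a • u + b • p) F = Qh q a b ^ 2 * ∑ l, r l * a ^ (l : ℕ) * b ^ (4 - l : ℕ) := by
  let P : Polynomial ℂ := aeval (fun j => Polynomial.C (u j) * Polynomial.X + Polynomial.C (p j)) F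
  have hP : ∀ t, P.eval t = eval (p + t • u) F := fun t => by
    rw [← Polynomial.coe_aeval_eq_eval, ← AlgHom.comp_apply, comp_aeval, ← aeval_eq_eval]
    congr 2
    ext i
    simp
    ring
  have h1 : P - (1 + Polynomial.X * pol q) ^ 2 * pol r = 0 := by
    refine Polynomial.eq_zero_of_natDegree_lt_card_of_eval_eq_zero _ hτ (fun b => ?_) ?_
    · simp [hP, h, pol_eval]
    · refine ((Polynomial.natDegree_sub_le _ _).trans (max_le (c := 2 * m + 4)
        ((aeval_natDegree_le F hF.totalDegree_le _ fun _ =>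
          Polynomial.natDegree_linear_le).trans (by omega))
        (Polynomial.natDegree_mul_le.trans (add_le_add (Polynomial.natDegree_pow_le_of_le 2
          (Polynomial.natDegree_add_le_of_degree_le (by simp) (pol_X q))) (pol_five r))))).trans_lt ?_
      simp
      omega
  have c1 : Continuous fun b : ℂ => eval (a • u + b • p) F :=
    (differentiable_eval F).continuous.comp (by fun_prop)
  have c2 : Continuous fun b : ℂ => Qh q a b ^ 2 * ∑ l, r l * a ^ (l : ℕ) * b ^ (4 - l : ℕ) := by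
    unfold Qh
    fun_prop
  refine congrFun (Continuous.ext_on (dense_compl_singleton (0 : ℂ)) c1 c2 fun b hb => ?_) b
  have hb' : b ≠ 0 := hb
  obtain ⟨t, rfl⟩ : ∃ t, a = b * t := ⟨a / b, by field_simp⟩
  have h2 := congrArg (Polynomial.eval t) (sub_eq_zero.1 h1)
  have h3 := Qh_mul q b t 1
  have h4 : Qh q t 1 = 1 + t * ∑ l, q l * t ^ (l : ℕ) := by
    simp only [Qh, one_pow, mul_one, Finset.mul_sum]
    exact congrArg _ (Finset.sum_congr rfl fun l _ => by ring)
  rw [mul_one, h4] at h3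
  simp only [hP, Polynomial.eval_mul, Polynomial.eval_pow, Polynomial.eval_add, Polynomial.eval_one,
    Polynomial.eval_X, pol_eval] at h2
  rw [mul_smul, ← smul_add, add_comm (t • u), eval_smul' hF, h2, h3]
  simp only [Fin.sum_univ_five]
  norm_num
  ring

theorem exists_lines (m : ℕ) : ∃ Φ : MvPolynomial (Mon (m + 2) (2 * (m + 1 + 1))) ℂ, Φ ≠ 0 ∧
    ∀ F : MvPolynomial (Fin (m + 2)) ℂ, F.IsHomogeneous (2 * (m + 1 + 1)) →
      eval (fun s => coeff s.1 F) Φ ≠ 0 → eval (e0 (m + 1)) F ≠ 0 ∧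
      ∃ (u : Fin (m + 1) → (Fin (m + 2) → ℂ) → Fin (m + 2) → ℂ)
        (q : Fin (m + 1) → (Fin (m + 2) → ℂ) → Fin m → ℂ)
        (ρ : Fin (m + 1) → (Fin (m + 2) → ℂ) → Fin 5 → ℂ),
        (∀ i p, u i p 0 = 0 ∧ u i p i.succ = 1) ∧
        (Matrix.of fun i j : Fin (m + 1) => u i (e0 (m + 1)) j.succ).det ≠ 0 ∧
        ∀ i, ∀ᶠ p in 𝓝 (e0 (m + 1)), DifferentiableAt ℂ (u i) p ∧ DifferentiableAt ℂ (q i) p ∧
          DifferentiableAt ℂ (ρ i) p ∧ ∀ a b, eval (a • u i p + b • p) F =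
            Qh (q i p) a b ^ 2 * ∑ l, ρ i p l * a ^ (l : ℕ) * b ^ (4 - l : ℕ) := by
  obtain ⟨τ, hτ⟩ : ∃ τ : B m → ℂ, Function.Injective τ :=
    ⟨fun b => ((Fintype.equivFin _ b : ℕ) : ℂ),
      Nat.cast_injective.comp (Fin.val_injective.comp (Fintype.equivFin _).injective)⟩
  let x₀ : Fin (m + 1) × B m → ℂ := fun k => Sum.elim 0 (Sum.elim 0 ![1, 0, 0, 0, 1]) k.2
  have hU : ∀ {σ : Type} (e : Fin (m + 1) × B m → σ) (i j),
      IsPoly fun z : σ → ℂ => U (fun k => z (e k)) i j := fun e i j => by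
    refine Fin.cases ?_ (fun j => i.succAboveCases ?_ (fun κ => ?_) j) j
    · simpa [U] using IsPoly.const 0
    · simpa [U] using IsPoly.const 1
    · simpa [U] using IsPoly.coord _
  obtain ⟨Φ, h1, h2⟩ := generic (A := Mon (m + 2) (2 * (m + 1 + 1)))
    (fun a p x k => fa a (p + τ k.2 • U x k.1) -
      (1 + τ k.2 * ∑ l, x (k.1, .inr (.inl l)) * τ k.2 ^ (l : ℕ)) ^ 2 *
        ∑ l, x (k.1, .inr (.inr l)) * τ k.2 ^ (l : ℕ))
    (fun a x => fa a (e0 (m + 1)) * (Matrix.of fun i j : Fin (m + 1) => U x i j.succ).det)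
    (fun k => IsPoly.sub (IsPoly.sum fun s => (IsPoly.coord _).mul (IsPoly.prod fun j =>
      ((IsPoly.coord _).add ((IsPoly.const _).mul (hU _ _ _))).pow _))
      ((((IsPoly.const _).add ((IsPoly.const _).mul (IsPoly.sum fun l =>
        (IsPoly.coord _).mul (IsPoly.const _)))).pow _).mul
        (IsPoly.sum fun l => (IsPoly.coord _).mul (IsPoly.const _))))
    ((IsPoly.sum fun s => (IsPoly.coord _).mul (IsPoly.const _)).mul
      (IsPoly.det fun i j => hU (fun k => Sum.inr (Sum.inr k)) i j.succ))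
    (a₀ := fun s => coeff s.1 (F0 m)) (y₀ := e0 (m + 1)) (x₀ := x₀)
    (_root_.funext fun k => by
      rw [fa_coeff F0_hom, (F0_deriv (fun _ _ => rfl) 0 _ _).1]
      simp [x₀, Fin.sum_univ_five])
    (by
      have : (Matrix.of fun i j : Fin (m + 1) => U x₀ i j.succ) = 1 := by
        ext i j
        refine i.succAboveCases ?_ (fun κ => ?_) j
        · simp [U]
        · simp [U, x₀, Matrix.one_apply_ne (Fin.succAbove_ne i κ).symm]
      rw [fa_coeff F0_hom, this]
      simp [F0, e0])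
    (fun δ hδ => by
      have h3 := fun i => tri (d := fun l => δ (i, .inl l)) (q := fun l => δ (i, .inr (.inl l)))
        (r := fun l => δ (i, .inr (.inr l))) hτ fun b => by
          have h4 := hδ (i, b)
          simp only [fa_coeff F0_hom] at h4
          have h5 : ∀ k, HasDerivAt (fun t : ℂ => (x₀ + t • δ) k) (δ k) 0 := fun k => by
            simpa using ((hasDerivAt_id (0 : ℂ)).mul_const (δ k)).const_add (x₀ k)
          have h6 := h4.unique ((F0_deriv (fun _ _ => rfl) δ i (τ b)).2.fun_sub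
            (((((HasDerivAt.fun_sum fun l _ => (h5 (i, .inr (.inl l))).mul_const
              (τ b ^ (l : ℕ))).const_mul (τ b)).const_add 1).fun_pow 2).fun_mul
              (HasDerivAt.fun_sum fun l _ => (h5 (i, .inr (.inr l))).mul_const (τ b ^ (l : ℕ)))))
          rw [eq_comm, sub_eq_zero] at h6
          rw [h6]
          simp [x₀, Fin.sum_univ_five]
      ext ⟨i, l | l | l⟩
      exacts [congrFun (h3 i).1 l, congrFun (h3 i).2.1 l, congrFun (h3 i).2.2 l])
  refine ⟨Φ, h1, fun F hF h3 => ?_⟩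
  obtain ⟨σ, s1, s2⟩ := h2 _ h3
  rw [fa_coeff hF] at s1
  refine ⟨left_ne_zero_of_mul s1, fun i p => U (σ p) i, fun i p l => σ p (i, .inr (.inl l)),
    fun i p l => σ p (i, .inr (.inr l)), fun i p => by simp [U], right_ne_zero_of_mul s1,
    fun i => s2.mono fun p hp => ?_⟩
  have h4 := differentiableAt_pi.1 hp.1
  refine ⟨differentiableAt_pi.2 fun j => ?_, differentiableAt_pi.2 fun l => h4 _,
    differentiableAt_pi.2 fun l => h4 _, line_id hF hτ fun b => ?_⟩
  · refine Fin.cases ?_ (fun j => i.succAboveCases ?_ (fun κ => ?_) j) j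
    · simp [U]
    · simp [U]
    · simpa [U] using h4 _
  · exact (fa_coeff hF _).symm.trans (sub_eq_zero.1 (congrFun hp.2 (i, b)))

end Pool.Agent.Lib.MP_cd3a7b_ag.H36
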