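import Pool.Agent.Lib.MP_cd3a7b_ag.H36Dim

/-! A transversal solution of a polynomial system persists for general parameters. -/

namespace Pool.Agent.Lib.MP_cd3a7b_ag.H36

open Metric Set Filter Topology MvPolynomial

theorem constr_dich {R : Type} [CommRing R] [IsDomain R] {s : Set (PrimeSpectrum R)}
    (hs : IsConstructible s) : ∃ Φ : R, Φ ≠ 0 ∧
      ((∀ x : PrimeSpectrum R, Φ ∉ x.asIdeal → x ∈ s) ∨
        ∀ x : PrimeSpectrum R, Φ ∉ x.asIdeal → x ∉ s) := by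
  induction hs using IsConstructible.empty_union_induction with
  | open_retrocompact U h1 _ =>
    rcases U.eq_empty_or_nonempty with rfl | ⟨x, hx⟩
    · exact ⟨1, one_ne_zero, .inr fun _ _ => notMem_empty _⟩
    · obtain ⟨_, ⟨Φ, rfl⟩, h2, h3⟩ :=
        PrimeSpectrum.isTopologicalBasis_basic_opens.exists_subset_of_mem_open hx h1
      exact ⟨Φ, fun e => h2 (e ▸ zero_mem _), .inl fun y hy => h3 hy⟩
  | union s _ t _ h1 h2 =>
    obtain ⟨a, a0, h1⟩ := h1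
    obtain ⟨b, b0, h2⟩ := h2
    have ha : ∀ x : PrimeSpectrum R, a * b ∉ x.asIdeal → a ∉ x.asIdeal := fun x h e =>
      h (Ideal.mul_mem_right _ _ e)
    have hb : ∀ x : PrimeSpectrum R, a * b ∉ x.asIdeal → b ∉ x.asIdeal := fun x h e =>
      h (Ideal.mul_mem_left _ _ e)
    refine ⟨a * b, mul_ne_zero a0 b0, ?_⟩
    rcases h1 with h1 | h1
    · exact .inl fun x hx => .inl (h1 x (ha x hx))
    rcases h2 with h2 | h2
    · exact .inl fun x hx => .inr (h2 x (hb x hx))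
    · exact .inr fun x hx h => h.elim (h1 x (ha x hx)) (h2 x (hb x hx))
  | compl s _ h1 =>
    obtain ⟨a, a0, h1⟩ := h1
    exact ⟨a, a0, h1.symm.imp id fun h x hx h' => h' (h x hx)⟩

theorem chevalley {A Y : Type} [Fintype A] [Fintype Y] (E : Set (MvPolynomial (A ⊕ Y) ℂ))
    (h : MvPolynomial (A ⊕ Y) ℂ) {a₀ : A → ℂ}
    (h0 : ∀ᶠ a in 𝓝 a₀, ∃ y, (∀ g ∈ E, eval (Sum.elim a y) g = 0) ∧ eval (Sum.elim a y) h ≠ 0) :
    ∃ Φ : MvPolynomial A ℂ, Φ ≠ 0 ∧ ∀ a, eval a Φ ≠ 0 →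
      ∃ y, (∀ g ∈ E, eval (Sum.elim a y) g = 0) ∧ eval (Sum.elim a y) h ≠ 0 := by
  let f : MvPolynomial A ℂ →ₐ[ℂ] MvPolynomial (A ⊕ Y) ℂ := rename Sum.inl
  have hf : (f : MvPolynomial A ℂ →+* MvPolynomial (A ⊕ Y) ℂ).FinitePresentation := by
    refine RingHom.FinitePresentation.of_finiteType.1
      (RingHom.FiniteType.of_comp_finiteType (f := algebraMap ℂ _) ?_)
    rw [AlgHom.comp_algebraMap, RingHom.finiteType_algebraMap]
    infer_instance
  have hc : IsConstructible (PrimeSpectrum.zeroLocus E ∩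
      (PrimeSpectrum.basicOpen h : Set (PrimeSpectrum _))) :=
    IsConstructible.inter (isConstructible_compl.1 ((TopologicalSpace.NoetherianSpace.isCompact
      _).isConstructible (PrimeSpectrum.isClosed_zeroLocus E).isOpen_compl))
      PrimeSpectrum.isConstructible_basicOpen
  obtain ⟨Φ, h1, h2⟩ := constr_dich (PrimeSpectrum.isConstructible_comap_image hf hc)
  let pt : ∀ {σ : Type}, (σ → ℂ) → PrimeSpectrum (MvPolynomial σ ℂ) := fun x =>
    ⟨RingHom.ker (eval x), RingHom.ker_isPrime _⟩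
  refine ⟨Φ, h1, fun a ha => ?_⟩
  rcases h2 with h2 | h2
  · obtain ⟨q, ⟨q1, q2⟩, q3⟩ := h2 (pt a) ha
    have h3 : h ∉ vanishingIdeal ℂ (zeroLocus ℂ q.asIdeal) := by
      rwa [vanishingIdeal_zeroLocus_eq_radical, q.isPrime.radical]
    rw [mem_vanishingIdeal_iff] at h3
    push Not at h3
    obtain ⟨x, x1, x2⟩ := h3
    have h4 : Sum.elim a (x ∘ Sum.inr) = x := by
      ext (i | i)
      · have h5 : X i - C (a i) ∈ (pt a).asIdeal := by simp [pt]
        rw [← q3] at h5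
        have h6 := x1 _ h5
        simp [f, sub_eq_zero] at h6
        exact h6.symm
      · rfl
    exact ⟨x ∘ Sum.inr, by rw [h4]; exact ⟨fun g hg => x1 g (q1 hg), x2⟩⟩
  · refine absurd (MvPolynomial.funext fun v => congrFun
      ((AnalyticOnNhd.eval_mvPolynomial _).eq_of_eventuallyEq
        (AnalyticOnNhd.eval_mvPolynomial 0) (z₀ := a₀) ?_) v) h1
    filter_upwards [h0] with a ⟨y, y1, y2⟩
    by_contra h3
    refine h2 (pt a) (by simpa [pt] using h3) ⟨pt (Sum.elim a y), ⟨y1, y2⟩, ?_⟩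
    ext g
    simp [pt, f, eval_rename]

/-- Polynomial functions. -/
def IsPoly {σ : Type} (f : (σ → ℂ) → ℂ) : Prop := ∃ P : MvPolynomial σ ℂ, ∀ x, f x = eval x P

namespace IsPoly

variable {σ : Type} {f g : (σ → ℂ) → ℂ}

theorem const (c : ℂ) : IsPoly fun _ : σ → ℂ => c := ⟨C c, fun _ => by simp⟩

theorem coord (i : σ) : IsPoly fun x : σ → ℂ => x i := ⟨X i, fun _ => by simp⟩

theorem add (hf : IsPoly f) (hg : IsPoly g) : IsPoly fun x => f x + g x := by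
  obtain ⟨P, hP⟩ := hf
  obtain ⟨Q, hQ⟩ := hg
  exact ⟨P + Q, fun x => by simp [hP, hQ]⟩

theorem sub (hf : IsPoly f) (hg : IsPoly g) : IsPoly fun x => f x - g x := by
  obtain ⟨P, hP⟩ := hf
  obtain ⟨Q, hQ⟩ := hg
  exact ⟨P - Q, fun x => by simp [hP, hQ]⟩

theorem mul (hf : IsPoly f) (hg : IsPoly g) : IsPoly fun x => f x * g x := by
  obtain ⟨P, hP⟩ := hf
  obtain ⟨Q, hQ⟩ := hg
  exact ⟨P * Q, fun x => by simp [hP, hQ]⟩

theorem pow (hf : IsPoly f) (k : ℕ) : IsPoly fun x => f x ^ k := by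
  obtain ⟨P, hP⟩ := hf
  exact ⟨P ^ k, fun x => by simp [hP]⟩

theorem sum {ι : Type} [Fintype ι] {f : ι → (σ → ℂ) → ℂ} (hf : ∀ i, IsPoly (f i)) :
    IsPoly fun x => ∑ i, f i x := by
  choose P hP using hf
  exact ⟨∑ i, P i, fun x => by simp [hP]⟩

theorem prod {ι : Type} [Fintype ι] {f : ι → (σ → ℂ) → ℂ} (hf : ∀ i, IsPoly (f i)) :
    IsPoly fun x => ∏ i, f i x := by
  choose P hP using hf
  exact ⟨∏ i, P i, fun x => by simp [hP]⟩

theorem det {ι : Type} [Fintype ι] [DecidableEq ι] {f : (σ → ℂ) → Matrix ι ι ℂ}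
    (hf : ∀ i j, IsPoly fun x => f x i j) : IsPoly fun x => (f x).det := by
  choose P hP using hf
  refine ⟨(Matrix.of P).det, fun x => ?_⟩
  rw [RingHom.map_det]
  exact congrArg Matrix.det (Matrix.ext fun i j => hP i j x)

end IsPoly

theorem generic {A Y K : Type} [Fintype A] [Fintype Y] [Fintype K]
    (G : (A → ℂ) → (Y → ℂ) → (K → ℂ) → K → ℂ) (H : (A → ℂ) → (K → ℂ) → ℂ)
    (hG : ∀ k, IsPoly fun z : A ⊕ Y ⊕ K → ℂ =>
      G (fun i => z (.inl i)) (fun i => z (.inr (.inl i))) (fun i => z (.inr (.inr i))) k)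
    (hH : IsPoly fun z : A ⊕ Y ⊕ K → ℂ => H (fun i => z (.inl i)) fun i => z (.inr (.inr i)))
    {a₀ : A → ℂ} {y₀ : Y → ℂ} {x₀ : K → ℂ} (h0 : G a₀ y₀ x₀ = 0) (h1 : H a₀ x₀ ≠ 0)
    (h2 : ∀ δ, (∀ k, HasDerivAt (fun τ : ℂ => G a₀ y₀ (x₀ + τ • δ) k) 0 0) → δ = 0) :
    ∃ Φ : MvPolynomial A ℂ, Φ ≠ 0 ∧ ∀ a, eval a Φ ≠ 0 → ∃ σ : (Y → ℂ) → K → ℂ, H a (σ y₀) ≠ 0 ∧
      ∀ᶠ y in 𝓝 y₀, DifferentiableAt ℂ σ y ∧ G a y (σ y) = 0 := by
  classical
  choose P hP using hG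
  obtain ⟨h, hh⟩ := hH
  let M : Matrix K K (MvPolynomial (A ⊕ Y ⊕ K) ℂ) := .of fun k x => pderiv (.inr (.inr x)) (P k)
  let ι : ((A → ℂ) × (Y → ℂ)) × (K → ℂ) → A ⊕ Y ⊕ K → ℂ := fun w =>
    Sum.elim w.1.1 (Sum.elim w.1.2 w.2)
  have dι : Differentiable ℂ ι := differentiable_pi.2 (by rintro (i | i | i) <;> simp only [ι,
    Sum.elim_inl, Sum.elim_inr] <;> fun_prop)
  let g : ((A → ℂ) × (Y → ℂ)) × (K → ℂ) → K → ℂ := fun w k => eval (ι w) (P k)
  have e1 : ∀ w, G w.1.1 w.1.2 w.2 = g w := fun w => _root_.funext fun k => hP k (ι w)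
  have dg : Differentiable ℂ g := differentiable_pi.2 fun k =>
    Differentiable.comp (g := fun v => eval v (P k)) (differentiable_eval _) dι
  have d1 : ∀ w δ, HasDerivAt (fun τ : ℂ => g (w.1, w.2 + τ • δ))
      ((fderiv ℂ g w ∘L .inr ℂ _ _) δ) 0 := fun w δ => by
    have h3 : HasFDerivAt g (fderiv ℂ g w) (w.1, w.2 + (0 : ℂ) • δ) := by
      simpa using (dg w).hasFDerivAt
    exact (h3.comp_hasDerivAt (f := fun τ : ℂ => (w.1, w.2 + τ • δ)) 0
      ((hasDerivAt_const _ _).prodMk (((hasDerivAt_id (0 : ℂ)).smul_const δ).const_add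
        _))).congr_deriv (by simp)
  have d2 : ∀ w δ, (fderiv ℂ g w ∘L .inr ℂ _ _) δ = (M.map (eval (ι w))).mulVec δ := fun w δ => by
    ext k
    refine (hasDerivAt_pi.1 (d1 w δ) k).unique ?_
    obtain ⟨L, l1, l2⟩ := hasFDerivAt_eval_alg (P k) (ι (w.1, w.2 + (0 : ℂ) • δ))
    have h3 : HasDerivAt (fun τ : ℂ => ι (w.1, w.2 + τ • δ)) (Sum.elim 0 (Sum.elim 0 δ)) 0 :=
      hasDerivAt_pi.2 (by
        rintro (i | i | i)
        · exact hasDerivAt_const (0 : ℂ) (w.1.1 i)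
        · exact hasDerivAt_const (0 : ℂ) (w.1.2 i)
        · simpa [ι] using ((hasDerivAt_id (0 : ℂ)).mul_const (δ i)).const_add (w.2 i))
    refine (l1.comp_hasDerivAt (0 : ℂ) h3).congr_deriv ?_
    simp [l2, M, Matrix.mulVec, dotProduct, mul_comm]
  have key : ∀ w, eval (ι w) M.det ≠ 0 → ∃ s : (A → ℂ) × (Y → ℂ) → K → ℂ, s w.1 = w.2 ∧
      ∀ᶠ v in 𝓝 w.1, DifferentiableAt ℂ s v ∧ g (v, s v) = g w := fun w hw => by
    have hc : ContDiffAt ℂ 1 g w := contDiffAt_one (.of_forall dg)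
    have hi := isInv (fderiv ℂ g w ∘L .inr ℂ _ _) ((injective_iff_map_eq_zero _).2 fun δ hδ => by
      rw [RingHom.map_det] at hw
      exact Matrix.eq_zero_of_mulVec_eq_zero hw ((d2 w δ).symm.trans hδ))
    refine ⟨_, hc.implicitFunction_apply_self one_ne_zero hi, ?_⟩
    filter_upwards [(hc.contDiffAt_implicitFunction one_ne_zero hi).eventually (by simp),
      hc.eventually_apply_implicitFunction one_ne_zero hi] with v v1 v2
    exact ⟨v1.differentiableAt one_ne_zero, v2⟩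
  have h3 : eval (ι ((a₀, y₀), x₀)) M.det ≠ 0 := fun e => by
    rw [RingHom.map_det] at e
    obtain ⟨δ, e2, e3⟩ := Matrix.exists_mulVec_eq_zero_iff.2 e
    refine e2 (h2 δ fun k => ?_)
    have h4 := d1 ((a₀, y₀), x₀) δ
    rw [d2, show (M.map (eval (ι ((a₀, y₀), x₀)))).mulVec δ = 0 from e3] at h4
    simp only [← e1] at h4
    exact hasDerivAt_pi.1 h4 k
  obtain ⟨Φ, f1, f2⟩ := chevalley (range P ∪ range fun i => X (.inr (.inl i)) - C (y₀ i))
    (h * M.det) (a₀ := a₀) (by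
      obtain ⟨s, s1, s2⟩ := key _ h3
      have c1 : ContinuousAt (fun a => (a, y₀)) a₀ := by fun_prop
      have c2 : ContinuousAt (fun a => eval (ι ((a, y₀), s (a, y₀))) (h * M.det)) a₀ :=
        ((differentiable_eval _).continuous.comp dι.continuous).continuousAt.comp
          (f := fun a => ((a, y₀), s (a, y₀)))
          (c1.prodMk (ContinuousAt.comp (f := fun a => (a, y₀)) s2.self_of_nhds.1.continuousAt c1))
      filter_upwards [c1.eventually s2, c2.eventually_ne (y := 0) (by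
        rw [show s (a₀, y₀) = x₀ from s1, map_mul]
        exact mul_ne_zero (hh _ ▸ h1) h3)] with a k1 k2
      refine ⟨Sum.elim y₀ (s (a, y₀)), ?_, k2⟩
      rintro _ (⟨k, rfl⟩ | ⟨i, rfl⟩)
      · exact congrFun (k1.2.trans ((e1 _).symm.trans h0)) k
      · simp)
  refine ⟨Φ, f1, fun a ha => ?_⟩
  obtain ⟨y, y1, y2⟩ := f2 a ha
  have h4 : Sum.elim a y = ι ((a, y₀), y ∘ Sum.inr) := by
    ext (i | i | i)
    · rfl
    · exact sub_eq_zero.1 (show y (.inl i) - y₀ i = 0 by simpa using y1 _ (.inr ⟨i, rfl⟩))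
    · rfl
  rw [h4] at y1 y2
  rw [map_mul] at y2
  obtain ⟨s, s1, s2⟩ := key _ (right_ne_zero_of_mul y2)
  have c1 : ContinuousAt (fun y => (a, y)) y₀ := by fun_prop
  refine ⟨fun y => s (a, y), ?_, ?_⟩
  · have h5 := left_ne_zero_of_mul y2
    rw [← hh] at h5
    change H a (s (a, y₀)) ≠ 0
    rw [show s (a, y₀) = y ∘ Sum.inr from s1]
    exact h5
  · filter_upwards [c1.eventually s2] with v hv
    exact ⟨hv.1.comp v (by fun_prop), (e1 ((a, v), s (a, v))).trans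
      (hv.2.trans (_root_.funext fun k => y1 _ (.inl ⟨k, rfl⟩)))⟩

end Pool.Agent.Lib.MP_cd3a7b_ag.H36
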