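import Pool.Agent.Lib.MP_cd3a7b_ag.H36Defs

/-! An entire curve in the double cover lifts to the cone (adapted from `H8Lift`). -/

namespace Pool.Agent.Lib.MP_cd3a7b_ag.H36

open Metric Set Filter Topology

variable {n : ℕ}

/-- `c` lifts `g` at the point `t`. -/
def At_lif (g : ℂ → W n) (c : ℂ → ℂ) (t : ℂ) : Prop :=
  c t ≠ 0 ∧ DifferentiableAt ℂ (fun t => act (c t) (g t)) t

lemma act_mul_lif (a b : ℂ) (y : W n) : act (a * b) y = act a (act b y) := by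
  simp only [act, mul_smul, mul_pow, mul_assoc]

lemma At_lif.mul {g : ℂ → W n} {c k : ℂ → ℂ} {t : ℂ} (h : At_lif g c t)
    (hk : DifferentiableAt ℂ k t) (h0 : k t ≠ 0) : At_lif g (fun s => k s * c s) t := by
  refine ⟨mul_ne_zero h0 h.1, ?_⟩
  simp only [act_mul_lif]
  exact (hk.smul h.2.fst).prodMk ((hk.pow (n + 1)).mul h.2.snd)

lemma At_lif.congr {g : ℂ → W n} {c c' : ℂ → ℂ} {t : ℂ} (h : At_lif g c t) (e : c' =ᶠ[𝓝 t] c) :
    At_lif g c' t := by
  refine ⟨by rw [e.eq_of_nhds]; exact h.1, h.2.congr_of_eventuallyEq ?_⟩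
  filter_upwards [e] with s hs
  rw [hs]

lemma At_lif.coord {g : ℂ → W n} {c : ℂ → ℂ} {t : ℂ} (h : At_lif g c t) (i : Fin (n + 1)) :
    DifferentiableAt ℂ (fun s => c s * (g s).1 i) t :=
  differentiableAt_pi.1 h.2.fst i

/-- The quotient of two lifts is holomorphic. -/
lemma ratio_lif {g : ℂ → W n} (h0 : ∀ t, (g t).1 ≠ 0) {c c' : ℂ → ℂ} {t : ℂ} (h : At_lif g c t)
    (h' : At_lif g c' t) : DifferentiableAt ℂ (fun s => c' s / c s) t := by
  obtain ⟨i, hi⟩ := Function.ne_iff.1 (h0 t)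
  have h1 : c t * (g t).1 i ≠ 0 := mul_ne_zero h.1 hi
  refine ((h'.coord i).div (h.coord i) h1).congr_of_eventuallyEq ?_
  filter_upwards [(h.coord i).continuousAt.eventually_ne h1] with s hs
  rw [Pi.div_apply, mul_div_mul_right _ _ (right_ne_zero_of_mul hs)]

/-- Normalised local lifts. -/
lemma norm_lif {g : ℂ → W n} (h0 : ∀ t, (g t).1 ≠ 0) (h : ∀ t₀, ∃ c, ∀ᶠ t in 𝓝 t₀, At_lif g c t) :
    ∃ j : Fin (n + 1), ∀ t₀, ∃ (m : ℕ) (c : ℂ → ℂ), ∀ᶠ t in 𝓝 t₀,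
      At_lif g c t ∧ c t * (g t).1 j = (t - t₀) ^ m := by
  obtain ⟨j, hj⟩ := Function.ne_iff.1 (h0 0)
  choose c hc using h
  have han : ∀ t₀, AnalyticAt ℂ (fun s => c t₀ s * (g s).1 j) t₀ := fun t₀ =>
    Complex.analyticAt_iff_eventually_differentiableAt.2 ((hc t₀).mono fun t ht => ht.coord j)
  have hz : ∀ t₀, (∀ᶠ t in 𝓝 t₀, c t₀ t * (g t).1 j = 0) → ∀ᶠ t in 𝓝 t₀, (g t).1 j = 0 :=
    fun t₀ h1 => by
      filter_upwards [h1, hc t₀] with t h2 h3
      exact (mul_eq_zero.1 h2).resolve_left h3.1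
  have hcl : IsClopen {t₀ | ∀ᶠ t in 𝓝 t₀, (g t).1 j = 0} := by
    refine ⟨isOpen_compl_iff.1 (isOpen_iff_mem_nhds.2 fun t₀ h1 => ?_),
      isOpen_setOfPred_eventually_nhds⟩
    rcases (han t₀).eventually_eq_zero_or_eventually_ne_zero with h2 | h2
    · exact absurd (hz t₀ h2) h1
    · rw [eventually_nhdsWithin_iff] at h2
      filter_upwards [h2] with t ht h3
      by_cases e : t = t₀
      · exact h1 (e ▸ h3)
      · exact ht e (by rw [(show ∀ᶠ s in 𝓝 t, (g s).1 j = 0 from h3).self_of_nhds, mul_zero])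
  have hne : ∀ t₀, ¬ ∀ᶠ t in 𝓝 t₀, (g t).1 j = 0 := fun t₀ h1 => by
    have h2 := hcl.eq_univ ⟨t₀, h1⟩
    have h3 : (0 : ℂ) ∈ {t₀ | ∀ᶠ t in 𝓝 t₀, (g t).1 j = 0} := h2 ▸ mem_univ _
    exact hj (show ∀ᶠ s in 𝓝 0, (g s).1 j = 0 from h3).self_of_nhds
  refine ⟨j, fun t₀ => ?_⟩
  obtain ⟨m, e, he, he0, h1⟩ := (han t₀).exists_eventuallyEq_pow_smul_nonzero_iff.2
    fun h1 => hne t₀ (hz t₀ h1)
  refine ⟨m, fun s => (e s)⁻¹ * c t₀ s, ?_⟩
  filter_upwards [hc t₀, h1, he.eventually_analyticAt, he.continuousAt.eventually_ne he0]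
    with t h2 h3 h4 h5
  refine ⟨h2.mul (h4.differentiableAt.inv h5) (inv_ne_zero h5), ?_⟩
  rw [mul_assoc, h3, smul_eq_mul]
  field_simp

/-- A lift on every disc. -/
lemma ball_lif {g : ℂ → W n} (h0 : ∀ t, (g t).1 ≠ 0) (h : ∀ t₀, ∃ c, ∀ᶠ t in 𝓝 t₀, At_lif g c t)
    (R : ℝ) : ∃ c, ∀ t ∈ ball (0 : ℂ) R, At_lif g c t := by
  classical
  obtain ⟨j, hj⟩ := norm_lif h0 h
  choose m C hC using hj
  have hm : ∀ t, (g t).1 j ≠ 0 → m t = 0 := fun t ht => by
    by_contra h1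
    have h2 := (hC t).self_of_nhds
    rw [sub_self, zero_pow h1] at h2
    exact mul_ne_zero h2.1.1 ht h2.2
  have hiso : ∀ t₀, ∀ᶠ t in 𝓝 t₀, (g t).1 j = 0 → t = t₀ := fun t₀ => by
    filter_upwards [hC t₀] with t ht h1
    rw [h1, mul_zero] at ht
    exact sub_eq_zero.1 (eq_zero_of_pow_eq_zero ht.2.symm)
  obtain ⟨F, -, hF⟩ := (isCompact_closedBall (0 : ℂ) R).elim_nhds_subcover
    (fun t₀ => {t | (g t).1 j = 0 → t = t₀}) fun t₀ _ => hiso t₀
  have hF' : ∀ t ∈ ball (0 : ℂ) R, t ∉ F → m t = 0 := fun t ht h1 => hm t fun h2 => by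
    obtain ⟨a, ha, h3⟩ := mem_iUnion₂.1 (hF (ball_subset_closedBall ht))
    exact h1 (h3 h2 ▸ ha)
  refine ⟨fun t => (∏ a ∈ F.erase t, (t - a) ^ m a) * C t t, fun t₀ ht₀ => ?_⟩
  have hQ : (∏ a ∈ F.erase t₀, (t₀ - a) ^ m a) ≠ 0 :=
    Finset.prod_ne_zero_iff.2 fun a ha =>
      pow_ne_zero _ (sub_ne_zero.2 (Finset.ne_of_mem_erase ha).symm)
  refine ((hC t₀).self_of_nhds.1.mul (k := fun t => ∏ a ∈ F.erase t₀, (t - a) ^ m a)
    (by fun_prop) hQ).congr ?_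
  filter_upwards [hC t₀, hiso t₀] with t h1 h2
  by_cases e : t = t₀
  · rw [e]
  have h3 : (g t).1 j ≠ 0 := fun h3 => e (h2 h3)
  have h4 := (hC t).self_of_nhds.2
  rw [hm t h3, pow_zero] at h4
  have h5 : ∏ a ∈ F.erase t, (t - a) ^ m a = ∏ a ∈ F, (t - a) ^ m a :=
    Finset.prod_erase _ (by rw [hm t h3, pow_zero])
  have h6 : ∏ a ∈ F, (t - a) ^ m a = (∏ a ∈ F.erase t₀, (t - a) ^ m a) * (t - t₀) ^ m t₀ := by
    by_cases h7 : t₀ ∈ F
    · exact (Finset.prod_erase_mul _ _ h7).symm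
    · rw [Finset.erase_eq_of_notMem h7, hF' t₀ ht₀ h7, pow_zero, mul_one]
  refine mul_right_cancel₀ h3 ?_
  rw [mul_assoc, mul_assoc, h4, h1.2, h5, h6, mul_one]

/-- A holomorphic logarithm on a disc. -/
lemma log_lif {u : ℂ → ℂ} {R : ℝ} (hR : 0 < R) (hu : DifferentiableOn ℂ u (ball 0 R))
    (h0 : ∀ t ∈ ball (0 : ℂ) R, u t ≠ 0) :
    ∃ L, DifferentiableOn ℂ L (ball 0 R) ∧ ∀ t ∈ ball (0 : ℂ) R, u t = Complex.exp (L t) := by
  obtain ⟨L, hL0, hL⟩ := ((hu.deriv isOpen_ball).div hu h0).isExactOn_ball.with_val_at 0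
    (Complex.log (u 0))
  have hd : ∀ t ∈ ball (0 : ℂ) R, HasDerivAt (fun s => u s * Complex.exp (-L s)) 0 t :=
    fun t ht => by
      have h1 := (hu.differentiableAt (isOpen_ball.mem_nhds ht)).hasDerivAt
      refine (h1.mul (hL t ht).neg.cexp).congr_deriv ?_
      have := h0 t ht
      simp only [Pi.div_apply, Pi.neg_apply]
      field_simp
      ring
  refine ⟨L, fun t ht => (hL t ht).differentiableAt.differentiableWithinAt, fun t ht => ?_⟩
  have h1 := isOpen_ball.is_const_of_deriv_eq_zero (convex_ball (0 : ℂ) R).isPreconnected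
    (fun t ht => (hd t ht).differentiableAt.differentiableWithinAt) (fun t ht => (hd t ht).deriv)
    ht (mem_ball_self hR)
  have h2 := h0 0 (mem_ball_self hR)
  rw [hL0, Complex.exp_neg, Complex.exp_neg, Complex.exp_log h2, mul_inv_cancel₀ h2,
    mul_inv_eq_one₀ (Complex.exp_ne_zero _)] at h1
  exact h1

/-- Approximation by entire functions. -/
lemma approx_lif {L : ℂ → ℂ} {N : ℕ} (hL : DifferentiableOn ℂ L (ball 0 (N + 1 : ℝ))) {ε : ℝ}
    (hε : 0 < ε) : ∃ T, Differentiable ℂ T ∧ ∀ t ∈ ball (0 : ℂ) N, ‖L t - T t‖ ≤ ε := by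
  have h1 := DifferentiableOn.hasFPowerSeriesOnBall (R := (N : NNReal) + 1 / 2)
    (hL.mono (closedBall_subset_ball (by push_cast; linarith))) (by positivity)
  have h2 := h1.tendstoUniformlyOn (r' := (N : NNReal)) (by
    rw [ENNReal.coe_lt_coe]
    exact lt_add_of_pos_right _ (by positivity))
  obtain ⟨n, hn⟩ := (Metric.tendstoUniformlyOn_iff.1 h2 ε hε).exists
  refine ⟨_, ?_, fun t ht => by simpa only [zero_add, dist_eq_norm] using (hn t ht).le⟩
  have : (cauchyPowerSeries L 0 ((N : NNReal) + 1 / 2 : NNReal)).partialSum n = fun y =>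
      ∑ k ∈ Finset.range n, y ^ k • (cauchyPowerSeries L 0 ((N : NNReal) + 1 / 2 : NNReal)).coeff k := by
    funext y
    simp only [FormalMultilinearSeries.partialSum, FormalMultilinearSeries.apply_eq_pow_smul_coeff]
  rw [this]
  fun_prop

theorem global_lift {g : ℂ → W n} (h0 : ∀ t, (g t).1 ≠ 0)
    (h : ∀ t₀, ∃ c : ℂ → ℂ, ∀ᶠ t in 𝓝 t₀, c t ≠ 0 ∧
      DifferentiableAt ℂ (fun t => act (c t) (g t)) t) :
    ∃ c : ℂ → ℂ, (∀ t, c t ≠ 0) ∧ Differentiable ℂ fun t => act (c t) (g t) := by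
  choose A hA using fun N : ℕ => ball_lif h0 h (N + 1 : ℝ)
  have hsub : ∀ {a b : ℝ}, a ≤ b → ball (0 : ℂ) a ⊆ ball 0 b := ball_subset_ball
  have hA' : ∀ N : ℕ, ∀ t ∈ ball (0 : ℂ) (N + 1 : ℝ), At_lif g (A (N + 1)) t := fun N t ht =>
    hA (N + 1) t (hsub (by push_cast; linarith) ht)
  choose L hL hL' using fun N : ℕ => log_lif (u := fun s => A (N + 1) s / A N s) (R := N + 1)
    (by positivity) (fun t ht => (ratio_lif h0 (hA N t ht) (hA' N t ht)).differentiableWithinAt)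
    fun t ht => div_ne_zero (hA' N t ht).1 (hA N t ht).1
  choose T hT hT' using fun N : ℕ => approx_lif (hL N) (ε := (1 / 2) ^ N) (by positivity)
  let G : ℕ → ℂ → ℂ := fun M t => Complex.exp (∑' k, (L (k + M) t - T (k + M) t)) *
    (Complex.exp (-∑ k ∈ Finset.range M, T k t) * A M t)
  have hs : ∀ M, Summable fun k : ℕ => (1 / 2 : ℝ) ^ (k + M) := fun M =>
    (summable_nat_add_iff M).2 summable_geometric_two
  have hb : ∀ (M k : ℕ), ∀ t ∈ ball (0 : ℂ) M,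
      ‖L (k + M) t - T (k + M) t‖ ≤ (1 / 2 : ℝ) ^ (k + M) := fun M k t ht =>
    hT' (k + M) t (hsub (by exact_mod_cast Nat.le_add_left M k) ht)
  have hG : ∀ M : ℕ, ∀ t ∈ ball (0 : ℂ) M, At_lif g (G M) t := fun M t ht => by
    have h1 := Complex.differentiableOn_tsum_of_summable_norm (hs M)
      (F := fun k t => L (k + M) t - T (k + M) t)
      (fun k => ((hL (k + M)).mono (hsub (by
        have : (0 : ℝ) ≤ k := k.cast_nonneg
        push_cast
        linarith))).sub (hT _).differentiableOn) isOpen_ball (hb M)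
    refine ((hA M t (hsub (by linarith) ht)).mul
      (k := fun t => Complex.exp (-∑ k ∈ Finset.range M, T k t)) (by fun_prop)
      (Complex.exp_ne_zero _)).mul (h1.differentiableAt (isOpen_ball.mem_nhds ht)).cexp
      (Complex.exp_ne_zero _)
  have hstep : ∀ M : ℕ, ∀ t ∈ ball (0 : ℂ) M, G (M + 1) t = G M t := fun M t ht => by
    have h1 : Summable fun k => L (k + M) t - T (k + M) t :=
      (hs M).of_norm_bounded fun k => hb M k t ht
    have ht' : t ∈ ball (0 : ℂ) (M + 1 : ℝ) := hsub (by linarith) ht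
    have h2 : A (M + 1) t = Complex.exp (L M t) * A M t :=
      (div_eq_iff (hA M t ht').1).1 (hL' M t ht')
    simp only [G]
    rw [h1.tsum_eq_zero_add, h2, Finset.sum_range_succ, zero_add, ← mul_assoc, ← mul_assoc,
      ← mul_assoc, ← Complex.exp_add, ← Complex.exp_add, ← Complex.exp_add]
    simp only [show ∀ k, k + 1 + M = k + (M + 1) by omega]
    congr 2
    ring
  have hmono : ∀ M M' : ℕ, M ≤ M' → ∀ t ∈ ball (0 : ℂ) M, G M' t = G M t := by
    intro M M' hM t ht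
    induction hM with
    | refl => rfl
    | step hM ih => rw [hstep _ t (hsub (by exact_mod_cast hM) ht), ih]
  have hmem : ∀ t : ℂ, t ∈ ball (0 : ℂ) (⌈‖t‖⌉₊ + 1 : ℕ) := fun t => by
    rw [mem_ball_zero_iff]
    push_cast
    linarith [Nat.le_ceil ‖t‖]
  have key : ∀ t₀, At_lif g (fun t => G (⌈‖t‖⌉₊ + 1) t) t₀ := fun t₀ => by
    refine (hG _ t₀ (hmem t₀)).congr ?_
    filter_upwards [isOpen_ball.mem_nhds (hmem t₀)] with t ht
    rw [← hmono _ _ (le_max_left _ (⌈‖t₀‖⌉₊ + 1)) t (hmem t), hmono _ _ (le_max_right _ _) t ht]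
  exact ⟨_, fun t => (key t).1, fun t => (key t).2⟩

end Pool.Agent.Lib.MP_cd3a7b_ag.H36
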