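import Pool.Agent.Lib.MP_cd3a7b_ag.H36Defs
import Pool.Agent.Lib.MP_cd3a7b_ag.H8Model

/-! The double cover as a complex manifold (adapted from `H8Model`). -/

namespace Pool.Agent.Lib.MP_cd3a7b_ag.H36

open Metric Set Filter Topology
open scoped Manifold ComplexConjugate

variable {n : ℕ}

/-- The implicit function theorem in the form needed for the charts. -/
lemma slice_mod {G : W n → ℂ × ℂ} (hG : Differentiable ℂ G) {y0 : W n} (h0 : G y0 = 0)
    (hs : Function.Surjective (fderiv ℂ G y0)) : ∃ (L : W n →L[ℂ] (Fin n → ℂ)) (τ : (Fin n → ℂ) → W n),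
      (∀ᶠ e in 𝓝 (L y0), DifferentiableAt ℂ τ e ∧ G (τ e) = 0 ∧ L (τ e) = e) ∧
        ∀ᶠ y in 𝓝 y0, G y = 0 → τ (L y) = y := by
  set G' := fderiv ℂ G y0 with hG'
  obtain ⟨P, hP⟩ := Submodule.ClosedComplemented.of_finiteDimensional (G' : W n →ₗ[ℂ] ℂ × ℂ).ker
  have hk : Module.finrank ℂ (G' : W n →ₗ[ℂ] ℂ × ℂ).ker = Module.finrank ℂ (Fin n → ℂ) := by
    have := LinearMap.finrank_range_add_finrank_ker (G' : W n →ₗ[ℂ] ℂ × ℂ)
    rw [LinearMap.range_eq_top.2 hs, finrank_top] at this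
    simp at this ⊢
    omega
  let e := ContinuousLinearEquiv.ofFinrankEq hk
  let L : W n →L[ℂ] (Fin n → ℂ) := (e : _ →L[ℂ] (Fin n → ℂ)).comp P
  have hi : Function.Injective (G'.prod L : W n →ₗ[ℂ] (ℂ × ℂ) × (Fin n → ℂ)) := by
    rw [injective_iff_map_eq_zero]
    intro v hv
    have h1 : G' v = 0 := congrArg Prod.fst hv
    have h2 : e (P v) = 0 := congrArg Prod.snd hv
    have h3 := hP ⟨v, h1⟩
    rw [e.map_eq_zero_iff.1 h2] at h3
    exact (congrArg Subtype.val h3).symm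
  let T : W n ≃L[ℂ] (ℂ × ℂ) × (Fin n → ℂ) :=
    (LinearMap.linearEquivOfInjective _ hi (by simp; omega)).toContinuousLinearEquiv
  let Θ : W n → (ℂ × ℂ) × (Fin n → ℂ) := fun y => (G y, L y)
  have hc : ContDiffAt ℂ 1 Θ y0 :=
    contDiffAt_one (Eventually.of_forall fun y => (hG y).prodMk L.differentiableAt)
  have hd : HasFDerivAt Θ (T : W n →L[ℂ] (ℂ × ℂ) × (Fin n → ℂ)) y0 :=
    (hG y0).hasFDerivAt.prodMk L.hasFDerivAt
  have hst := hc.hasStrictFDerivAt' hd one_ne_zero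
  have hΘ : Θ y0 = (0, L y0) := by simp [Θ, h0]
  have ht : Tendsto (fun e : Fin n → ℂ => ((0 : ℂ × ℂ), e)) (𝓝 (L y0)) (𝓝 (Θ y0)) :=
    hΘ ▸ (continuous_const.prodMk continuous_id).continuousAt
  refine ⟨L, fun e => hc.localInverse hd one_ne_zero (0, e), ?_, ?_⟩
  · filter_upwards [ht.eventually ((hc.to_localInverse hd one_ne_zero).eventually (by simp)),
      ht.eventually hst.eventually_right_inverse] with e h1 h2
    exact ⟨(h1.differentiableAt one_ne_zero).comp e (by fun_prop), congrArg Prod.fst h2,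
      congrArg Prod.snd h2⟩
  · filter_upwards [hst.eventually_left_inverse] with y h1 h2
    rw [← h2]
    exact h1

section

variable {f : (Fin (n + 1) → ℂ) → ℂ}

lemma euler_mod (hf : Differentiable ℂ f)
    (hh : ∀ (c : ℂ) (v : Fin (n + 1) → ℂ), f (c • v) = c ^ (2 * (n + 1)) * f v) (v : Fin (n + 1) → ℂ) :
    fderiv ℂ f v v = (2 * (n + 1) : ℕ) * f v := by
  have h1 : HasDerivAt (fun c : ℂ => f (c • v)) (fderiv ℂ f v v) 1 := by
    have h2 : HasFDerivAt f (fderiv ℂ f v) ((1 : ℂ) • v) := by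
      rw [one_smul]; exact (hf v).hasFDerivAt
    have h3 := h2.comp_hasDerivAt (1 : ℂ) ((hasDerivAt_id (1 : ℂ)).smul_const v)
    rw [one_smul] at h3
    exact h3
  have h2 : HasDerivAt (fun c : ℂ => f (c • v)) ((2 * (n + 1) : ℕ) * f v) 1 := by
    simp only [hh]
    simpa using (hasDerivAt_pow (2 * (n + 1)) (1 : ℂ)).mul_const (f v)
  exact h1.unique h2

/-- A local parametrisation of the slice `v j = 1` of the cone. -/
lemma param_mod (hf : Differentiable ℂ f)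
    (hh : ∀ (c : ℂ) (v : Fin (n + 1) → ℂ), f (c • v) = c ^ (2 * (n + 1)) * f v)
    (hs : ∀ v, v ≠ 0 → f v = 0 → fderiv ℂ f v ≠ 0) {y0 : W n} (h0 : y0 ∈ Cone f) {j : Fin (n + 1)}
    (hj : y0.1 j = 1) : ∃ (L : W n →L[ℂ] (Fin n → ℂ)) (τ : (Fin n → ℂ) → W n),
      (∀ᶠ e in 𝓝 (L y0), DifferentiableAt ℂ τ e ∧ τ e ∈ Cone f ∧ (τ e).1 j = 1 ∧ L (τ e) = e) ∧
        ∀ᶠ y in 𝓝 y0, y ∈ Cone f → y.1 j = 1 → τ (L y) = y := by
  let G : W n → ℂ × ℂ := fun y => (y.1 j - 1, y.2 ^ 2 - f y.1)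
  have hG : Differentiable ℂ G := by
    refine Differentiable.prodMk (by fun_prop) ((differentiable_snd.pow 2).sub ?_)
    exact hf.comp differentiable_fst
  have hD : ∀ u : W n, fderiv ℂ G y0 u = (u.1 j, 2 * y0.2 * u.2 - fderiv ℂ f y0.1 u.1) := by
    intro u
    have a1 : HasFDerivAt (fun y : W n => y.1 j)
        ((ContinuousLinearMap.proj j).comp (ContinuousLinearMap.fst ℂ (Fin (n + 1) → ℂ) ℂ)) y0 :=
      ((ContinuousLinearMap.proj j).comp (ContinuousLinearMap.fst ℂ (Fin (n + 1) → ℂ) ℂ)).hasFDerivAt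
    have a2 := (hf y0.1).hasFDerivAt.comp y0 (hasFDerivAt_fst (𝕜 := ℂ) (p := y0))
    have a3 := (hasFDerivAt_snd (𝕜 := ℂ) (p := y0)).pow 2
    have a4 : HasFDerivAt G _ y0 := (a1.sub_const 1).prodMk (a3.sub a2)
    rw [a4.fderiv]
    simp
  have hu : ∃ u : W n, ∃ r, r ≠ 0 ∧ fderiv ℂ G y0 u = (0, r) := by
    by_cases hw : y0.2 = 0
    · have h1 : f y0.1 = 0 := by rw [← h0.2, hw]; simp
      obtain ⟨u, hu⟩ := DFunLike.ne_iff.1 (hs _ h0.1 h1)
      refine ⟨(u - u j • y0.1, 0), -fderiv ℂ f y0.1 u, neg_ne_zero.2 hu, ?_⟩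
      simp [hD, hj, euler_mod hf hh, h1]
    · exact ⟨(0, 1), 2 * y0.2, by simpa using hw, by simp [hD]⟩
  obtain ⟨u, r, hr, hu⟩ := hu
  obtain ⟨s, hs'⟩ : ∃ s, fderiv ℂ G y0 y0 = (1, s) := ⟨_, by rw [hD, hj]⟩
  obtain ⟨L, τ, h1, h2⟩ := slice_mod hG (y0 := y0) (by simp [G, hj, h0.2]) fun p =>
    ⟨p.1 • y0 + ((p.2 - p.1 * s) / r) • u, by
      rw [map_add, map_smul, map_smul, hu, hs']
      ext
      · simp
      · simp
        field_simp
        ring⟩
  refine ⟨L, τ, h1.mono fun e he => ?_, h2.mono fun y hy h3 h4 => hy (by simp [G, h4, h3.2])⟩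
  have a1 : (τ e).1 j = 1 := sub_eq_zero.1 (congrArg Prod.fst he.2.1)
  refine ⟨he.1, ⟨fun h => ?_, sub_eq_zero.1 (congrArg Prod.snd he.2.1)⟩, a1, he.2.2⟩
  simp [h] at a1

lemma act_mem_mod (hh : ∀ (c : ℂ) (v : Fin (n + 1) → ℂ), f (c • v) = c ^ (2 * (n + 1)) * f v) {y : W n}
    (hy : y ∈ Cone f) {c : ℂ} (hc : c ≠ 0) : act c y ∈ Cone f :=
  ⟨smul_ne_zero hc hy.1, by simp only [act, hh, mul_pow, hy.2]; ring⟩

end

lemma act_act_mod (c d : ℂ) (y : W n) : act c (act d y) = act (c * d) y := by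
  simp only [act, smul_smul, mul_pow, mul_assoc]

lemma act_one_mod (y : W n) : act 1 y = y := by simp [act]

/-- The ambient space of the model. -/
abbrev Pmod (n : ℕ) : Type := (Fin (n + 1) → Fin (n + 1) → ℂ) × (Fin (n + 1) → ℂ)

/-- The square of the Hermitian norm. -/
noncomputable def nmod (v : Fin (n + 1) → ℂ) : ℂ := ∑ k, v k * conj (v k)

lemma nmod_ne {v : Fin (n + 1) → ℂ} (hv : v ≠ 0) : nmod v ≠ 0 := fun h => hv <| by
  simp only [nmod, Complex.mul_conj] at h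
  have h2 : ∑ k, Complex.normSq (v k) = 0 := by exact_mod_cast h
  rw [Finset.sum_eq_zero_iff_of_nonneg fun k _ => Complex.normSq_nonneg _] at h2
  exact funext fun k => Complex.normSq_eq_zero.1 (h2 k (Finset.mem_univ _))

lemma nmod_smul (c : ℂ) (v : Fin (n + 1) → ℂ) : nmod (c • v) = c * conj c * nmod v := by
  simp only [nmod, Finset.mul_sum, Pi.smul_apply, smul_eq_mul, map_mul]
  exact Finset.sum_congr rfl fun k _ => by ring

lemma continuous_nmod : Continuous (nmod (n := n)) := by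
  unfold nmod
  fun_prop

/-- The embedding of the quotient of the cone. -/
noncomputable def imod (y : W n) : Pmod n :=
  (fun i j => y.1 i * conj (y.1 j) / nmod y.1, fun j => y.2 * conj (y.1 j) ^ (n + 1) / nmod y.1 ^ (n + 1))

/-- The normalised representative. -/
noncomputable def numod (j : Fin (n + 1)) (x : Pmod n) : W n :=
  (fun i => x.1 i j / x.1 j j, x.2 j / x.1 j j ^ (n + 1))

lemma imod_act {y : W n} (hy : y.1 ≠ 0) {c : ℂ} (hc : c ≠ 0) : imod (act c y) = imod y := by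
  have h1 := nmod_ne hy
  have h2 : conj c ≠ 0 := by simpa using hc
  refine Prod.ext (funext fun i => funext fun j => ?_) (funext fun j => ?_) <;>
    simp only [imod, act, nmod_smul, Pi.smul_apply, smul_eq_mul, map_mul, mul_pow] <;> field_simp

lemma imod_ne {y : W n} (hy : y.1 ≠ 0) (j : Fin (n + 1)) : (imod y).1 j j ≠ 0 ↔ y.1 j ≠ 0 := by
  simp [imod, nmod_ne hy]

lemma numod_imod {y : W n} {j : Fin (n + 1)} (hj : y.1 j ≠ 0) : numod j (imod y) = act (y.1 j)⁻¹ y := by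
  have h1 : nmod y.1 ≠ 0 := nmod_ne fun h => hj (by simp [h])
  have h2 : conj (y.1 j) ≠ 0 := by simpa using hj
  refine Prod.ext (funext fun i => ?_) ?_ <;>
    simp only [imod, numod, act, Pi.smul_apply, smul_eq_mul, mul_pow, div_pow, inv_pow] <;>
      field_simp

lemma continuousAt_imod {y : W n} (hy : y.1 ≠ 0) : ContinuousAt imod y := by
  have h1 := nmod_ne hy
  have h2 : ContinuousAt (fun y : W n => nmod y.1) y :=
    (continuous_nmod.comp continuous_fst).continuousAt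
  refine ContinuousAt.prodMk (continuousAt_pi.2 fun i => continuousAt_pi.2 fun j => ?_)
    (continuousAt_pi.2 fun j => ?_)
  · exact ContinuousAt.div (by fun_prop) h2 h1
  · exact ContinuousAt.div (by fun_prop) (h2.pow (n + 1)) (pow_ne_zero (n + 1) h1)

lemma continuousAt_numod {j : Fin (n + 1)} {x : Pmod n} (hx : x.1 j j ≠ 0) : ContinuousAt (numod j) x :=
  ContinuousAt.prodMk (continuousAt_pi.2 fun i => ContinuousAt.div (by fun_prop) (by fun_prop) hx)
    (ContinuousAt.div (by fun_prop) (by fun_prop) (pow_ne_zero (n + 1) hx))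

theorem exists_model {f : (Fin (n + 1) → ℂ) → ℂ} (hf : Differentiable ℂ f)
    (hh : ∀ (c : ℂ) (v : Fin (n + 1) → ℂ), f (c • v) = c ^ (2 * (n + 1)) * f v)
    (hs : ∀ v, v ≠ 0 → f v = 0 → fderiv ℂ f v ≠ 0) :
    ∃ (X : Type) (_ : TopologicalSpace X) (_ : ChartedSpace (Fin n → ℂ) X)
      (_ : IsManifold 𝓘(ℂ, Fin n → ℂ) 1 X) (_ : T2Space X) (_ : SecondCountableTopology X) (π : W n → X),
      (∀ y ∈ Cone f, ∀ y' ∈ Cone f, π y = π y' ↔ ∃ c, c ≠ 0 ∧ y' = act c y) ∧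
      (∀ (V : Type) [NormedAddCommGroup V] [NormedSpace ℂ V] (s : V → W n) (z : V),
        DifferentiableAt ℂ s z → (∀ᶠ z' in 𝓝 z, s z' ∈ Cone f) →
          MDifferentiableAt 𝓘(ℂ, V) 𝓘(ℂ, Fin n → ℂ) (fun z' => π (s z')) z) ∧
      (∀ x, ∃ σ : X → W n, ∀ᶠ x' in 𝓝 x,
        MDifferentiableAt 𝓘(ℂ, Fin n → ℂ) 𝓘(ℂ, W n) σ x' ∧ σ x' ∈ Cone f ∧ π (σ x') = x') ∧
      ∀ x, ∃ (j : Fin (n + 1)) (L : W n →L[ℂ] (Fin n → ℂ)), ∀ x' ∈ (chartAt (Fin n → ℂ) x).source,
        ∃ y ∈ Cone f, y.1 j = 1 ∧ π y = x' ∧ chartAt (Fin n → ℂ) x x' = L y := by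
  classical
  obtain ⟨w1, hw1⟩ := IsAlgClosed.exists_pow_nat_eq (f 1) two_pos
  have h1 : ((1, w1) : W n) ∈ Cone f := ⟨one_ne_zero, hw1⟩
  let X : Type := ↥(imod '' Cone f)
  let π : W n → X := fun y => if h : y ∈ Cone f then ⟨imod y, y, h, rfl⟩ else ⟨_, _, h1, rfl⟩
  have hπ : ∀ y ∈ Cone f, (π y).1 = imod y := fun y hy => by simp only [π, dif_pos hy]
  have hcont : ∀ {V : Type} [TopologicalSpace V] {s : V → W n} {z : V}, ContinuousAt s z →
      (∀ᶠ z' in 𝓝 z, s z' ∈ Cone f) → ContinuousAt (fun z' => π (s z')) z := by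
    intro V _ s z h2 h3
    rw [IsInducing.subtypeVal.continuousAt_iff]
    exact ((continuousAt_imod h3.self_of_nhds.1).comp h2).congr
      (h3.mono fun z' h => (hπ _ h).symm)
  have hrep : ∀ (x : X) j, x.1.1 j j ≠ 0 →
      numod j x.1 ∈ Cone f ∧ (numod j x.1).1 j = 1 ∧ π (numod j x.1) = x := by
    rintro ⟨_, y, hy, rfl⟩ j hj
    have h2 := (imod_ne hy.1 j).1 hj
    have h3 := act_mem_mod hh hy (inv_ne_zero h2)
    simp only [numod_imod h2]
    exact ⟨h3, by simp [act, h2], Subtype.ext ((hπ _ h3).trans (imod_act hy.1 (inv_ne_zero h2)))⟩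
  have hch : ∀ x : X, ∃ (φ : OpenPartialHomeomorph X (Fin n → ℂ)) (j : Fin (n + 1))
      (L : W n →L[ℂ] (Fin n → ℂ)) (τ : (Fin n → ℂ) → W n), (∀ x', φ x' = L (numod j x'.1)) ∧ (∀ e, φ.symm e = π (τ e)) ∧
        x ∈ φ.source ∧ (∀ x' ∈ φ.source, x'.1.1 j j ≠ 0) ∧
        ∀ e ∈ φ.target, DifferentiableAt ℂ τ e ∧ τ e ∈ Cone f := by
    intro x
    obtain ⟨j, hj⟩ : ∃ j, x.1.1 j j ≠ 0 := by
      obtain ⟨_, y, hy, rfl⟩ := x
      obtain ⟨j, hj⟩ := Function.ne_iff.1 hy.1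
      exact ⟨j, (imod_ne hy.1 j).2 hj⟩
    obtain ⟨L, τ, a1, a2⟩ := param_mod hf hh hs (hrep x j hj).1 (hrep x j hj).2.1
    have a3 : ∀ x' : X, x'.1.1 j j ≠ 0 → ContinuousAt (fun x' : X => numod j x'.1) x' :=
      fun x' h => (continuousAt_numod h).comp (f := fun x' : X => x'.1) continuousAt_subtype_val
    have a4 : ∀ᶠ x' : X in 𝓝 x, x'.1.1 j j ≠ 0 :=
      ((continuous_apply j).comp ((continuous_apply j).comp
        (continuous_fst.comp continuous_subtype_val))).continuousAt.eventually_ne hj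
    obtain ⟨φ, b⟩ := oph_mod (a := fun x' : X => L (numod j x'.1)) (b := fun e => π (τ e))
      (x0 := x) (P := fun x' => x'.1.1 j j ≠ 0)
      (Q := fun e => DifferentiableAt ℂ τ e ∧ τ e ∈ Cone f) (by
        filter_upwards [a4, (a3 x hj).eventually a2] with x' h2 h3
        refine ⟨L.continuous.continuousAt.comp (a3 x' h2), ?_, h2⟩
        rw [h3 (hrep x' j h2).1 (hrep x' j h2).2.1, (hrep x' j h2).2.2]) (by
        filter_upwards [a1.eventually_nhds] with e h2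
        obtain ⟨h3, h4, h5, h6⟩ := h2.self_of_nhds
        refine ⟨hcont h3.continuousAt (h2.mono fun _ h => h.2.1), ?_, h3, h4⟩
        rw [hπ _ h4, numod_imod (h5 ▸ one_ne_zero), h5, inv_one, act_one_mod, h6])
    exact ⟨φ, j, L, τ, b⟩
  choose φ j L τ c1 c2 c3 c4 c5 using hch
  have hdiff : ∀ x {V : Type} [NormedAddCommGroup V] [NormedSpace ℂ V] {s : V → W n} {z : V},
      DifferentiableAt ℂ s z → (∀ᶠ z' in 𝓝 z, s z' ∈ Cone f) → π (s z) ∈ (φ x).source →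
        DifferentiableAt ℂ (fun z' => φ x (π (s z'))) z := by
    intro x V _ _ s z h2 h3 h4
    have h5 := c4 x _ h4
    rw [hπ _ h3.self_of_nhds, imod_ne h3.self_of_nhds.1] at h5
    have h6 : DifferentiableAt ℂ (fun z' => (s z').1 (j x)) z := by fun_prop
    have h7 : DifferentiableAt ℂ (fun z' => L x (act ((s z').1 (j x))⁻¹ (s z'))) z :=
      (L x).differentiableAt.comp z (((h6.inv h5).smul h2.fst).prodMk
        (((h6.inv h5).pow (n + 1)).mul h2.snd))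
    refine h7.congr_of_eventuallyEq ?_
    filter_upwards [h3, h6.continuousAt.eventually_ne h5] with z' h8 h9
    rw [c1, hπ _ h8, numod_imod h9]
  let _ : ChartedSpace (Fin n → ℂ) X := ⟨range φ, φ, c3, mem_range_self⟩
  have hM : IsManifold 𝓘(ℂ, Fin n → ℂ) 1 X := by
    refine isManifold_of_contDiffOn _ _ _ ?_
    rintro _ _ ⟨x, rfl⟩ ⟨x', rfl⟩ e he
    have he' : e ∈ ((φ x).symm ≫ₕ φ x').source := he.1
    refine (contDiffAt_one ?_).contDiffWithinAt
    filter_upwards [((φ x).symm ≫ₕ φ x').open_source.mem_nhds he'] with e' h2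
    have h3 : (φ x).symm e' ∈ (φ x').source := h2.2
    have h4 : ∀ᶠ z in 𝓝 e', τ x z ∈ Cone f :=
      eventually_of_mem ((φ x).open_target.mem_nhds h2.1) fun z hz => (c5 x z hz).2
    rw [c2] at h3
    have h5 := hdiff x' (c5 x e' h2.1).1 h4 h3
    simp only [← c2] at h5
    exact h5
  refine ⟨X, inferInstance, inferInstance, hM, inferInstance, inferInstance, π,
    fun y hy y' hy' => ⟨fun h => ?_, ?_⟩, fun V _ _ s z h2 h3 => ?_, fun x => ?_,
    fun x => ⟨j x, L x, fun x' hx' => ⟨_, (hrep x' _ (c4 x _ hx')).1, (hrep x' _ (c4 x _ hx')).2.1,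
      (hrep x' _ (c4 x _ hx')).2.2, c1 x x'⟩⟩⟩
  · have h2 : imod y = imod y' := by rw [← hπ y hy, ← hπ y' hy', h]
    obtain ⟨k, hk⟩ := Function.ne_iff.1 hy.1
    have hk' : y'.1 k ≠ 0 := by rwa [← imod_ne hy'.1, ← h2, imod_ne hy.1]
    refine ⟨y'.1 k * (y.1 k)⁻¹, mul_ne_zero hk' (inv_ne_zero hk), ?_⟩
    rw [← act_act_mod, ← numod_imod hk, h2, numod_imod hk', act_act_mod, mul_inv_cancel₀ hk',
      act_one_mod]
  · rintro ⟨c, hc, rfl⟩
    exact Subtype.ext (by rw [hπ _ hy, hπ _ hy', imod_act hy.1 hc])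
  · rw [mdifferentiableAt_iff]
    exact ⟨hcont h2.continuousAt h3, (hdiff _ h2 h3 (c3 _)).differentiableWithinAt⟩
  · refine ⟨τ x ∘ φ x, ?_⟩
    filter_upwards [(φ x).open_source.mem_nhds (c3 x)] with x' hx'
    have h2 := c5 x _ ((φ x).map_source hx')
    refine ⟨h2.1.mdifferentiableAt.comp x' (mdifferentiableAt_atlas (mem_range_self x) hx'),
      h2.2, ?_⟩
    rw [Function.comp_apply, ← c2, (φ x).left_inv hx']

end Pool.Agent.Lib.MP_cd3a7b_ag.H36
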