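import Pool.Agent.Lib.MP_cd3a7b_ag.H8K3
import Pool.Agent.Lib.MP_cd3a7b_ag.H36Model
import Pool.Agent.Lib.MP_cd3a7b_ag.H36Lift
import Pool.Agent.Lib.MP_cd3a7b_ag.H36Ex

/-! Families of genus one curves on a double cover of projective space (adapted from `H8K3`). -/

namespace Pool.Agent.Lib.MP_cd3a7b_ag.H36

open Metric Set Filter Topology MvPolynomial
open scoped Manifold

theorem exists_sqrt {k : ℕ} {f : (Fin k → ℂ) → ℂ} (hf : Differentiable ℂ f) {p₀ : Fin k → ℂ}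
    (h : f p₀ ≠ 0) : ∃ r : (Fin k → ℂ) → ℂ, r p₀ ≠ 0 ∧
      ∀ᶠ p in 𝓝 p₀, DifferentiableAt ℂ r p ∧ r p ^ 2 = f p := by
  obtain ⟨w, hw⟩ := IsAlgClosed.exists_pow_nat_eq (f p₀) two_pos
  refine ⟨fun p => w * Complex.exp (Complex.log (f p / f p₀) / 2),
    mul_ne_zero (fun e => h (by rw [← hw, e]; simp)) (Complex.exp_ne_zero _), ?_⟩
  filter_upwards [(hf.continuous.div_const (f p₀)).continuousAt.eventually
    (Complex.isOpen_slitPlane.mem_nhds (by simp [div_self h] : f p₀ / f p₀ ∈ Complex.slitPlane))]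
    with p hp
  have hp' : f p / f p₀ ∈ Complex.slitPlane := hp
  refine ⟨?_, ?_⟩
  · simp only [div_eq_mul_inv] at hp' ⊢
    exact ((((hf p).mul_const _).clog hp').mul_const _).cexp.const_mul _
  rw [mul_pow, ← Complex.exp_nat_mul, hw, show ((2 : ℕ) : ℂ) * (Complex.log (f p / f p₀) / 2) =
    Complex.log (f p / f p₀) by push_cast; ring, Complex.exp_log (Complex.slitPlane_ne_zero hp'),
    mul_div_cancel₀ _ h]

lemma root_tan {k : ℕ} {G : MvPolynomial (Fin k) ℂ} {n : ℕ} (hG : G.IsHomogeneous n) (hn : n ≠ 0)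
    (u v : Fin k → ℂ) : ∃ s t : ℂ, (s ≠ 0 ∨ t ≠ 0) ∧ eval (s • u + t • v) G = 0 := by
  obtain ⟨P, hP⟩ : ∃ P : Polynomial ℂ, ∀ t, P.eval t = eval (u + t • v) G := by
    refine ⟨aeval (fun i => Polynomial.C (u i) + Polynomial.X * Polynomial.C (v i)) G, fun t => ?_⟩
    rw [← Polynomial.coe_aeval_eq_eval, ← AlgHom.comp_apply, comp_aeval, ← aeval_eq_eval]
    congr 2
    ext i
    simp
    ring
  by_cases h : 0 < P.degree
  · obtain ⟨t, ht⟩ := Complex.exists_root h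
    exact ⟨1, t, .inl one_ne_zero, by rw [one_smul, ← hP]; exact ht⟩
  · rw [Polynomial.eq_C_of_degree_le_zero (not_lt.1 h)] at hP
    simp only [Polynomial.eval_C] at hP
    have c1 : Continuous fun s : ℂ => eval (s • u + v) G :=
      (differentiable_eval G).continuous.comp (by fun_prop)
    have c2 : Continuous fun s : ℂ => s ^ n * P.coeff 0 := by fun_prop
    have e := Continuous.ext_on (dense_compl_singleton (0 : ℂ)) c1 c2 fun s hs => by
      have hs' : s ≠ 0 := hs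
      rw [hP s⁻¹, ← eval_smul' hG, smul_add, smul_smul, mul_inv_cancel₀ hs', one_smul]
    have e0 := congrFun e 0
    simp only [zero_pow hn, zero_mul] at e0
    exact ⟨0, 1, .inr one_ne_zero, by rwa [one_smul]⟩

theorem split_alg {k : ℕ} (F : MvPolynomial (Fin k) ℂ) (G : MvPolynomial (Option (Fin k)) ℂ) :
    ∃ G₀ G₁ : MvPolynomial (Fin k) ℂ, ∀ (v : Fin k → ℂ) (w : ℂ), w ^ 2 = eval v F →
      eval (fun o => o.elim w v) G = eval v G₀ + w * eval v G₁ := by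
  induction G using MvPolynomial.induction_on with
  | C a => exact ⟨C a, 0, fun v w _ => by simp⟩
  | add f g hf hg =>
    obtain ⟨f₀, f₁, hf⟩ := hf
    obtain ⟨g₀, g₁, hg⟩ := hg
    refine ⟨f₀ + g₀, f₁ + g₁, fun v w hw => ?_⟩
    simp only [map_add, hf v w hw, hg v w hw]
    ring
  | mul_X f o hf =>
    obtain ⟨f₀, f₁, hf⟩ := hf
    cases o with
    | none =>
      refine ⟨F * f₁, f₀, fun v w hw => ?_⟩
      simp only [map_mul, hf v w hw, eval_X, Option.elim_none, ← hw]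
      ring
    | some i =>
      refine ⟨f₀ * X i, f₁ * X i, fun v w hw => ?_⟩
      simp only [map_mul, hf v w hw, eval_X, Option.elim_some]
      ring

theorem vanish {k : ℕ} {F : MvPolynomial (Fin k) ℂ} {q : Fin k → ℂ} (hq : eval q F = 0) {i : Fin k}
    (hi : eval q (pderiv i F) ≠ 0) (G : MvPolynomial (Option (Fin k)) ℂ) {p₀ : Fin k → ℂ}
    (h : ∀ᶠ v in 𝓝 p₀, ∃ w, w ^ 2 = eval v F ∧ eval (fun o => o.elim w v) G = 0)
    (v : Fin k → ℂ) (w : ℂ) (hw : w ^ 2 = eval v F) : eval (fun o => o.elim w v) G = 0 := by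
  obtain ⟨G₀, G₁, hG⟩ := split_alg F G
  have hN : G₀ ^ 2 - F * G₁ ^ 2 = 0 := by
    have h1 : (fun v : Fin k → ℂ => eval v (G₀ ^ 2 - F * G₁ ^ 2)) =ᶠ[𝓝 p₀]
        fun v : Fin k → ℂ => eval v (0 : MvPolynomial (Fin k) ℂ) := by
      filter_upwards [h] with v ⟨w, hw, h0⟩
      rw [hG v w hw] at h0
      simp only [map_sub, map_mul, map_pow, ← hw, map_zero]
      linear_combination (eval v G₀ - w * eval v G₁) * h0
    have h2 := (AnalyticOnNhd.eval_mvPolynomial _).eq_of_eventuallyEq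
      (AnalyticOnNhd.eval_mvPolynomial _) h1
    exact MvPolynomial.funext fun v => congrFun h2 v
  have hN' : G₀ ^ 2 = F * G₁ ^ 2 := sub_eq_zero.1 hN
  have h1 : G₁ = 0 := by
    by_contra hne
    have hd : G₁ ^ 2 ∣ G₀ ^ 2 := ⟨F, by rw [hN', mul_comm]⟩
    obtain ⟨H, hH⟩ := (UniqueFactorizationMonoid.pow_dvd_pow_iff_dvd two_ne_zero).1 hd
    have hF : F = H ^ 2 := by
      have : F * G₁ ^ 2 = H ^ 2 * G₁ ^ 2 := by rw [← hN', hH]; ring
      exact mul_right_cancel₀ (pow_ne_zero 2 hne) this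
    have hH0 : eval q H = 0 := by
      rw [hF, map_pow] at hq
      exact pow_eq_zero_iff two_ne_zero |>.1 hq
    apply hi
    rw [hF, pow_two, Derivation.leibniz]
    simp [hH0]
  have h0 : G₀ = 0 := by
    rw [h1] at hN'
    simpa using hN'
  rw [hG v w hw, h0, h1]
  simp

variable {m : ℕ}

/-- The family of genus one curves over a family of multiply tangent lines. -/
theorem exists_family {F : MvPolynomial (Fin (m + 2)) ℂ} {p₀ : Fin (m + 2) → ℂ}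
    {u : (Fin (m + 2) → ℂ) → Fin (m + 2) → ℂ} {q : (Fin (m + 2) → ℂ) → Fin m → ℂ}
    {ρ : (Fin (m + 2) → ℂ) → Fin 5 → ℂ} {r : (Fin (m + 2) → ℂ) → ℂ} {i : Fin (m + 2)}
    (hu : ∀ p, u p 0 = 0 ∧ u p i = 1) (hp : p₀ 0 ≠ 0)
    (hq : ∀ᶠ p in 𝓝 p₀, DifferentiableAt ℂ u p ∧ DifferentiableAt ℂ q p ∧
      DifferentiableAt ℂ ρ p ∧ ∀ a b, eval (a • u p + b • p) F =
        Qh (q p) a b ^ 2 * ∑ l, ρ p l * a ^ (l : ℕ) * b ^ (4 - l : ℕ))
    (hr : ∀ᶠ p in 𝓝 p₀, DifferentiableAt ℂ r p ∧ r p ^ 2 = eval p F) :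
    ∃ (L : ℂ × (Fin (m + 2) → ℂ) → W (m + 1)) (a b : ℂ → ℂ),
      (∀ p, L (0, p) = (p₀ + p, r (p₀ + p))) ∧
      (∀ s, (L (s, 0)).1 = a s • u p₀ + b s • p₀) ∧ HasDerivAt (fun s => a s / b s) (r p₀) 0 ∧
      ∀ᶠ p in 𝓝 (0 : Fin (m + 2) → ℂ), ∀ s, L (s, p) ∈ Cone (fun v => eval v F) ∧
        ∃ κ : ℂ × (Fin (m + 2) → ℂ) → ℂ, (∀ᶠ z in 𝓝 (s, p), κ z ≠ 0) ∧
          DifferentiableAt ℂ (fun z => act (κ z) (L z)) (s, p) := by
  obtain ⟨Ψ, h1, h2, h3⟩ := global_flow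
  let c : (Fin (m + 2) → ℂ) → Fin 5 → ℂ := fun p => ![r p, ρ p 1, ρ p 2, ρ p 3, ρ p 4]
  refine ⟨fun z => ((Ψ (z.1, c (p₀ + z.2))).1 • u (p₀ + z.2) + (Ψ (z.1, c (p₀ + z.2))).2.1 •
    (p₀ + z.2), Qh (q (p₀ + z.2)) (Ψ (z.1, c (p₀ + z.2))).1 (Ψ (z.1, c (p₀ + z.2))).2.1 *
      (Ψ (z.1, c (p₀ + z.2))).2.2),
    fun s => (Ψ (s, c p₀)).1, fun s => (Ψ (s, c p₀)).2.1, fun p => by simp [(h3 _).1, c, Qh],
    fun s => by simp, (h3 (c p₀)).2, ?_⟩
  have hl : ∀ᶠ p : Fin (m + 2) → ℂ in 𝓝 p₀, p 0 ≠ 0 :=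
    (continuous_apply 0).continuousAt.eventually_ne hp
  have ta : Tendsto (fun p => p₀ + p) (𝓝 0) (𝓝 p₀) := by
    simpa using (continuous_const_add p₀).tendsto 0
  filter_upwards [ta.eventually hq, ta.eventually hr, ta.eventually hl] with p k1 k2 k3 s
  refine ⟨⟨fun e => ?_, ?_⟩, ?_⟩
  · have e1 := congrFun e 0
    have e2 := congrFun e i
    simp only [Pi.add_apply _ (_ • _), Pi.smul_apply, hu, smul_eq_mul, mul_zero, zero_add,
      Pi.zero_apply, mul_eq_zero, k3, or_false] at e1 e2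
    simp only [e1, zero_mul, mul_one, add_zero] at e2
    exact (h1 _).1.elim (fun h => h e2) fun h => h e1
  · refine Eq.trans ?_ (k1.2.2.2 _ _).symm
    have e1 : ρ (p₀ + p) 0 = r (p₀ + p) ^ 2 := by
      simpa [Qh, Fin.sum_univ_five, k2.2] using (k1.2.2.2 0 1).symm
    rw [mul_pow, (h1 _).2]
    simp [Qd, c, Fin.sum_univ_five, e1]
  · obtain ⟨κ, hκ⟩ := h2 (s, c (p₀ + p))
    have d0 : DifferentiableAt ℂ (fun z : ℂ × (Fin (m + 2) → ℂ) => p₀ + z.2) (s, p) := by fun_prop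
    have d1 := DifferentiableAt.comp (g := u) (s, p) k1.1 d0
    have d5 := differentiableAt_pi.1 (DifferentiableAt.comp (g := q) (s, p) k1.2.1 d0)
    have d2 : DifferentiableAt ℂ (fun z : ℂ × (Fin (m + 2) → ℂ) => (z.1, c (p₀ + z.2))) (s, p) := by
      refine differentiableAt_fst.prodMk (differentiableAt_pi.2 fun k => ?_)
      have d3 := differentiableAt_pi.1 (DifferentiableAt.comp (g := ρ) (s, p) k1.2.2.1 d0)
      fin_cases k
      exacts [DifferentiableAt.comp (g := r) (s, p) k2.1 d0, d3 1, d3 2, d3 3, d3 4]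
    refine ⟨fun z => κ (z.1, c (p₀ + z.2)),
      (d2.continuousAt.eventually hκ).mono fun z hz => hz.1, ?_⟩
    have d4 := hκ.self_of_nhds.2.comp (s, p) d2
    refine (((d4.fst.smul d1).add (d4.snd.fst.smul d0)).prodMk (((d4.snd.fst.fun_pow m).fun_add
      (DifferentiableAt.fun_sum (u := Finset.univ) fun (l : Fin m) _ => ((d5 l).fun_mul
        (d4.fst.fun_pow (l + 1))).fun_mul (d4.snd.fst.fun_pow (m - 1 - l)))).fun_mul
      d4.snd.snd)).congr_of_eventuallyEq (Eventually.of_forall fun z => ?_)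
    refine Prod.ext ?_ ?_
    · simp [act, smul_smul]
    · refine Eq.trans ?_ (congrArg (· * _) (Qh_mul (q (p₀ + z.2)) _ _ _).symm)
      simp only [act, Function.comp_apply]
      ring

section model

variable {F : MvPolynomial (Fin (m + 2)) ℂ} {X : Type} [TopologicalSpace X]
  [ChartedSpace (Fin (m + 1) → ℂ) X] [IsManifold 𝓘(ℂ, Fin (m + 1) → ℂ) 1 X] {π : W (m + 1) → X}

theorem model_class (hF : F.IsHomogeneous (2 * (m + 1 + 1))) (h1 : eval (e0 (m + 1)) F ≠ 0)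
    {q : Fin (m + 1) → (Fin (m + 2) → ℂ) → Fin (m + 2) → ℂ}
    {q' : Fin (m + 1) → (Fin (m + 2) → ℂ) → Fin m → ℂ}
    {ρ' : Fin (m + 1) → (Fin (m + 2) → ℂ) → Fin 5 → ℂ}
    (hq : ∀ i p, q i p 0 = 0 ∧ q i p i.succ = 1)
    (h2 : (Matrix.of fun i j : Fin (m + 1) => q i (e0 (m + 1)) j.succ).det ≠ 0)
    (h3 : ∀ i, ∀ᶠ p in 𝓝 (e0 (m + 1)), DifferentiableAt ℂ (q i) p ∧ DifferentiableAt ℂ (q' i) p ∧
      DifferentiableAt ℂ (ρ' i) p ∧ ∀ a b, eval (a • q i p + b • p) F =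
        Qh (q' i p) a b ^ 2 * ∑ l, ρ' i p l * a ^ (l : ℕ) * b ^ (4 - l : ℕ))
    (m1 : ∀ y ∈ Cone fun v => eval v F, ∀ y' ∈ Cone fun v => eval v F,
      π y = π y' ↔ ∃ c, c ≠ 0 ∧ y' = act c y)
    (m2 : ∀ (V : Type) [NormedAddCommGroup V] [NormedSpace ℂ V] (s : V → W (m + 1)) (z : V),
      DifferentiableAt ℂ s z → (∀ᶠ z' in 𝓝 z, s z' ∈ Cone fun v => eval v F) →
        MDifferentiableAt 𝓘(ℂ, V) 𝓘(ℂ, Fin (m + 1) → ℂ) (fun z' => π (s z')) z)
    (m3 : ∀ x, ∃ σ : X → W (m + 1), ∀ᶠ x' in 𝓝 x, MDifferentiableAt 𝓘(ℂ, Fin (m + 1) → ℂ) 𝓘(ℂ, W (m + 1)) σ x' ∧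
      (σ x' ∈ Cone fun v => eval v F) ∧ π (σ x') = x') :
    ∃ f ∈ Ctr (Fin (m + 1) → ℂ) X, {y | Relation.ReflTransGen (Lnk (Fin (m + 1) → ℂ)) (f 0) y} ∈ 𝓝 (f 0) ∧
      ∀ O ∈ 𝓝 (f 0), ∀ᶠ p in 𝓝 (e0 (m + 1)),
        ∃ w, ((p, w) ∈ Cone fun v => eval v F) ∧ π (p, w) ∈ O := by
  set p₀ := e0 (m + 1)
  obtain ⟨r, h4, h5⟩ := exists_sqrt (differentiable_eval F) h1
  have hh : ∀ (c : ℂ) (v : Fin (m + 2) → ℂ), eval (c • v) F = c ^ (2 * (m + 1 + 1)) * eval v F :=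
    eval_smul' hF
  let l : Fin (m + 2) → (Fin (m + 2) → ℂ) →L[ℂ] ℂ := fun k => ContinuousLinearMap.proj k
  have l0 : l 0 p₀ = 1 := rfl
  have l1 : ∀ k : Fin (m + 1), l k.succ p₀ = 0 := fun k => rfl
  have l2 : ∀ i, l 0 (q i p₀) = 0 := fun i => (hq i p₀).1
  choose L a b k1 k2 k3 k4 using fun i => exists_family (hq i) (l0.trans_ne one_ne_zero) (h3 i) h5
  have hS : ∀ i, Spray (Fin (m + 1) → ℂ) fun z => π (L i z) := fun i => by
    filter_upwards [(k4 i).eventually_nhds] with p hp s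
    obtain ⟨κ, n1, n2⟩ := (hp.self_of_nhds s).2
    have n3 : ∀ᶠ z in 𝓝 (s, p), L i z ∈ Cone fun v => eval v F :=
      ((continuous_snd.tendsto (s, p)).eventually hp).mono fun z hz => (hz z.1).1
    refine (m2 _ _ _ n2 ((n1.and n3).mono fun z hz => act_mem_mod hh hz.2 hz.1)).congr_of_eventuallyEq ?_
    filter_upwards [n1, n3] with z z1 z2
    exact (m1 _ z2 _ (act_mem_mod hh z2 z1)).2 ⟨_, z1, rfl⟩
  have c0 : (p₀, r p₀) ∈ Cone fun v => eval v F := by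
    simpa [k1] using ((k4 0).self_of_nhds 0).1
  obtain ⟨σ, hσ⟩ := m3 (π (p₀, r p₀))
  let ρ : (Fin (m + 2) → ℂ) → Fin (m + 1) → ℂ := fun v k => l k.succ v / l 0 v
  have hρ : ∀ᶠ x in 𝓝 (π (p₀, r p₀)), ∀ y ∈ Cone fun v => eval v F, π y = x → ρ (σ x).1 = ρ y.1 := by
    filter_upwards [hσ] with x hx y hy e
    obtain ⟨c, hc, e'⟩ := (m1 _ hy _ hx.2.1).1 (e.trans hx.2.2.symm)
    ext k
    simp only [e', act, ρ, map_smul, smul_eq_mul, mul_div_mul_left _ _ hc]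
  have dρ : ∀ v, l 0 v ≠ 0 → DifferentiableAt ℂ ρ v := fun v hv =>
    differentiableAt_pi.2 fun k => (l _).differentiableAt.mul ((l _).differentiableAt.inv hv)
  have hpr : MDifferentiableAt 𝓘(ℂ, Fin (m + 1) → ℂ) 𝓘(ℂ, Fin (m + 1) → ℂ) (fun x => ρ (σ x).1)
      (π (p₀, r p₀)) := by
    obtain ⟨c, hc, e'⟩ := (m1 _ c0 _ hσ.self_of_nhds.2.1).1 hσ.self_of_nhds.2.2.symm
    refine MDifferentiableAt.comp (I' := 𝓘(ℂ, W (m + 1))) (g := fun y : W (m + 1) => ρ y.1) _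
      (DifferentiableAt.mdifferentiableAt ((dρ _ ?_).comp _ differentiableAt_fst))
      hσ.self_of_nhds.1
    simp [e', act, l0, hc]
  have e0 : ∀ i, π (L i (0, 0)) = π (p₀, r p₀) := fun i => by simp [k1]
  set x := π (p₀, r p₀)
  set D := fderiv ℂ (fun e => ρ (σ ((chartAt (Fin (m + 1) → ℂ) x).symm e)).1) (chartAt (Fin (m + 1) → ℂ) x x)
  have ta : Tendsto (fun p => p₀ + p) (𝓝 0) (𝓝 p₀) := by
    simpa using (continuous_const_add p₀).tendsto 0
  have key : ∀ i u, ∃ p, D (fderiv ℂ (fun p => chartAt (Fin (m + 1) → ℂ) x (π (L i (0, p)))) 0 p) = u := by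
    intro i u
    have n1 := chain_pr hpr ((hS i).self_of_nhds 0).slice (e0 i)
    have n2 : HasFDerivAt (fun p => ρ (p₀ + p)) (ContinuousLinearMap.pi fun k : Fin (m + 1) => l k.succ) 0 := by
      refine hasFDerivAt_pi.2 fun k => ?_
      have n3 : ∀ j, HasFDerivAt (fun p => l j (p₀ + p)) (l j) 0 := fun j => by
        simpa only [map_add] using (l j).hasFDerivAt.const_add (l j p₀)
      refine ((n3 k.succ).mul ((hasFDerivAt_inv (by simp [l0])).comp 0 (n3 0))).congr_fderiv ?_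
      ext v
      simp [l0, l1]
    have n4 : (fun p => ρ (σ (π (L i (0, p)))).1) =ᶠ[𝓝 0] fun p => ρ (p₀ + p) := by
      filter_upwards [(e0 i ▸ ((hS i).self_of_nhds 0).slice.continuousAt.tendsto).eventually hρ,
        k4 i] with p n5 n6
      exact (n5 _ (n6 0).1 rfl).trans (by rw [k1])
    exact ⟨Fin.cons 0 u, congrArg (fun A => A (Fin.cons 0 u))
      (n1.unique (n2.congr_of_eventuallyEq n4))⟩
  have hD : Function.Injective D :=
    (LinearMap.injective_iff_surjective_of_finrank_eq_finrank (f := (D : (Fin (m + 1) → ℂ) →ₗ[ℂ] Fin (m + 1) → ℂ))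
      (by simp)).2 fun u => (key 0 u).elim fun _ h => ⟨_, h⟩
  have hb : ∀ i, Sbm (Fin (m + 1) → ℂ) (fun p => π (L i (0, p))) 0 := fun i =>
    (sbm_iff ((hS i).self_of_nhds 0).slice (x := x) (by rw [e0]; exact mem_chart_source _ _)).2
      fun v => (key i (D v)).imp fun _ h => hD h
  choose f f1 f2 using fun i => (ctr_of_spray (hS i) (hb i)).self_of_nhds
  have f0 : ∀ i, f i 0 = x := fun i => (f2 i 0).trans (e0 i)
  have dv : ∀ i, D (deriv (fun t => chartAt (Fin (m + 1) → ℂ) x (f i t)) 0) =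
      r p₀ • fun k : Fin (m + 1) => l k.succ (q i p₀) := by
    intro i
    have n0 : Hol (Fin (m + 1) → ℂ) (f i) 0 := by
      rw [funext (f2 i)]
      exact Hol.pre (S := fun z => π (L i z)) (L := fun t => (t, (0 : Fin (m + 2) → ℂ)))
        ((hS i).self_of_nhds 0) (by fun_prop)
    have n4 : (fun t => ρ (σ (f i t)).1) =ᶠ[𝓝 0]
        fun t => (a i t / b i t) • fun k : Fin (m + 1) => l k.succ (q i p₀) := by
      filter_upwards [(f0 i ▸ n0.continuousAt.tendsto).eventually hρ] with t n5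
      refine (n5 _ ((k4 i).self_of_nhds t).1 (f2 i t).symm).trans (funext fun k => ?_)
      simp only [ρ, k2, map_add, map_smul, l0, l1, l2, smul_eq_mul, Pi.smul_apply]
      ring
    exact (chain_pr hpr n0 (f0 i)).hasDerivAt.unique
      (((k3 i).smul_const _).congr_of_eventuallyEq n4)
  refine ⟨f 0, f1 0, ?_, fun O hO => ?_⟩
  · rw [f0]
    refine span_nhds f1 f0 fun v => ?_
    obtain ⟨c, hc⟩ := Matrix.vecMul_surjective_iff_isUnit.2
      ((Matrix.isUnit_iff_isUnit_det _).2 h2.isUnit) (D v)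
    refine ⟨fun i => c i / r p₀, hD ?_⟩
    rw [← hc]
    ext k
    simp [dv, h4, l, Matrix.vecMul, dotProduct, smul_smul]
  · have tb : Tendsto (fun p => p - p₀) (𝓝 p₀) (𝓝 0) := by
      simpa using (continuous_sub_right p₀).tendsto p₀
    rw [f0, ← e0 0] at hO
    filter_upwards [tb.eventually (((hS 0).self_of_nhds 0).slice.continuousAt.eventually hO),
      tb.eventually (k4 0)] with p n1 n2
    exact ⟨r p, by simpa [k1] using (n2 0).1, by simpa [k1] using show π (L 0 (0, p - p₀)) ∈ O from n1⟩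

omit [IsManifold 𝓘(ℂ, Fin (m + 1) → ℂ) 1 X] in
theorem model_lift {f : (Fin (m + 2) → ℂ) → ℂ}
    (hh : ∀ (c : ℂ) (v : Fin (m + 2) → ℂ), f (c • v) = c ^ (2 * (m + 1 + 1)) * f v)
    (m1 : ∀ y ∈ Cone f, ∀ y' ∈ Cone f, π y = π y' ↔ ∃ c, c ≠ 0 ∧ y' = act c y)
    (m3 : ∀ x, ∃ σ : X → W (m + 1), ∀ᶠ x' in 𝓝 x, MDifferentiableAt 𝓘(ℂ, Fin (m + 1) → ℂ) 𝓘(ℂ, W (m + 1)) σ x' ∧
      σ x' ∈ Cone f ∧ π (σ x') = x') {g : ℂ → X} (g1 : ∀ t, Hol (Fin (m + 1) → ℂ) g t) :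
    ∃ G : ℂ → W (m + 1), Differentiable ℂ G ∧ ∀ t, G t ∈ Cone f ∧ π (G t) = g t := by
  choose σ hσ using m3
  have s1 : ∀ x, σ x x ∈ Cone f := fun x => (hσ x).self_of_nhds.2.1
  have s2 : ∀ x, π (σ x x) = x := fun x => (hσ x).self_of_nhds.2.2
  obtain ⟨c, c1, c2⟩ := global_lift (g := fun t => σ (g t) (g t)) (fun t => (s1 _).1) fun t₀ => by
    have h1 := (g1 t₀).continuousAt.eventually (hσ (g t₀))
    have h2 : ∀ t, ∃ c : ℂ, σ (g t₀) (g t) ∈ Cone f →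
        π (σ (g t₀) (g t)) = g t → c ≠ 0 ∧ σ (g t₀) (g t) = act c (σ (g t) (g t)) := fun t => by
      by_cases h : σ (g t₀) (g t) ∈ Cone f ∧ π (σ (g t₀) (g t)) = g t
      · exact ((m1 _ (s1 _) _ h.1).1 ((s2 _).trans h.2.symm)).imp fun _ e _ _ => e
      · exact ⟨0, fun a b => absurd ⟨a, b⟩ h⟩
    choose c hc using h2
    refine ⟨c, h1.eventually_nhds.mono fun t ht => ?_⟩
    obtain ⟨a1, a2, a3⟩ := ht.self_of_nhds
    refine ⟨(hc t a2 a3).1, (mdifferentiableAt_iff_differentiableAt.1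
      (a1.comp t (g1 t))).congr_of_eventuallyEq (ht.mono fun t' h => (hc t' h.2.1 h.2.2).2.symm)⟩
  exact ⟨_, c2, fun t => ⟨act_mem_mod hh (s1 _) (c1 t),
    ((m1 _ (s1 _) _ (act_mem_mod hh (s1 _) (c1 t))).2 ⟨_, c1 t, rfl⟩).symm.trans (s2 _)⟩⟩

omit [IsManifold 𝓘(ℂ, Fin (m + 1) → ℂ) 1 X] in
theorem model_closed {f : (Fin (m + 2) → ℂ) → ℂ}
    (m1 : ∀ y ∈ Cone f, ∀ y' ∈ Cone f, π y = π y' ↔ ∃ c, c ≠ 0 ∧ y' = act c y)
    (m3 : ∀ x, ∃ σ : X → W (m + 1), ∀ᶠ x' in 𝓝 x, MDifferentiableAt 𝓘(ℂ, Fin (m + 1) → ℂ) 𝓘(ℂ, W (m + 1)) σ x' ∧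
      σ x' ∈ Cone f ∧ π (σ x') = x') {ev : W (m + 1) → ℂ} (ec : Continuous ev) {n : ℕ}
    (ea : ∀ k y, ev (act k y) = k ^ n * ev y) :
    IsClosed {x | ∀ y ∈ Cone f, π y = x → ev y = 0} := by
  refine isClosed_iff_frequently.2 fun x hx y hy e => ?_
  by_contra h0
  obtain ⟨σ, hσ⟩ := m3 x
  obtain ⟨k, hk, e'⟩ := (m1 _ hy _ hσ.self_of_nhds.2.1).1 (e.trans hσ.self_of_nhds.2.2.symm)
  have h1 : ∀ᶠ x' in 𝓝 x, ev (σ x') ≠ 0 :=
    (ec.continuousAt.comp hσ.self_of_nhds.1.continuousAt).eventually_ne (by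
      simpa [e', ea, hk] using h0)
  obtain ⟨x', a1, a2, a3⟩ := (hx.and_eventually (h1.and hσ)).exists
  exact a2 (a1 _ a3.2.1 a3.2.2)

end model

theorem cy_curve (m : ℕ) : ∃ Φ : MvPolynomial (Mon (m + 3) (2 * (m + 1 + 1 + 1))) ℂ, Φ ≠ 0 ∧
    ∀ F : MvPolynomial (Fin (m + 3)) ℂ, F.IsHomogeneous (2 * (m + 1 + 1 + 1)) →
      (∀ v : Fin (m + 3) → ℂ, v ≠ 0 → eval v F = 0 → ∃ i, eval v (pderiv i F) ≠ 0) →
      eval (fun s => coeff s.1 F) Φ ≠ 0 →
      ∀ S : Set (MvPolynomial (Option (Fin (m + 3))) ℂ),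
        (∀ G ∈ S, ∃ k, G.IsWeightedHomogeneous (fun o => o.elim (m + 2 + 1) fun _ => 1) k) →
        3 ≤ (Ideal.span S).height → ∃ g : ℂ → W (m + 2), Differentiable ℂ g ∧
      (∀ t, g t ∈ Cone fun v => eval v F) ∧
      (∀ t, ∃ G ∈ S, eval (fun o => o.elim (g t).2 (g t).1) G ≠ 0) ∧
      ∀ (G : MvPolynomial (Option (Fin (m + 3))) ℂ) (k : ℕ),
        G.IsWeightedHomogeneous (fun o => o.elim (m + 2 + 1) fun _ => 1) k →
        (∀ t, eval (fun o => o.elim (g t).2 (g t).1) G = 0) →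
          ∀ v w, w ^ 2 = eval v F → eval (fun o => o.elim w v) G = 0 := by
  obtain ⟨Φ, h0, hΦ⟩ := exists_lines (m + 1)
  refine ⟨Φ, h0, fun F hF hs hΦ' S hS h3 => ?_⟩
  obtain ⟨b1, u, q', ρ, b2, b3, b4⟩ := hΦ F hF hΦ'
  have hh := eval_smul' hF
  obtain ⟨X, _, _, _, _, _, π, m1, m2, m3, m4⟩ := exists_model (n := m + 2)
    (differentiable_eval F) hh fun v hv h e => by
      obtain ⟨i, hi⟩ := hs v hv h
      have := fderiv_eval F v (Pi.single i 1)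
      rw [e] at this
      exact hi (by simpa [Pi.single_apply] using this.symm)
  obtain ⟨f, f1, f2, f3⟩ := model_class hF b1 b2 b3 b4 m1 m2 m3
  let co : W (m + 2) → Option (Fin (m + 3)) → ℂ := fun y o => o.elim y.2 y.1
  have cl : ∀ {G : MvPolynomial (Option (Fin (m + 3))) ℂ} {n : ℕ},
      G.IsWeightedHomogeneous (fun o => o.elim (m + 2 + 1) fun _ => 1) n →
      (∀ (k : ℂ) (y : W (m + 2)), eval (co (act k y)) G = k ^ n * eval (co y) G) ∧
      IsClosed {x | ∀ y ∈ Cone fun v => eval v F, π y = x → eval (co y) G = 0} := fun {G n} hG => by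
    have ea : ∀ (k : ℂ) (y : W (m + 2)), eval (co (act k y)) G = k ^ n * eval (co y) G :=
      fun k y => by
        rw [← eval_w_alg hG k]
        congr 2
        funext o
        cases o <;> simp [co, act]
    exact ⟨ea, model_closed (ev := fun y => eval (co y) G) m1 m3
      (Continuous.comp (g := fun v => eval v G) (f := co)
      (differentiable_eval G).continuous (continuous_pi fun o => by
        cases o
        exacts [continuous_snd, (continuous_apply _).comp continuous_fst])) ea⟩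
  have hZ : IsClosed (⋂ G ∈ S, {x | ∀ y ∈ Cone fun v => eval v F, π y = x → eval (co y) G = 0}) :=
    isClosed_biInter fun G hG => (hS G hG).elim fun _ h => (cl h).2
  obtain ⟨g, g1, g2, g3⟩ := closure_nonempty_iff.1 ⟨_, chain_curve hZ (fun x => by
    obtain ⟨j, L, hL⟩ := m4 x
    let T : (Option (Fin (m + 3)) → ℂ) →L[ℂ] W (m + 2) :=
      (ContinuousLinearMap.pi fun i => .proj (some i)).prod (.proj none)
    have h4 := dimH_slice hS h3 (j := some j) rfl (m := m) (by simp)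
    refine lt_of_le_of_lt (add_le_add_left ((dimH_mono ?_).trans
      (((L.comp T).lipschitz.dimH_image_le _).trans h4)) 2) ?_
    · rintro _ ⟨x', ⟨a1, a2⟩, rfl⟩
      obtain ⟨y, y1, y2, y3, y4⟩ := hL x' a2
      exact ⟨co y, ⟨y2, fun G hG => mem_iInter₂.1 a1 G hG y y1 y3⟩, y4.symm⟩
    · simp only [Module.finrank_fintype_fun_eq_card, Fintype.card_fin]
      exact_mod_cast (by omega : 2 * m + 2 < 2 * (m + 1 + 1))) f1 ⟨_, mem_interior_iff_mem_nhds.2 f2⟩⟩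
  obtain ⟨γ, c2, c3⟩ := model_lift (f := fun v => eval v F) hh m1 m3 g1
  have hN : ∀ {G : MvPolynomial (Option (Fin (m + 3))) ℂ} {n : ℕ},
      G.IsWeightedHomogeneous (fun o => o.elim (m + 2 + 1) fun _ => 1) n → ∀ t,
      eval (co (γ t)) G = 0 → ∀ y ∈ Cone fun v => eval v F, π y = g t → eval (co y) G = 0 := by
    intro G n hG t h y hy e
    obtain ⟨k, -, e'⟩ := (m1 _ (c3 t).1 _ hy).1 ((c3 t).2.trans e.symm)
    rw [e']
    exact ((cl hG).1 k _).trans (mul_eq_zero_of_right _ h)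
  refine ⟨γ, c2, fun t => (c3 t).1, fun t => ?_, fun G n hG h => ?_⟩
  · by_contra h
    push Not at h
    exact g2 t (mem_iInter₂.2 fun G hG => (hS G hG).elim fun _ h' => hN h' t (h G hG))
  obtain ⟨s, t, q1, q2⟩ := root_tan hF (by omega) (Pi.single 0 1) (Pi.single 1 1)
  obtain ⟨i, hi⟩ := hs _ (fun e => q1.elim (fun h => h (by simpa using congrFun e 0))
    fun h => h (by simpa using congrFun e 1)) q2
  have hN' := closure_minimal (s := range g) (by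
    rintro _ ⟨t, rfl⟩
    exact hN hG t (h t)) (cl hG).2
  refine vanish q2 hi G (p₀ := e0 _) ((f3 _ f2).mono ?_)
  rintro p ⟨w, a1, a2⟩
  exact ⟨w, a1.2, hN' (g3 _ a2) (p, w) a1 rfl⟩

end Pool.Agent.Lib.MP_cd3a7b_ag.H36
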