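import Pool.Agent.Lib.MP_cd3a7b_ag.H36Ex

/-! Smooth forms are not contained in a hypersurface. -/

namespace Pool.Agent.Lib.MP_cd3a7b_ag.H36

open Metric Set Filter Topology MvPolynomial

theorem exists_smooth {k d : ℕ} {Φ : MvPolynomial (Mon k (d + 1)) ℂ} (hΦ : Φ ≠ 0) :
    ∃ F : MvPolynomial (Fin k) ℂ, F.IsHomogeneous (d + 1) ∧
      (∀ v : Fin k → ℂ, v ≠ 0 → ∃ i, eval v (pderiv i F) ≠ 0) ∧
      eval (fun s => coeff s.1 F) Φ ≠ 0 := by
  classical
  let Fa : (Mon k (d + 1) → ℂ) → MvPolynomial (Fin k) ℂ := fun a => ∑ s, monomial s.1 (a s)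
  have h1 : ∀ a, (Fa a).IsHomogeneous (d + 1) := fun a => IsHomogeneous.sum _ _ _ fun s _ =>
    isHomogeneous_monomial _ (by
      rw [Finsupp.degree_eq_sum]
      exact (Finset.mem_finsuppAntidiag.1 s.2).1)
  have h2 : ∀ a, (fun s : Mon k (d + 1) => coeff s.1 (Fa a)) = a := fun a => _root_.funext fun s => by
    simp [Fa, coeff_sum, coeff_monomial]
  have h3 : IsClosed {z : (Mon k (d + 1) → ℂ) × sphere (0 : Fin k → ℂ) 1 |
      ∀ i, eval z.2.1 (pderiv i (Fa z.1)) = 0} := by
    simp only [ofPred_forall]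
    refine isClosed_iInter fun i => isClosed_eq ?_ continuous_const
    have : ∀ (a : Mon k (d + 1) → ℂ) (v : Fin k → ℂ), eval v (pderiv i (Fa a)) =
        ∑ s, a s * eval v (pderiv i (monomial s.1 (1 : ℂ))) := fun a v => by
      simp only [Fa, map_sum]
      refine Finset.sum_congr rfl fun s _ => ?_
      rw [← mul_one (a s), ← C_mul_monomial, pderiv_C_mul, map_mul, eval_C, mul_one]
    simp only [this]
    exact continuous_finsetSum _ fun s _ => ((continuous_apply s).comp continuous_fst).mul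
      (Continuous.comp (g := fun v => eval v (pderiv i (monomial s.1 (1 : ℂ))))
        (differentiable_eval _).continuous (continuous_subtype_val.comp continuous_snd))
  have h4 := (isClosedMap_fst_of_compactSpace _ h3).isOpen_compl
  let F₁ : MvPolynomial (Fin k) ℂ := ∑ i, X i ^ (d + 1)
  have h5 : F₁.IsHomogeneous (d + 1) := IsHomogeneous.sum _ _ _ fun i _ => isHomogeneous_X_pow _ _
  have h6 : Fa (fun s => coeff s.1 F₁) = F₁ := MvPolynomial.funext fun v => by
    rw [← fa_coeff (h1 _), h2, fa_coeff h5]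
  by_contra! h
  refine hΦ (MvPolynomial.funext fun v => congrFun
    ((AnalyticOnNhd.eval_mvPolynomial _).eq_of_eventuallyEq
      (AnalyticOnNhd.eval_mvPolynomial 0) (z₀ := fun s => coeff s.1 F₁) ?_) v)
  filter_upwards [h4.mem_nhds (x := fun s => coeff s.1 F₁) (by
    rintro ⟨⟨_, v, hv⟩, h7, rfl⟩
    have h8 : v = 0 := _root_.funext fun i => by
      have := h7 i
      dsimp only at this h6
      rw [h6] at this
      simp [F₁, pderiv_X, Pi.single_apply, apply_ite, Nat.cast_add_one_ne_zero] at this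
      exact this.1
    simp [h8] at hv)] with a ha
  refine (congrArg (eval · Φ) (h2 a)).symm.trans ((h _ (h1 a) fun v hv => ?_).trans (by simp))
  by_contra! h7
  have h8 : (‖v‖ : ℂ) ≠ 0 := by simpa using hv
  refine ha ⟨(a, ⟨(‖v‖ : ℂ)⁻¹ • v, by simp [norm_smul, hv]⟩), fun i => ?_, rfl⟩
  exact (eval_smul' (h1 a).pderiv _ _).trans (mul_eq_zero_of_right _ (h7 i))

end Pool.Agent.Lib.MP_cd3a7b_ag.H36
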