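import Mathlib

/-! TASK ALG: polynomial facts. -/

namespace Pool.Agent.Lib.MP_cd3a7b_ag

open Metric Set Filter Topology MvPolynomial

theorem hasFDerivAt_eval_alg {ι : Type} [Fintype ι] (F : MvPolynomial ι ℂ) (v : ι → ℂ) :
    ∃ L : (ι → ℂ) →L[ℂ] ℂ, HasFDerivAt (fun v : ι → ℂ => eval v F) L v ∧
      ∀ p, L p = ∑ j, p j * eval v (pderiv j F) := by
  classical
  induction F using MvPolynomial.induction_on with
  | C a =>
    refine ⟨0, ?_, fun p => by simp⟩
    simp only [eval_C]
    exact hasFDerivAt_const a v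
  | add f g hf hg =>
    obtain ⟨L, hL, hL'⟩ := hf
    obtain ⟨M, hM, hM'⟩ := hg
    refine ⟨L + M, ?_, fun p => ?_⟩
    · simp only [map_add]
      exact hL.add hM
    · simp only [add_apply, hL', hM', map_add, mul_add, Finset.sum_add_distrib]
  | mul_X f i hf =>
    obtain ⟨L, hL, hL'⟩ := hf
    have h1 : HasFDerivAt (fun v : ι → ℂ => v i)
        (ContinuousLinearMap.proj i : (ι → ℂ) →L[ℂ] ℂ) v := hasFDerivAt_apply i v
    refine ⟨_, by simp only [map_mul, eval_X]; exact hL.mul h1, fun p => ?_⟩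
    have h4 : ∀ j, p j * eval v (pderiv j (f * X i)) =
        (if i = j then eval v f * p j else 0) + v i * (p j * eval v (pderiv j f)) := by
      intro j
      rw [Derivation.leibniz, pderiv_X]
      by_cases h : i = j
      · subst h; simp; ring
      · simp [h]; ring
    simp only [h4, Finset.sum_add_distrib, Finset.sum_ite_eq, Finset.mem_univ, if_true,
      ← Finset.mul_sum, add_apply, smul_apply, hL', smul_eq_mul, ContinuousLinearMap.proj_apply]

theorem differentiable_eval {ι : Type} [Fintype ι] (F : MvPolynomial ι ℂ) :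
    Differentiable ℂ fun v : ι → ℂ => eval v F := fun v => by
  obtain ⟨L, hL, -⟩ := hasFDerivAt_eval_alg F v
  exact hL.differentiableAt

theorem fderiv_eval {ι : Type} [Fintype ι] (F : MvPolynomial ι ℂ) (v p : ι → ℂ) :
    fderiv ℂ (fun v : ι → ℂ => eval v F) v p = ∑ j, p j * eval v (pderiv j F) := by
  obtain ⟨L, hL, hL'⟩ := hasFDerivAt_eval_alg F v
  rw [hL.fderiv, hL']

theorem eval_w_alg {ι : Type} [Fintype ι] {wt : ι → ℕ} {G : MvPolynomial ι ℂ} {n : ℕ}
    (hG : G.IsWeightedHomogeneous wt n) (c : ℂ) (v : ι → ℂ) :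
    eval (fun o => c ^ wt o * v o) G = c ^ n * eval v G := by
  rw [eval_eq', eval_eq', Finset.mul_sum]
  refine Finset.sum_congr rfl fun d hd => ?_
  have h1 : Finsupp.weight wt d = n := hG (mem_support_iff.1 hd)
  have h2 : ∑ o, wt o * d o = n := by
    rw [← h1, Finsupp.weight_apply, Finsupp.sum_fintype _ _ (by simp)]
    simp [mul_comm]
  simp only [mul_pow, Finset.prod_mul_distrib, ← pow_mul, Finset.prod_pow_eq_pow_sum, h2]
  ring

theorem eval_smul {F : MvPolynomial (Fin 3) ℂ} {n : ℕ} (hF : F.IsHomogeneous n) (c : ℂ)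
    (v : Fin 3 → ℂ) : eval (c • v) F = c ^ n * eval v F := by
  rw [← eval_w_alg hF c v]
  congr 2
  funext o
  simp

theorem eval_weighted {G : MvPolynomial (Option (Fin 3)) ℂ} {n : ℕ}
    (hG : G.IsWeightedHomogeneous (fun o => o.elim 3 fun _ => 1) n) (c w : ℂ) (v : Fin 3 → ℂ) :
    eval (fun o => o.elim (c ^ 3 * w) (c • v)) G = c ^ n * eval (fun o => o.elim w v) G := by
  rw [← eval_w_alg hG c]
  congr 2
  funext o
  cases o <;> simp

/-- The restriction of a polynomial to a line. -/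
noncomputable def line_alg (F : MvPolynomial (Fin 3) ℂ) (x : (Fin 3 → ℂ) × (Fin 3 → ℂ)) :
    Polynomial ℂ :=
  aeval (fun i => Polynomial.C (x.1 i) + Polynomial.X * Polynomial.C (x.2 i)) F

theorem line_eval_alg (F : MvPolynomial (Fin 3) ℂ) (q p : Fin 3 → ℂ) (t : ℂ) :
    (line_alg F (q, p)).eval t = eval (q + t • p) F := by
  unfold line_alg
  induction F using MvPolynomial.induction_on with
  | C a => simp
  | add f g hf hg => simp only [map_add, Polynomial.eval_add, hf, hg]
  | mul_X f i hf =>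
    simp only [map_mul, Polynomial.eval_mul, hf]
    simp [mul_comm t (p i)]

theorem line_coeff_alg (F : MvPolynomial (Fin 3) ℂ) (k : ℕ) :
    Differentiable ℂ fun x => (line_alg F x).coeff k := by
  unfold line_alg
  induction F using MvPolynomial.induction_on generalizing k with
  | C a => simp
  | add f g hf hg =>
    simp only [map_add, Polynomial.coeff_add]
    exact (hf k).add (hg k)
  | mul_X f i hf =>
    simp only [map_mul, aeval_X, mul_add, ← mul_assoc, Polynomial.coeff_add,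
      Polynomial.coeff_mul_C]
    refine ((hf k).mul (by fun_prop)).add (Differentiable.mul ?_ (by fun_prop))
    cases k with
    | zero => simp
    | succ k =>
      simp only [Polynomial.coeff_mul_X]
      exact hf k

theorem line_degree_alg {F : MvPolynomial (Fin 3) ℂ} (hF : F.IsHomogeneous 6)
    (x : (Fin 3 → ℂ) × (Fin 3 → ℂ)) : (line_alg F x).natDegree < 7 := by
  have := aeval_natDegree_le (n := 1) F hF.totalDegree_le
    (fun i => Polynomial.C (x.1 i) + Polynomial.X * Polynomial.C (x.2 i))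
    (fun i => by compute_degree)
  unfold line_alg
  omega

theorem expand6 {F : MvPolynomial (Fin 3) ℂ} (hF : F.IsHomogeneous 6) :
    ∃ C : Fin 4 → (Fin 3 → ℂ) × (Fin 3 → ℂ) → ℂ, (∀ k, Differentiable ℂ (C k)) ∧
      ∀ q p : Fin 3 → ℂ, eval q F = 0 → ∑ j, p j * eval q (pderiv j F) = 0 → ∀ a b : ℂ,
        eval (a • q + b • p) F = b ^ 2 * (eval p F * b ^ 4 + C 0 (q, p) * a * b ^ 3 +
          C 1 (q, p) * a ^ 2 * b ^ 2 + C 2 (q, p) * a ^ 3 * b + C 3 (q, p) * a ^ 4) := by
  refine ⟨fun k x => (line_alg F x).coeff (5 - k), fun k => line_coeff_alg F _, ?_⟩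
  intro q p hq hp
  set P := line_alg F (q, p) with hP
  have hev : ∀ t, P.eval t = eval (q + t • p) F := line_eval_alg F q p
  have h0 : P.coeff 0 = 0 := by
    rw [Polynomial.coeff_zero_eq_eval_zero, hev]; simpa using hq
  have h1 : P.coeff 1 = 0 := by
    have d1 := P.hasDerivAt (0 : ℂ)
    have d2 : HasDerivAt (fun t : ℂ => q + t • p) p 0 := by
      simpa using ((hasDerivAt_id (0 : ℂ)).smul_const p).const_add q
    have d3 := (differentiable_eval F (q + (0 : ℂ) • p)).hasFDerivAt.comp_hasDerivAt (0 : ℂ) d2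
    have d4 : (fun t => P.eval t) = (fun v : Fin 3 → ℂ => eval v F) ∘ fun t : ℂ => q + t • p :=
      funext hev
    rw [d4] at d1
    have d5 := d1.unique d3
    rw [fderiv_eval, zero_smul, add_zero, hp, ← Polynomial.coeff_zero_eq_eval_zero,
      Polynomial.coeff_derivative] at d5
    simpa using d5
  have hall : ∀ a b : ℂ, eval (a • q + b • p) F = b ^ 2 * (P.coeff 6 * b ^ 4 +
      P.coeff 5 * a * b ^ 3 + P.coeff 4 * a ^ 2 * b ^ 2 + P.coeff 3 * a ^ 3 * b +
        P.coeff 2 * a ^ 4) := by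
    intro a b
    have hc1 : Continuous fun a : ℂ => eval (a • q + b • p) F :=
      (differentiable_eval F).continuous.comp (by fun_prop)
    have hc2 : Continuous fun a : ℂ => b ^ 2 * (P.coeff 6 * b ^ 4 +
      P.coeff 5 * a * b ^ 3 + P.coeff 4 * a ^ 2 * b ^ 2 + P.coeff 3 * a ^ 3 * b +
        P.coeff 2 * a ^ 4) := by fun_prop
    refine congrFun (Continuous.ext_on (dense_compl_singleton (0 : ℂ)) hc1 hc2 ?_) a
    intro a ha
    have ha' : a ≠ 0 := ha
    have e1 : a • q + b • p = a • (q + (b / a) • p) := by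
      rw [smul_add, smul_smul, mul_div_cancel₀ _ ha']
    simp only
    rw [e1, eval_smul hF, ← hev, Polynomial.eval_eq_sum_range' (line_degree_alg hF (q, p))]
    simp only [Finset.sum_range_succ, Finset.sum_range_zero, ← hP, h0, h1]
    field_simp
    ring
  have h6 : P.coeff 6 = eval p F := by
    have := hall 0 1
    simpa using this.symm
  intro a b
  rw [hall, h6]
  rfl

theorem split_alg (F : MvPolynomial (Fin 3) ℂ) (G : MvPolynomial (Option (Fin 3)) ℂ) :
    ∃ G₀ G₁ : MvPolynomial (Fin 3) ℂ, ∀ (v : Fin 3 → ℂ) (w : ℂ), w ^ 2 = eval v F →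
      eval (fun o => o.elim w v) G = eval v G₀ + w * eval v G₁ := by
  induction G using MvPolynomial.induction_on with
  | C a => exact ⟨C a, 0, fun v w _ => by simp⟩
  | add f g hf hg =>
    obtain ⟨f₀, f₁, hf⟩ := hf
    obtain ⟨g₀, g₁, hg⟩ := hg
    refine ⟨f₀ + g₀, f₁ + g₁, fun v w hw => ?_⟩
    simp only [map_add, hf v w hw, hg v w hw]
    ring
  | mul_X f o hf =>
    obtain ⟨f₀, f₁, hf⟩ := hf
    cases o with
    | none =>
      refine ⟨F * f₁, f₀, fun v w hw => ?_⟩
      simp only [map_mul, hf v w hw, eval_X, Option.elim_none, ← hw]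
      ring
    | some i =>
      refine ⟨f₀ * X i, f₁ * X i, fun v w hw => ?_⟩
      simp only [map_mul, hf v w hw, eval_X, Option.elim_some]
      ring

theorem vanish {F : MvPolynomial (Fin 3) ℂ} {q : Fin 3 → ℂ} (hq : eval q F = 0) {i : Fin 3}
    (hi : eval q (pderiv i F) ≠ 0) (G : MvPolynomial (Option (Fin 3)) ℂ) {p₀ : Fin 3 → ℂ}
    (h : ∀ᶠ v in 𝓝 p₀, ∃ w, w ^ 2 = eval v F ∧ eval (fun o => o.elim w v) G = 0)
    (v : Fin 3 → ℂ) (w : ℂ) (hw : w ^ 2 = eval v F) : eval (fun o => o.elim w v) G = 0 := by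
  obtain ⟨G₀, G₁, hG⟩ := split_alg F G
  have hN : G₀ ^ 2 - F * G₁ ^ 2 = 0 := by
    have h1 : (fun v : Fin 3 → ℂ => eval v (G₀ ^ 2 - F * G₁ ^ 2)) =ᶠ[𝓝 p₀]
        fun v : Fin 3 → ℂ => eval v (0 : MvPolynomial (Fin 3) ℂ) := by
      filter_upwards [h] with v ⟨w, hw, h0⟩
      rw [hG v w hw] at h0
      simp only [map_sub, map_mul, map_pow, ← hw, map_zero]
      linear_combination (eval v G₀ - w * eval v G₁) * h0
    have h2 := (AnalyticOnNhd.eval_mvPolynomial _).eq_of_eventuallyEq
      (AnalyticOnNhd.eval_mvPolynomial _) h1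
    exact MvPolynomial.funext fun v => congrFun h2 v
  have hN' : G₀ ^ 2 = F * G₁ ^ 2 := sub_eq_zero.1 hN
  have h1 : G₁ = 0 := by
    by_contra hne
    have hd : G₁ ^ 2 ∣ G₀ ^ 2 := ⟨F, by rw [hN', mul_comm]⟩
    obtain ⟨H, hH⟩ := (UniqueFactorizationMonoid.pow_dvd_pow_iff_dvd two_ne_zero).1 hd
    have hF : F = H ^ 2 := by
      have : F * G₁ ^ 2 = H ^ 2 * G₁ ^ 2 := by rw [← hN', hH]; ring
      exact mul_right_cancel₀ (pow_ne_zero 2 hne) this
    have hH0 : eval q H = 0 := by
      rw [hF, map_pow] at hq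
      exact pow_eq_zero_iff two_ne_zero |>.1 hq
    apply hi
    rw [hF, pow_two, Derivation.leibniz]
    simp [hH0]
  have h0 : G₀ = 0 := by
    rw [h1] at hN'
    simpa using hN'
  rw [hG v w hw, h0, h1]
  simp

end Pool.Agent.Lib.MP_cd3a7b_ag
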