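import Pool.Agent.Lib.MP_cd3a7b_ag.H8NodeB

/-! Chains of free entire curves. -/

namespace Pool.Agent.Lib.MP_cd3a7b_ag

open Metric Set Filter Topology TopologicalSpace
open scoped Manifold

variable {E : Type*} [NormedAddCommGroup E] [NormedSpace ℂ E] [FiniteDimensional ℂ E]
  {X : Type*} [TopologicalSpace X] [ChartedSpace E X] [IsManifold 𝓘(ℂ, E) 1 X]

theorem step {f₁ f₂ : C(ℂ, X)} (h₁ : f₁ ∈ Ctr E X) (h₂ : f₂ ∈ Ctr E X) {a b s : ℂ}
    (h0 : f₁ a = f₂ b) {O : Set X} (hO : IsOpen O) (h : f₂ s ∈ O) :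
    f₁ ∈ closure (Ctr E X ∩ Meets O) := by
  by_cases hs : s = b
  · exact subset_closure ⟨h₁, a, by rwa [h0, ← hs]⟩
  let e : ℂ → ℂ := dslope (fun z => -Complex.exp (-z)) 0
  have he : Continuous e := continuous_iff_continuousAt.2 fun z => by
    rcases eq_or_ne z 0 with rfl | hz
    · exact continuousAt_dslope_same.2 (by fun_prop)
    · exact (continuousAt_dslope_of_ne hz).2 (by fun_prop)
  have he' : ∀ z, z * e z = 1 - Complex.exp (-z) := fun z => by
    have := sub_smul_dslope (fun z => -Complex.exp (-z)) 0 z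
    simp only [sub_zero, smul_eq_mul, neg_zero, Complex.exp_zero] at this
    rw [this]; ring
  have he0 : e 0 = 1 := by
    have : HasDerivAt (fun z => -Complex.exp (-z)) (-(Complex.exp (-0) * -1)) 0 :=
      (hasDerivAt_neg' (0 : ℂ)).cexp.neg
    simpa [e, dslope_same] using this.deriv
  let G : C(ℂ × ℂ, X) := f₁.comp ⟨fun p => p.2 * e (p.1 * p.2) * Complex.exp (-(p.1 * p.2)) +
    a * (1 - Complex.exp (-(p.1 * p.2))) ^ 2, by fun_prop⟩
  have G0 : G.curry 0 = f₁ := by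
    ext t
    simp [G, he0]
  refine closure_closure.subset (mem_closure_of_tendsto (f := G.curry) (b := 𝓝[≠] (0 : ℂ))
    ((G0 ▸ G.curry.continuous.tendsto 0).mono_left nhdsWithin_le_nhds) ?_)
  filter_upwards [self_mem_nhdsWithin] with σ hσ
  have hσ' : σ ≠ 0 := hσ
  refine node (f₁ := f₁.comp ⟨fun w => (1 - w) * w / σ + a * (1 - w) ^ 2, by fun_prop⟩)
    (f₂ := f₂.comp ⟨fun w => w + b, by fun_prop⟩)
    (ctr_comp h₁ (u := fun w => (1 - w) * w / σ + a * (1 - w) ^ 2) (by fun_prop) fun _ => rfl)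
    (ctr_comp h₂ (u := fun w => w + b) (by fun_prop) fun _ => rfl) (by simpa using h0)
    (neg_ne_zero.2 hσ') (sub_ne_zero.2 hs) hO (by simpa using h) fun t => congrArg f₁ ?_
  change t * e (σ * t) * _ + _ = (1 - _) * _ / σ + _
  rw [neg_mul, ← he']
  field_simp

theorem nhds_le_map_loc {P : Type*} [NormedAddCommGroup P] [NormedSpace ℂ P] [CompleteSpace P]
    {F : P → X} {x₀ : P} (hF : ∀ᶠ y in 𝓝 x₀, Hol E F y) (h0 : Sbm E F x₀) :
    𝓝 (F x₀) ≤ map F (𝓝 x₀) := by
  have cE : CompleteSpace E := FiniteDimensional.complete ℂ E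
  let φ := chartAt E (F x₀)
  have hx : F x₀ ∈ φ.source := mem_chart_source E _
  have h1 : ∀ᶠ y in 𝓝 x₀, F y ∈ φ.source :=
    hF.self_of_nhds.continuousAt.eventually (φ.open_source.mem_nhds hx)
  have h2 := ((contDiffAt_one ((h1.and hF).mono fun y hy => hy.2.chart hy.1)).hasStrictFDerivAt
    one_ne_zero).map_nhds_eq_of_surj
      (LinearMap.range_eq_top.2 ((sbm_iff hF.self_of_nhds hx).1 h0))
  rw [← φ.symm_map_nhds_eq hx, ← h2, map_map]
  exact (map_congr (h1.mono fun y hy => φ.left_inv hy)).le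

theorem nearby {f : C(ℂ, X)} (hf : f ∈ Ctr E X) (a s : ℂ) {O : Set X} (hO : IsOpen O)
    (h : f s ∈ O) : ∀ᶠ y in 𝓝 (f a), ∃ g ∈ Ctr E X, g a = y ∧ g s ∈ O := by
  have cE : CompleteSpace E := FiniteDimensional.complete ℂ E
  obtain ⟨S, k1, k2, k3⟩ := ctr_at hf a
  rw [← k2]
  refine nhds_le_map_loc (F := fun q => S (a, q)) (k1.mono fun q hq => (hq a).slice) k3 ?_
  refine mem_map.2 ?_
  filter_upwards [ctr_of_spray k1 k3, (k1.self_of_nhds s).slice.continuousAt.eventually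
    (hO.mem_nhds ((k2 s).symm ▸ h : S (s, 0) ∈ O))] with q ⟨g, m1, m2⟩ m3
  exact ⟨g, m1, m2 a, by rwa [m2]⟩

variable (E) in
/-- Two points on a free entire curve. -/
def Lnk (x y : X) : Prop := ∃ f ∈ Ctr E X, x ∈ range f ∧ y ∈ range f

theorem reach {f : C(ℂ, X)} (hf : f ∈ Ctr E X) {a : ℂ} {y : X}
    (h : Relation.ReflTransGen (Lnk E) (f a) y) {O : Set X} (hO : IsOpen O) (hy : y ∈ O) :
    f ∈ closure (Ctr E X ∩ Meets O) := by
  induction h generalizing O with
  | refl => exact subset_closure ⟨hf, a, hy⟩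
  | tail _ h2 ih =>
    obtain ⟨g, k1, ⟨b, rfl⟩, s, rfl⟩ := h2
    obtain ⟨O', m1, m2, m3⟩ := eventually_nhds_iff.1 (nearby k1 b s hO hy)
    refine closure_closure.subset (closure_mono ?_ (ih m2 m3))
    rintro g' ⟨n1, t, n2⟩
    obtain ⟨g'', p1, p2, p3⟩ := m1 _ n2
    exact step n1 p1 p2.symm hO p3

theorem chain_curve [T2Space X] [SecondCountableTopology X] {Z : Set X} (hZ : IsClosed Z)
    (hd : ∀ x : X, dimH (chartAt E x '' (Z ∩ (chartAt E x).source)) + 2 < 2 * Module.finrank ℂ E)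
    {f : C(ℂ, X)} (hf : f ∈ Ctr E X)
    (hi : (interior {y | Relation.ReflTransGen (Lnk E) (f 0) y}).Nonempty) :
    f ∈ closure {g : C(ℂ, X) | (∀ t, Hol E g t) ∧ (∀ t, g t ∉ Z) ∧
      ∀ y, Relation.ReflTransGen (Lnk E) (f 0) y → y ∈ closure (range g)} := by
  have cE : CompleteSpace E := FiniteDimensional.complete ℂ E
  have := FiniteDimensional.proper ℂ E
  have := ChartedSpace.locallyCompactSpace E X
  have := completelyMetrizable X
  have := completelyMetrizable_map X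
  set Ω := interior {y | Relation.ReflTransGen (Lnk E) (f 0) y}
  have hΩ : IsOpen (Meets Ω) := isOpen_meets isOpen_interior
  obtain ⟨x, hx⟩ := hi
  have hfA := reach hf (interior_subset hx) isOpen_interior hx
  have hsy : ∀ {x y : X}, Relation.ReflTransGen (Lnk E) x y → Relation.ReflTransGen (Lnk E) y x :=
    fun h => by
      induction h with
      | refl => exact .refl
      | tail _ h2 ih => exact .head (h2.imp fun _ h => ⟨h.1, h.2.2, h.2.1⟩) ih
  let ι := {O : countableBasis X // ∃ y ∈ O.1, Relation.ReflTransGen (Lnk E) (f 0) y}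
  let C : ℕ ⊕ ι → Set C(ℂ, X) := Sum.elim (fun n => {g | MapsTo g (closedBall 0 n) Zᶜ})
    fun O => Meets O.1.1
  have key := baire_closure (A := Ctr E X ∩ Meets Ω) (C := C) ?_ ?_
  · refine closure_mono ?_ (closure_closure.subset (closure_mono key hfA))
    rintro g ⟨g1, g2⟩
    rw [mem_iInter] at g2
    refine ⟨closure_minimal (fun g hg => ?_) isClosed_hol g1, fun t => ?_, fun y hy => ?_⟩
    · obtain ⟨⟨S, k1, k2, -⟩, -⟩ := hg
      intro t
      rw [← funext k2]
      exact Hol.pre (L := fun t => (t, (0 : E))) (k1.self_of_nhds t) (by fun_prop)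
    · obtain ⟨n, hn⟩ := exists_nat_ge ‖t‖
      exact g2 (Sum.inl n) (mem_closedBall_zero_iff.2 hn)
    · refine (isBasis_countableBasis X).mem_closure_iff.2 fun O hO hyO => ?_
      obtain ⟨t, ht⟩ := g2 (Sum.inr ⟨⟨O, hO⟩, y, hyO, hy⟩)
      exact ⟨_, ht, t, rfl⟩
  · rintro (n | O)
    · exact ContinuousMap.isOpen_setOfPred_mapsTo (isCompact_closedBall _ _) hZ.isOpen_compl
    · exact isOpen_meets (isOpen_of_mem_countableBasis O.1.2)
  · have aux : ∀ (B : Set C(ℂ, X)) (g : C(ℂ, X)), g ∈ Meets Ω → g ∈ closure (Ctr E X ∩ B) →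
        g ∈ closure (Ctr E X ∩ Meets Ω ∩ B) := fun B g k1 k2 =>
      closure_mono (by rintro _ ⟨a, b, c⟩; exact ⟨⟨b, a⟩, c⟩) (hΩ.inter_closure ⟨k1, k2⟩)
    rintro (n | ⟨O, y, hy1, hy2⟩) g ⟨k1, k2⟩
    · refine aux _ g k2 (dense_of_local hZ.isOpen_compl (fun f _ b => local_step hZ hd
        (κ := Empty) (h := fun _ _ => 0) isOpen_univ (fun k => k.elim) isCompact_empty
        (empty_subset _) ?_ f b) (isCompact_closedBall _ _) k1)
      refine (inter_eq_left.2 fun g _ => ?_).symm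
      exact ⟨mapsTo_empty _ _, linearIndependent_empty_type⟩
    · obtain ⟨t, ht⟩ := id k2
      exact aux _ g k2 (reach k1 ((hsy (interior_subset ht)).trans hy2)
        (isOpen_of_mem_countableBasis O.2) hy1)

end Pool.Agent.Lib.MP_cd3a7b_ag
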