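import Mathlib

/-! The cone over a double plane. -/

namespace Pool.Agent.Lib.MP_cd3a7b_ag

/-- Coordinates `(v, w)` of weights `(1, 1, 1, 3)`. -/
abbrev W : Type := (Fin 3 → ℂ) × ℂ

/-- The weighted action of the scalars. -/
def act (c : ℂ) (y : W) : W := (c • y.1, c ^ 3 * y.2)

/-- The punctured cone over the double plane `w ^ 2 = f v`. -/
def Cone (f : (Fin 3 → ℂ) → ℂ) : Set W := {y | y.1 ≠ 0 ∧ y.2 ^ 2 = f y.1}

/-- A binary quartic form whose value at `(0, 1)` is the square of `c 0`. -/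
def Qd (c : Fin 5 → ℂ) (a b : ℂ) : ℂ :=
  c 0 ^ 2 * b ^ 4 + c 1 * a * b ^ 3 + c 2 * a ^ 2 * b ^ 2 + c 3 * a ^ 3 * b + c 4 * a ^ 4

end Pool.Agent.Lib.MP_cd3a7b_ag
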