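import Pool.Agent.Lib.MP_cd3a7b_ag.HSpace

/-! TASK ODE: local flows of holomorphic vector fields. -/

namespace Pool.Agent.Lib.MP_cd3a7b_ag

open Metric Set Filter Topology

variable {E : Type} [NormedAddCommGroup E] [NormedSpace ℂ E] [FiniteDimensional ℂ E]

omit [FiniteDimensional ℂ E] in
theorem mvt_ode {f f' : ℂ → E} {c : ℂ} {r C : ℝ} (hd : ∀ t ∈ ball c r, HasDerivAt f (f' t) t)
    (hb : ∀ t ∈ ball c r, ‖f' t‖ ≤ C) (h0 : f c = 0) {t : ℂ} (ht : t ∈ ball c r) :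
    ‖f t‖ ≤ C * r := by
  have hc : c ∈ ball c r := mem_ball_self (pos_of_mem_ball ht)
  have := (convex_ball c r).norm_image_sub_le_of_norm_hasDerivWithin_le
    (fun x hx => (hd x hx).hasDerivWithinAt) hb hc ht
  rw [h0, sub_zero] at this
  exact this.trans (mul_le_mul_of_nonneg_left (mem_ball_iff_norm.1 ht).le
    ((norm_nonneg _).trans (hb c hc)))

theorem prim_ode : ∃ P : HS (ball 0 1) E →L[ℂ] HS (ball 0 1) E, ∀ h, (P h).1 0 = 0 ∧
    ∀ t ∈ ball (0 : ℂ) 1, HasDerivAt (fun t => (P h).1 t) (h.1 t) t := by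
  have cE : CompleteSpace E := FiniteDimensional.complete ℂ E
  have ex : ∀ h : HS (ball 0 1) E, ∃ g : HS (ball 0 1) E, g.1 0 = 0 ∧
      ∀ t ∈ ball (0 : ℂ) 1, HasDerivAt (fun t => g.1 t) (h.1 t) t := fun h => by
    obtain ⟨f, hf⟩ := (HS_diff h).isExactOn_ball
    have hf' : ∀ t ∈ ball (0 : ℂ) 1, HasDerivAt (fun t => f t - f 0) (h.1 t) t := fun t ht =>
      (hf t ht).sub_const _
    obtain ⟨g, hg⟩ := exists_mk (U := ball 0 1) (fun t => f t - f 0)
      (fun t ht => (hf' t ht).differentiableAt.differentiableWithinAt)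
      fun t ht => mvt_ode hf' (fun t _ => HS_norm_apply h t) (sub_self _) ht
    refine ⟨g, by rw [hg 0 (mem_ball_self one_pos), sub_self], fun t ht => ?_⟩
    exact (hf' t ht).congr_of_eventuallyEq (eventually_of_mem (isOpen_ball.mem_nhds ht) hg)
  choose g g0 gd using ex
  have bd : ∀ f h : HS (ball 0 1) E, f.1 0 = 0 →
      (∀ t ∈ ball (0 : ℂ) 1, HasDerivAt (fun t => f.1 t) (h.1 t) t) → ‖f‖ ≤ 1 * ‖h‖ :=
    fun f h h0 hd => HS_norm_le _ (by positivity) fun t ht =>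
      (mvt_ode hd (fun t _ => HS_norm_apply h t) h0 ht).trans_eq (mul_comm _ _)
  have un : ∀ f h : HS (ball 0 1) E, f.1 0 = 0 →
      (∀ t ∈ ball (0 : ℂ) 1, HasDerivAt (fun t => f.1 t) (h.1 t) t) → g h = f :=
    fun f h h0 hd => by
      have := bd (g h - f) 0 (by rw [HS_sub, g0, h0, sub_self]) fun t ht => by
        simpa using (gd h t ht).fun_sub (hd t ht)
      rwa [norm_zero, mul_zero, norm_le_zero_iff, sub_eq_zero] at this
  let L : HS (ball 0 1) E →ₗ[ℂ] HS (ball 0 1) E :=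
    { toFun := g
      map_add' := fun p q => un _ _ (by rw [HS_add, g0, g0, add_zero]) fun t ht =>
        (gd p t ht).fun_add (gd q t ht)
      map_smul' := fun c p => un _ _ (by rw [HS_smul, g0, smul_zero]) fun t ht =>
        (gd p t ht).fun_const_smul c }
  exact ⟨L.mkContinuous 1 fun h => bd _ _ (g0 h) (gd h), fun h => ⟨g0 h, gd h⟩⟩

theorem local_flow {V : E → E} (hV : Differentiable ℂ V) (y₀ : E) :
    ∃ ρ : ℝ, 0 < ρ ∧ ∃ φ : ℂ × E → E, ∀ y ∈ ball y₀ ρ, φ (0, y) = y ∧ ∀ s ∈ ball (0 : ℂ) ρ,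
      DifferentiableAt ℂ φ (s, y) ∧ HasDerivAt (fun s => φ (s, y)) (V (φ (s, y))) s := by
  have cE : CompleteSpace E := FiniteDimensional.complete ℂ E
  have c1 := completeSpace_HS (F := E) (U := ball 0 1) isOpen_ball
  obtain ⟨r, hr, C, -, hC⟩ := exists_ball_bound (f := fun x => V (y₀ + x)) (x := 0)
    (Eventually.of_forall fun x => by fun_prop)
  obtain ⟨N, hN, dN⟩ := exists_nem (U := ball 0 1) isOpen_ball (fun z : ℂ × E => V (y₀ + z.2))
    (fun t _ x _ => by fun_prop) fun t _ => hC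
  obtain ⟨P, hP⟩ := prim_ode (E := E)
  obtain ⟨c, hc⟩ := exists_cst (F := E) (ball 0 1)
  let Y := (ℂ × E) × HS (ball 0 1) E
  let L : Y →L[ℂ] HS (ball 0 1) E := ContinuousLinearMap.snd ℂ _ _ +
    c.comp ((ContinuousLinearMap.snd ℂ ℂ E).comp (ContinuousLinearMap.fst ℂ _ _))
  let S : Y →L[ℂ] ℂ := (ContinuousLinearMap.fst ℂ ℂ E).comp (ContinuousLinearMap.fst ℂ _ _)
  let F : Y → HS (ball 0 1) E := fun y => P (N (L y)) - P (N 0)
  let Θ : Y → Y := fun y => (y.1, y.2 - S y • F y)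
  have small : ∀ᶠ y in 𝓝 (0 : Y), ‖L y‖ < r :=
    L.continuous.norm.continuousAt.eventually (gt_mem_nhds (by simpa using hr))
  have dF : ∀ᶠ y in 𝓝 (0 : Y), DifferentiableAt ℂ F y := by
    filter_upwards [small] with y hy
    obtain ⟨D, hD, -⟩ := dN _ hy
    exact (P.differentiableAt.comp y (hD.differentiableAt.comp y L.differentiableAt)).sub_const _
  have dΘ : ∀ᶠ y in 𝓝 (0 : Y), DifferentiableAt ℂ Θ y := by
    filter_upwards [dF] with y hy
    exact differentiableAt_fst.prodMk (differentiableAt_snd.sub (S.differentiableAt.fun_smul hy))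
  have F0 : F 0 = 0 := by simp [F]
  have hΘ0 : HasFDerivAt Θ ((ContinuousLinearEquiv.refl ℂ Y : Y ≃L[ℂ] Y) : Y →L[ℂ] Y) 0 := by
    have h2 := hasFDerivAt_fst.prodMk (hasFDerivAt_snd.sub
      (S.hasFDerivAt.fun_smul dF.self_of_nhds.hasFDerivAt))
    refine h2.congr_fderiv (ContinuousLinearMap.ext fun y => Prod.ext rfl ?_)
    simp [F0]
    rfl
  have hC1 : ContDiffAt ℂ 1 Θ 0 := contDiffAt_one dΘ
  have hS := hC1.hasStrictFDerivAt' hΘ0 one_ne_zero
  have Θ0 : Θ 0 = 0 := by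
    simp only [Θ, F0, smul_zero, sub_zero]
    rfl
  let Ψ : Y → Y := hC1.localInverse hΘ0 one_ne_zero
  have Ψ0 : Ψ 0 = 0 := by
    have := hC1.localInverse_apply_image hΘ0 one_ne_zero
    rwa [Θ0] at this
  have cΨ : ContDiffAt ℂ 1 Ψ 0 := by
    have := hC1.to_localInverse hΘ0 one_ne_zero
    rwa [Θ0] at this
  have rΨ : ∀ᶠ y in 𝓝 (0 : Y), Θ (Ψ y) = y := by
    have := hS.eventually_right_inverse
    rwa [Θ0] at this
  have dΨ : ∀ᶠ y in 𝓝 (0 : Y), DifferentiableAt ℂ Ψ y :=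
    (cΨ.eventually (by simp)).mono fun y hy => hy.differentiableAt one_ne_zero
  let j : ℂ × E → Y := fun p => (p, p.1 • P (N 0))
  have dj : Differentiable ℂ j := differentiable_id.prodMk (differentiable_fst.smul_const _)
  have tj : Tendsto j (𝓝 0) (𝓝 0) := dj.continuous.tendsto' 0 0 (Prod.ext rfl (zero_smul ℂ _))
  have tΨ : Tendsto Ψ (𝓝 0) (𝓝 0) := by
    have := cΨ.continuousAt.tendsto
    rwa [Ψ0] at this
  obtain ⟨δ, hδ, h⟩ := Metric.eventually_nhds_iff_ball.1 ((tj.eventually dΨ).and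
    ((tj.eventually rΨ).and ((tΨ.comp tj).eventually small)))
  have h2 : 0 < δ / 2 := half_pos hδ
  have h3 : ((δ / 2 : ℝ) : ℂ) ≠ 0 := Complex.ofReal_ne_zero.2 h2.ne'
  refine ⟨δ / 2, h2, fun z => y₀ + (L (Ψ (j ((δ / 2 : ℝ), z.2 - y₀)))).1 (z.1 / (δ / 2 : ℝ)),
    fun y hy => ?_⟩
  obtain ⟨k1, k2, k3⟩ := h ((δ / 2 : ℝ), y - y₀) (by
    rw [mem_ball_zero_iff, Prod.norm_def, max_lt_iff, Complex.norm_real, Real.norm_of_nonneg h2.le]
    exact ⟨by linarith, (mem_ball_iff_norm.1 hy).trans (by linarith)⟩)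
  simp only [Function.comp_apply] at k3
  have e1 : (Ψ (j ((δ / 2 : ℝ), y - y₀))).1 = (((δ / 2 : ℝ) : ℂ), y - y₀) := congrArg Prod.fst k2
  have e2 : L (Ψ (j ((δ / 2 : ℝ), y - y₀))) =
      ((δ / 2 : ℝ) : ℂ) • P (N (L (Ψ (j ((δ / 2 : ℝ), y - y₀))))) + c (y - y₀) := by
    have e3 := congrArg Prod.snd k2
    change _ - (Ψ _).1.1 • (P _ - P _) = ((δ / 2 : ℝ) : ℂ) • P _ at e3
    rw [e1, smul_sub, sub_eq_iff_eq_add, add_sub_cancel] at e3
    rw [← e3]
    change _ + c (Ψ _).1.2 = _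
    rw [e1]
    rfl
  refine ⟨?_, fun s hs => ?_⟩
  · simp only [zero_div]
    rw [e2, HS_add, HS_smul, (hP _).1, hc _ 0 (mem_ball_self one_pos)]
    simp
  have hs' : s / (δ / 2 : ℝ) ∈ ball (0 : ℂ) 1 := by
    rw [mem_ball_zero_iff, norm_div, Complex.norm_real, Real.norm_of_nonneg h2.le, div_lt_one h2]
    exact mem_ball_zero_iff.1 hs
  refine ⟨?_, ?_⟩
  · exact (DifferentiableAt.comp (s, y) (f := fun z : ℂ × E =>
      (z.1 / (δ / 2 : ℝ), (((δ / 2 : ℝ) : ℂ), z.2 - y₀))) (differentiableAt_eval isOpen_ball hs'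
        (L.differentiableAt.comp _ (k1.comp _ (dj _)))) (by fun_prop)).const_add y₀
  · simp only
    generalize L (Ψ (j ((δ / 2 : ℝ), y - y₀))) = η at e2 k3
    have d1 : HasDerivAt (fun t => η.1 t) (((δ / 2 : ℝ) : ℂ) • V (y₀ + η.1 (s / (δ / 2 : ℝ))))
        (s / (δ / 2 : ℝ)) := by
      have := (((hP (N η)).2 _ hs').fun_const_smul ((δ / 2 : ℝ) : ℂ)).add_const (y - y₀)
      rw [hN η k3 _ hs'] at this
      refine this.congr_of_eventuallyEq (eventually_of_mem (isOpen_ball.mem_nhds hs')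
        fun t ht => ?_)
      rw [← hc (y - y₀) t ht]
      exact congrArg (fun g : HS (ball 0 1) E => g.1 t) e2
    have d2 := (d1.scomp s ((hasDerivAt_id s).div_const _)).const_add y₀
    rw [smul_smul, one_div_mul_cancel h3, one_smul] at d2
    exact d2

theorem ode_unique {V : E → E} (hV : Differentiable ℂ V) {y₁ y₂ : ℂ → E} {s₀ : ℂ}
    (h₁ : ∀ᶠ s in 𝓝 s₀, HasDerivAt y₁ (V (y₁ s)) s) (h₂ : ∀ᶠ s in 𝓝 s₀, HasDerivAt y₂ (V (y₂ s)) s)
    (h : y₁ s₀ = y₂ s₀) : y₁ =ᶠ[𝓝 s₀] y₂ := by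
  obtain ⟨K, T, hT, hK⟩ := (contDiffAt_one (x := y₁ s₀)
    (Eventually.of_forall hV)).exists_lipschitzOnWith
  have c1 := h₁.self_of_nhds.continuousAt
  have c2 := h₂.self_of_nhds.continuousAt
  have c3 : ∀ᶠ s in 𝓝 s₀, ‖y₁ s - y₂ s‖ < 1 :=
    (c1.sub c2).norm.eventually (gt_mem_nhds (by simp [h]))
  obtain ⟨δ, hδ, k⟩ := Metric.eventually_nhds_iff_ball.1 (h₁.and (h₂.and (c3.and
    ((c1.eventually hT).and (c2.eventually (h ▸ hT))))))
  have hK0 : (0 : ℝ) < 2 * (K + 1) := by positivity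
  set r := min δ (1 / (2 * (K + 1))) with hr
  have r0 : 0 < r := lt_min hδ (by positivity)
  have r1 : ball s₀ r ⊆ ball s₀ δ := ball_subset_ball (min_le_left _ _)
  have r2 : K * r ≤ 1 / 2 := by
    have := (le_div_iff₀ hK0).1 (min_le_right δ (1 / (2 * (K + 1))))
    nlinarith
  have key : ∀ n : ℕ, ∀ s ∈ ball s₀ r, ‖y₁ s - y₂ s‖ ≤ (1 / 2) ^ n := fun n => by
    induction n with
    | zero => exact fun s hs => (k s (r1 hs)).2.2.1.le.trans_eq (pow_zero _).symm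
    | succ n ih =>
      intro s hs
      refine (mvt_ode (C := K * (1 / 2) ^ n)
        (fun t ht => (k t (r1 ht)).1.fun_sub (k t (r1 ht)).2.1) (fun t ht => ?_)
        (sub_eq_zero.2 h) hs).trans ?_
      · exact (hK.norm_sub_le (k t (r1 ht)).2.2.2.1 (k t (r1 ht)).2.2.2.2).trans
          (mul_le_mul_of_nonneg_left (ih t ht) K.2)
      · rw [pow_succ, mul_right_comm, mul_comm]
        exact mul_le_mul_of_nonneg_left r2 (by positivity)
  filter_upwards [ball_mem_nhds s₀ r0] with s hs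
  rw [← sub_eq_zero, ← norm_le_zero_iff]
  exact ge_of_tendsto' (tendsto_pow_atTop_nhds_zero_of_lt_one (by norm_num) (by norm_num))
    fun n => key n s hs

end Pool.Agent.Lib.MP_cd3a7b_ag
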