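import Pool.Agent.Lib.MP_cd3a7b_ag.H8Defs
import Pool.Agent.Lib.MP_cd3a7b_ag.H8Ode

/-! TASK FLOW: uniformisation of the curves `u ^ 2 = Q (a, b)` in families. -/

namespace Pool.Agent.Lib.MP_cd3a7b_ag

open Metric Set Filter Topology

/-- The quartic in the two affine charts. -/
def q_flo : Bool → (Fin 5 → ℂ) → ℂ → ℂ
  | true, c, t => Qd c t 1
  | false, c, t => Qd c 1 t

/-- Half of the derivative of the quartic. -/
noncomputable def r_flo : Bool → (Fin 5 → ℂ) → ℂ → ℂ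
  | true, c, t => (c 1 + 2 * c 2 * t + 3 * c 3 * t ^ 2 + 4 * c 4 * t ^ 3) / 2
  | false, c, t => (4 * c 0 ^ 2 * t ^ 3 + 3 * c 1 * t ^ 2 + 2 * c 2 * t + c 3) / 2

/-- The vector field in a chart. -/
noncomputable def V_flo (σ : Bool) (c : Fin 5 → ℂ) (y : ℂ × ℂ) : ℂ × ℂ := (y.2, r_flo σ c y.1)

open Classical in
/-- Normalised weighted coordinates of a point of a chart. -/
noncomputable def e_flo : Bool → ℂ × ℂ → ℂ × ℂ × ℂ
  | true, y => (y.1, 1, y.2)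
  | false, y => if y.1 = 0 then (1, 0, -y.2) else (y.1⁻¹, 1, -y.2 / y.1 ^ 2)

/-- The change of charts. -/
noncomputable def t_flo (y : ℂ × ℂ) : ℂ × ℂ := (y.1⁻¹, -y.2 / y.1 ^ 2)

/-- Local solutions. -/
def Sol_flo (c : Fin 5 → ℂ) (Y : ℂ → ℂ × ℂ × ℂ) (s₀ : ℂ) : Prop :=
  ∃ σ, ∃ y : ℂ → ℂ × ℂ, ∀ᶠ s in 𝓝 s₀, HasDerivAt y (V_flo σ c (y s)) s ∧
    (y s).2 ^ 2 = q_flo σ c (y s).1 ∧ Y s = e_flo σ (y s)

lemma hasDerivAt_q_flo (σ : Bool) (c : Fin 5 → ℂ) (t : ℂ) :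
    HasDerivAt (q_flo σ c) (2 * r_flo σ c t) t := by
  have h := hasDerivAt_id' t
  cases σ
  · have := ((((((h.fun_pow 4).const_mul (c 0 ^ 2)).fun_add ((h.fun_pow 3).const_mul
      (c 1 * 1))).fun_add ((h.fun_pow 2).const_mul (c 2 * 1 ^ 2))).fun_add
      (h.const_mul (c 3 * 1 ^ 3))).add_const (c 4 * 1 ^ 4))
    refine this.congr_deriv ?_
    simp only [r_flo]
    norm_num
    ring
  · have := (((((h.const_mul (c 1)).mul_const (1 ^ 3)).const_add (c 0 ^ 2 * 1 ^ 4)).fun_add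
      (((h.fun_pow 2).const_mul (c 2)).mul_const (1 ^ 2))).fun_add
      (((h.fun_pow 3).const_mul (c 3)).mul_const 1)).fun_add ((h.fun_pow 4).const_mul (c 4))
    refine this.congr_deriv ?_
    simp only [r_flo]
    norm_num
    ring

lemma fst_flo {F G : Type} [NormedAddCommGroup F] [NormedSpace ℂ F] [NormedAddCommGroup G]
    [NormedSpace ℂ G] {f : ℂ → F × G} {v : F × G} {s : ℂ} (h : HasDerivAt f v s) :
    HasDerivAt (fun s => (f s).1) v.1 s :=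
  (ContinuousLinearMap.fst ℂ F G).hasFDerivAt.comp_hasDerivAt s h

lemma snd_flo {F G : Type} [NormedAddCommGroup F] [NormedSpace ℂ F] [NormedAddCommGroup G]
    [NormedSpace ℂ G] {f : ℂ → F × G} {v : F × G} {s : ℂ} (h : HasDerivAt f v s) :
    HasDerivAt (fun s => (f s).2) v.2 s :=
  (ContinuousLinearMap.snd ℂ F G).hasFDerivAt.comp_hasDerivAt s h

lemma diff_r_flo (σ : Bool) :
    Differentiable ℂ fun x : (Fin 5 → ℂ) × ℂ × ℂ => r_flo σ x.1 x.2.1 := by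
  cases σ <;> simp only [r_flo] <;> fun_prop

lemma diff_V_flo (σ : Bool) (c : Fin 5 → ℂ) : Differentiable ℂ (V_flo σ c) := by
  have : Differentiable ℂ fun y : ℂ × ℂ => r_flo σ c y.1 :=
    (diff_r_flo σ).comp (f := fun y : ℂ × ℂ => (c, y)) (by fun_prop)
  exact differentiable_snd.prodMk this

lemma e_inj_flo (σ : Bool) : Function.Injective (e_flo σ) := by
  rintro ⟨t, u⟩ ⟨t', u'⟩ h
  cases σ
  · simp only [e_flo] at h
    split_ifs at h with h1 h2 h2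
    · simp_all
    · simp_all
    · simp_all
    · simp only [Prod.mk.injEq, inv_inj, true_and] at h
      obtain ⟨rfl, h⟩ := h
      field_simp at h
      simp_all
  · simpa [e_flo] using h

lemma e_rel_flo (y y' : ℂ × ℂ) :
    e_flo true y = e_flo false y' ↔ y.1 * y'.1 = 1 ∧ y.2 * y'.1 ^ 2 = -y'.2 := by
  obtain ⟨t, u⟩ := y
  obtain ⟨t', u'⟩ := y'
  simp only [e_flo]
  split_ifs with h
  · simp [h]
  · simp only [Prod.mk.injEq, true_and]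
    rw [eq_div_iff (pow_ne_zero 2 h), ← mul_eq_one_iff_eq_inv₀ h]

lemma e_t_flo (σ : Bool) {y : ℂ × ℂ} (h : y.1 ≠ 0) : e_flo (!σ) (t_flo y) = e_flo σ y := by
  cases σ
  · simp [e_flo, t_flo, h]
  · refine ((e_rel_flo _ _).2 ⟨mul_inv_cancel₀ h, ?_⟩).symm
    simp only [t_flo]
    field_simp

lemma e_ne_flo {σ : Bool} {y y' : ℂ × ℂ} (h : e_flo σ y = e_flo (!σ) y') : y.1 ≠ 0 := by
  cases σ
  · exact right_ne_zero_of_mul_eq_one ((e_rel_flo _ _).1 h.symm).1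
  · exact left_ne_zero_of_mul_eq_one ((e_rel_flo _ _).1 h).1

lemma closed_flo (σ σ' : Bool) :
    IsClosed {x : (ℂ × ℂ) × ℂ × ℂ | e_flo σ x.1 = e_flo σ' x.2} := by
  cases σ <;> cases σ'
  · simp only [(e_inj_flo _).eq_iff]
    exact isClosed_eq continuous_fst continuous_snd
  · simp only [eq_comm (a := e_flo false _), e_rel_flo]
    exact (isClosed_eq (by fun_prop) (by fun_prop)).inter (isClosed_eq (by fun_prop) (by fun_prop))
  · simp only [e_rel_flo]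
    exact (isClosed_eq (by fun_prop) (by fun_prop)).inter (isClosed_eq (by fun_prop) (by fun_prop))
  · simp only [(e_inj_flo _).eq_iff]
    exact isClosed_eq continuous_fst continuous_snd

lemma on_iff_flo (σ : Bool) (c : Fin 5 → ℂ) (y : ℂ × ℂ) :
    (e_flo σ y).2.2 ^ 2 = Qd c (e_flo σ y).1 (e_flo σ y).2.1 ↔ y.2 ^ 2 = q_flo σ c y.1 := by
  cases σ
  · simp only [e_flo, q_flo]
    split_ifs with h
    · simp [h]
    · have e : Qd c y.1⁻¹ 1 = Qd c 1 y.1 / y.1 ^ 4 := by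
        simp only [Qd]
        field_simp
      rw [e, div_pow, neg_sq, ← pow_mul, div_left_inj' (pow_ne_zero _ h)]
  · rfl

lemma deriv_t_flo {σ : Bool} {c : Fin 5 → ℂ} {y : ℂ → ℂ × ℂ} {s : ℂ}
    (h : HasDerivAt y (V_flo σ c (y s)) s) (h0 : (y s).1 ≠ 0)
    (hq : (y s).2 ^ 2 = q_flo σ c (y s).1) :
    HasDerivAt (fun s => t_flo (y s)) (V_flo (!σ) c (t_flo (y s))) s := by
  have h1 : HasDerivAt (fun s => (y s).1) (y s).2 s := fst_flo h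
  have h2 : HasDerivAt (fun s => (y s).2) (r_flo σ c (y s).1) s := snd_flo h
  have h3 := (h1.fun_inv h0).prodMk (h2.fun_neg.fun_div (h1.fun_pow 2) (pow_ne_zero 2 h0))
  refine h3.congr_deriv (Prod.ext rfl ?_)
  cases σ <;> simp only [V_flo, t_flo, r_flo, q_flo, Qd, Bool.not_true, Bool.not_false] at hq ⊢ <;>
    field_simp
  · linear_combination 4 * (y s).1 * hq
  · linear_combination 4 * (y s).1 * hq

lemma chart_flo {c : Fin 5 → ℂ} {Y : ℂ → ℂ × ℂ × ℂ} {s₀ : ℂ} (h : Sol_flo c Y s₀) {σ : Bool}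
    {p : ℂ × ℂ} (hp : Y s₀ = e_flo σ p) : ∃ y : ℂ → ℂ × ℂ, y s₀ = p ∧ ∀ᶠ s in 𝓝 s₀,
      HasDerivAt y (V_flo σ c (y s)) s ∧ (y s).2 ^ 2 = q_flo σ c (y s).1 ∧ Y s = e_flo σ (y s) := by
  obtain ⟨σ', y, h⟩ := h
  have h0 := h.self_of_nhds
  by_cases hσ : σ = σ'
  · subst hσ
    exact ⟨y, e_inj_flo σ (h0.2.2.symm.trans hp), h⟩
  · obtain rfl : σ = !σ' := by cases σ <;> cases σ' <;> simp_all
    have h1 := e_ne_flo (h0.2.2.symm.trans hp)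
    refine ⟨fun s => t_flo (y s), e_inj_flo _ ((e_t_flo _ h1).trans (h0.2.2.symm.trans hp)), ?_⟩
    filter_upwards [h, h0.1.continuousAt.fst.eventually_ne h1] with s hs hs0
    refine ⟨deriv_t_flo hs.1 hs0 hs.2.1, ?_, hs.2.2.trans (e_t_flo _ hs0).symm⟩
    rw [← on_iff_flo, e_t_flo _ hs0, on_iff_flo]
    exact hs.2.1

lemma uniq_flo {c : Fin 5 → ℂ} {Y Z : ℂ → ℂ × ℂ × ℂ} {U : Set ℂ} (hU : IsPreconnected U)
    (hY : ∀ s ∈ U, Sol_flo c Y s) (hZ : ∀ s ∈ U, Sol_flo c Z s) {s₀ : ℂ} (h0 : s₀ ∈ U)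
    (h : Y s₀ = Z s₀) : EqOn Y Z U := by
  have key : ∀ s ∈ U, Y s = Z s → Y =ᶠ[𝓝 s] Z := fun s hs e => by
    obtain ⟨σ, y, hy⟩ := hY s hs
    obtain ⟨z, hz0, hz⟩ := chart_flo (hZ s hs) (e.symm.trans hy.self_of_nhds.2.2)
    filter_upwards [ode_unique (diff_V_flo σ c) (hy.mono fun _ h => h.1) (hz.mono fun _ h => h.1)
      hz0.symm, hy, hz] with s h1 h2 h3
    rw [h2.2.2, h3.2.2, h1]
  have : U ⊆ {s | Y =ᶠ[𝓝 s] Z} := by
    refine hU.subset_of_closure_inter_subset isOpen_setOfPred_eventually_nhds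
      ⟨s₀, h0, key _ h0 h⟩ fun s ⟨hs, hsU⟩ => key s hsU ?_
    obtain ⟨σ, y, hy⟩ := hY s hsU
    obtain ⟨σ', z, hz⟩ := hZ s hsU
    have h1 := hy.self_of_nhds
    have h2 := hz.self_of_nhds
    rw [h1.2.2, h2.2.2]
    refine (closed_flo σ σ').mem_of_frequently_of_tendsto (f := fun s => (y s, z s)) (b := 𝓝 s)
      (x := (y s, z s)) ?_
      (h1.1.continuousAt.prodMk h2.1.continuousAt)
    refine ((mem_closure_iff_frequently.1 hs).and_eventually (hy.and hz)).mono ?_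
    rintro s ⟨a, b, c⟩
    change e_flo σ (y s) = e_flo σ' (z s)
    rw [← b.2.2, ← c.2.2]
    exact EventuallyEq.eq_of_nhds a
  exact fun s hs => EventuallyEq.eq_of_nhds (this hs)

lemma congr_flo {c : Fin 5 → ℂ} {Y Z : ℂ → ℂ × ℂ × ℂ} {s : ℂ} (h : Sol_flo c Y s)
    (e : Z =ᶠ[𝓝 s] Y) : Sol_flo c Z s := by
  obtain ⟨σ, y, hy⟩ := h
  refine ⟨σ, y, ?_⟩
  filter_upwards [hy, e] with s h1 h2
  exact ⟨h1.1, h1.2.1, h2.trans h1.2.2⟩

lemma const_flo {F : Type} [NormedAddCommGroup F] [NormedSpace ℂ F] {f : ℂ → F} {ρ : ℝ}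
    (h : ∀ s ∈ ball (0 : ℂ) ρ, HasDerivAt f 0 s) {s : ℂ} (hs : s ∈ ball (0 : ℂ) ρ) : f s = f 0 :=
  isOpen_ball.is_const_of_deriv_eq_zero (convex_ball _ _).isPreconnected
    (fun s hs => (h s hs).differentiableAt.differentiableWithinAt) (fun s hs => (h s hs).deriv) hs
    (mem_ball_self (pos_of_mem_ball hs))

lemma local_flo (σ : Bool) (c₀ : Fin 5 → ℂ) (y₀ : ℂ × ℂ) :
    ∃ ρ : ℝ, 0 < ρ ∧ ∃ φ : ℂ × (Fin 5 → ℂ) × ℂ × ℂ → ℂ × ℂ, ∀ c ∈ ball c₀ ρ, ∀ y ∈ ball y₀ ρ,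
      φ (0, c, y) = y ∧ (∀ s ∈ ball (0 : ℂ) ρ, DifferentiableAt ℂ φ (s, c, y)) ∧
      (y.2 ^ 2 = q_flo σ c y.1 → ∀ s₁, ∀ s ∈ ball s₁ ρ,
        Sol_flo c (fun s => e_flo σ (φ (s - s₁, c, y))) s) := by
  obtain ⟨ρ, hρ, φ, h⟩ := local_flow
    (V := fun x : (Fin 5 → ℂ) × ℂ × ℂ => ((0 : Fin 5 → ℂ), x.2.2, r_flo σ x.1 x.2.1))
    ((differentiable_const _).prodMk (differentiable_snd.snd.prodMk (diff_r_flo σ))) (c₀, y₀)
  refine ⟨ρ, hρ, fun z => (φ z).2, fun c hc y hy => ?_⟩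
  obtain ⟨h0, h1⟩ := h (c, y) (by rw [← ball_prod_same]; exact ⟨hc, hy⟩)
  refine ⟨congrArg Prod.snd h0, fun s hs => (h1 s hs).1.snd, fun hq s₁ s hs => ?_⟩
  have h2 : ∀ s ∈ ball (0 : ℂ) ρ, (φ (s, c, y)).1 = c := fun s hs => by
    rw [const_flo (f := fun s => (φ (s, c, y)).1) (fun s hs => fst_flo (h1 s hs).2) hs, h0]
  have h3 : ∀ s ∈ ball (0 : ℂ) ρ,
      HasDerivAt (fun s => (φ (s, c, y)).2) (V_flo σ c (φ (s, c, y)).2) s := fun s hs => by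
    have := snd_flo (h1 s hs).2
    rw [h2 s hs] at this
    exact this
  have h4 : ∀ s ∈ ball (0 : ℂ) ρ, (φ (s, c, y)).2.2 ^ 2 = q_flo σ c (φ (s, c, y)).2.1 :=
    fun s hs => by
    have := const_flo (f := fun s => (φ (s, c, y)).2.2 ^ 2 - q_flo σ c (φ (s, c, y)).2.1)
      (fun s hs => by
        refine (((snd_flo (h3 s hs)).fun_pow 2).fun_sub
          ((hasDerivAt_q_flo σ c _).comp s (fst_flo (h3 s hs)))).congr_deriv ?_
        simp only [V_flo]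
        norm_num
        ring) hs
    rw [h0, hq, sub_self, sub_eq_zero] at this
    exact this
  refine ⟨σ, fun s => (φ (s - s₁, c, y)).2, ?_⟩
  filter_upwards [isOpen_ball.mem_nhds hs] with s hs
  have hs' : s - s₁ ∈ ball (0 : ℂ) ρ := by rwa [mem_ball_zero_iff, ← mem_ball_iff_norm]
  exact ⟨(h3 _ hs').comp_sub_const s s₁, h4 _ hs', rfl⟩

lemma radius_flo (σ : Bool) (c : Fin 5 → ℂ) : ∃ ρ : ℝ, 0 < ρ ∧ ∀ y : ℂ × ℂ, ‖y.1‖ ≤ 1 →
    y.2 ^ 2 = q_flo σ c y.1 → ∀ s₁, ∃ Z, Z s₁ = e_flo σ y ∧ ∀ s ∈ ball s₁ ρ, Sol_flo c Z s := by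
  have hq : Continuous (q_flo σ c) :=
    continuous_iff_continuousAt.2 fun t => (hasDerivAt_q_flo σ c t).continuousAt
  obtain ⟨M, hM⟩ := (isCompact_closedBall (0 : ℂ) 1).exists_bound_of_continuousOn hq.continuousOn
  have hK := (isCompact_closedBall (0 : ℂ) 1).prod (isCompact_closedBall (0 : ℂ) (M + 1))
  obtain ⟨ρ, hρ, h⟩ : ∃ ρ : ℝ, 0 < ρ ∧ ∀ y ∈ closedBall (0 : ℂ) 1 ×ˢ closedBall (0 : ℂ) (M + 1),
      y.2 ^ 2 = q_flo σ c y.1 → ∀ s₁, ∃ Z, Z s₁ = e_flo σ y ∧ ∀ s ∈ ball s₁ ρ, Sol_flo c Z s := by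
    refine hK.induction_on (p := fun S => ∃ ρ : ℝ, 0 < ρ ∧ ∀ y ∈ S, y.2 ^ 2 = q_flo σ c y.1 →
      ∀ s₁, ∃ Z, Z s₁ = e_flo σ y ∧ ∀ s ∈ ball s₁ ρ, Sol_flo c Z s) ⟨1, one_pos, by simp⟩ ?_ ?_ ?_
    · rintro S T hST ⟨ρ, hρ, h⟩
      exact ⟨ρ, hρ, fun y hy => h y (hST hy)⟩
    · rintro S T ⟨ρ, hρ, h⟩ ⟨ρ', hρ', h'⟩
      refine ⟨min ρ ρ', lt_min hρ hρ', fun y hy hq s₁ => ?_⟩
      rcases hy with hy | hy
      · obtain ⟨Z, h1, h2⟩ := h y hy hq s₁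
        exact ⟨Z, h1, fun s hs => h2 s (ball_subset_ball (min_le_left _ _) hs)⟩
      · obtain ⟨Z, h1, h2⟩ := h' y hy hq s₁
        exact ⟨Z, h1, fun s hs => h2 s (ball_subset_ball (min_le_right _ _) hs)⟩
    · intro y₀ _
      obtain ⟨ρ, hρ, φ, h⟩ := local_flo σ c y₀
      refine ⟨ball y₀ ρ, mem_nhdsWithin_of_mem_nhds (ball_mem_nhds _ hρ), ρ, hρ, fun y hy hq s₁ => ?_⟩
      obtain ⟨h1, -, h2⟩ := h c (mem_ball_self hρ) y hy
      exact ⟨_, by rw [sub_self, h1], h2 hq s₁⟩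
  refine ⟨ρ, hρ, fun y hy hq => h y ⟨mem_closedBall_zero_iff.2 hy, ?_⟩ hq⟩
  have h1 := hM _ (mem_closedBall_zero_iff.2 hy)
  rw [← hq, norm_pow] at h1
  rw [mem_closedBall_zero_iff]
  nlinarith [sq_nonneg (‖y.2‖ - 1)]

lemma radius2_flo (c : Fin 5 → ℂ) : ∃ ρ : ℝ, 0 < ρ ∧ ∀ Y s₁, Sol_flo c Y s₁ →
    ∃ Z, Z s₁ = Y s₁ ∧ ∀ s ∈ ball s₁ ρ, Sol_flo c Z s := by
  choose ρ hρ h using fun σ => radius_flo σ c
  have hm : ∀ σ, min (ρ true) (ρ false) ≤ ρ σ := fun σ => by cases σ <;> simp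
  refine ⟨min (ρ true) (ρ false), lt_min (hρ _) (hρ _), fun Y s₁ ⟨σ, y, hy⟩ => ?_⟩
  obtain ⟨-, h1, h2⟩ := hy.self_of_nhds
  rcases le_total ‖(y s₁).1‖ 1 with h3 | h3
  · obtain ⟨Z, a, b⟩ := h σ _ h3 h1 s₁
    exact ⟨Z, a.trans h2.symm, fun s hs => b s (ball_subset_ball (hm _) hs)⟩
  · have h0 : (y s₁).1 ≠ 0 := norm_pos_iff.1 (one_pos.trans_le h3)
    obtain ⟨Z, a, b⟩ := h (!σ) (t_flo (y s₁)) (by
      simp only [t_flo, norm_inv]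
      exact inv_le_one_of_one_le₀ h3) (by rw [← on_iff_flo, e_t_flo _ h0, on_iff_flo, h1]) s₁
    exact ⟨Z, a.trans ((e_t_flo _ h0).trans h2.symm), fun s hs => b s (ball_subset_ball (hm _) hs)⟩

lemma glue_flo {c : Fin 5 → ℂ} {ι : Type} {U : ι → Set ℂ} {Z : ι → ℂ → ℂ × ℂ × ℂ}
    (hU : ∀ i, IsOpen (U i)) (hZ : ∀ i, ∀ s ∈ U i, Sol_flo c (Z i) s)
    (h : ∀ i j, ∀ s ∈ U i, s ∈ U j → Z i s = Z j s) :
    ∃ Y, ∀ i, ∀ s ∈ U i, Y s = Z i s ∧ Sol_flo c Y s := by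
  classical
  have key : ∀ i, ∀ s ∈ U i,
      (if h : ∃ i, s ∈ U i then Z h.choose s else 0) = Z i s := fun i s hs => by
    have e : ∃ i, s ∈ U i := ⟨i, hs⟩
    rw [dif_pos e]
    exact h _ _ _ e.choose_spec hs
  refine ⟨fun s => if h : ∃ i, s ∈ U i then Z h.choose s else 0, fun i s hs =>
    ⟨key i s hs, congr_flo (hZ i s hs) ?_⟩⟩
  filter_upwards [(hU i).mem_nhds hs] with s hs using key i s hs

lemma global_flo (c : Fin 5 → ℂ) : ∃ Y, Y 0 = e_flo true (0, c 0) ∧ ∀ s, Sol_flo c Y s := by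
  obtain ⟨ρ, hρ, h⟩ := radius2_flo c
  have step : ∀ r : ℝ, 0 < r → ∀ Y, (∀ s ∈ ball (0 : ℂ) r, Sol_flo c Y s) →
      ∃ Y', Y' 0 = Y 0 ∧ ∀ s ∈ ball (0 : ℂ) (r + ρ), Sol_flo c Y' s := fun r hr Y hY => by
    choose Z hZ0 hZ using fun i : ball (0 : ℂ) r => h Y i (hY i i.2)
    have e : ∀ i : ball (0 : ℂ) r, EqOn (Z i) Y (ball (i : ℂ) ρ ∩ ball 0 r) := fun i =>
      uniq_flo ((convex_ball _ _).inter (convex_ball _ _)).isPreconnected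
        (fun s hs => hZ i s hs.1) (fun s hs => hY s hs.2) ⟨mem_ball_self hρ, i.2⟩ (hZ0 i)
    obtain ⟨Y', hY'⟩ := glue_flo (U := fun i : ball (0 : ℂ) r => ball (i : ℂ) ρ)
      (fun _ => isOpen_ball) hZ fun i j s hi hj => by
        have hm : midpoint ℝ (i : ℂ) j ∈ ball (0 : ℂ) r :=
          (convex_ball _ _).midpoint_mem i.2 j.2
        have hd : dist (i : ℂ) j < 2 * ρ := by
          have := dist_triangle_left (i : ℂ) j s
          rw [mem_ball] at hi hj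
          linarith
        have h1 : midpoint ℝ (i : ℂ) j ∈ ball (i : ℂ) ρ := by
          rw [mem_ball, dist_midpoint_left]
          norm_num
          linarith
        have h2 : midpoint ℝ (i : ℂ) j ∈ ball (j : ℂ) ρ := by
          rw [mem_ball, dist_midpoint_right]
          norm_num
          linarith
        exact uniq_flo ((convex_ball _ _).inter (convex_ball _ _)).isPreconnected
          (fun s hs => hZ i s hs.1) (fun s hs => hZ j s hs.2) ⟨h1, h2⟩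
          ((e i ⟨h1, hm⟩).trans (e j ⟨h2, hm⟩).symm) ⟨hi, hj⟩
    refine ⟨Y', (hY' ⟨0, mem_ball_self hr⟩ 0 (mem_ball_self hρ)).1.trans (hZ0 _), fun s hs => ?_⟩
    obtain ⟨s₁, h1, h2⟩ := exists_dist_lt_lt hρ hr (mem_ball.1 hs)
    exact (hY' ⟨s₁, h2⟩ s h1).2
  have ex : ∀ n : ℕ, ∃ Y, Y 0 = e_flo true (0, c 0) ∧
      ∀ s ∈ ball (0 : ℂ) ((n + 1) * ρ), Sol_flo c Y s := fun n => by
    induction n with
    | zero =>
      obtain ⟨ρ', hρ', h'⟩ := radius_flo true c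
      obtain ⟨Z, a, b⟩ := h' (0, c 0) (by simp) (by simp [q_flo, Qd]) 0
      obtain ⟨Z', a', b'⟩ := h Z 0 (b 0 (mem_ball_self hρ'))
      exact ⟨Z', a'.trans a, by simpa using b'⟩
    | succ n ih =>
      obtain ⟨Y, a, b⟩ := ih
      obtain ⟨Y', a', b'⟩ := step _ (by positivity) Y b
      refine ⟨Y', a'.trans a, fun s hs => b' s ?_⟩
      convert hs using 2
      push_cast
      ring
  choose Z hZ0 hZ using ex
  have h0 : ∀ n : ℕ, (0 : ℂ) ∈ ball (0 : ℂ) ((n + 1) * ρ) := fun n => mem_ball_self (by positivity)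
  obtain ⟨Y, hY⟩ := glue_flo (U := fun n : ℕ => ball (0 : ℂ) ((n + 1) * ρ))
    (fun _ => isOpen_ball) hZ fun i j s hi hj =>
      uniq_flo ((convex_ball _ _).inter (convex_ball _ _)).isPreconnected
        (fun s hs => hZ i s hs.1) (fun s hs => hZ j s hs.2) ⟨h0 i, h0 j⟩
        ((hZ0 i).trans (hZ0 j).symm) ⟨hi, hj⟩
  refine ⟨Y, (hY 0 0 (h0 0)).1.trans (hZ0 0), fun s => ?_⟩
  obtain ⟨n, hn⟩ := exists_nat_gt (‖s‖ / ρ)
  refine (hY n s ?_).2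
  rw [div_lt_iff₀ hρ] at hn
  rw [mem_ball_zero_iff]
  nlinarith

lemma chart2_flo {P : Type} [NormedAddCommGroup P] [NormedSpace ℂ P] {Y : P → ℂ × ℂ × ℂ} {c₀ : P}
    {σ σ' : Bool} {η : P → ℂ × ℂ} (h : ∀ᶠ c in 𝓝 c₀, DifferentiableAt ℂ η c ∧ Y c = e_flo σ' (η c))
    {p : ℂ × ℂ} (hp : Y c₀ = e_flo σ p) :
    ∃ η : P → ℂ × ℂ, η c₀ = p ∧ ∀ᶠ c in 𝓝 c₀, DifferentiableAt ℂ η c ∧ Y c = e_flo σ (η c) := by
  have h0 := h.self_of_nhds
  by_cases hσ : σ = σ'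
  · subst hσ
    exact ⟨η, e_inj_flo σ (h0.2.symm.trans hp), h⟩
  · obtain rfl : σ = !σ' := by cases σ <;> cases σ' <;> simp_all
    have h1 := e_ne_flo (h0.2.symm.trans hp)
    refine ⟨fun s => t_flo (η s), e_inj_flo _ ((e_t_flo _ h1).trans (h0.2.symm.trans hp)), ?_⟩
    filter_upwards [h, h0.1.continuousAt.fst.eventually_ne h1] with s hs hs0
    refine ⟨(hs.1.fst.fun_inv hs0).prodMk ?_, hs.2.trans (e_t_flo _ hs0).symm⟩
    simp only [div_eq_mul_inv]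
    exact hs.1.snd.fun_neg.fun_mul ((hs.1.fst.fun_pow 2).fun_inv (pow_ne_zero 2 hs0))

lemma joint_flo {Y : (Fin 5 → ℂ) → ℂ → ℂ × ℂ × ℂ} (h0 : ∀ c, Y c 0 = e_flo true (0, c 0))
    (hY : ∀ c s, Sol_flo c (Y c) s) (z₀ : ℂ × (Fin 5 → ℂ)) :
    ∃ σ, ∃ y : ℂ × (Fin 5 → ℂ) → ℂ × ℂ,
      ∀ᶠ z in 𝓝 z₀, DifferentiableAt ℂ y z ∧ Y z.2 z.1 = e_flo σ (y z) := by
  obtain ⟨s₀, c₀⟩ := z₀
  set A := {s : ℂ | ∃ σ, ∃ y : ℂ × (Fin 5 → ℂ) → ℂ × ℂ,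
      ∀ᶠ z in 𝓝 (s, c₀), DifferentiableAt ℂ y z ∧ Y z.2 z.1 = e_flo σ (y z)} with hA
  have key : ∀ s, ∀ᶠ s₁ in 𝓝 s, (∃ σ, ∃ η : (Fin 5 → ℂ) → ℂ × ℂ,
      ∀ᶠ c in 𝓝 c₀, DifferentiableAt ℂ η c ∧ Y c s₁ = e_flo σ (η c)) → s ∈ A := fun s => by
    obtain ⟨σ, y, hy⟩ := hY c₀ s
    obtain ⟨ρ, hρ, φ, h⟩ := local_flo σ c₀ (y s)
    filter_upwards [hy, ball_mem_nhds s hρ,
      hy.self_of_nhds.1.continuousAt.eventually (ball_mem_nhds _ hρ)] with s₁ h1 h2 h3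
    rintro ⟨σ', η', h4⟩
    obtain ⟨η, h5, h6⟩ := chart2_flo (Y := fun c => Y c s₁) h4 h1.2.2
    refine ⟨σ, fun z => φ (z.1 - s₁, z.2, η z.2), ?_⟩
    have h7 : ∀ᶠ c in 𝓝 c₀, η c ∈ ball (y s) ρ :=
      h6.self_of_nhds.1.continuousAt.eventually (isOpen_ball.mem_nhds (by rwa [h5]))
    filter_upwards [prod_mem_nhds (isOpen_ball.mem_nhds (mem_ball_comm.1 h2))
      (h6.and (h7.and (ball_mem_nhds c₀ hρ)))] with z hz
    obtain ⟨a, ⟨b, c⟩, d, e⟩ := hz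
    obtain ⟨f, g, k⟩ := h _ e _ d
    refine ⟨(g (z.1 - s₁) (by rwa [mem_ball_zero_iff, ← mem_ball_iff_norm])).comp z
      (f := fun z : ℂ × (Fin 5 → ℂ) => (z.1 - s₁, z.2, η z.2)) ((differentiableAt_fst.sub_const _).prodMk
        (differentiableAt_snd.prodMk (b.comp z differentiableAt_snd))), ?_⟩
    refine uniq_flo (convex_ball s₁ ρ).isPreconnected (fun s _ => hY z.2 s) (k ?_ s₁)
      (mem_ball_self hρ) (by rw [sub_self, f, c]) a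
    obtain ⟨τ, w, hw⟩ := hY z.2 s₁
    rw [← on_iff_flo, ← c, hw.self_of_nhds.2.2, on_iff_flo]
    exact hw.self_of_nhds.2.1
  have ho : IsOpen A := by
    refine isOpen_iff_mem_nhds.2 fun s ⟨σ, y, h⟩ => ?_
    filter_upwards [(Continuous.prodMk_left c₀).continuousAt.eventually h.eventually_nhds]
      with s hs using ⟨σ, y, hs⟩
  have hc : IsClosed A := by
    refine closure_subset_iff_isClosed.1 fun s hs => ?_
    obtain ⟨s₁, ⟨σ, y, h1⟩, h2⟩ := ((mem_closure_iff_frequently.1 hs).and_eventually (key s)).exists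
    refine h2 ⟨σ, fun c => y (s₁, c), ?_⟩
    filter_upwards [(Continuous.prodMk_right s₁).continuousAt.eventually h1] with c hc
    exact ⟨hc.1.comp c (f := fun c => (s₁, c)) (by fun_prop), hc.2⟩
  have hz : (0 : ℂ) ∈ A := (key 0).self_of_nhds
    ⟨true, fun c => (0, c 0), Eventually.of_forall fun c => ⟨by fun_prop, h0 c⟩⟩
  have : A = univ := IsClopen.eq_univ ⟨hc, ho⟩ ⟨0, hz⟩
  exact this.ge (mem_univ s₀)

theorem global_flow : ∃ Ψ : ℂ × (Fin 5 → ℂ) → ℂ × ℂ × ℂ,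
    (∀ z, ((Ψ z).1 ≠ 0 ∨ (Ψ z).2.1 ≠ 0) ∧ (Ψ z).2.2 ^ 2 = Qd z.2 (Ψ z).1 (Ψ z).2.1) ∧
    (∀ z₀, ∃ κ : ℂ × (Fin 5 → ℂ) → ℂ, ∀ᶠ z in 𝓝 z₀, κ z ≠ 0 ∧ DifferentiableAt ℂ
      (fun z => (κ z * (Ψ z).1, κ z * (Ψ z).2.1, κ z ^ 2 * (Ψ z).2.2)) z) ∧
    ∀ c, Ψ (0, c) = (0, 1, c 0) ∧
      HasDerivAt (fun s => (Ψ (s, c)).1 / (Ψ (s, c)).2.1) (c 0) 0 := by
  classical
  choose Y h0 hY using global_flo
  refine ⟨fun z => Y z.2 z.1, fun z => ?_, fun z₀ => ?_, fun c => ⟨h0 c, ?_⟩⟩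
  · obtain ⟨σ, y, h⟩ := hY z.2 z.1
    obtain ⟨-, h1, h2⟩ := h.self_of_nhds
    simp only [h2]
    refine ⟨?_, (on_iff_flo _ _ _).2 h1⟩
    cases σ <;> simp only [e_flo]
    · split_ifs <;> simp
    · simp
  · obtain ⟨σ, y, h⟩ := joint_flo h0 hY z₀
    cases σ
    · refine ⟨fun z => if (y z).1 = 0 then 1 else (y z).1, ?_⟩
      filter_upwards [h.eventually_nhds] with z hz
      have h1 := hz.self_of_nhds.1
      refine ⟨by split_ifs with e <;> simp [e], ((differentiableAt_const 1).prodMk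
        (h1.fst.prodMk h1.snd.fun_neg)).congr_of_eventuallyEq ?_⟩
      filter_upwards [hz] with z hz
      simp only [hz.2, e_flo]
      split_ifs with e
      · simp [e]
      · refine Prod.ext (mul_inv_cancel₀ e) (Prod.ext (mul_one _) ?_)
        simp only
        field_simp
    · refine ⟨fun _ => 1, ?_⟩
      filter_upwards [h.eventually_nhds] with z hz
      have h1 := hz.self_of_nhds.1
      refine ⟨one_ne_zero, (h1.fst.prodMk ((differentiableAt_const 1).prodMk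
        h1.snd)).congr_of_eventuallyEq ?_⟩
      filter_upwards [hz] with z hz
      simp [hz.2, e_flo]
  · obtain ⟨y, h1, h2⟩ := chart_flo (hY c 0) (h0 c)
    have h3 : HasDerivAt (fun s => (y s).1) (y 0).2 0 := fst_flo h2.self_of_nhds.1
    rw [h1] at h3
    refine h3.congr_of_eventuallyEq ?_
    filter_upwards [h2] with s hs
    simp [hs.2.2, e_flo]

end Pool.Agent.Lib.MP_cd3a7b_ag
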