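import Mathlib

/-! Free entire curves and chains of them. -/

namespace Pool.Agent.Lib.MP_cd3a7b_ag

open Metric Set
open scoped Manifold

variable (E : Type) [NormedAddCommGroup E] [NormedSpace ℂ E] {X : Type} [TopologicalSpace X]
  [ChartedSpace E X] {P : Type} [NormedAddCommGroup P] [NormedSpace ℂ P]

/-- The map `S` to the manifold `X` is holomorphic on `U`. -/
def HoloOn (S : P → X) (U : Set P) : Prop :=
  MDifferentiableOn 𝓘(ℂ, P) 𝓘(ℂ, E) S U

/-- The differential of `S` at `y` is onto. -/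
def OntoAt (S : P → X) (y : P) : Prop :=
  Function.Surjective (mfderiv 𝓘(ℂ, P) 𝓘(ℂ, E) S y)

/-- `f` is the central member of a holomorphic family `S` of maps from the plane to `X`, with
parameter in a ball of `ℂ ^ m`, whose differential is onto at one point `(t₀, 0)`. -/
def IsFree (f : ℂ → X) : Prop :=
  ∃ (m : ℕ) (S : ℂ × (Fin m → ℂ) → X) (r : ℝ) (t₀ : ℂ), 0 < r ∧
    HoloOn E S (univ ×ˢ ball 0 r) ∧ (∀ t, S (t, 0) = f t) ∧ OntoAt E S (t₀, 0)

/-- The points joined to `x` by a finite chain of free curves. -/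
def ChainClass (x : X) : Set X :=
  {y | Relation.ReflTransGen (fun a b => ∃ f : ℂ → X, IsFree E f ∧ a ∈ range f ∧ b ∈ range f) x y}

end Pool.Agent.Lib.MP_cd3a7b_ag
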