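import Pool.Agent.Lib.MP_cd3a7b_ag.H8Alg

/-! TASK TAN: two holomorphic families of tangent lines of a smooth plane sextic. -/

namespace Pool.Agent.Lib.MP_cd3a7b_ag

open Metric Set Filter Topology MvPolynomial

/-- The analytic implicit function theorem in one unknown. -/
lemma ift_tan {E : Type} [NormedAddCommGroup E] [NormedSpace ℂ E] [CompleteSpace E]
    {g : E × ℂ → ℂ} {x : E} {b d : ℂ} (hg : AnalyticAt ℂ g (x, b))
    (hd : HasDerivAt (fun a => g (x, a)) d b) (h0 : d ≠ 0) :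
    ∃ ψ : E → ℂ, AnalyticAt ℂ ψ x ∧ ψ x = b ∧ ∀ᶠ z in 𝓝 x, g (z, ψ z) = g (x, b) := by
  have hc : ContDiffAt ℂ ⊤ g (x, b) := hg.contDiffAt
  have h1 : HasFDerivAt (fun a => g (x, a))
      (fderiv ℂ g (x, b) ∘L ContinuousLinearMap.inr ℂ E ℂ) b :=
    hg.differentiableAt.hasFDerivAt.comp b (hasFDerivAt_prodMk_right x b)
  have h2 : (fderiv ℂ g (x, b) ∘L ContinuousLinearMap.inr ℂ E ℂ).IsInvertible := by
    rw [h1.unique hd.hasFDerivAt]
    exact ⟨ContinuousLinearEquiv.unitsEquivAut ℂ (Units.mk0 d h0), by ext; simp⟩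
  exact ⟨hc.implicitFunction (by simp) h2, (hc.contDiffAt_implicitFunction _ h2).analyticAt,
    hc.implicitFunction_apply_self _ h2, hc.eventually_apply_implicitFunction _ h2⟩

/-- A form of positive degree vanishes somewhere on every line. -/
lemma root_tan {G : MvPolynomial (Fin 3) ℂ} {n : ℕ} (hG : G.IsHomogeneous n) (hn : n ≠ 0)
    (u v : Fin 3 → ℂ) : ∃ s t : ℂ, (s ≠ 0 ∨ t ≠ 0) ∧ eval (s • u + t • v) G = 0 := by
  obtain ⟨P, hP⟩ : ∃ P : Polynomial ℂ, ∀ t, P.eval t = eval (u + t • v) G := by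
    refine ⟨aeval (fun i => Polynomial.C (u i) + Polynomial.X * Polynomial.C (v i)) G, fun t => ?_⟩
    rw [← Polynomial.coe_aeval_eq_eval, ← AlgHom.comp_apply, comp_aeval, ← aeval_eq_eval]
    congr 2
    ext i
    simp
    ring
  by_cases h : 0 < P.degree
  · obtain ⟨t, ht⟩ := Complex.exists_root h
    exact ⟨1, t, .inl one_ne_zero, by rw [one_smul, ← hP]; exact ht⟩
  · rw [Polynomial.eq_C_of_degree_le_zero (not_lt.1 h)] at hP
    simp only [Polynomial.eval_C] at hP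
    have c1 : Continuous fun s : ℂ => eval (s • u + v) G :=
      (differentiable_eval G).continuous.comp (by fun_prop)
    have c2 : Continuous fun s : ℂ => s ^ n * P.coeff 0 := by fun_prop
    have e := Continuous.ext_on (dense_compl_singleton (0 : ℂ)) c1 c2 fun s hs => by
      have hs' : s ≠ 0 := hs
      rw [hP s⁻¹, ← eval_smul hG, smul_add, smul_smul, mul_inv_cancel₀ hs', one_smul]
    have e0 := congrFun e 0
    simp only [zero_pow hn, zero_mul] at e0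
    exact ⟨0, 1, .inr one_ne_zero, by rwa [one_smul]⟩

section core

variable {f : (Fin 3 → ℂ) → ℂ}

lemma dir_tan (hf : ∀ v, AnalyticAt ℂ f v) (z u : Fin 3 → ℂ) :
    HasDerivAt (fun r : ℂ => f (z + r • u)) (fderiv ℂ f z u) 0 := by
  have h1 : HasDerivAt (fun r : ℂ => z + r • u) u 0 := by
    simpa using ((hasDerivAt_id (0 : ℂ)).smul_const u).const_add z
  have h2 : HasFDerivAt f (fderiv ℂ f z) (z + (0 : ℂ) • u) := by
    simpa using (hf z).differentiableAt.hasFDerivAt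
  exact h2.comp_hasDerivAt (0 : ℂ) h1

lemma euler_tan (hf : ∀ v, AnalyticAt ℂ f v) (hh : ∀ (t : ℂ) v, f (t • v) = t ^ 6 * f v)
    {z : Fin 3 → ℂ} (hz : f z = 0) : fderiv ℂ f z z = 0 := by
  refine (dir_tan hf z z).unique ?_
  have : (fun r : ℂ => f (z + r • z)) = fun _ => 0 := funext fun r => by
    rw [show z + r • z = (1 + r) • z by rw [add_smul, one_smul], hh, hz, mul_zero]
  rw [this]
  exact hasDerivAt_const _ _

/-- The curve contains no line. -/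
lemma line_tan (hf : ∀ v, AnalyticAt ℂ f v) (hh : ∀ (t : ℂ) v, f (t • v) = t ^ 6 * f v)
    (hs : ∀ v ≠ 0, f v = 0 → fderiv ℂ f v ≠ 0)
    (hr : ∀ u v w, ∃ s t : ℂ, (s ≠ 0 ∨ t ≠ 0) ∧ fderiv ℂ f (s • u + t • v) w = 0)
    (a α β t₀ : ℂ) : ∀ᶠ t in 𝓝[≠] t₀, f (![a, 1, α] + t • ![1, 0, β]) ≠ 0 := by
  set u : Fin 3 → ℂ := ![a, 1, α] with hu
  set v : Fin 3 → ℂ := ![1, 0, β] with hv
  have ha : ∀ t : ℂ, AnalyticAt ℂ (fun t : ℂ => f (u + t • v)) t := fun t =>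
    (hf _).fun_comp (by fun_prop)
  refine (ha t₀).eventually_eq_zero_or_eventually_ne_zero.resolve_left fun h => ?_
  have h1 : ∀ t : ℂ, f (u + t • v) = 0 := fun t =>
    AnalyticOnNhd.eqOn_zero_of_preconnected_of_eventuallyEq_zero (fun t _ => ha t)
      isPreconnected_univ (mem_univ t₀) h (mem_univ t)
  have h2 : ∀ s t : ℂ, f (s • u + t • v) = 0 := fun s t => by
    have c1 : Continuous fun s : ℂ => f (s • u + t • v) :=
      (continuous_iff_continuousAt.2 fun v => (hf v).continuousAt).comp (by fun_prop)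
    refine congrFun (Continuous.ext_on (dense_compl_singleton (0 : ℂ)) c1 continuous_const
      (g := fun _ => 0) fun s hs => ?_) s
    have hs' : s ≠ 0 := hs
    have := hh s (u + (s⁻¹ * t) • v)
    rwa [h1, mul_zero, smul_add, smul_smul, mul_inv_cancel_left₀ hs'] at this
  obtain ⟨s, t, hst, hw⟩ := hr u v ![0, 0, 1]
  have hz : s • u + t • v ≠ 0 := fun e => by
    have e1 := congrFun e 1
    have e0 := congrFun e 0
    simp [hu, hv] at e1 e0
    rcases hst with h | h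
    · exact h e1
    · exact h (by simpa [e1] using e0)
  have d1 : fderiv ℂ f (s • u + t • v) u = 0 := by
    refine (dir_tan hf _ u).unique ?_
    have : (fun r : ℂ => f (s • u + t • v + r • u)) = fun _ => 0 := funext fun r => by
      rw [← h2 (s + r) t, add_smul, add_right_comm]
    rw [this]
    exact hasDerivAt_const _ _
  have d2 : fderiv ℂ f (s • u + t • v) v = 0 := by
    refine (dir_tan hf _ v).unique ?_
    have : (fun r : ℂ => f (s • u + t • v + r • v)) = fun _ => 0 := funext fun r => by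
      rw [← h2 s (t + r), add_smul, add_assoc]
    rw [this]
    exact hasDerivAt_const _ _
  refine hs _ hz (h2 s t) (ContinuousLinearMap.ext fun p => ?_)
  have e : p = p 1 • u + (p 0 - p 1 * a) • v +
      (p 2 - p 1 * α - (p 0 - p 1 * a) * β) • ![0, 0, 1] := by
    ext i
    fin_cases i <;> simp [hu, hv]
  rw [e, map_add, map_add, map_smul, map_smul, map_smul, d1, d2, hw]
  simp

lemma curve_tan {y : ℂ → ℂ} {b : ℂ} (hy : AnalyticAt ℂ y b) :
    HasDerivAt (fun a => (![a, 1, y a] : Fin 3 → ℂ)) ![1, 0, deriv y b] b := by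
  refine hasDerivAt_pi.2 fun i => ?_
  fin_cases i
  · exact hasDerivAt_id b
  · exact hasDerivAt_const b (1 : ℂ)
  · exact hy.differentiableAt.hasDerivAt

lemma leg_tan {y : ℂ → ℂ} {b : ℂ} (hy : AnalyticAt ℂ y b) :
    HasDerivAt (fun a => a * deriv y a - y a) (b * deriv (deriv y) b) b := by
  exact (((hasDerivAt_id' b).fun_mul hy.deriv.differentiableAt.hasDerivAt).fun_sub
    hy.differentiableAt.hasDerivAt).congr_deriv (by ring)

/-- The family of tangent lines through the points near `![X, 1, Y]`. -/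
lemma family_tan (hf : ∀ v, AnalyticAt ℂ f v) (hh : ∀ (t : ℂ) v, f (t • v) = t ^ 6 * f v)
    {y : ℂ → ℂ} {b X Y : ℂ} (hy : AnalyticAt ℂ y b) (h0 : ∀ᶠ a in 𝓝 b, f ![a, 1, y a] = 0)
    (h2 : deriv (deriv y) b ≠ 0) (hX : X ≠ b) (hY : Y = y b + (X - b) * deriv y b) :
    ∃ q : (Fin 3 → ℂ) → Fin 3 → ℂ, q ![X, 1, Y] = ![b, 1, y b] ∧ ∀ᶠ p in 𝓝 ![X, 1, Y],
      DifferentiableAt ℂ q p ∧ f (q p) = 0 ∧ fderiv ℂ f (q p) p = 0 := by
  have hy' := hy.deriv
  have a1 : AnalyticAt ℂ (fun z : (Fin 3 → ℂ) × ℂ => y z.2) (![X, 1, Y], b) :=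
    hy.fun_comp (f := Prod.snd) (x := (![X, 1, Y], b)) analyticAt_snd
  have a2 : AnalyticAt ℂ (fun z : (Fin 3 → ℂ) × ℂ => deriv y z.2) (![X, 1, Y], b) :=
    hy'.fun_comp (f := Prod.snd) (x := (![X, 1, Y], b)) analyticAt_snd
  have a3 : ∀ i, AnalyticAt ℂ (fun z : (Fin 3 → ℂ) × ℂ => z.1 i) (![X, 1, Y], b) := fun i =>
    ((ContinuousLinearMap.proj i : (Fin 3 → ℂ) →L[ℂ] ℂ).comp
      (ContinuousLinearMap.fst ℂ (Fin 3 → ℂ) ℂ)).analyticAt _
  obtain ⟨ψ, p1, p2, p3⟩ := ift_tan (x := ![X, 1, Y]) (b := b) (d := (b - X) * deriv (deriv y) b)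
    (g := fun z : (Fin 3 → ℂ) × ℂ =>
      z.1 1 * (z.2 * deriv y z.2 - y z.2) - z.1 0 * deriv y z.2 + z.1 2)
    ((((a3 1).mul ((analyticAt_snd.mul a2).sub a1)).sub ((a3 0).mul a2)).add (a3 2))
    (((((leg_tan hy).const_mul 1).fun_sub
      (hy'.differentiableAt.hasDerivAt.const_mul X)).add_const Y).congr_deriv (by ring))
    (mul_ne_zero (sub_ne_zero.2 hX.symm) h2)
  have ht : Tendsto ψ (𝓝 ![X, 1, Y]) (𝓝 b) := p2 ▸ p1.continuousAt.tendsto
  refine ⟨fun p => ![ψ p, 1, y (ψ p)], by simp only [p2], ?_⟩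
  filter_upwards [p1.eventually_analyticAt, p3, ht.eventually hy.eventually_analyticAt,
    ht.eventually h0.eventually_nhds] with p k1 k2 k3 k4
  refine ⟨(curve_tan k3).differentiableAt.comp p k1.differentiableAt, k4.self_of_nhds, ?_⟩
  generalize ψ p = a at k2 k3 k4
  have d1 := euler_tan hf hh k4.self_of_nhds
  have d2 : fderiv ℂ f ![a, 1, y a] ![1, 0, deriv y a] = 0 :=
    ((hf _).differentiableAt.hasFDerivAt.comp_hasDerivAt a (curve_tan k3)).unique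
      ((hasDerivAt_const a (0 : ℂ)).congr_of_eventuallyEq k4)
  have e : p = p 1 • ![a, 1, y a] + (p 0 - a * p 1) • ![1, 0, deriv y a] := by
    ext i
    fin_cases i
    · simp [mul_comm]
    · simp
    · simp [hY] at k2 ⊢
      linear_combination k2
  rw [e, map_add, map_smul, map_smul, d1, d2]
  simp

theorem core_tan (hf : ∀ v, AnalyticAt ℂ f v) (hh : ∀ (t : ℂ) v, f (t • v) = t ^ 6 * f v)
    (hs : ∀ v ≠ 0, f v = 0 → fderiv ℂ f v ≠ 0)
    (hr : ∀ u v w, ∃ s t : ℂ, (s ≠ 0 ∨ t ≠ 0) ∧ fderiv ℂ f (s • u + t • v) w = 0)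
    (h0 : f ![0, 1, 0] = 0) (h1 : fderiv ℂ f ![0, 1, 0] ![0, 0, 1] ≠ 0) :
    ∃ (p₀ : Fin 3 → ℂ) (q : Fin 2 → (Fin 3 → ℂ) → Fin 3 → ℂ), f p₀ ≠ 0 ∧
      LinearIndependent ℂ ![p₀, q 0 p₀, q 1 p₀] ∧ ∀ i, ∀ᶠ p in 𝓝 p₀,
        DifferentiableAt ℂ (q i) p ∧ f (q i p) = 0 ∧ fderiv ℂ f (q i p) p = 0 := by
  have hl := line_tan hf hh hs hr
  obtain ⟨y, y1, -, y3⟩ := ift_tan (x := (0 : ℂ)) (b := 0) (g := fun z : ℂ × ℂ => f ![z.1, 1, z.2])
    ((hf _).fun_comp (AnalyticAt.pi fun i => by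
      fin_cases i
      · exact analyticAt_fst
      · exact analyticAt_const
      · exact analyticAt_snd))
    (by
      convert dir_tan hf ![0, 1, 0] ![0, 0, 1] using 3
      simp) h1
  simp only [h0] at y3
  obtain ⟨ε, hε, hB⟩ := Metric.eventually_nhds_iff_ball.1
    (y1.eventually_analyticAt.and y3.eventually_nhds)
  obtain ⟨a₀, ha₀, h2⟩ : ∃ a₀ ∈ ball (0 : ℂ) ε, deriv (deriv y) a₀ ≠ 0 := by
    by_contra hc
    push Not at hc
    have c1 : ∀ a ∈ ball (0 : ℂ) ε, deriv y a = deriv y 0 := fun a ha =>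
      isOpen_ball.is_const_of_deriv_eq_zero (convex_ball _ _).isPreconnected
        (fun z hz => (hB z hz).1.deriv.differentiableAt.differentiableWithinAt) hc ha
        (mem_ball_self hε)
    have c2 : ∀ a ∈ ball (0 : ℂ) ε, HasDerivAt (fun t => y t - t * deriv y 0) 0 a := fun a ha =>
      ((hB a ha).1.differentiableAt.hasDerivAt.fun_sub
        ((hasDerivAt_id' a).mul_const (deriv y 0))).congr_deriv (by rw [c1 a ha]; ring)
    have c3 : ∀ a ∈ ball (0 : ℂ) ε, y a - a * deriv y 0 = y 0 - 0 * deriv y 0 := fun a ha =>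
      isOpen_ball.is_const_of_deriv_eq_zero (f := fun t => y t - t * deriv y 0)
        (convex_ball _ _).isPreconnected
        (fun z hz => (c2 z hz).differentiableAt.differentiableWithinAt)
        (fun z hz => (c2 z hz).deriv) ha (mem_ball_self hε)
    obtain ⟨t, t1, t2⟩ := ((hl 0 (y 0) (deriv y 0) 0).and
      (mem_nhdsWithin_of_mem_nhds (ball_mem_nhds (0 : ℂ) hε))).exists
    refine t1 (Eq.trans (congrArg f ?_) (hB t t2).2.self_of_nhds)
    ext i
    fin_cases i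
    · simp
    · simp
    · have := c3 t t2
      simp
      linear_combination -this
  have hg : ∀ a ∈ ball (0 : ℂ) ε, deriv (deriv y) a ≠ 0 →
      ∀ᶠ z in 𝓝 a, z ∈ ball (0 : ℂ) ε ∧ deriv (deriv y) z ≠ 0 := fun a ha h =>
    (isOpen_ball.eventually_mem ha).and ((hB a ha).1.deriv.deriv.continuousAt.eventually_ne h)
  obtain ⟨a₁, ⟨k1, k2⟩, k3⟩ := (((hg a₀ ha₀ h2).filter_mono nhdsWithin_le_nhds).and
    ((hB a₀ ha₀).1.deriv.differentiableAt.hasDerivAt.eventually_ne (c := deriv y a₀) h2)).exists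
  set X : ℂ → ℂ := fun a => (a * deriv y a - y a - (a₀ * deriv y a₀ - y a₀)) /
    (deriv y a - deriv y a₀) with hX
  have g1 : ∀ᶠ z in 𝓝 a₁, (z ∈ ball (0 : ℂ) ε ∧ deriv (deriv y) z ≠ 0) ∧ deriv y z ≠ deriv y a₀ :=
    (hg a₁ k1 k2).and ((hB a₁ k1).1.deriv.continuousAt.eventually_ne k3)
  obtain ⟨a, ⟨⟨m1, m2⟩, m3⟩, m4⟩ : ∃ a, ((a ∈ ball (0 : ℂ) ε ∧ deriv (deriv y) a ≠ 0) ∧
      deriv y a ≠ deriv y a₀) ∧ f (![a₀, 1, y a₀] + (X a - a₀) • ![1, 0, deriv y a₀]) ≠ 0 := by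
    by_contra hc
    push Not at hc
    have c1 : ContinuousAt (fun a => X a - a₀) a₁ :=
      (((leg_tan (hB a₁ k1).1).continuousAt.sub continuousAt_const).div
        ((hB a₁ k1).1.deriv.continuousAt.sub continuousAt_const) (sub_ne_zero.2 k3)).sub
        continuousAt_const
    have c2 : ∀ᶠ a in 𝓝 a₁, a * deriv y a - y a =
        X a₁ * (deriv y a - deriv y a₀) + (a₀ * deriv y a₀ - y a₀) := by
      filter_upwards [g1, c1.tendsto.eventually (eventually_nhdsWithin_iff.1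
        (hl a₀ (y a₀) (deriv y a₀) (X a₁ - a₀)))] with a n1 n2
      have n3 : X a = X a₁ := by
        by_contra n3
        exact n2 (by simpa using n3) (hc a n1)
      rw [← n3, hX, div_mul_cancel₀ _ (sub_ne_zero.2 n1.2)]
      ring
    have c3 : ∀ᶠ a in 𝓝 a₁, a = X a₁ := by
      filter_upwards [g1, c2.eventually_nhds] with a n1 n2
      have n3 := (hB a n1.1.1).1
      exact mul_right_cancel₀ n1.1.2 ((leg_tan n3).unique
        ((((n3.deriv.differentiableAt.hasDerivAt.sub_const _).const_mul (X a₁)).add_const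
          _).congr_of_eventuallyEq n2))
    obtain ⟨t, t1, t2⟩ := ((c3.filter_mono (nhdsWithin_le_nhds (s := {a₁}ᶜ))).and
      self_mem_nhdsWithin).exists
    exact t2 (t1.trans c3.self_of_nhds.symm)
  have hXa : X a * (deriv y a - deriv y a₀) = a * deriv y a - y a - (a₀ * deriv y a₀ - y a₀) :=
    div_mul_cancel₀ _ (sub_ne_zero.2 m3)
  generalize X a = x at m4 hXa
  obtain ⟨Y, hY⟩ : ∃ Y, Y = y a₀ + (x - a₀) * deriv y a₀ := ⟨_, rfl⟩
  have hY' : Y = y a + (x - a) * deriv y a := by linear_combination hY - hXa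
  have e : ![a₀, 1, y a₀] + (x - a₀) • ![1, 0, deriv y a₀] = ![x, 1, Y] := by simp [hY]
  rw [e] at m4
  have x0 : x ≠ a₀ := fun h => m4 (by simpa [hY, h] using (hB a₀ ha₀).2.self_of_nhds)
  have x1 : x ≠ a := fun h => m4 (by simpa [hY', h] using (hB a m1).2.self_of_nhds)
  obtain ⟨q₀, u1, u2⟩ := family_tan hf hh (hB a₀ ha₀).1 (hB a₀ ha₀).2 h2 x0 hY
  obtain ⟨q₁, v1, v2⟩ := family_tan hf hh (hB a m1).1 (hB a m1).2 m2 x1 hY'
  refine ⟨![x, 1, Y], ![q₀, q₁], m4, ?_, fun i => ?_⟩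
  · refine Fintype.linearIndependent_iff.2 fun g hg => ?_
    have e0 := congrFun hg 0
    have e1 := congrFun hg 1
    have e2 := congrFun hg 2
    simp [Fin.sum_univ_three, u1, v1] at e0 e1 e2
    have f2 : g 2 * ((a - x) * (deriv y a - deriv y a₀)) = 0 := by
      linear_combination e2 - deriv y a₀ * e0 - (Y - x * deriv y a₀) * e1 + g 1 * hY + g 2 * hY'
    have g2 : g 2 = 0 := (mul_eq_zero.1 f2).resolve_right
      (mul_ne_zero (sub_ne_zero.2 x1.symm) (sub_ne_zero.2 m3))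
    have f1 : g 1 * (a₀ - x) = 0 := by linear_combination e0 - x * e1 - (a - x) * g2
    have g1 : g 1 = 0 := (mul_eq_zero.1 f1).resolve_right (sub_ne_zero.2 x0.symm)
    have g0 : g 0 = 0 := by linear_combination e1 - g1 - g2
    intro i
    fin_cases i
    exacts [g0, g1, g2]
  · fin_cases i
    exacts [u2, v2]

theorem main_tan (hf : ∀ v, AnalyticAt ℂ f v) (hh : ∀ (t : ℂ) v, f (t • v) = t ^ 6 * f v)
    (hs : ∀ v ≠ 0, f v = 0 → fderiv ℂ f v ≠ 0)
    (hr : ∀ u v w, ∃ s t : ℂ, (s ≠ 0 ∨ t ≠ 0) ∧ fderiv ℂ f (s • u + t • v) w = 0)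
    {q : Fin 3 → ℂ} (hq : q ≠ 0) (hq' : f q = 0) :
    ∃ (p₀ : Fin 3 → ℂ) (q : Fin 2 → (Fin 3 → ℂ) → Fin 3 → ℂ), f p₀ ≠ 0 ∧
      LinearIndependent ℂ ![p₀, q 0 p₀, q 1 p₀] ∧ ∀ i, ∀ᶠ p in 𝓝 p₀,
        DifferentiableAt ℂ (q i) p ∧ f (q i p) = 0 ∧ fderiv ℂ f (q i p) p = 0 := by
  obtain ⟨w, hw⟩ : ∃ w, fderiv ℂ f q w ≠ 0 := by
    by_contra h
    push Not at h
    exact hs q hq hq' (ContinuousLinearMap.ext h)
  have i1 : LinearIndependent ℂ ![q, w] := LinearIndependent.pair_iff.2 fun s t h => by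
    have := congrArg (fderiv ℂ f q) h
    rw [map_add, map_smul, map_smul, euler_tan hf hh hq', map_zero, smul_zero, zero_add,
      smul_eq_zero, or_iff_left hw] at this
    rw [this, zero_smul, add_zero, smul_eq_zero, or_iff_left hq] at h
    exact ⟨h, this⟩
  obtain ⟨x, i2⟩ := exists_linearIndependent_cons_of_lt_finrank i1 (by simp)
  obtain ⟨A, A1, A2⟩ : ∃ A : (Fin 3 → ℂ) ≃L[ℂ] (Fin 3 → ℂ),
      A ![0, 1, 0] = q ∧ A ![0, 0, 1] = w := by
    obtain ⟨b, hb⟩ : ∃ b : Module.Basis (Fin 3) ℂ (Fin 3 → ℂ), ⇑b = ![x, q, w] :=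
      ⟨basisOfLinearIndependentOfCardEqFinrank i2 (by simp),
        coe_basisOfLinearIndependentOfCardEqFinrank _ _⟩
    exact ⟨b.equivFun.symm.toContinuousLinearEquiv, by simp [hb, Fin.sum_univ_three],
      by simp [hb, Fin.sum_univ_three]⟩
  have hd : ∀ v p, fderiv ℂ (f ∘ A) v p = fderiv ℂ f (A v) (A p) := fun v p => by
    rw [A.comp_right_fderiv]
    rfl
  obtain ⟨p₀, r, r1, r2, r3⟩ := core_tan (f := f ∘ A)
    (fun v => (hf _).comp (A.analyticAt v)) (fun t v => by simp [hh])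
    (fun v hv h e => hs (A v) (by simpa using hv) h (ContinuousLinearMap.ext fun p => by
      have := hd v (A.symm p)
      rw [e, A.apply_symm_apply] at this
      exact this.symm))
    (fun u v w => by
      obtain ⟨s, t, h1, h2⟩ := hr (A u) (A v) (A w)
      exact ⟨s, t, h1, by rwa [hd, map_add, map_smul, map_smul]⟩)
    (by rwa [Function.comp_apply, A1]) (by rwa [hd, A1, A2])
  refine ⟨A p₀, fun i p => A (r i (A.symm p)), r1, ?_, fun i => ?_⟩
  · have e : ![A p₀, A (r 0 (A.symm (A p₀))), A (r 1 (A.symm (A p₀)))] =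
        (A : (Fin 3 → ℂ) →ₗ[ℂ] (Fin 3 → ℂ)) ∘ ![p₀, r 0 p₀, r 1 p₀] := by
      ext1 j
      fin_cases j <;> simp
    exact e ▸ r2.map' (A : (Fin 3 → ℂ) →ₗ[ℂ] (Fin 3 → ℂ)) A.toLinearEquiv.ker
  · have ht : Tendsto A.symm (𝓝 (A p₀)) (𝓝 p₀) := by
      simpa using A.symm.continuous.tendsto (A p₀)
    filter_upwards [ht.eventually (r3 i)] with p ⟨n1, n2, n3⟩
    refine ⟨A.differentiableAt.comp p (n1.comp p A.symm.differentiableAt), n2, ?_⟩
    rwa [hd, A.apply_symm_apply] at n3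

end core

lemma smooth_tan {F : MvPolynomial (Fin 3) ℂ}
    (hs : ∀ v : Fin 3 → ℂ, v ≠ 0 → eval v F = 0 → ∃ i, eval v (pderiv i F) ≠ 0)
    (v : Fin 3 → ℂ) (hv : v ≠ 0) (h : eval v F = 0) :
    fderiv ℂ (fun v : Fin 3 → ℂ => eval v F) v ≠ 0 := fun e => by
  obtain ⟨i, hi⟩ := hs v hv h
  have := fderiv_eval F v (Pi.single i 1)
  rw [e, Finset.sum_eq_single i (fun j _ hj => by rw [Pi.single_eq_of_ne hj, zero_mul])
    (by simp), Pi.single_eq_same, one_mul] at this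
  exact hi this.symm

lemma polar_tan {F : MvPolynomial (Fin 3) ℂ} (hF : F.IsHomogeneous 6) (u v w : Fin 3 → ℂ) :
    ∃ s t : ℂ, (s ≠ 0 ∨ t ≠ 0) ∧
      fderiv ℂ (fun v : Fin 3 → ℂ => eval v F) (s • u + t • v) w = 0 := by
  obtain ⟨s, t, h1, h2⟩ := root_tan (G := ∑ j, C (w j) * pderiv j F) (n := 6 - 1)
    (IsHomogeneous.sum _ _ _ fun j _ => hF.pderiv.C_mul _) (by norm_num) u v
  refine ⟨s, t, h1, ?_⟩
  rw [fderiv_eval, ← h2, map_sum]
  exact Finset.sum_congr rfl fun j _ => by rw [map_mul, eval_C]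

theorem two_tangents {F : MvPolynomial (Fin 3) ℂ} (hF : F.IsHomogeneous 6)
    (hs : ∀ v : Fin 3 → ℂ, v ≠ 0 → eval v F = 0 → ∃ i, eval v (pderiv i F) ≠ 0) :
    ∃ (p₀ : Fin 3 → ℂ) (q : Fin 2 → (Fin 3 → ℂ) → Fin 3 → ℂ), eval p₀ F ≠ 0 ∧
      LinearIndependent ℂ ![p₀, q 0 p₀, q 1 p₀] ∧ ∀ i, ∀ᶠ p in 𝓝 p₀,
        DifferentiableAt ℂ (q i) p ∧ eval (q i p) F = 0 ∧
          ∑ j, p j * eval (q i p) (pderiv j F) = 0 := by
  have hf : ∀ v, AnalyticAt ℂ (fun v : Fin 3 → ℂ => eval v F) v := fun v => by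
    simp only [← aeval_eq_eval]
    exact AnalyticAt.aeval_mvPolynomial (f := fun v : Fin 3 → ℂ => v)
      (fun i => (ContinuousLinearMap.proj i : (Fin 3 → ℂ) →L[ℂ] ℂ).analyticAt v) F
  obtain ⟨q, hq, hq'⟩ : ∃ q : Fin 3 → ℂ, q ≠ 0 ∧ eval q F = 0 := by
    obtain ⟨s, t, h1, h2⟩ := root_tan hF (by norm_num) ![1, 0, 0] ![0, 1, 0]
    refine ⟨_, fun e => ?_, h2⟩
    have e0 := congrFun e 0
    have e1 := congrFun e 1
    simp at e0 e1
    tauto
  obtain ⟨p₀, r, r1, r2, r3⟩ := main_tan (f := fun v : Fin 3 → ℂ => eval v F) hf (eval_smul hF)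
    (smooth_tan hs) (polar_tan hF) hq hq'
  refine ⟨p₀, r, r1, r2, fun i => (r3 i).mono fun p hp => ⟨hp.1, hp.2.1, ?_⟩⟩
  rw [← fderiv_eval]
  exact hp.2.2

end Pool.Agent.Lib.MP_cd3a7b_ag
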