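import Pool.Agent.Lib.MP_cd3a7b_ag.H8Span
import Pool.Agent.Lib.MP_cd3a7b_ag.H8Model
import Pool.Agent.Lib.MP_cd3a7b_ag.H8Flow
import Pool.Agent.Lib.MP_cd3a7b_ag.H8Tan
import Pool.Agent.Lib.MP_cd3a7b_ag.H8Alg
import Pool.Agent.Lib.MP_cd3a7b_ag.H8Lift

/-! Two families of genus one curves on a double plane. -/

namespace Pool.Agent.Lib.MP_cd3a7b_ag

open Metric Set Filter Topology MvPolynomial
open scoped Manifold

theorem chain_pr {E V P : Type*} [NormedAddCommGroup E] [NormedSpace ℂ E] [NormedAddCommGroup V]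
    [NormedSpace ℂ V] [NormedAddCommGroup P] [NormedSpace ℂ P] {X : Type*} [TopologicalSpace X]
    [ChartedSpace E X] [IsManifold 𝓘(ℂ, E) 1 X] {pr : X → P} {x : X}
    (h : MDifferentiableAt 𝓘(ℂ, E) 𝓘(ℂ, P) pr x) {T : V → X} {z : V} (hT : Hol E T z)
    (hz : T z = x) : HasFDerivAt (fun z => pr (T z))
      ((fderiv ℂ (fun e => pr ((chartAt E x).symm e)) (chartAt E x x)).comp
        (fderiv ℂ (fun z => chartAt E x (T z)) z)) z := by
  have hx := mem_chart_source E x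
  have h1 : DifferentiableAt ℂ (fun e => pr ((chartAt E x).symm e)) (chartAt E x x) := by
    refine mdifferentiableAt_iff_differentiableAt.1 (MDifferentiableAt.comp (I' := 𝓘(ℂ, E)) _ ?_
      (hol_symm (G := id) differentiableAt_id ((chartAt E x).map_source hx)))
    exact ((chartAt E x).left_inv hx).symm ▸ h
  rw [← hz] at h1 hx ⊢
  refine (h1.hasFDerivAt.comp z (hT.chart hx).hasFDerivAt).congr_of_eventuallyEq ?_
  filter_upwards [hT.continuousAt.eventually (chart_source_mem_nhds E _)] with y hy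
  exact congrArg pr ((chartAt E (T z)).left_inv hy).symm

theorem act_mem {f : (Fin 3 → ℂ) → ℂ} (hh : ∀ (c : ℂ) (v : Fin 3 → ℂ), f (c • v) = c ^ 6 * f v)
    {y : W} (hy : y ∈ Cone f) {c : ℂ} (hc : c ≠ 0) : act c y ∈ Cone f :=
  ⟨smul_ne_zero hc hy.1, by simp only [act, hh, ← hy.2]; ring⟩

theorem exists_sqrt {f : (Fin 3 → ℂ) → ℂ} (hf : Differentiable ℂ f) {p₀ : Fin 3 → ℂ}
    (h : f p₀ ≠ 0) : ∃ r : (Fin 3 → ℂ) → ℂ, r p₀ ≠ 0 ∧
      ∀ᶠ p in 𝓝 p₀, DifferentiableAt ℂ r p ∧ r p ^ 2 = f p := by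
  obtain ⟨w, hw⟩ := IsAlgClosed.exists_pow_nat_eq (f p₀) two_pos
  refine ⟨fun p => w * Complex.exp (Complex.log (f p / f p₀) / 2),
    mul_ne_zero (fun e => h (by rw [← hw, e]; simp)) (Complex.exp_ne_zero _), ?_⟩
  filter_upwards [(hf.continuous.div_const (f p₀)).continuousAt.eventually
    (Complex.isOpen_slitPlane.mem_nhds (by simp [div_self h] : f p₀ / f p₀ ∈ Complex.slitPlane))]
    with p hp
  have hp' : f p / f p₀ ∈ Complex.slitPlane := hp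
  refine ⟨?_, ?_⟩
  · simp only [div_eq_mul_inv] at hp' ⊢
    exact ((((hf p).mul_const _).clog hp').mul_const _).cexp.const_mul _
  rw [mul_pow, ← Complex.exp_nat_mul, hw, show ((2 : ℕ) : ℂ) * (Complex.log (f p / f p₀) / 2) =
    Complex.log (f p / f p₀) by push_cast; ring, Complex.exp_log (Complex.slitPlane_ne_zero hp'),
    mul_div_cancel₀ _ h]

/-- The family of genus one curves over a family of tangent lines. -/
theorem exists_family {F : MvPolynomial (Fin 3) ℂ} (hF : F.IsHomogeneous 6) {p₀ : Fin 3 → ℂ}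
    {q : (Fin 3 → ℂ) → Fin 3 → ℂ} {r : (Fin 3 → ℂ) → ℂ} (hi : LinearIndependent ℂ ![q p₀, p₀])
    (hq : ∀ᶠ p in 𝓝 p₀, DifferentiableAt ℂ q p ∧ eval (q p) F = 0 ∧
      ∑ j, p j * eval (q p) (pderiv j F) = 0)
    (hr : ∀ᶠ p in 𝓝 p₀, DifferentiableAt ℂ r p ∧ r p ^ 2 = eval p F) :
    ∃ (L : ℂ × (Fin 3 → ℂ) → W) (a b : ℂ → ℂ), (∀ p, L (0, p) = (p₀ + p, r (p₀ + p))) ∧
      (∀ s, (L (s, 0)).1 = a s • q p₀ + b s • p₀) ∧ HasDerivAt (fun s => a s / b s) (r p₀) 0 ∧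
      ∀ᶠ p in 𝓝 (0 : Fin 3 → ℂ), ∀ s, L (s, p) ∈ Cone (fun v => eval v F) ∧
        ∃ κ : ℂ × (Fin 3 → ℂ) → ℂ, (∀ᶠ z in 𝓝 (s, p), κ z ≠ 0) ∧
          DifferentiableAt ℂ (fun z => act (κ z) (L z)) (s, p) := by
  obtain ⟨Ψ, h1, h2, h3⟩ := global_flow
  obtain ⟨C, h4, h5⟩ := expand6 hF
  let c : (Fin 3 → ℂ) → Fin 5 → ℂ := fun p =>
    ![r p, C 0 (q p, p), C 1 (q p, p), C 2 (q p, p), C 3 (q p, p)]
  refine ⟨fun z => ((Ψ (z.1, c (p₀ + z.2))).1 • q (p₀ + z.2) + (Ψ (z.1, c (p₀ + z.2))).2.1 •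
    (p₀ + z.2), (Ψ (z.1, c (p₀ + z.2))).2.1 * (Ψ (z.1, c (p₀ + z.2))).2.2),
    fun s => (Ψ (s, c p₀)).1, fun s => (Ψ (s, c p₀)).2.1, fun p => by simp [(h3 _).1, c],
    fun s => by simp, (h3 (c p₀)).2, ?_⟩
  have hl : ∀ᶠ p in 𝓝 p₀, LinearIndependent ℂ ![q p, p] := by
    have : ContinuousAt (fun p => ![q p, p]) p₀ := continuousAt_pi.2 (Fin.forall_fin_two.2
      ⟨hq.self_of_nhds.1.continuousAt, continuousAt_id⟩)
    exact this.tendsto.eventually hi.eventually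
  have ta : Tendsto (fun p => p₀ + p) (𝓝 0) (𝓝 p₀) := by
    simpa using (continuous_const_add p₀).tendsto 0
  filter_upwards [ta.eventually hq, ta.eventually hr, ta.eventually hl] with p k1 k2 k3 s
  refine ⟨⟨fun e => ?_, ?_⟩, ?_⟩
  · obtain ⟨e1, e2⟩ := LinearIndependent.pair_iff.1 k3 _ _ e
    exact (h1 _).1.elim (fun h => h e1) fun h => h e2
  · refine Eq.trans ?_ (h5 _ _ k1.2.1 k1.2.2 _ _).symm
    rw [mul_pow, (h1 _).2, ← k2.2]
    simp [Qd, c]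
  · obtain ⟨κ, hκ⟩ := h2 (s, c (p₀ + p))
    have d0 : DifferentiableAt ℂ (fun z : ℂ × (Fin 3 → ℂ) => p₀ + z.2) (s, p) := by fun_prop
    have d1 := DifferentiableAt.comp (g := q) (s, p) k1.1 d0
    have d2 : DifferentiableAt ℂ (fun z : ℂ × (Fin 3 → ℂ) => (z.1, c (p₀ + z.2))) (s, p) := by
      refine differentiableAt_fst.prodMk (differentiableAt_pi.2 fun k => ?_)
      have d3 := fun k => (h4 k _).comp (s, p) (d1.prodMk d0)
      fin_cases k
      exacts [DifferentiableAt.comp (g := r) (s, p) k2.1 d0, d3 0, d3 1, d3 2, d3 3]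
    refine ⟨fun z => κ (z.1, c (p₀ + z.2)),
      (d2.continuousAt.eventually hκ).mono fun z hz => hz.1, ?_⟩
    have d4 := hκ.self_of_nhds.2.comp (s, p) d2
    refine (((d4.fst.smul d1).add (d4.snd.fst.smul d0)).prodMk
      (d4.snd.fst.mul d4.snd.snd)).congr_of_eventuallyEq (Eventually.of_forall fun z => ?_)
    refine Prod.ext ?_ ?_
    · simp [act, smul_smul]
    · simp only [act, Function.comp_apply, Pi.mul_apply]
      ring

section model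

variable {F : MvPolynomial (Fin 3) ℂ} {X : Type} [TopologicalSpace X] [ChartedSpace (ℂ × ℂ) X]
  [IsManifold 𝓘(ℂ, ℂ × ℂ) 1 X] {π : W → X}

theorem model_class (hF : F.IsHomogeneous 6)
    (hs : ∀ v : Fin 3 → ℂ, v ≠ 0 → eval v F = 0 → ∃ i, eval v (pderiv i F) ≠ 0)
    (m1 : ∀ y ∈ Cone fun v => eval v F, ∀ y' ∈ Cone fun v => eval v F,
      π y = π y' ↔ ∃ c, c ≠ 0 ∧ y' = act c y)
    (m2 : ∀ (V : Type) [NormedAddCommGroup V] [NormedSpace ℂ V] (s : V → W) (z : V),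
      DifferentiableAt ℂ s z → (∀ᶠ z' in 𝓝 z, s z' ∈ Cone fun v => eval v F) →
        MDifferentiableAt 𝓘(ℂ, V) 𝓘(ℂ, ℂ × ℂ) (fun z' => π (s z')) z)
    (m3 : ∀ x, ∃ σ : X → W, ∀ᶠ x' in 𝓝 x, MDifferentiableAt 𝓘(ℂ, ℂ × ℂ) 𝓘(ℂ, W) σ x' ∧
      (σ x' ∈ Cone fun v => eval v F) ∧ π (σ x') = x') :
    ∃ f ∈ Ctr (ℂ × ℂ) X, {y | Relation.ReflTransGen (Lnk (ℂ × ℂ)) (f 0) y} ∈ 𝓝 (f 0) ∧
      ∃ p₀ q : Fin 3 → ℂ, q ≠ 0 ∧ eval q F = 0 ∧ ∀ O ∈ 𝓝 (f 0), ∀ᶠ p in 𝓝 p₀,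
        ∃ w, ((p, w) ∈ Cone fun v => eval v F) ∧ π (p, w) ∈ O := by
  obtain ⟨p₀, q, h1, h2, h3⟩ := two_tangents hF hs
  obtain ⟨r, h4, h5⟩ := exists_sqrt (differentiable_eval F) h1
  have hh : ∀ (c : ℂ) (v : Fin 3 → ℂ), eval (c • v) F = c ^ 6 * eval v F := eval_smul hF
  let B := basisOfLinearIndependentOfCardEqFinrank h2 (by simp)
  let l : Fin 3 → (Fin 3 → ℂ) →L[ℂ] ℂ := fun k => (B.coord k).toContinuousLinearMap
  have hB : ∀ k j, l k (![p₀, q 0 p₀, q 1 p₀] j) = if j = k then 1 else 0 := fun k j => by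
    have := B.repr_self_apply j k
    rwa [coe_basisOfLinearIndependentOfCardEqFinrank] at this
  have l0 : l 0 p₀ = 1 := hB 0 0
  have l1 : ∀ k : Fin 2, l k.succ p₀ = 0 := fun k => (hB k.succ 0).trans (if_neg (Fin.succ_ne_zero k).symm)
  have l2 : ∀ i, l 0 (q i p₀) = 0 := Fin.forall_fin_two.2 ⟨hB 0 1, hB 0 2⟩
  have l3 : ∀ i k : Fin 2, l k.succ (q i p₀) = (Pi.single i 1 : Fin 2 → ℂ) k :=
    Fin.forall_fin_two.2 ⟨Fin.forall_fin_two.2 ⟨hB 1 1, hB 2 1⟩,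
      Fin.forall_fin_two.2 ⟨hB 1 2, hB 2 2⟩⟩
  have hi : ∀ i, LinearIndependent ℂ ![q i p₀, p₀] := fun i =>
    LinearIndependent.pair_iff.2 fun a b e => by
      have e1 := congrArg (l 0) e
      have e2 := congrArg (l i.succ) e
      simp only [map_add, map_smul, l0, l1, l2, l3, map_zero] at e1 e2
      exact ⟨by simpa using e2, by simpa using e1⟩
  choose L a b k1 k2 k3 k4 using fun i => exists_family hF (hi i) (h3 i) h5
  have hS : ∀ i, Spray (ℂ × ℂ) fun z => π (L i z) := fun i => by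
    filter_upwards [(k4 i).eventually_nhds] with p hp s
    obtain ⟨κ, n1, n2⟩ := (hp.self_of_nhds s).2
    have n3 : ∀ᶠ z in 𝓝 (s, p), L i z ∈ Cone fun v => eval v F :=
      ((continuous_snd.tendsto (s, p)).eventually hp).mono fun z hz => (hz z.1).1
    refine (m2 _ _ _ n2 ((n1.and n3).mono fun z hz => act_mem hh hz.2 hz.1)).congr_of_eventuallyEq ?_
    filter_upwards [n1, n3] with z z1 z2
    exact (m1 _ z2 _ (act_mem hh z2 z1)).2 ⟨_, z1, rfl⟩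
  have c0 : (p₀, r p₀) ∈ Cone fun v => eval v F := by
    simpa [k1] using ((k4 0).self_of_nhds 0).1
  obtain ⟨σ, hσ⟩ := m3 (π (p₀, r p₀))
  let ρ : (Fin 3 → ℂ) → Fin 2 → ℂ := fun v k => l k.succ v / l 0 v
  have hρ : ∀ᶠ x in 𝓝 (π (p₀, r p₀)), ∀ y ∈ Cone fun v => eval v F, π y = x → ρ (σ x).1 = ρ y.1 := by
    filter_upwards [hσ] with x hx y hy e
    obtain ⟨c, hc, e'⟩ := (m1 _ hy _ hx.2.1).1 (e.trans hx.2.2.symm)
    ext k
    simp only [e', act, ρ, map_smul, smul_eq_mul, mul_div_mul_left _ _ hc]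
  have dρ : ∀ v, l 0 v ≠ 0 → DifferentiableAt ℂ ρ v := fun v hv =>
    differentiableAt_pi.2 fun k => (l _).differentiableAt.mul ((l _).differentiableAt.inv hv)
  have hpr : MDifferentiableAt 𝓘(ℂ, ℂ × ℂ) 𝓘(ℂ, Fin 2 → ℂ) (fun x => ρ (σ x).1)
      (π (p₀, r p₀)) := by
    obtain ⟨c, hc, e'⟩ := (m1 _ c0 _ hσ.self_of_nhds.2.1).1 hσ.self_of_nhds.2.2.symm
    refine MDifferentiableAt.comp (I' := 𝓘(ℂ, W)) (g := fun y : W => ρ y.1) _
      (DifferentiableAt.mdifferentiableAt ((dρ _ ?_).comp _ differentiableAt_fst))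
      hσ.self_of_nhds.1
    simp [e', act, l0, hc]
  have e0 : ∀ i, π (L i (0, 0)) = π (p₀, r p₀) := fun i => by simp [k1]
  set x := π (p₀, r p₀)
  set D := fderiv ℂ (fun e => ρ (σ ((chartAt (ℂ × ℂ) x).symm e)).1) (chartAt (ℂ × ℂ) x x)
  have ta : Tendsto (fun p => p₀ + p) (𝓝 0) (𝓝 p₀) := by
    simpa using (continuous_const_add p₀).tendsto 0
  have key : ∀ i u, ∃ p, D (fderiv ℂ (fun p => chartAt (ℂ × ℂ) x (π (L i (0, p)))) 0 p) = u := by
    intro i u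
    have n1 := chain_pr hpr ((hS i).self_of_nhds 0).slice (e0 i)
    have n2 : HasFDerivAt (fun p => ρ (p₀ + p)) (ContinuousLinearMap.pi fun k : Fin 2 => l k.succ) 0 := by
      refine hasFDerivAt_pi.2 fun k => ?_
      have n3 : ∀ j, HasFDerivAt (fun p => l j (p₀ + p)) (l j) 0 := fun j => by
        simpa only [map_add] using (l j).hasFDerivAt.const_add (l j p₀)
      refine ((n3 k.succ).mul ((hasFDerivAt_inv (by simp [l0])).comp 0 (n3 0))).congr_fderiv ?_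
      ext v
      simp [l0, l1]
    have n4 : (fun p => ρ (σ (π (L i (0, p)))).1) =ᶠ[𝓝 0] fun p => ρ (p₀ + p) := by
      filter_upwards [(e0 i ▸ ((hS i).self_of_nhds 0).slice.continuousAt.tendsto).eventually hρ,
        k4 i] with p n5 n6
      exact (n5 _ (n6 0).1 rfl).trans (by rw [k1])
    refine ⟨∑ j, u j • q j p₀, ?_⟩
    have n7 := congrArg (fun A => A (∑ j, u j • q j p₀)) (n1.unique (n2.congr_of_eventuallyEq n4))
    refine n7.trans (funext fun k => ?_)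
    simp only [ContinuousLinearMap.pi_apply, map_sum, map_smul, l3]
    fin_cases k <;> simp
  have hD : Function.Injective D :=
    (LinearMap.injective_iff_surjective_of_finrank_eq_finrank (f := (D : ℂ × ℂ →ₗ[ℂ] Fin 2 → ℂ))
      (by simp)).2 fun u => (key 0 u).elim fun _ h => ⟨_, h⟩
  have hb : ∀ i, Sbm (ℂ × ℂ) (fun p => π (L i (0, p))) 0 := fun i =>
    (sbm_iff ((hS i).self_of_nhds 0).slice (x := x) (by rw [e0]; exact mem_chart_source _ _)).2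
      fun v => (key i (D v)).imp fun _ h => hD h
  choose f f1 f2 using fun i => (ctr_of_spray (hS i) (hb i)).self_of_nhds
  have f0 : ∀ i, f i 0 = x := fun i => (f2 i 0).trans (e0 i)
  have dv : ∀ i, D (deriv (fun t => chartAt (ℂ × ℂ) x (f i t)) 0) =
      r p₀ • (Pi.single i 1 : Fin 2 → ℂ) := by
    intro i
    have n0 : Hol (ℂ × ℂ) (f i) 0 := by
      rw [funext (f2 i)]
      exact Hol.pre (S := fun z => π (L i z)) (L := fun t => (t, (0 : Fin 3 → ℂ)))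
        ((hS i).self_of_nhds 0) (by fun_prop)
    have n4 : (fun t => ρ (σ (f i t)).1) =ᶠ[𝓝 0]
        fun t => (a i t / b i t) • (Pi.single i 1 : Fin 2 → ℂ) := by
      filter_upwards [(f0 i ▸ n0.continuousAt.tendsto).eventually hρ] with t n5
      refine (n5 _ ((k4 i).self_of_nhds t).1 (f2 i t).symm).trans (funext fun k => ?_)
      simp only [ρ, k2, map_add, map_smul, l0, l1, l2, l3, smul_eq_mul, Pi.smul_apply]
      ring
    exact (chain_pr hpr n0 (f0 i)).hasDerivAt.unique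
      (((k3 i).smul_const _).congr_of_eventuallyEq n4)
  refine ⟨f 0, f1 0, ?_, p₀, q 0 p₀, (hi 0).ne_zero 0, (h3 0).self_of_nhds.2.1, fun O hO => ?_⟩
  · rw [f0]
    refine span_nhds f1 f0 fun v => ⟨fun i => D v i / r p₀, hD ?_⟩
    ext k
    fin_cases k <;> simp [dv, h4]
  · have tb : Tendsto (fun p => p - p₀) (𝓝 p₀) (𝓝 0) := by
      simpa using (continuous_sub_right p₀).tendsto p₀
    rw [f0, ← e0 0] at hO
    filter_upwards [tb.eventually (((hS 0).self_of_nhds 0).slice.continuousAt.eventually hO),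
      tb.eventually (k4 0)] with p n1 n2
    exact ⟨r p, by simpa [k1] using (n2 0).1, by simpa [k1] using show π (L 0 (0, p - p₀)) ∈ O from n1⟩

omit [IsManifold 𝓘(ℂ, ℂ × ℂ) 1 X] in
theorem model_lift {f : (Fin 3 → ℂ) → ℂ}
    (hh : ∀ (c : ℂ) (v : Fin 3 → ℂ), f (c • v) = c ^ 6 * f v)
    (m1 : ∀ y ∈ Cone f, ∀ y' ∈ Cone f, π y = π y' ↔ ∃ c, c ≠ 0 ∧ y' = act c y)
    (m3 : ∀ x, ∃ σ : X → W, ∀ᶠ x' in 𝓝 x, MDifferentiableAt 𝓘(ℂ, ℂ × ℂ) 𝓘(ℂ, W) σ x' ∧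
      σ x' ∈ Cone f ∧ π (σ x') = x') {g : ℂ → X} (g1 : ∀ t, Hol (ℂ × ℂ) g t) :
    ∃ G : ℂ → W, Differentiable ℂ G ∧ ∀ t, G t ∈ Cone f ∧ π (G t) = g t := by
  choose σ hσ using m3
  have s1 : ∀ x, σ x x ∈ Cone f := fun x => (hσ x).self_of_nhds.2.1
  have s2 : ∀ x, π (σ x x) = x := fun x => (hσ x).self_of_nhds.2.2
  obtain ⟨c, c1, c2⟩ := global_lift (g := fun t => σ (g t) (g t)) (fun t => (s1 _).1) fun t₀ => by
    have h1 := (g1 t₀).continuousAt.eventually (hσ (g t₀))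
    have h2 : ∀ t, ∃ c : ℂ, σ (g t₀) (g t) ∈ Cone f →
        π (σ (g t₀) (g t)) = g t → c ≠ 0 ∧ σ (g t₀) (g t) = act c (σ (g t) (g t)) := fun t => by
      by_cases h : σ (g t₀) (g t) ∈ Cone f ∧ π (σ (g t₀) (g t)) = g t
      · exact ((m1 _ (s1 _) _ h.1).1 ((s2 _).trans h.2.symm)).imp fun _ e _ _ => e
      · exact ⟨0, fun a b => absurd ⟨a, b⟩ h⟩
    choose c hc using h2
    refine ⟨c, h1.eventually_nhds.mono fun t ht => ?_⟩
    obtain ⟨a1, a2, a3⟩ := ht.self_of_nhds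
    refine ⟨(hc t a2 a3).1, (mdifferentiableAt_iff_differentiableAt.1
      (a1.comp t (g1 t))).congr_of_eventuallyEq (ht.mono fun t' h => (hc t' h.2.1 h.2.2).2.symm)⟩
  exact ⟨_, c2, fun t => ⟨act_mem hh (s1 _) (c1 t),
    ((m1 _ (s1 _) _ (act_mem hh (s1 _) (c1 t))).2 ⟨_, c1 t, rfl⟩).symm.trans (s2 _)⟩⟩

omit [IsManifold 𝓘(ℂ, ℂ × ℂ) 1 X] in
theorem model_closed {f : (Fin 3 → ℂ) → ℂ}
    (m1 : ∀ y ∈ Cone f, ∀ y' ∈ Cone f, π y = π y' ↔ ∃ c, c ≠ 0 ∧ y' = act c y)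
    (m3 : ∀ x, ∃ σ : X → W, ∀ᶠ x' in 𝓝 x, MDifferentiableAt 𝓘(ℂ, ℂ × ℂ) 𝓘(ℂ, W) σ x' ∧
      σ x' ∈ Cone f ∧ π (σ x') = x') {ev : W → ℂ} (ec : Continuous ev) {n : ℕ}
    (ea : ∀ k y, ev (act k y) = k ^ n * ev y) :
    IsClosed {x | ∀ y ∈ Cone f, π y = x → ev y = 0} := by
  refine isClosed_iff_frequently.2 fun x hx y hy e => ?_
  by_contra h0
  obtain ⟨σ, hσ⟩ := m3 x
  obtain ⟨k, hk, e'⟩ := (m1 _ hy _ hσ.self_of_nhds.2.1).1 (e.trans hσ.self_of_nhds.2.2.symm)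
  have h1 : ∀ᶠ x' in 𝓝 x, ev (σ x') ≠ 0 :=
    (ec.continuousAt.comp hσ.self_of_nhds.1.continuousAt).eventually_ne (by
      simpa [e', ea, hk] using h0)
  obtain ⟨x', a1, a2, a3⟩ := (hx.and_eventually (h1.and hσ)).exists
  exact a2 (a1 _ a3.2.1 a3.2.2)

end model

theorem k3_curve {F : MvPolynomial (Fin 3) ℂ} (hF : F.IsHomogeneous 6)
    (hs : ∀ v : Fin 3 → ℂ, v ≠ 0 → eval v F = 0 → ∃ i, eval v (pderiv i F) ≠ 0)
    {Z : Set W} (hZ : Z.Finite) : ∃ g : ℂ → W, Differentiable ℂ g ∧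
      (∀ t, g t ∈ Cone fun v => eval v F) ∧ (∀ t c, c ≠ 0 → act c (g t) ∉ Z) ∧
      ∀ (G : MvPolynomial (Option (Fin 3)) ℂ) (n : ℕ),
        G.IsWeightedHomogeneous (fun o => o.elim 3 fun _ => 1) n →
        (∀ t, eval (fun o => o.elim (g t).2 (g t).1) G = 0) →
          ∀ v w, w ^ 2 = eval v F → eval (fun o => o.elim w v) G = 0 := by
  have hh : ∀ (c : ℂ) (v : Fin 3 → ℂ), eval (c • v) F = c ^ 6 * eval v F := eval_smul hF
  obtain ⟨X, _, _, _, _, _, π, m1, m2, m3⟩ := exists_model (differentiable_eval F) hh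
    fun v hv h e => by
      obtain ⟨i, hi⟩ := hs v hv h
      have := fderiv_eval F v (Pi.single i 1)
      rw [e] at this
      exact hi (by simpa [Pi.single_apply] using this.symm)
  obtain ⟨f, f1, f2, p₀, q, q1, q2, f3⟩ := model_class hF hs m1 m2 m3
  have hZ' := (hZ.inter_of_left (Cone fun v => eval v F)).image π
  obtain ⟨g, g1, g2, g3⟩ := closure_nonempty_iff.1 ⟨_, chain_curve hZ'.isClosed (fun x => by
    rw [((hZ'.inter_of_left _).image _).dimH_zero]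
    simp only [Module.finrank_prod, Module.finrank_self]
    norm_num) f1 ⟨_, mem_interior_iff_mem_nhds.2 f2⟩⟩
  obtain ⟨γ, c2, c3⟩ := model_lift (f := fun v => eval v F) hh m1 m3 g1
  refine ⟨γ, c2, fun t => (c3 t).1, fun t k hk h => ?_, fun G n hG h => ?_⟩
  · have c4 := act_mem (f := fun v => eval v F) hh (c3 t).1 hk
    exact g2 t ⟨_, ⟨h, c4⟩, ((m1 _ (c3 t).1 _ c4).2 ⟨k, hk, rfl⟩).symm.trans (c3 t).2⟩
  obtain ⟨i, hi⟩ := hs q q1 q2
  have ea : ∀ (k : ℂ) (y : W), eval (fun o => o.elim (act k y).2 (act k y).1) G =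
      k ^ n * eval (fun o => o.elim y.2 y.1) G := fun k y => eval_weighted hG k y.2 y.1
  have ec : Continuous fun y : W => eval (fun o : Option (Fin 3) => o.elim y.2 y.1) G :=
    Continuous.comp (g := fun v => eval v G) (f := fun (y : W) (o : Option (Fin 3)) => o.elim y.2 y.1)
      (differentiable_eval G).continuous (continuous_pi fun o => by
        cases o
        exacts [continuous_snd, (continuous_apply _).comp continuous_fst])
  have hC := model_closed (ev := fun y : W => eval (fun o : Option (Fin 3) => o.elim y.2 y.1) G)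
    m1 m3 ec ea
  have hN := closure_minimal (s := range g) (by
    rintro _ ⟨t, rfl⟩ y hy e
    obtain ⟨k, -, e'⟩ := (m1 _ (c3 t).1 _ hy).1 ((c3 t).2.trans e.symm)
    rw [e']
    exact (ea k _).trans (mul_eq_zero_of_right _ (h t))) hC
  refine vanish q2 hi G (p₀ := p₀) ((f3 _ f2).mono ?_)
  rintro p ⟨w, a1, a2⟩
  exact ⟨w, a1.2, hN (g3 _ a2) (p, w) a1 rfl⟩

end Pool.Agent.Lib.MP_cd3a7b_ag
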