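import Pool.Agent.Lib.MP_cd3a7b_ag.Laurent

/-! Smoothing a node, in a chart. -/

namespace Pool.Agent.Lib.MP_cd3a7b_ag

open Metric Set Filter Topology

variable {E : Type*} [NormedAddCommGroup E] [NormedSpace ℂ E] [FiniteDimensional ℂ E]

theorem node_chart (G₁ G₂ : ℂ × E → E) {ρ C : ℝ} (hρ : 0 < ρ)
    (h₁ : ∀ x ∈ ball (0 : ℂ × E) ρ, DifferentiableAt ℂ G₁ x ∧ ‖G₁ x‖ ≤ C)
    (h₂ : ∀ x ∈ ball (0 : ℂ × E) ρ, DifferentiableAt ℂ G₂ x ∧ ‖G₂ x‖ ≤ C) (h0 : G₁ 0 = G₂ 0)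
    (N₁ N₂ : E →L[ℂ] E) (hN₁ : ∀ v, fderiv ℂ G₁ 0 (0, N₁ v) = v)
    (hN₂ : ∀ v, fderiv ℂ G₂ 0 (0, N₂ v) = v) :
    ∃ (β : ℂ × E → HS (closedBall (0 : ℂ) 1)ᶜ E) (γ : ℂ × E → HS (ball (0 : ℂ) 2) E),
      (∀ᶠ p in 𝓝 (0 : ℂ × E), DifferentiableAt ℂ β p ∧ DifferentiableAt ℂ γ p ∧
        ∀ t ∈ ball (0 : ℂ) 2 \ closedBall 0 1,
          G₁ (p.1 * t, (β p).1 t) = G₂ (p.1 / t, (γ p).1 t)) ∧ β 0 = 0 ∧ γ 0 = 0 ∧
      ∀ t ∈ (closedBall (0 : ℂ) 1)ᶜ, ∀ v, fderiv ℂ (fun p => (β p).1 t) 0 (0, v) = N₁ v := by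
  have cE : CompleteSpace E := FiniteDimensional.complete ℂ E
  have oA : IsOpen (ball (0 : ℂ) 2 \ closedBall 0 1) := isOpen_ball.sdiff isClosed_closedBall
  have c1 := completeSpace_HS (F := E) oA
  obtain ⟨M1, hM1, dM1⟩ := exists_nem oA (fun y : ℂ × (ℂ × E) => G₁ y.2) (ρ := ρ) (C := C)
    (fun t _ x hx => DifferentiableAt.comp (g := G₁) (t, x) (h₁ x hx).1 differentiableAt_snd)
    fun t _ x hx => (h₁ x hx).2
  obtain ⟨M2, hM2, dM2⟩ := exists_nem oA (fun y : ℂ × (ℂ × E) => G₂ y.2) (ρ := ρ) (C := C)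
    (fun t _ x hx => DifferentiableAt.comp (g := G₂) (t, x) (h₂ x hx).1 differentiableAt_snd)
    fun t _ x hx => (h₂ x hx).2
  obtain ⟨Po, Pi, hP⟩ := exists_split (F := E) (a := 0) one_pos one_lt_two
  obtain ⟨cO, hcO⟩ := exists_cst (F := E) (closedBall (0 : ℂ) 1)ᶜ
  obtain ⟨cD, hcD⟩ := exists_cst (F := E) (ball (0 : ℂ) 2)
  obtain ⟨nO, hnO⟩ := exists_op (U := (closedBall (0 : ℂ) 1)ᶜ) (fun _ => N₁) subset_rfl
    (differentiableOn_const _) fun _ _ => le_rfl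
  obtain ⟨nD, hnD⟩ := exists_op (U := ball (0 : ℂ) 2) (fun _ => N₂) subset_rfl
    (differentiableOn_const _) fun _ _ => le_rfl
  obtain ⟨rO, hrO⟩ := exists_op (U := (closedBall (0 : ℂ) 1)ᶜ)
    (U' := ball (0 : ℂ) 2 \ closedBall 0 1) (fun _ => ContinuousLinearMap.inr ℂ ℂ E)
    (fun t ht => ht.2) (differentiableOn_const _) fun _ _ => le_rfl
  obtain ⟨rD, hrD⟩ := exists_op (U := ball (0 : ℂ) 2)
    (U' := ball (0 : ℂ) 2 \ closedBall 0 1) (fun _ => ContinuousLinearMap.inr ℂ ℂ E)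
    (fun t ht => ht.1) (differentiableOn_const _) fun _ _ => le_rfl
  have ha : ∀ t ∈ ball (0 : ℂ) 2 \ closedBall 0 1, 1 < ‖t‖ ∧ ‖t‖ < 2 := fun t ht =>
    ⟨by simpa using ht.2, by simpa using ht.1⟩
  obtain ⟨a1, ha1⟩ := exists_mk (U := ball (0 : ℂ) 2 \ closedBall 0 1) (fun t => (t, (0 : E)))
    (by fun_prop) (C := 2) fun t ht => by simpa using (ha t ht).2.le
  obtain ⟨a2, ha2⟩ := exists_mk (U := ball (0 : ℂ) 2 \ closedBall 0 1) (fun t => (t⁻¹, (0 : E)))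
    (fun t ht => ((differentiableAt_inv (by
      rintro rfl; exact absurd (ha _ ht).1 (by simp))).prodMk
        (differentiableAt_const _)).differentiableWithinAt) (C := 1) fun t ht => by
      simpa using inv_le_one_of_one_le₀ (ha t ht).1.le
  obtain ⟨D1, dD1, hD1⟩ := dM1 0 (by simpa using hρ)
  obtain ⟨D2, dD2, hD2⟩ := dM2 0 (by simpa using hρ)
  simp only [HS_zero] at hD1 hD2
  let Y := (ℂ × E) × HS (ball (0 : ℂ) 2 \ closedBall 0 1) E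
  let π1 : Y →L[ℂ] ℂ := (ContinuousLinearMap.fst ℂ ℂ E).comp (ContinuousLinearMap.fst ℂ _ _)
  let π2 : Y →L[ℂ] E := (ContinuousLinearMap.snd ℂ ℂ E).comp (ContinuousLinearMap.fst ℂ _ _)
  let π3 : Y →L[ℂ] HS (ball (0 : ℂ) 2 \ closedBall 0 1) E := ContinuousLinearMap.snd ℂ _ _
  let βf : Y →L[ℂ] HS (closedBall (0 : ℂ) 1)ᶜ E := nO.comp (cO.comp π2 + Po.comp π3)
  let γf : Y →L[ℂ] HS (ball (0 : ℂ) 2) E := nD.comp (cD.comp π2 - Pi.comp π3)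
  let L1 : Y →L[ℂ] HS (ball (0 : ℂ) 2 \ closedBall 0 1) (ℂ × E) := π1.smulRight a1 + rO.comp βf
  let L2 : Y →L[ℂ] HS (ball (0 : ℂ) 2 \ closedBall 0 1) (ℂ × E) := π1.smulRight a2 + rD.comp γf
  have e1 : ∀ y, ∀ t ∈ ball (0 : ℂ) 2 \ closedBall 0 1, (L1 y).1 t = (y.1.1 * t, (βf y).1 t) :=
    fun y t ht => by
      change (y.1.1 • a1 + rO (βf y)).1 t = _
      rw [HS_add, HS_smul, ha1 t ht, hrO _ t ht]
      simp
  have e2 : ∀ y, ∀ t ∈ ball (0 : ℂ) 2 \ closedBall 0 1, (L2 y).1 t = (y.1.1 / t, (γf y).1 t) :=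
    fun y t ht => by
      change (y.1.1 • a2 + rD (γf y)).1 t = _
      rw [HS_add, HS_smul, ha2 t ht, hrD _ t ht]
      simp [div_eq_mul_inv]
  let b := D1 a1 - D2 a2
  let Θ : Y → Y := fun y => (y.1, M1 (L1 y) - M2 (L2 y) - π1 y • b)
  have small : ∀ {W : Type _} [NormedAddCommGroup W] [NormedSpace ℂ W] (L : Y →L[ℂ] W),
      ∀ᶠ y in 𝓝 (0 : Y), ‖L y‖ < ρ := fun L =>
    L.continuous.norm.continuousAt.eventually (gt_mem_nhds (by simpa using hρ))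
  have dΘ : ∀ᶠ y in 𝓝 (0 : Y), DifferentiableAt ℂ Θ y := by
    filter_upwards [small L1, small L2] with y k1 k2
    obtain ⟨D, hD, -⟩ := dM1 _ k1
    obtain ⟨D', hD', -⟩ := dM2 _ k2
    exact differentiableAt_fst.prodMk (((hD.differentiableAt.comp y L1.differentiableAt).sub
      (hD'.differentiableAt.comp y L2.differentiableAt)).sub (π1.smulRight b).differentiableAt)
  have hΘ0 : HasFDerivAt Θ ((ContinuousLinearEquiv.refl ℂ Y : Y ≃L[ℂ] Y) : Y →L[ℂ] Y) 0 := by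
    have k1 : HasFDerivAt M1 D1 (L1 0) := by rwa [map_zero]
    have k2 : HasFDerivAt M2 D2 (L2 0) := by rwa [map_zero]
    refine (hasFDerivAt_fst.prodMk (((k1.comp 0 L1.hasFDerivAt).sub
      (k2.comp 0 L2.hasFDerivAt)).sub (π1.smulRight b).hasFDerivAt)).congr_fderiv ?_
    refine ContinuousLinearMap.ext fun y => Prod.ext rfl ?_
    change D1 (y.1.1 • a1 + rO (nO (cO y.1.2 + Po y.2))) -
      D2 (y.1.1 • a2 + rD (nD (cD y.1.2 - Pi y.2))) - y.1.1 • (D1 a1 - D2 a2) = y.2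
    rw [map_add D1, map_add D2, map_smul, map_smul, smul_sub, sub_sub_sub_comm, add_sub_cancel_left,
      add_sub_cancel_left]
    refine HS_ext fun t ht => ?_
    rw [HS_sub, hD1 _ t ht, hD2 _ t ht, hrO _ t ht, hrD _ t ht, hnO _ t ht.2, hnD _ t ht.1]
    change fderiv ℂ G₁ 0 (0, N₁ _) - fderiv ℂ G₂ 0 (0, N₂ _) = _
    rw [hN₁, hN₂, HS_add, HS_sub, hcO _ t ht.2, hcD _ t ht.1, ← hP _ t ht]
    abel
  have hC1 : ContDiffAt ℂ 1 Θ 0 := contDiffAt_one dΘ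
  have hS := hC1.hasStrictFDerivAt' hΘ0 one_ne_zero
  have Θ0 : Θ 0 = 0 := by
    refine Prod.ext rfl (HS_ext fun t ht => ?_)
    change (M1 (L1 0) - M2 (L2 0) - π1 0 • b).1 t = 0
    rw [map_zero, map_zero, map_zero, zero_smul, sub_zero, HS_sub, hM1 0 (by simpa using hρ) t ht,
      hM2 0 (by simpa using hρ) t ht]
    exact sub_eq_zero.2 h0
  let Ψ : Y → Y := hC1.localInverse hΘ0 one_ne_zero
  have Ψ0 : Ψ 0 = 0 := by
    have := hC1.localInverse_apply_image hΘ0 one_ne_zero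
    rwa [Θ0] at this
  have cΨ : ContDiffAt ℂ 1 Ψ 0 := by
    have := hC1.to_localInverse hΘ0 one_ne_zero
    rwa [Θ0] at this
  have rΨ : ∀ᶠ y in 𝓝 (0 : Y), Θ (Ψ y) = y := by
    have := hS.eventually_right_inverse
    rwa [Θ0] at this
  have dΨ0 : HasFDerivAt Ψ (ContinuousLinearMap.id ℂ Y) 0 := by
    have := hS.to_localInverse.hasFDerivAt
    rwa [Θ0] at this
  have dΨ : ∀ᶠ y in 𝓝 (0 : Y), DifferentiableAt ℂ Ψ y :=
    (cΨ.eventually (by simp)).mono fun y hy => hy.differentiableAt one_ne_zero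
  let j : ℂ × E →L[ℂ] Y :=
    (ContinuousLinearMap.id ℂ _).prod ((ContinuousLinearMap.fst ℂ ℂ E).smulRight (-b))
  have tj : Tendsto j (𝓝 0) (𝓝 0) := j.continuous.tendsto' 0 0 (map_zero j)
  have tΨ : Tendsto Ψ (𝓝 0) (𝓝 0) := by
    have := cΨ.continuousAt.tendsto
    rwa [Ψ0] at this
  refine ⟨fun p => βf (Ψ (j p)), fun p => γf (Ψ (j p)), ?_, by simp [Ψ0], by simp [Ψ0],
    fun t ht v => ?_⟩
  · filter_upwards [tj.eventually dΨ, tj.eventually rΨ, (tΨ.comp tj).eventually (small L1),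
      (tΨ.comp tj).eventually (small L2)] with p k1 k2 k3 k4
    simp only [Function.comp_apply] at k3 k4
    have k5 : DifferentiableAt ℂ (fun p => Ψ (j p)) p := k1.comp p j.differentiableAt
    refine ⟨βf.differentiableAt.comp p k5, γf.differentiableAt.comp p k5, fun t ht => ?_⟩
    have k6 : (Ψ (j p)).1 = p := congrArg Prod.fst k2
    have k7 : M1 (L1 (Ψ (j p))) - M2 (L2 (Ψ (j p))) - (Ψ (j p)).1.1 • b = p.1 • -b :=
      congrArg Prod.snd k2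
    rw [k6, smul_neg, sub_eq_iff_eq_add, neg_add_cancel, sub_eq_zero] at k7
    have k8 := congrArg (fun y : HS (ball (0 : ℂ) 2 \ closedBall 0 1) E => y.1 t) k7
    simp only [hM1 _ k3 t ht, hM2 _ k4 t ht, e1 _ t ht, e2 _ t ht, k6] at k8
    exact k8
  · have k2 : HasFDerivAt Ψ (ContinuousLinearMap.id ℂ Y) (j 0) := by rwa [map_zero]
    have k3 := (ev (closedBall (0 : ℂ) 1)ᶜ E t).hasFDerivAt.comp 0
      (βf.hasFDerivAt.comp 0 (k2.comp 0 j.hasFDerivAt))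
    have k4 : fderiv ℂ (fun p => (βf (Ψ (j p))).1 t) 0 = _ := k3.fderiv
    rw [k4]
    change (nO (cO v + Po ((0 : ℂ) • -b))).1 t = _
    rw [hnO _ t ht, zero_smul, map_zero, add_zero, hcO _ t ht]

end Pool.Agent.Lib.MP_cd3a7b_ag
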