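import Pool.Agent.Lib.MP_cd3a7b_ag.H8NodeA
import Pool.Agent.Lib.MP_cd3a7b_ag.Free

/-! Smoothing a node of two free entire curves. -/

namespace Pool.Agent.Lib.MP_cd3a7b_ag

open Metric Set Filter Topology
open scoped Manifold

variable {E : Type*} [NormedAddCommGroup E] [NormedSpace ℂ E] [FiniteDimensional ℂ E]
  {X : Type*} [TopologicalSpace X] [ChartedSpace E X] [IsManifold 𝓘(ℂ, E) 1 X]

theorem ctr_at {f : C(ℂ, X)} (hf : f ∈ Ctr E X) (a : ℂ) :
    ∃ S : ℂ × E → X, Spray E S ∧ (∀ t, S (t, 0) = f t) ∧ Sbm E (fun q => S (a, q)) 0 := by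
  obtain ⟨S, k1, k2, t₀, k3⟩ := hf
  obtain ⟨R, hR, h1⟩ := Metric.nhds_basis_closedBall.mem_iff.1
    (f.continuous.continuousAt (x := a) (chart_source_mem_nhds E (f a)))
  obtain ⟨S', m1, m2, m3⟩ := glue k1 k3 (half_pos hR) (half_lt_self hR)
    (fun t ht => by rw [k2]; exact h1 ht)
  obtain ⟨S'', n1, n2, n3⟩ :=
    (recentre m1 (m3 a (mem_closedBall_self (half_pos hR).le))).self_of_nhds
  exact ⟨S'', n1, fun t => by rw [n2, m2, k2], n3⟩

theorem ctr_comp {f g : C(ℂ, X)} (hf : f ∈ Ctr E X) {u : ℂ → ℂ} (hu : Differentiable ℂ u)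
    (hg : ∀ t, g t = f (u t)) : g ∈ Ctr E X := by
  obtain ⟨S, k1, k2, k3⟩ := ctr_at hf (u 0)
  refine ⟨fun y => S (u y.1, y.2), ?_, fun t => by rw [hg, ← k2], 0, k3⟩
  filter_upwards [k1] with p hp t
  exact Hol.pre (S := S) (L := fun y : ℂ × E => (u y.1, y.2)) (hp _) (by fun_prop)

theorem ctr_of_spray {P : Type*} [NormedAddCommGroup P] [NormedSpace ℂ P] {S : ℂ × P → X}
    (h : Spray E S) {t₀ : ℂ} (h0 : Sbm E (fun q => S (t₀, q)) 0) :
    ∀ᶠ p in 𝓝 (0 : P), ∃ g ∈ Ctr E X, ∀ t, g t = S (t, p) := by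
  filter_upwards [recentre h h0, h] with p ⟨S', k1, k2, k3⟩ k4
  exact ⟨⟨fun t => S (t, p), continuous_iff_continuousAt.2 fun t =>
    (Hol.pre (L := fun t => (t, p)) (k4 t) (by fun_prop)).continuousAt⟩, ⟨S', k1, k2, t₀, k3⟩,
    fun _ => rfl⟩

theorem chart_data {S : ℂ × E → X} (h : Spray E S) (h0 : Sbm E (fun q => S (0, q)) 0) {x : X}
    (hx : S 0 = x) : ∃ N : E →L[ℂ] E, (∀ v, fderiv ℂ (fun y => chartAt E x (S y)) 0 (0, N v) = v) ∧
      ∀ᶠ y in 𝓝 (0 : ℂ × E), S y ∈ (chartAt E x).source ∧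
        DifferentiableAt ℂ (fun y => chartAt E x (S y)) y := by
  have h1 : S (0, 0) ∈ (chartAt E x).source := hx ▸ mem_chart_source E _
  have h2 := h.chart h1
  obtain ⟨l, hl⟩ := (fderiv ℂ (fun q => chartAt E x (S (0, q))) 0).exists_rightInverse_of_surjective
    (LinearMap.range_eq_top.2 ((sbm_iff (h.self_of_nhds 0).slice h1).1 h0))
  refine ⟨l, fun v => ?_, h2⟩
  rw [fderiv_slice (G := fun y => chartAt E x (S y)) h2.self_of_nhds.2] at hl
  exact congrArg (fun A : E →L[ℂ] E => A v) hl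

theorem node_spray {S₁ S₂ : ℂ × E → X} (h₁ : Spray E S₁) (h₂ : Spray E S₂)
    (s₁ : Sbm E (fun q => S₁ (0, q)) 0) (s₂ : Sbm E (fun q => S₂ (0, q)) 0) (h0 : S₁ 0 = S₂ 0) :
    ∃ (S : ℂ × (ℂ × E) → X) (t₀ : ℂ), Spray E S ∧ Sbm E (fun q => S (t₀, q)) 0 ∧
      ∀ r > 0, ∀ᶠ p in 𝓝 (0 : ℂ × E), ∀ t,
        (2 ≤ ‖Complex.exp t‖ → ∃ q ∈ ball (0 : E) r, S (t, p) = S₁ (p.1 * Complex.exp t, q)) ∧
        (‖Complex.exp t‖ < 2 → ∃ q ∈ ball (0 : E) r, S (t, p) = S₂ (p.1 / Complex.exp t, q)) := by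
  classical
  obtain ⟨N₁, a1, a2⟩ := chart_data h₁ s₁ rfl
  obtain ⟨N₂, b1, b2⟩ := chart_data h₂ s₂ h0.symm
  set φ := chartAt E (S₁ 0) with hφ
  obtain ⟨r₁, hr₁, C₁, -, c1⟩ := exists_ball_bound (a2.mono fun y hy => hy.2)
  obtain ⟨r₂, hr₂, C₂, -, c2⟩ := exists_ball_bound (b2.mono fun y hy => hy.2)
  obtain ⟨ρ, hρ, hρ'⟩ := Metric.eventually_nhds_iff_ball.1
    ((a2.and b2).and (Eventually.and (p := fun y => y ∈ ball 0 r₁) (q := fun y => y ∈ ball 0 r₂)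
      (ball_mem_nhds _ hr₁) (ball_mem_nhds _ hr₂)))
  obtain ⟨β, γ, g1, g2, g3, g4⟩ := node_chart (fun y => φ (S₁ y)) (fun y => φ (S₂ y)) hρ
    (C := max C₁ C₂) (fun y hy => ⟨(hρ' y hy).1.1.2, (c1 y (hρ' y hy).2.1).trans (le_max_left _ _)⟩)
    (fun y hy => ⟨(hρ' y hy).1.2.2, (c2 y (hρ' y hy).2.2).trans (le_max_right _ _)⟩)
    (by simp only [h0]) N₁ N₂ a1 b1
  have sm : ∀ r > 0, ∀ᶠ p in 𝓝 (0 : ℂ × E), ‖β p‖ < r ∧ ‖γ p‖ < r := fun r hr =>
    (g1.self_of_nhds.1.continuousAt.norm.eventually (gt_mem_nhds (by simpa [g2] using hr))).and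
      (g1.self_of_nhds.2.1.continuousAt.norm.eventually (gt_mem_nhds (by simpa [g3] using hr)))
  obtain ⟨σ, hσ, hσ'⟩ := Metric.eventually_nhds_iff_ball.1 (Eventually.and h₁ h₂)
  let S : ℂ × (ℂ × E) → X := fun y =>
    if Complex.exp y.1 ∈ ball (0 : ℂ) 2 then
      S₂ (y.2.1 / Complex.exp y.1, (γ y.2).1 (Complex.exp y.1))
    else S₁ (y.2.1 * Complex.exp y.1, (β y.2).1 (Complex.exp y.1))
  have key : ∀ᶠ p in 𝓝 (0 : ℂ × E), ∀ t, Complex.exp t ∈ (closedBall (0 : ℂ) 1)ᶜ →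
      S (t, p) = S₁ (p.1 * Complex.exp t, (β p).1 (Complex.exp t)) := by
    filter_upwards [g1, sm ρ hρ, (continuous_fst.tendsto' (0 : ℂ × E) 0 rfl).eventually
      (ball_mem_nhds (0 : ℂ) (half_pos hρ))] with p k1 k2 k3 t ht
    by_cases h2 : Complex.exp t ∈ ball (0 : ℂ) 2
    · refine (if_pos h2).trans ?_
      have k4 : 1 < ‖Complex.exp t‖ := by simpa using ht
      have k5 : ‖Complex.exp t‖ < 2 := by simpa using h2
      have k6 : ‖p.1‖ < ρ / 2 := by simpa using k3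
      have k7 := norm_nonneg p.1
      refine φ.injOn (hρ' _ ?_).1.2.1 (hρ' _ ?_).1.1.1 (k1.2.2 _ ⟨h2, ht⟩).symm
      · rw [mem_ball_zero_iff, Prod.norm_def, max_lt_iff, norm_div, div_lt_iff₀ (by linarith)]
        exact ⟨by nlinarith, (HS_norm_apply _ _).trans_lt k2.2⟩
      · rw [mem_ball_zero_iff, Prod.norm_def, max_lt_iff, norm_mul]
        exact ⟨by nlinarith, (HS_norm_apply _ _).trans_lt k2.1⟩
    · exact if_neg h2
  have he : ∀ y : ℂ × (ℂ × E), DifferentiableAt ℂ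
      (fun y : ℂ × (ℂ × E) => (Complex.exp y.1, y.2)) y := fun y => by fun_prop
  have hS : Spray E S := by
    filter_upwards [g1, sm σ hσ, key.eventually_nhds] with p k1 k2 k3 t
    have ce : Tendsto (fun y : ℂ × (ℂ × E) => Complex.exp y.1) (𝓝 (t, p)) (𝓝 (Complex.exp t)) :=
      (by fun_prop : Continuous fun y : ℂ × (ℂ × E) => Complex.exp y.1).tendsto _
    by_cases ht : Complex.exp t ∈ ball (0 : ℂ) 2
    · have k5 := (differentiableAt_eval isOpen_ball ht k1.2.1).comp (t, p) (he _)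
      refine (Hol.pre (S := S₂) (y := (t, p)) (L := fun y : ℂ × (ℂ × E) =>
        (y.2.1 / Complex.exp y.1, (γ y.2).1 (Complex.exp y.1))) ((hσ' _ (mem_ball_zero_iff.2
          ((HS_norm_apply _ _).trans_lt k2.2))).2 _) (DifferentiableAt.prodMk
            (by fun_prop (disch := exact Complex.exp_ne_zero _)) k5)).congr_of_eventuallyEq ?_
      filter_upwards [ce.eventually (isOpen_ball.mem_nhds ht)] with y hy
      exact if_pos hy
    · have ht' : Complex.exp t ∈ (closedBall (0 : ℂ) 1)ᶜ := fun h5 =>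
        ht (closedBall_subset_ball one_lt_two h5)
      have k5 := (differentiableAt_eval isClosed_closedBall.isOpen_compl ht' k1.1).comp (t, p) (he _)
      refine (Hol.pre (S := S₁) (y := (t, p)) (L := fun y : ℂ × (ℂ × E) =>
        (y.2.1 * Complex.exp y.1, (β y.2).1 (Complex.exp y.1))) ((hσ' _ (mem_ball_zero_iff.2
          ((HS_norm_apply _ _).trans_lt k2.1))).1 _) (DifferentiableAt.prodMk
            (by fun_prop) k5)).congr_of_eventuallyEq ?_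
      filter_upwards [ce.eventually (isClosed_closedBall.isOpen_compl.mem_nhds ht'),
        (continuous_snd.tendsto (t, p)).eventually k3] with y hy hy'
      exact hy' _ hy
  have h1 : Complex.exp 1 ∈ (closedBall (0 : ℂ) 1)ᶜ := by
    simp [Complex.norm_exp]
  refine ⟨S, 1, hS, ?_, fun r hr => ?_⟩
  · have e0 : S (1, 0) = S₁ 0 := by
      rw [key.self_of_nhds 1 h1, g2]
      simp
      rfl
    refine (sbm_iff (hS.self_of_nhds 1).slice (x := S₁ 0)
      (by rw [e0]; exact mem_chart_source E _)).2 fun v => ⟨(0, v), ?_⟩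
    have e : (fun q => φ (S (1, q))) =ᶠ[𝓝 0] (fun y => φ (S₁ y)) ∘ fun q : ℂ × E =>
        (q.1 * Complex.exp 1, (β q).1 (Complex.exp 1)) := key.mono fun q hq => congrArg φ (hq 1 h1)
    have d1 : DifferentiableAt ℂ (fun q => (β q).1 (Complex.exp 1)) 0 :=
      (ev _ E (Complex.exp 1)).differentiableAt.comp 0 g1.self_of_nhds.1
    have d2 : HasFDerivAt (fun y => φ (S₁ y)) (fderiv ℂ (fun y => φ (S₁ y)) 0)
        ((0 : ℂ × E).1 * Complex.exp 1, (β 0).1 (Complex.exp 1)) := by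
      rw [g2, Prod.fst_zero, zero_mul]
      exact a2.self_of_nhds.2.hasFDerivAt
    rw [e.fderiv_eq, (d2.comp 0 ((hasFDerivAt_fst.mul_const _).prodMk d1.hasFDerivAt)).fderiv]
    simpa [g4 _ h1] using a1 v
  · filter_upwards [sm r hr] with p hp t
    exact ⟨fun ht => ⟨_, mem_ball_zero_iff.2 ((HS_norm_apply _ _).trans_lt hp.1),
      if_neg (by simpa using ht)⟩, fun ht => ⟨_, mem_ball_zero_iff.2
        ((HS_norm_apply _ _).trans_lt hp.2), if_pos (by simpa using ht)⟩⟩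

/-- The maps that meet a given set. -/
def Meets (O : Set X) : Set C(ℂ, X) := {g | ∃ t, g t ∈ O}

theorem isOpen_meets {O : Set X} (hO : IsOpen O) : IsOpen (Meets O) := by
  rw [Meets, ofPred_exists]
  exact isOpen_iUnion fun t => hO.preimage (continuous_eval_const t)

theorem node {f₁ f₂ g : C(ℂ, X)} (h₁ : f₁ ∈ Ctr E X) (h₂ : f₂ ∈ Ctr E X) (h0 : f₁ 0 = f₂ 0) {a s : ℂ}
    (ha : a ≠ 0) (hs : s ≠ 0) {O : Set X} (hO : IsOpen O) (h : f₂ s ∈ O)
    (hg : ∀ t, g t = f₁ (Complex.exp (a * t))) : g ∈ closure (Ctr E X ∩ Meets O) := by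
  obtain ⟨S₁, a1, a2, a3⟩ := ctr_at h₁ 0
  obtain ⟨S₂, b1, b2, b3⟩ := ctr_at h₂ 0
  obtain ⟨S, t₀, c1, c2, c3⟩ := node_spray a1 b1 a3 b3 ((a2 0).trans (h0.trans (b2 0).symm))
  have tj : Tendsto (fun δ : ℂ => (δ, (0 : E))) (𝓝[≠] 0) (𝓝 0) :=
    ((by fun_prop : Continuous fun δ : ℂ => (δ, (0 : E))).tendsto' 0 0 rfl).mono_left
      nhdsWithin_le_nhds
  have hex : ∀ δ : ℂ, ∃ G : C(ℂ, X), (∃ g ∈ Ctr E X, ∀ t, g t = S (t, (δ, 0))) →
      G ∈ Ctr E X ∧ ∀ t, G t = S (a * t - Complex.log δ, (δ, 0)) := fun δ => by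
    by_cases hδ : ∃ g ∈ Ctr E X, ∀ t, g t = S (t, (δ, 0))
    · obtain ⟨g', k1, k2⟩ := hδ
      exact ⟨g'.comp ⟨fun t => a * t - Complex.log δ, by fun_prop⟩, fun _ =>
        ⟨ctr_comp k1 (u := fun t => a * t - Complex.log δ) (by fun_prop) fun _ => rfl,
          fun t => k2 _⟩⟩
    · exact ⟨g, fun h => absurd h hδ⟩
  choose G hG using hex
  have hG' := (tj.eventually (ctr_of_spray c1 c2)).mono fun δ hδ => hG δ hδ
  have ee : ∀ δ : ℂ, δ ≠ 0 → ∀ t, Complex.exp (a * t - Complex.log δ) = Complex.exp (a * t) / δ :=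
    fun δ hδ t => by rw [Complex.exp_sub, Complex.exp_log hδ]
  refine mem_closure_of_tendsto (f := G) (b := 𝓝[≠] (0 : ℂ)) ?_ ?_
  · refine ContinuousMap.tendsto_nhds_compactOpen.2 fun K hK U hU hKU => ?_
    have hc : Continuous fun t => Complex.exp (a * t) := by fun_prop
    obtain ⟨r, hr, hr'⟩ := Metric.eventually_nhds_iff_ball.1 (tube (S := S₁) (hK.image hc) hU
      (fun t _ => (a1.self_of_nhds t).continuousAt) (by
        rintro _ ⟨t, ht, rfl⟩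
        rw [a2, ← hg]
        exact hKU ht))
    have hm : ∀ᶠ δ in 𝓝 (0 : ℂ), ∀ t ∈ K, 2 * ‖δ‖ < ‖Complex.exp (a * t)‖ := by
      refine hK.eventually_forall_of_forall_eventually fun t _ => ?_
      exact ContinuousAt.eventually_lt (by fun_prop) (by fun_prop)
        (by simp)
    filter_upwards [hG', tj.eventually (c3 r hr), mem_nhdsWithin_of_mem_nhds hm,
      self_mem_nhdsWithin] with δ k1 k2 k3 k4 t ht
    obtain ⟨q, hq, e⟩ := (k2 (a * t - Complex.log δ)).1 (by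
      rw [ee δ k4, norm_div, le_div_iff₀ (norm_pos_iff.2 k4)]; exact (k3 t ht).le)
    rw [k1.2, e, ee δ k4, mul_div_cancel₀ _ k4]
    exact hr' q hq _ ⟨t, ht, rfl⟩
  · obtain ⟨r, hr, hr'⟩ := Metric.eventually_nhds_iff_ball.1 (tube (S := S₂) isCompact_singleton hO
      (fun t _ => (b1.self_of_nhds t).continuousAt) (fun t ht => by rw [b2, ht]; exact h))
    have hm : ∀ᶠ δ in 𝓝 (0 : ℂ), ‖δ / s‖ < 2 :=
      ContinuousAt.eventually_lt (by fun_prop (disch := exact hs)) continuousAt_const (by simp)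
    filter_upwards [hG', tj.eventually (c3 r hr), mem_nhdsWithin_of_mem_nhds hm,
      self_mem_nhdsWithin] with δ k1 k2 k3 k4
    have k5 : δ ≠ 0 := k4
    refine ⟨k1.1, (Complex.log (δ / s) + Complex.log δ) / a, ?_⟩
    obtain ⟨q, hq, e⟩ := (k2 (Complex.log (δ / s))).2 (by rwa [Complex.exp_log (div_ne_zero k5 hs)])
    rw [k1.2, mul_div_cancel₀ _ ha, add_sub_cancel_right, e, Complex.exp_log (div_ne_zero k5 hs),
      div_div_cancel₀ k5]
    exact hr' q hq s rfl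

end Pool.Agent.Lib.MP_cd3a7b_ag
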