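import Pool.Agent.Lib.MP_cd3a7b_ag.Cauchy

/-!
Banach spaces of bounded holomorphic maps on open subsets of the plane.
-/

namespace Pool.Agent.Lib.MP_cd3a7b_ag

open Metric Set Filter Topology
open scoped ENNReal

/-- Bounded holomorphic maps on `U`, extended by zero. -/
def HS (U : Set ℂ) (F : Type*) [NormedAddCommGroup F] [NormedSpace ℂ F] :
    Submodule ℂ (lp (fun _ : ℂ => F) ∞) where
  carrier := {f | DifferentiableOn ℂ (fun t => f t) U ∧ ∀ t, t ∉ U → f t = 0}
  add_mem' := by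
    rintro f g ⟨h1, h2⟩ ⟨h3, h4⟩
    refine ⟨h1.add h3, fun t ht => ?_⟩
    simp [h2 t ht, h4 t ht]
  zero_mem' := ⟨differentiableOn_const (0 : F), fun _ _ => rfl⟩
  smul_mem' := by
    rintro c f ⟨h1, h2⟩
    refine ⟨h1.const_smul c, fun t ht => ?_⟩
    simp [h2 t ht]

variable {V F : Type*} [NormedAddCommGroup V] [NormedSpace ℂ V]
  [NormedAddCommGroup F] [NormedSpace ℂ F] {U U' : Set ℂ}

theorem HS_diff (f : HS U F) : DifferentiableOn ℂ (fun t => f.1 t) U := f.2.1

theorem HS_norm_apply (f : HS U F) (t : ℂ) : ‖f.1 t‖ ≤ ‖f‖ :=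
  lp.norm_apply_le_norm ENNReal.top_ne_zero f.1 t

theorem HS_norm_le (f : HS U F) {C : ℝ} (hC : 0 ≤ C) (h : ∀ t ∈ U, ‖f.1 t‖ ≤ C) : ‖f‖ ≤ C := by
  refine lp.norm_le_of_forall_le (f := f.1) hC fun t => ?_
  by_cases ht : t ∈ U
  · exact h t ht
  · rw [f.2.2 t ht, norm_zero]; exact hC

theorem HS_ext {f g : HS U F} (h : ∀ t ∈ U, f.1 t = g.1 t) : f = g := by
  apply Subtype.ext
  apply lp.ext
  funext t
  by_cases ht : t ∈ U
  · exact h t ht
  · rw [f.2.2 t ht, g.2.2 t ht]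

@[simp] theorem HS_add (f g : HS U F) (t : ℂ) : (f + g).1 t = f.1 t + g.1 t := rfl
@[simp] theorem HS_sub (f g : HS U F) (t : ℂ) : (f - g).1 t = f.1 t - g.1 t := rfl
@[simp] theorem HS_smul (c : ℂ) (f : HS U F) (t : ℂ) : (c • f).1 t = c • f.1 t := rfl
@[simp] theorem HS_zero (t : ℂ) : (0 : HS U F).1 t = 0 := rfl

theorem exists_mk (f : ℂ → F) (hd : DifferentiableOn ℂ f U) {C : ℝ} (hb : ∀ t ∈ U, ‖f t‖ ≤ C) :
    ∃ g : HS U F, ∀ t ∈ U, g.1 t = f t := by
  classical
  have h1 : Memℓp (U.indicator f : ℂ → F) ∞ := by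
    apply memℓp_infty
    refine ⟨max C 0, ?_⟩
    rintro _ ⟨t, rfl⟩
    by_cases ht : t ∈ U
    · simp only [indicator_of_mem ht]; exact (hb t ht).trans (le_max_left _ _)
    · simp only [indicator_of_notMem ht, norm_zero]; exact le_max_right _ _
  refine ⟨⟨⟨U.indicator f, h1⟩, hd.congr fun t ht => indicator_of_mem ht f,
    fun t ht => indicator_of_notMem ht f⟩, fun t ht => indicator_of_mem ht f⟩

theorem completeSpace_HS [CompleteSpace F] (hU : IsOpen U) : CompleteSpace (HS U F) := by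
  suffices h : IsClosed (HS U F : Set (lp (fun _ : ℂ => F) ∞)) from h.completeSpace_coe
  apply IsSeqClosed.isClosed
  intro f g hf hfg
  have hu : TendstoUniformly (fun n t => f n t) (fun t => g t) atTop := by
    rw [Metric.tendstoUniformly_iff]
    intro ε hε
    filter_upwards [Metric.tendsto_nhds.1 hfg ε hε] with n hn t
    rw [dist_comm, dist_eq_norm] at hn
    rw [dist_eq_norm]
    exact (lp.norm_apply_le_norm ENNReal.top_ne_zero (g - f n) t).trans_lt hn
  refine ⟨hu.tendstoUniformlyOn.tendstoLocallyUniformlyOn.differentiableOn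
    (Eventually.of_forall fun n => (hf n).1) hU, fun t ht => ?_⟩
  have h1 := hu.tendsto_at t
  have h2 : (fun n => f n t) = fun _ => 0 := funext fun n => (hf n).2 t ht
  rw [h2] at h1
  exact tendsto_nhds_unique h1 tendsto_const_nhds

/-- A linear map into `HS U F` given pointwise by a bounded family. -/
theorem exists_clm {P : Type*} [NormedAddCommGroup P] [NormedSpace ℂ P] (A : ℂ → P →L[ℂ] F)
    (hd : ∀ p, DifferentiableOn ℂ (fun t => A t p) U) {C : ℝ} (hb : ∀ t ∈ U, ‖A t‖ ≤ C) :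
    ∃ L : P →L[ℂ] HS U F, ∀ p, ∀ t ∈ U, (L p).1 t = A t p := by
  have hb' : ∀ p, ∀ t ∈ U, ‖A t p‖ ≤ max C 0 * ‖p‖ := fun p t ht =>
    ((A t).le_opNorm p).trans (by gcongr; exact (hb t ht).trans (le_max_left _ _))
  choose g hg using fun p => exists_mk (fun t => A t p) (hd p) (hb' p)
  let L : P →ₗ[ℂ] HS U F :=
    { toFun := g
      map_add' := fun p q => HS_ext fun t ht => by simp [hg _ t ht]
      map_smul' := fun c p => HS_ext fun t ht => by simp [hg _ t ht] }
  refine ⟨L.mkContinuous (max C 0) fun p => ?_, hg⟩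
  refine HS_norm_le _ (by positivity) fun t ht => ?_
  change ‖(g p).1 t‖ ≤ _
  rw [hg p t ht]
  exact hb' p t ht

/-- Evaluation at a point. -/
noncomputable def ev (U : Set ℂ) (F : Type*) [NormedAddCommGroup F] [NormedSpace ℂ F] (t : ℂ) :
    HS U F →L[ℂ] F :=
  LinearMap.mkContinuous
    { toFun := fun f => f.1 t
      map_add' := fun _ _ => rfl
      map_smul' := fun _ _ => rfl } 1 fun f => by simpa using HS_norm_apply f t

@[simp] theorem ev_apply (t : ℂ) (f : HS U F) : ev U F t f = f.1 t := rfl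

theorem norm_ev_le (t : ℂ) : ‖ev U F t‖ ≤ 1 :=
  ContinuousLinearMap.opNorm_le_bound _ zero_le_one fun f => by simpa using HS_norm_apply f t

theorem exists_op (A : ℂ → V →L[ℂ] F) (hsub : U' ⊆ U) (hd : DifferentiableOn ℂ A U') {C : ℝ}
    (hb : ∀ t ∈ U', ‖A t‖ ≤ C) :
    ∃ L : HS U V →L[ℂ] HS U' F, ∀ h, ∀ t ∈ U', (L h).1 t = A t (h.1 t) := by
  refine exists_clm (fun t => (A t).comp (ev U V t)) (fun h => ?_) (C := C) fun t ht => ?_
  · exact hd.clm_apply ((HS_diff h).mono hsub)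
  · refine (ContinuousLinearMap.opNorm_comp_le _ _).trans ?_
    exact (mul_le_of_le_one_right (norm_nonneg _) (norm_ev_le t)).trans (hb t ht)

theorem exists_res (hsub : U' ⊆ U) :
    ∃ L : HS U F →L[ℂ] HS U' F, ∀ h, ∀ t ∈ U', (L h).1 t = h.1 t :=
  exists_op (fun _ => ContinuousLinearMap.id ℂ F) hsub (differentiableOn_const _) (C := 1)
    fun _ _ => ContinuousLinearMap.norm_id_le

theorem exists_cst (U : Set ℂ) : ∃ L : F →L[ℂ] HS U F, ∀ p, ∀ t ∈ U, (L p).1 t = p :=
  exists_clm (fun _ => ContinuousLinearMap.id ℂ F) (fun p => differentiableOn_const p) (C := 1)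
    fun _ _ => ContinuousLinearMap.norm_id_le

theorem differentiableAt_ev (hU : IsOpen U) {t : ℂ} (ht : t ∈ U) :
    DifferentiableAt ℂ (ev U F) t := by
  obtain ⟨r, hr, hsub⟩ := Metric.isOpen_iff.1 hU t ht
  have hda : ∀ f : HS U F, DifferentiableAt ℂ (fun t => f.1 t) t := fun f =>
    (HS_diff f).differentiableAt (hU.mem_nhds ht)
  let L : HS U F →ₗ[ℂ] F :=
    { toFun := fun f => deriv (fun t => f.1 t) t
      map_add' := fun f g => deriv_fun_add (hda f) (hda g)
      map_smul' := fun c f => deriv_fun_const_smul c (hda f) }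
  have hL : ∀ f, ‖L f‖ ≤ 2 / r * ‖f‖ := by
    intro f
    change ‖deriv (fun t => f.1 t) t‖ ≤ _
    rw [norm_deriv_eq_norm_fderiv]
    refine (norm_fderiv_le hr ((HS_diff f).mono hsub) fun z _ => HS_norm_apply f z).trans_eq ?_
    ring
  refine HasDerivAt.differentiableAt (𝕜 := ℂ) (f' := L.mkContinuous _ hL) ?_
  rw [hasDerivAt_iff_isLittleO]
  have h2 : (fun z => ev U F z - ev U F t - (z - t) • L.mkContinuous _ hL) =O[𝓝 t]
      fun z => ‖z - t‖ ^ 2 := by
    refine Asymptotics.IsBigO.of_bound (4 / r ^ 2) ?_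
    filter_upwards [ball_mem_nhds t hr] with z hz
    refine ContinuousLinearMap.opNorm_le_bound _ (by positivity) fun f => ?_
    have := taylor2 ((HS_diff f).mono hsub) (fun z _ => HS_norm_apply f z) hz
    rw [fderiv_eq_smul_deriv] at this
    refine this.trans_eq ?_
    rw [norm_pow, norm_norm]
    field_simp
  exact h2.trans_isLittleO (Asymptotics.isLittleO_pow_sub_sub t one_lt_two)

theorem differentiableAt_eval {P : Type*} [NormedAddCommGroup P] [NormedSpace ℂ P]
    (hU : IsOpen U) {t : ℂ} (ht : t ∈ U) {η : P → HS U F} {p : P}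
    (hη : DifferentiableAt ℂ η p) :
    DifferentiableAt ℂ (fun x : ℂ × P => (η x.2).1 x.1) (t, p) := by
  have h1 : DifferentiableAt ℂ (fun x : ℂ × P => ev U F x.1) (t, p) := by
    have := DifferentiableAt.comp (𝕜 := ℂ) (g := ev U F) (f := (Prod.fst : ℂ × P → ℂ)) (t, p)
      (differentiableAt_ev hU ht) differentiableAt_fst
    exact this
  exact h1.clm_apply (hη.comp (t, p) differentiableAt_snd)

/-- The superposition operator of a bounded holomorphic map is differentiable. -/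
theorem exists_nem [FiniteDimensional ℂ V] [CompleteSpace F] (hU : IsOpen U) (G : ℂ × V → F)
    {ρ C : ℝ} (hG : ∀ t ∈ U, ∀ x ∈ ball (0 : V) ρ, DifferentiableAt ℂ G (t, x))
    (hb : ∀ t ∈ U, ∀ x ∈ ball (0 : V) ρ, ‖G (t, x)‖ ≤ C) :
    ∃ N : HS U V → HS U F, (∀ η, ‖η‖ < ρ → ∀ t ∈ U, (N η).1 t = G (t, η.1 t)) ∧
      ∀ η, ‖η‖ < ρ → ∃ D : HS U V →L[ℂ] HS U F, HasFDerivAt N D η ∧
        ∀ h, ∀ t ∈ U, (D h).1 t = fderiv ℂ (fun x => G (t, x)) (η.1 t) (h.1 t) := by
  classical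
  have hmem : ∀ η : HS U V, ‖η‖ < ρ → ∀ t, η.1 t ∈ ball (0 : V) ρ := fun η h t =>
    mem_ball_zero_iff.2 ((HS_norm_apply η t).trans_lt h)
  have hpair : ∀ η : HS U V, ∀ t ∈ U, DifferentiableAt ℂ (fun t => (t, η.1 t)) t := fun η t ht =>
    differentiableAt_id.prodMk ((HS_diff η).differentiableAt (hU.mem_nhds ht))
  have h0 : ∀ η : HS U V, ∃ g : HS U F, ‖η‖ < ρ → ∀ t ∈ U, g.1 t = G (t, η.1 t) := by
    intro η
    by_cases h : ‖η‖ < ρ
    · obtain ⟨g, hg⟩ := exists_mk (U := U) (fun t => G (t, η.1 t))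
        (fun t ht => ((hG t ht _ (hmem η h t)).comp t (hpair η t ht)).differentiableWithinAt)
        (fun t ht => hb t ht _ (hmem η h t))
      exact ⟨g, fun _ => hg⟩
    · exact ⟨0, fun h' => absurd h' h⟩
  choose N hN using h0
  refine ⟨N, hN, fun η hη => ?_⟩
  set s := ρ - ‖η‖ with hs
  have hs0 : 0 < s := by linarith
  have hsub : ∀ t, ball (η.1 t) s ⊆ ball (0 : V) ρ := fun t =>
    ball_subset_ball' (by rw [dist_zero_right]; linarith [HS_norm_apply η t])
  have hd2 : ∀ t ∈ U, DifferentiableOn ℂ (fun x => G (t, x)) (ball (η.1 t) s) := fun t ht x hx =>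
    ((hG t ht x (hsub t hx)).comp x (by fun_prop)).differentiableWithinAt
  have hopen : IsOpen (U ×ˢ ball (0 : V) ρ) := hU.prod isOpen_ball
  have hA : DifferentiableOn ℂ (fun t => fderiv ℂ (fun x => G (t, x)) (η.1 t)) U := by
    have e : ∀ t ∈ U, fderiv ℂ (fun x => G (t, x)) (η.1 t)
        = (fderiv ℂ G (t, η.1 t)).comp (ContinuousLinearMap.inr ℂ ℂ V) := fun t ht =>
      ((hG t ht _ (hmem η hη t)).hasFDerivAt.comp _ (hasFDerivAt_prodMk_right t (η.1 t))).fderiv
    refine DifferentiableOn.congr (fun t ht => ?_) e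
    apply DifferentiableAt.differentiableWithinAt
    refine DifferentiableAt.clm_comp ?_ (differentiableAt_const _)
    refine (differentiableAt_fderiv ?_).comp t (hpair η t ht)
    exact eventually_of_mem (hopen.mem_nhds ⟨ht, hmem η hη t⟩) fun y hy => hG y.1 hy.1 y.2 hy.2
  obtain ⟨D, hD⟩ := exists_op (U := U) _ subset_rfl hA (C := 2 * C / s) fun t ht =>
    norm_fderiv_le hs0 (hd2 t ht) fun x hx => hb t ht x (hsub t hx)
  refine ⟨D, ?_, hD⟩
  rw [hasFDerivAt_iff_isLittleO]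
  have h2 : (fun z => N z - N η - D (z - η)) =O[𝓝 η] fun z => ‖z - η‖ ^ 2 := by
    refine Asymptotics.IsBigO.of_bound (4 * max C 0 / s ^ 2) ?_
    filter_upwards [ball_mem_nhds η hs0] with z hz
    rw [mem_ball, dist_eq_norm] at hz
    have hz' : ‖z‖ < ρ := by
      have : z = η + (z - η) := by abel
      have h3 := norm_add_le η (z - η)
      rw [← this] at h3
      linarith
    refine HS_norm_le _ (by positivity) fun t ht => ?_
    have h4 : ‖z.1 t - η.1 t‖ ≤ ‖z - η‖ := HS_norm_apply (z - η) t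
    have := taylor2 (z := z.1 t) (hd2 t ht)
      (fun x hx => (hb t ht x (hsub t hx)).trans (le_max_left C 0))
      (by rw [mem_ball, dist_eq_norm]; exact h4.trans_lt hz)
    rw [HS_sub, HS_sub, hN z hz' t ht, hN η hη t ht, hD _ t ht, HS_sub]
    refine this.trans ?_
    rw [norm_pow, norm_norm]
    calc 4 * max C 0 * (‖z.1 t - η.1 t‖ / s) ^ 2 ≤ 4 * max C 0 * (‖z - η‖ / s) ^ 2 := by gcongr
      _ = _ := by field_simp
  exact h2.trans_isLittleO (Asymptotics.isLittleO_pow_sub_sub η one_lt_two)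

end Pool.Agent.Lib.MP_cd3a7b_ag
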