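import Pool.Agent.Lib.MP_cd3a7b_ag.HSpace

/-!
Laurent splitting of bounded holomorphic maps on an annulus, by bounded linear operators.
-/

namespace Pool.Agent.Lib.MP_cd3a7b_ag

open Metric Set Filter Topology Complex
open scoped Real

variable {F : Type*} [NormedAddCommGroup F] [NormedSpace ℂ F] [CompleteSpace F]

omit [CompleteSpace F] in
theorem cont_kernel {h : ℂ → F} {a t : ℂ} {s : ℝ} (hc : ContinuousOn h (sphere a s))
    (ht : t ∉ sphere a s) : ContinuousOn (fun w => (w - t)⁻¹ • h w) (sphere a s) := by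
  refine ContinuousOn.smul (ContinuousOn.inv₀ (by fun_prop) fun w hw => ?_) hc
  exact sub_ne_zero.2 fun e => ht (e ▸ hw)

omit [CompleteSpace F] in
theorem differentiableAt_cauchy {h : ℂ → F} {a t : ℂ} {s : ℝ} (hs : 0 ≤ s)
    (hc : ContinuousOn h (sphere a s)) (ht : t ∉ sphere a s) :
    DifferentiableAt ℂ (fun z => ∮ w in C(a, s), (w - z)⁻¹ • h w) t := by
  obtain ⟨C, hC⟩ := (isCompact_sphere a s).exists_bound_of_continuousOn hc
  obtain ⟨δ2, hδ2, hsub⟩ := Metric.isOpen_iff.1 (isClosed_sphere (x := a) (ε := s)).isOpen_compl t ht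
  set δ := δ2 / 2 with hδ
  have hδ0 : 0 < δ := by positivity
  have h1 : ∀ w ∈ sphere a s, δ2 ≤ ‖w - t‖ := fun w hw => by
    by_contra hlt
    exact hsub (by rw [mem_ball, dist_eq_norm]; exact not_le.1 hlt) hw
  have h2 : ∀ z ∈ ball t δ, ∀ w ∈ sphere a s, δ ≤ ‖w - z‖ := fun z hz w hw => by
    rw [mem_ball, dist_eq_norm] at hz
    have e : w - t = (w - z) + (z - t) := by ring
    have := norm_add_le (w - z) (z - t)
    rw [← e] at this
    linarith [h1 w hw]
  have hc2 : ContinuousOn (fun w => (w - t)⁻¹ • (w - t)⁻¹ • h w) (sphere a s) :=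
    cont_kernel (cont_kernel hc ht) ht
  refine HasDerivAt.differentiableAt (f' := ∮ w in C(a, s), (w - t)⁻¹ • (w - t)⁻¹ • h w) ?_
  rw [hasDerivAt_iff_isLittleO]
  refine Asymptotics.IsBigO.trans_isLittleO (g := fun z => ‖z - t‖ ^ 2) ?_
    (Asymptotics.isLittleO_pow_sub_sub t one_lt_two)
  refine Asymptotics.IsBigO.of_bound (2 * π * s * (δ⁻¹ * δ⁻¹ * δ⁻¹ * C)) ?_
  filter_upwards [ball_mem_nhds t hδ0] with z hz
  have hz' : z ∉ sphere a s := hsub (ball_subset_ball (by linarith) hz)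
  have i1 := (cont_kernel hc hz').circleIntegrable hs
  have i2 := (cont_kernel hc ht).circleIntegrable hs
  have i3 : CircleIntegrable (fun w => (z - t) • (w - t)⁻¹ • (w - t)⁻¹ • h w) a s :=
    (hc2.const_smul (z - t)).circleIntegrable hs
  have i4 : CircleIntegrable (fun w => (w - z)⁻¹ • h w - (w - t)⁻¹ • h w) a s := i1.sub i2
  rw [← circleIntegral.integral_sub i1 i2, ← circleIntegral.integral_smul,
    ← circleIntegral.integral_sub i4 i3]
  refine (circleIntegral.norm_integral_le_of_norm_le_const hs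
    (C := δ⁻¹ * δ⁻¹ * δ⁻¹ * C * ‖z - t‖ ^ 2) fun w hw => ?_).trans_eq (by rw [norm_pow, norm_norm]; ring)
  have n1 : w - z ≠ 0 := sub_ne_zero.2 fun e => hz' (e ▸ hw)
  have n2 : w - t ≠ 0 := sub_ne_zero.2 fun e => ht (e ▸ hw)
  have e : (w - z)⁻¹ • h w - (w - t)⁻¹ • h w - (z - t) • (w - t)⁻¹ • (w - t)⁻¹ • h w
      = ((w - z)⁻¹ * (w - t)⁻¹ * (w - t)⁻¹ * (z - t) ^ 2) • h w := by
    rw [smul_smul, smul_smul, ← sub_smul, ← sub_smul]
    congr 1
    field_simp
    ring
  rw [e, norm_smul, norm_mul, norm_mul, norm_mul, norm_inv, norm_inv, norm_pow]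
  have b1 : ‖w - z‖⁻¹ ≤ δ⁻¹ := inv_anti₀ hδ0 (h2 z hz w hw)
  have b2 : ‖w - t‖⁻¹ ≤ δ⁻¹ := inv_anti₀ hδ0 (h2 t (mem_ball_self hδ0) w hw)
  calc _ ≤ δ⁻¹ * δ⁻¹ * δ⁻¹ * ‖z - t‖ ^ 2 * C := by gcongr; exact hC w hw
    _ = _ := by ring

omit [CompleteSpace F] in
theorem norm_cauchy_le {h : ℂ → F} {a t : ℂ} {s δ C : ℝ} (hs : 0 ≤ s) (hδ : 0 < δ)
    (hC : ∀ w ∈ sphere a s, ‖h w‖ ≤ C) (ht : δ ≤ |‖t - a‖ - s|) :
    ‖(2 * π * I : ℂ)⁻¹ • ∮ w in C(a, s), (w - t)⁻¹ • h w‖ ≤ s * (δ⁻¹ * C) := by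
  refine circleIntegral.norm_two_pi_i_inv_smul_integral_le_of_norm_le_const hs fun w hw => ?_
  rw [norm_smul, norm_inv]
  have h1 : δ ≤ ‖w - t‖ := by
    rw [mem_sphere_iff_norm] at hw
    have := abs_norm_sub_norm_le (t - a) (w - a)
    rw [hw, show t - a - (w - a) = -(w - t) by ring, norm_neg] at this
    exact ht.trans this
  have b1 : ‖w - t‖⁻¹ ≤ δ⁻¹ := inv_anti₀ hδ h1
  gcongr
  exact hC w hw

/-- Cauchy formula on an annulus. -/
theorem cauchy_annulus {h : ℂ → F} {a t : ℂ} {s₁ s₂ : ℝ} (hs : 0 < s₁)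
    (hd : ∀ w, s₁ ≤ ‖w - a‖ → ‖w - a‖ ≤ s₂ → DifferentiableAt ℂ h w)
    (h1 : s₁ < ‖t - a‖) (h2 : ‖t - a‖ < s₂) :
    ((2 * π * I : ℂ)⁻¹ • ∮ w in C(a, s₂), (w - t)⁻¹ • h w)
      - ((2 * π * I : ℂ)⁻¹ • ∮ w in C(a, s₁), (w - t)⁻¹ • h w) = h t := by
  have h12 : s₁ ≤ s₂ := (h1.trans h2).le
  have hnh : closedBall a s₂ \ ball a s₁ ∈ 𝓝 t := by
    refine mem_of_superset ((isOpen_ball.sdiff isClosed_closedBall).mem_nhds
      (show t ∈ ball a s₂ \ closedBall a s₁ from ?_)) (sdiff_subset_sdiff ball_subset_closedBall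
        ball_subset_closedBall)
    simp [dist_eq_norm, h1, h2]
  have hd' : ∀ w ∈ closedBall a s₂ \ ball a s₁, DifferentiableAt ℂ h w := fun w hw => by
    simp only [Set.mem_sdiff, mem_closedBall, mem_ball, dist_eq_norm, not_lt] at hw
    exact hd w hw.2 hw.1
  have key := circleIntegral_eq_of_differentiable_on_annulus_off_countable (c := a) hs h12
    (f := dslope h t) (countable_singleton t) ?_ ?_
  rotate_left
  · exact (continuousOn_dslope hnh).2 ⟨fun w hw => (hd' w hw).continuousAt.continuousWithinAt,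
      hd t h1.le h2.le⟩
  · intro w hw
    exact (differentiableAt_dslope_of_ne hw.2).2
      (hd' w (sdiff_subset_sdiff ball_subset_closedBall ball_subset_closedBall hw.1))
  have hsplit : ∀ s, 0 < s → s₁ ≤ s → s ≤ s₂ → s ≠ ‖t - a‖ → (∮ w in C(a, s), dslope h t w)
      = (∮ w in C(a, s), (w - t)⁻¹ • h w) - (∮ w in C(a, s), (w - t)⁻¹) • h t := by
    intro s hs0 hs1 hs2 hne
    have ht : t ∉ sphere a s := by rw [mem_sphere_iff_norm]; exact hne.symm
    have hc : ContinuousOn h (sphere a s) := fun w hw => by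
      rw [mem_sphere_iff_norm] at hw
      exact (hd w (hw ▸ hs1) (hw ▸ hs2)).continuousAt.continuousWithinAt
    rw [← circleIntegral.integral_smul_const, ← circleIntegral.integral_sub
      ((cont_kernel hc ht).circleIntegrable hs0.le)
      ((cont_kernel continuousOn_const ht).circleIntegrable hs0.le)]
    refine circleIntegral.integral_congr hs0.le fun w hw => ?_
    have : w ≠ t := fun e => ht (e ▸ hw)
    simp only [dslope_of_ne _ this, slope_def_module, smul_sub]
  rw [hsplit s₂ (hs.trans_le h12) h12 le_rfl h2.ne', hsplit s₁ hs le_rfl h12 h1.ne,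
    circleIntegral.integral_sub_inv_of_mem_ball (by rwa [mem_ball, dist_eq_norm])] at key
  have z0 : (∮ w in C(a, s₁), (w - t)⁻¹) = 0 := by
    have hne : ∀ w ∈ closedBall a s₁, w - t ≠ 0 := fun w hw => sub_ne_zero.2 fun e => by
      rw [e, mem_closedBall, dist_eq_norm] at hw
      exact absurd h1 (not_lt.2 hw)
    refine circleIntegral_eq_zero_of_differentiable_on_off_countable hs.le countable_empty
      (ContinuousOn.inv₀ (by fun_prop) hne) fun w hw => ?_
    exact DifferentiableAt.inv (by fun_prop) (hne w (ball_subset_closedBall hw.1))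
  rw [z0, zero_smul, sub_zero] at key
  rw [← smul_sub, ← key, sub_sub_cancel, smul_smul, inv_mul_cancel₀ two_pi_I_ne_zero, one_smul]

theorem laurent {h : ℂ → F} {a : ℂ} {r R C : ℝ} (hr : 0 < r) (hrR : r < R)
    (hd : DifferentiableOn ℂ h (ball a R \ closedBall a r))
    (hb : ∀ t ∈ ball a R \ closedBall a r, ‖h t‖ ≤ C) :
    ∃ (η ζ : ℂ → F) (C' : ℝ), DifferentiableOn ℂ η (closedBall a r)ᶜ ∧
      DifferentiableOn ℂ ζ (ball a R) ∧ (∀ t ∈ (closedBall a r)ᶜ, ‖η t‖ ≤ C') ∧
      (∀ t ∈ ball a R, ‖ζ t‖ ≤ C') ∧ ∀ t ∈ ball a R \ closedBall a r, η t + ζ t = h t := by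
  classical
  set d := (R - r) / 4 with hdd
  have hd0 : 0 < d := by rw [hdd]; linarith
  have hR : R = r + 4 * d := by rw [hdd]; ring
  have hmem : ∀ w, r < ‖w - a‖ → ‖w - a‖ < R → w ∈ ball a R \ closedBall a r := fun w h1 h2 => by
    simp [dist_eq_norm, h1, h2]
  have hda : ∀ w, r < ‖w - a‖ → ‖w - a‖ < R → DifferentiableAt ℂ h w := fun w h1 h2 =>
    hd.differentiableAt ((isOpen_ball.sdiff isClosed_closedBall).mem_nhds (hmem w h1 h2))
  let c : ℝ → ℂ → F := fun s t => (2 * π * I : ℂ)⁻¹ • ∮ w in C(a, s), (w - t)⁻¹ • h w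
  have hc : ∀ s, r < s → s < R → ∀ t, ‖t - a‖ ≠ s → DifferentiableAt ℂ (c s) t := by
    intro s h1 h2 t ht
    refine (differentiableAt_cauchy (by linarith) (fun w hw => ?_) ?_).const_smul _
    · rw [mem_sphere_iff_norm] at hw
      exact (hda w (hw ▸ h1) (hw ▸ h2)).continuousAt.continuousWithinAt
    · rwa [mem_sphere_iff_norm]
  have hcb : ∀ s, r < s → s < R → ∀ t, d ≤ |‖t - a‖ - s| → ‖c s t‖ ≤ R * (d⁻¹ * C) := by
    intro s h1 h2 t ht
    have hC : ∀ w ∈ sphere a s, ‖h w‖ ≤ C := fun w hw => by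
      rw [mem_sphere_iff_norm] at hw
      exact hb w (hmem w (hw ▸ h1) (hw ▸ h2))
    have hC0 : 0 ≤ C := by
      obtain ⟨w, hw⟩ := (NormedSpace.sphere_nonempty (x := a) (r := s)).2 (by linarith)
      exact (norm_nonneg _).trans (hC w hw)
    refine (norm_cauchy_le (by linarith) hd0 hC ht).trans ?_
    gcongr
  have hf : ∀ t, r + d < ‖t - a‖ → ‖t - a‖ < r + 3 * d → c (r + 3 * d) t - c (r + d) t = h t :=
    fun t h1 h2 => cauchy_annulus (by linarith)
      (fun w h3 h4 => hda w (by linarith) (by linarith)) h1 h2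
  have hC0 : 0 ≤ C := by
    obtain ⟨w, hw⟩ := (NormedSpace.sphere_nonempty (x := a) (r := r + d)).2 (by linarith)
    rw [mem_sphere_iff_norm] at hw
    exact (norm_nonneg _).trans (hb w (hmem w (by linarith) (by linarith)))
  have o1 : ∀ (t : ℂ) (s : ℝ), s < ‖t - a‖ → ∀ᶠ z in 𝓝 t, s < ‖z - a‖ := fun t s h =>
    (by fun_prop : ContinuousAt (fun z : ℂ => ‖z - a‖) t).eventually (lt_mem_nhds h)
  have o2 : ∀ (t : ℂ) (s : ℝ), ‖t - a‖ < s → ∀ᶠ z in 𝓝 t, ‖z - a‖ < s := fun t s h =>
    (by fun_prop : ContinuousAt (fun z : ℂ => ‖z - a‖) t).eventually (gt_mem_nhds h)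
  refine ⟨fun t => if r + 2 * d ≤ ‖t - a‖ then - c (r + d) t else h t - c (r + 3 * d) t,
    fun t => if r + 2 * d ≤ ‖t - a‖ then h t + c (r + d) t else c (r + 3 * d) t,
    C + R * (d⁻¹ * C), fun t ht => ?_, fun t ht => ?_, fun t ht => ?_, fun t ht => ?_,
    fun t _ => ?_⟩
  · simp only [mem_compl_iff, mem_closedBall, dist_eq_norm, not_le] at ht
    apply DifferentiableAt.differentiableWithinAt
    by_cases h1 : r + d < ‖t - a‖
    · refine (hc (r + d) (by linarith) (by linarith) t h1.ne').neg.congr_of_eventuallyEq ?_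
      filter_upwards [o1 t _ h1] with z hz
      split_ifs with h2
      · rfl
      · rw [← hf z hz (by linarith)]; simp
    · have h2 : ‖t - a‖ < r + 2 * d := by linarith
      refine ((hda t ht (by linarith)).sub (hc (r + 3 * d) (by linarith) (by linarith) t
        (by linarith))).congr_of_eventuallyEq ?_
      filter_upwards [o2 t _ h2] with z hz
      rw [if_neg (not_le.2 hz)]; rfl
  · rw [mem_ball, dist_eq_norm] at ht
    apply DifferentiableAt.differentiableWithinAt
    by_cases h1 : ‖t - a‖ < r + 3 * d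
    · refine (hc (r + 3 * d) (by linarith) (by linarith) t h1.ne).congr_of_eventuallyEq ?_
      filter_upwards [o2 t _ h1] with z hz
      split_ifs with h2
      · rw [← hf z (by linarith) hz]; simp
      · rfl
    · have h2 : r + 2 * d < ‖t - a‖ := by linarith
      refine ((hda t (by linarith) ht).add (hc (r + d) (by linarith) (by linarith) t
        (by linarith))).congr_of_eventuallyEq ?_
      filter_upwards [o1 t _ h2] with z hz
      rw [if_pos hz.le]; rfl
  · simp only [mem_compl_iff, mem_closedBall, dist_eq_norm, not_le] at ht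
    simp only
    split_ifs with h1
    · rw [norm_neg]
      have := hcb (r + d) (by linarith) (by linarith) t (le_abs.2 (Or.inl (by linarith)))
      linarith
    · have := hcb (r + 3 * d) (by linarith) (by linarith) t (le_abs.2 (Or.inr (by linarith)))
      linarith [norm_sub_le (h t) (c (r + 3 * d) t), hb t (hmem t ht (by linarith))]
  · rw [mem_ball, dist_eq_norm] at ht
    simp only
    split_ifs with h1
    · have := hcb (r + d) (by linarith) (by linarith) t (le_abs.2 (Or.inl (by linarith)))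
      linarith [norm_add_le (h t) (c (r + d) t), hb t (hmem t (by linarith) ht)]
    · have := hcb (r + 3 * d) (by linarith) (by linarith) t (le_abs.2 (Or.inr (by linarith)))
      linarith
  · simp only
    split_ifs <;> simp

/-- Bounded linear splitting operators. -/
theorem exists_split {a : ℂ} {r R : ℝ} (hr : 0 < r) (hrR : r < R) :
    ∃ (Po : HS (ball a R \ closedBall a r) F →L[ℂ] HS (closedBall a r)ᶜ F)
      (Pi : HS (ball a R \ closedBall a r) F →L[ℂ] HS (ball a R) F),
      ∀ h, ∀ t ∈ ball a R \ closedBall a r, (Po h).1 t + (Pi h).1 t = h.1 t := by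
  classical
  have hR : 0 < R := hr.trans hrR
  have c1 := completeSpace_HS (F := F) (isOpen_ball.sdiff isClosed_closedBall :
    IsOpen (ball a R \ closedBall a r))
  have c2 := completeSpace_HS (F := F) (isClosed_closedBall.isOpen_compl :
    IsOpen (closedBall a r)ᶜ)
  have c3 := completeSpace_HS (F := F) (isOpen_ball : IsOpen (ball a R))
  obtain ⟨r1, hr1⟩ := exists_res (F := F) (U := (closedBall a r)ᶜ)
    (U' := ball a R \ closedBall a r) fun t ht => ht.2
  obtain ⟨r2, hr2⟩ := exists_res (F := F) (U := ball a R)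
    (U' := ball a R \ closedBall a r) fun t ht => ht.1
  let T : (HS (closedBall a r)ᶜ F × HS (ball a R) F) →L[ℂ] HS (ball a R \ closedBall a r) F × F :=
    (r1.coprod r2).prod ((ev (ball a R) F a).comp (ContinuousLinearMap.snd ℂ _ _))
  have hT : ∀ x, T x = (r1 x.1 + r2 x.2, x.2.1 a) := fun x => rfl
  have hker : T.ker = ⊥ := by
    rw [LinearMap.ker_eq_bot']
    rintro ⟨η, ζ⟩ hx
    change T (η, ζ) = 0 at hx
    rw [hT, Prod.mk_eq_zero] at hx
    have h1 : ∀ t ∈ ball a R \ closedBall a r, η.1 t + ζ.1 t = 0 := fun t ht => by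
      have := congrArg (fun f : HS (ball a R \ closedBall a r) F => f.1 t) hx.1
      simpa [hr1 _ t ht, hr2 _ t ht] using this
    let g : ℂ → F := fun t => if t ∈ ball a R then ζ.1 t else - η.1 t
    have hg1 : ∀ t ∈ ball a R, g t = ζ.1 t := fun t ht => if_pos ht
    have hg2 : ∀ t ∈ (closedBall a r)ᶜ, g t = - η.1 t := fun t ht => by
      by_cases h : t ∈ ball a R
      · rw [hg1 t h]; exact eq_neg_of_add_eq_zero_right (h1 t ⟨h, ht⟩)
      · exact if_neg h
    have hgd : Differentiable ℂ g := by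
      intro t
      by_cases h : t ∈ ball a R
      · exact ((HS_diff ζ).congr hg1).differentiableAt (isOpen_ball.mem_nhds h)
      · refine ((HS_diff η).neg.congr hg2).differentiableAt
          (isClosed_closedBall.isOpen_compl.mem_nhds fun h' => h ?_)
        exact closedBall_subset_ball hrR h'
    have hgb : Bornology.IsBounded (range g) := by
      rw [isBounded_iff_forall_norm_le]
      refine ⟨‖η‖ + ‖ζ‖, ?_⟩
      rintro _ ⟨t, rfl⟩
      simp only [g]
      split_ifs
      · linarith [HS_norm_apply ζ t, norm_nonneg η]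
      · rw [norm_neg]; linarith [HS_norm_apply η t, norm_nonneg ζ]
    have h0 : ∀ t, g t = 0 := fun t => by
      rw [hgd.apply_eq_apply_of_bounded hgb t a, hg1 a (mem_ball_self hR)]
      exact hx.2
    refine Prod.ext (HS_ext fun t ht => ?_) (HS_ext fun t ht => ?_)
    · exact neg_eq_zero.1 ((hg2 t ht).symm.trans (h0 t))
    · exact (hg1 t ht).symm.trans (h0 t)
  have hsurj : T.range = ⊤ := by
    rw [LinearMap.range_eq_top]
    rintro ⟨h, v⟩
    obtain ⟨η, ζ, C', h1, h2, h3, h4, h5⟩ := laurent hr hrR (HS_diff h) fun t _ => HS_norm_apply h t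
    obtain ⟨η', hη⟩ := exists_mk (fun t => η t - (v - ζ a)) (h1.sub_const _)
      (C := C' + ‖v - ζ a‖) fun t ht => (norm_sub_le _ _).trans (by linarith [h3 t ht])
    obtain ⟨ζ', hζ⟩ := exists_mk (fun t => ζ t + (v - ζ a)) (h2.add_const _)
      (C := C' + ‖v - ζ a‖) fun t ht => (norm_add_le _ _).trans (by linarith [h4 t ht])
    refine ⟨(η', ζ'), ?_⟩
    change T (η', ζ') = _
    rw [hT]
    refine Prod.ext (HS_ext fun t ht => ?_) ?_
    · simp only [HS_add, hr1 _ t ht, hr2 _ t ht, hη t ht.2, hζ t ht.1, ← h5 t ht]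
      abel
    · simp only [hζ a (mem_ball_self hR)]
      abel
  let e := ContinuousLinearEquiv.ofBijective T hker hsurj
  let J : HS (ball a R \ closedBall a r) F →L[ℂ] (HS (closedBall a r)ᶜ F × HS (ball a R) F) :=
    e.symm.toContinuousLinearMap.comp (ContinuousLinearMap.inl ℂ _ _)
  refine ⟨(ContinuousLinearMap.fst ℂ _ _).comp J, (ContinuousLinearMap.snd ℂ _ _).comp J,
    fun h t ht => ?_⟩
  have h1 : T (J h) = (h, 0) := e.apply_symm_apply (h, 0)
  rw [hT] at h1
  have := congrArg (fun f : HS (ball a R \ closedBall a r) F × F => f.1.1 t) h1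
  simpa [hr1 _ t ht, hr2 _ t ht] using this

end Pool.Agent.Lib.MP_cd3a7b_ag
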