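import Pool.Agent.Lib.MP_cd3a7b_ag.H8K3

/-!
Puncturing for K3 surfaces of degree two.
-/

open MvPolynomial

/-- Let `F` be a smooth plane sextic, `X` the K3 surface `w ^ 2 = F v` in weighted projective space
`P(1, 1, 1, 3)` and `Z` a finite set of points. There is an entire curve `t ↦ [v t : w t]` in `X`
that avoids `Z` and is Zariski dense in `X`. -/
theorem Pool.Agent.Lib.MP_cd3a7b_ag.degreeTwoK3
    (F : MvPolynomial (Fin 3) ℂ) (hF : F.IsHomogeneous 6)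
    (hs : ∀ p : Fin 3 → ℂ, p ≠ 0 → eval p F = 0 → ∃ i, eval p (pderiv i F) ≠ 0)
    (Z : Set ((Fin 3 → ℂ) × ℂ)) (hZ : Z.Finite) :
    ∃ (v : ℂ → Fin 3 → ℂ) (w : ℂ → ℂ), Differentiable ℂ v ∧ Differentiable ℂ w ∧
      (∀ t, v t ≠ 0 ∧ w t ^ 2 = eval (v t) F) ∧
      (∀ t, ∀ c : ℂ, c ≠ 0 → (c • v t, c ^ 3 * w t) ∉ Z) ∧
      ∀ (G : MvPolynomial (Option (Fin 3)) ℂ) (n : ℕ),
        G.IsWeightedHomogeneous (fun o => o.elim 3 fun _ => 1) n →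
        (∀ t, eval (fun o => o.elim (w t) (v t)) G = 0) →
          ∀ (p : Fin 3 → ℂ) (u : ℂ), u ^ 2 = eval p F → eval (fun o => o.elim u p) G = 0 := by
  obtain ⟨g, h1, h2, h3, h4⟩ := Pool.Agent.Lib.MP_cd3a7b_ag.k3_curve hF hs hZ
  exact ⟨fun t => (g t).1, fun t => (g t).2, h1.fst, h1.snd, h2, h3, h4⟩
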