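import Pool.Agent.Lib.MP_cd3a7b_ag.Free

/-!
Puncturing for entire curves that move in a dominating family.
-/

open Metric Set Filter Topology
open scoped Manifold

/-- Let `X` be a complex manifold of dimension `n` and `Z` a closed subset of Hausdorff dimension
less than `2n - 2`. A non-constant entire curve `f` that is the centre of a holomorphic family of
entire curves `S`, submersive at one point, is a locally uniform limit of non-constant entire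
curves that avoid `Z`; if the germ of `f` at `t₁` is dense for the span of countably many
holomorphic functions on an open set `U`, the same holds for the approximating curves. -/
theorem Pool.Agent.Lib.MP_cd3a7b_ag.freeCurve
    {E : Type} [NormedAddCommGroup E] [NormedSpace ℂ E] [FiniteDimensional ℂ E]
    {X : Type} [TopologicalSpace X] [ChartedSpace E X] [IsManifold 𝓘(ℂ, E) 1 X] [T2Space X]
    [SecondCountableTopology X] {Z : Set X} (hZ : IsClosed Z)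
    (hd : ∀ x : X, dimH (chartAt E x '' (Z ∩ (chartAt E x).source)) + 2 < 2 * Module.finrank ℂ E)
    {U : Set X} (hU : IsOpen U) {h : ℕ → X → ℂ}
    (hh : ∀ i, MDifferentiableOn 𝓘(ℂ, E) 𝓘(ℂ, ℂ) (h i) U)
    {P : Type} [NormedAddCommGroup P] [NormedSpace ℂ P] {S : ℂ × P → X} {ρ : ℝ} (hρ : 0 < ρ)
    (hS : MDifferentiableOn 𝓘(ℂ, ℂ × P) 𝓘(ℂ, E) S (univ ×ˢ ball 0 ρ)) {t₀ : ℂ}
    (h0 : Function.Surjective (mfderiv 𝓘(ℂ, ℂ × P) 𝓘(ℂ, E) S (t₀, 0)))
    {f : C(ℂ, X)} (hf : ∀ t, f t = S (t, 0)) (hn : ∃ a b, f a ≠ f b) {t₁ : ℂ} (h1 : f t₁ ∈ U)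
    (h2 : ∀ q ∈ Submodule.span ℂ (range h), (∀ᶠ t in 𝓝 t₁, q (f t) = 0) → ∀ x ∈ U, q x = 0) :
    f ∈ closure {g : C(ℂ, X) | MDifferentiable 𝓘(ℂ, ℂ) 𝓘(ℂ, E) g ∧ (∃ a b, g a ≠ g b) ∧
      (∀ t, g t ∉ Z) ∧ g t₁ ∈ U ∧
      ∀ q ∈ Submodule.span ℂ (range h), (∀ᶠ t in 𝓝 t₁, q (g t) = 0) → ∀ x ∈ U, q x = 0} := by
  have h3 : Pool.Agent.Lib.MP_cd3a7b_ag.Spray E S := by
    filter_upwards [ball_mem_nhds (0 : P) hρ] with p hp t
    exact hS.mdifferentiableAt ((isOpen_univ.prod isOpen_ball).mem_nhds ⟨trivial, hp⟩)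
  obtain ⟨a, b, hab⟩ := hn
  have h4 : IsOpen {g : C(ℂ, X) | g a ≠ g b} :=
    isOpen_ne_fun (continuous_eval_const a) (continuous_eval_const b)
  refine closure_mono ?_ (h4.inter_closure ⟨hab, Pool.Agent.Lib.MP_cd3a7b_ag.free_curve hZ hd hU hh
    (Pool.Agent.Lib.MP_cd3a7b_ag.mem_ctr h3 h0 hf) h1 h2⟩)
  rintro g ⟨g1, g2, g3⟩
  exact ⟨g2, ⟨a, b, g1⟩, g3⟩
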