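import Pool.Agent.Lib.MP_cd3a7b_ag.H36Main
import Pool.Agent.Lib.MP_cd3a7b_ag.H36Smooth

/-!
Puncturing for general Calabi-Yau double covers of projective space.
-/

open MvPolynomial

/-- Let `n ≥ 2`, `F` a general smooth form of degree `2 n + 2` in `n + 1` variables, `X` the
Calabi-Yau `n`-fold `w ^ 2 = F v` in weighted projective space `P(1, ..., 1, n + 1)` and `Z` the
zero set of a family `S` of weighted homogeneous polynomials that generates an ideal of height at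
least three. There is an entire curve `t ↦ [v t : w t]` in `X` that avoids `Z` and is Zariski dense
in `X`. -/
theorem Pool.Agent.Lib.MP_cd3a7b_ag.generalDoubleCovers (n : ℕ) (hn : 2 ≤ n) :
    ∃ Φ : MvPolynomial (Fin (n + 1) →₀ ℕ) ℂ,
      (∃ F : MvPolynomial (Fin (n + 1)) ℂ, F.IsHomogeneous (2 * n + 2) ∧
        (∀ p : Fin (n + 1) → ℂ, p ≠ 0 → eval p F = 0 → ∃ i, eval p (pderiv i F) ≠ 0) ∧
        eval (fun s => coeff s F) Φ ≠ 0) ∧
      ∀ F : MvPolynomial (Fin (n + 1)) ℂ, F.IsHomogeneous (2 * n + 2) →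
        (∀ p : Fin (n + 1) → ℂ, p ≠ 0 → eval p F = 0 → ∃ i, eval p (pderiv i F) ≠ 0) →
        eval (fun s => coeff s F) Φ ≠ 0 →
        ∀ S : Set (MvPolynomial (Option (Fin (n + 1))) ℂ),
          (∀ G ∈ S, ∃ k, G.IsWeightedHomogeneous (fun o => o.elim (n + 1) fun _ => 1) k) →
          3 ≤ (Ideal.span S).height →
          ∃ (v : ℂ → Fin (n + 1) → ℂ) (w : ℂ → ℂ), Differentiable ℂ v ∧ Differentiable ℂ w ∧
            (∀ t, v t ≠ 0 ∧ w t ^ 2 = eval (v t) F) ∧
            (∀ t, ∃ G ∈ S, eval (fun o => o.elim (w t) (v t)) G ≠ 0) ∧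
            ∀ (G : MvPolynomial (Option (Fin (n + 1))) ℂ) (k : ℕ),
              G.IsWeightedHomogeneous (fun o => o.elim (n + 1) fun _ => 1) k →
              (∀ t, eval (fun o => o.elim (w t) (v t)) G = 0) →
                ∀ (p : Fin (n + 1) → ℂ) (u : ℂ), u ^ 2 = eval p F →
                  eval (fun o => o.elim u p) G = 0 := by
  obtain ⟨m, rfl⟩ := Nat.exists_eq_add_of_le' hn
  obtain ⟨Φ, h1, h2⟩ := Pool.Agent.Lib.MP_cd3a7b_ag.H36.cy_curve m
  refine ⟨rename Subtype.val Φ, ?_, fun F hF hs h3 S hS h4 => ?_⟩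
  · obtain ⟨F, f1, f2, f3⟩ := Pool.Agent.Lib.MP_cd3a7b_ag.H36.exists_smooth h1
    exact ⟨F, f1, fun p hp _ => f2 p hp, by rwa [eval_rename]⟩
  · rw [eval_rename] at h3
    obtain ⟨g, g1, g2, g3, g4⟩ := h2 F hF hs h3 S hS h4
    exact ⟨fun t => (g t).1, fun t => (g t).2, g1.fst, g1.snd, g2, g3, g4⟩
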